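import Mathlib
import Pool.Agent.Helper29.BernMain

/-!
Definitions for the project BDN: for almost all even `n` the Bernoulli polynomial `B_n` is irreducible.
-/

namespace Pool.Agent.BDN

open Polynomial Finset Pool.Agent.Helper29

/-- `B_n` has a monic divisor of degree `D` over `ℚ`. -/
def Fac (n D : ℕ) : Prop :=
  ∃ H : ℚ[X], H.Monic ∧ H ∣ Polynomial.bernoulli n ∧ H.natDegree = D

open Classical in
/-- the primes `p` with `N^a < p ≤ N^b` -/
noncomputable def Rg (N : ℕ) (a b : ℝ) : Finset ℕ :=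
  (Icc 1 N).filter (fun p => p.Prime ∧ (N : ℝ) ^ a < p ∧ (p : ℝ) ≤ (N : ℝ) ^ b)

open Classical in
/-- the number of `p` in the wide range with `p - 1 ∣ m` -/
noncomputable def XX (N m : ℕ) : ℕ :=
  ((Rg N (1 / 100) (495 / 1000)).filter (fun p => p - 1 ∣ m)).card

open Classical in
/-- the number of zeros of `B_e` modulo `p` -/
noncomputable def rp (p e : ℕ) : ℕ :=
  ((range p).filter (fun a => PI p ((Polynomial.bernoulli e).eval (a : ℚ) / p))).card

/-- the zeros of `B_e` modulo `p` are simple -/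
def Sim (p e : ℕ) : Prop :=
  ∀ a : ℕ, a < p → PI p ((Polynomial.bernoulli e).eval (a : ℚ) / p) →
    ¬ PI p ((Polynomial.bernoulli (e - 1)).eval (a : ℚ) / p)

/-- `∑_{a mod p} (X + a)^n` modulo `p` -/
noncomputable def SS (p : ℕ) [Fact p.Prime] (n : ℕ) : (ZMod p)[X] := ∑ a : ZMod p, (X + C a) ^ n

/-- no irreducible factor of `SS p n` has degree in `[2, F]` -/
def Out (p n F : ℕ) : Prop :=
  ∀ _ : Fact p.Prime, ∀ h : (ZMod p)[X], Irreducible h → h ∣ SS p n → h.natDegree ≤ 1 ∨ F < h.natDegree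

/-- the modulus -/
def Ww (w : ℕ) : ℕ := (w.factorial) ^ w

/-- `p` is allowed for the classes `c`, `e0` modulo `W`: the part of `p - 1` composed of the primes dividing `W`
divides `W` and `c - e0`. -/
def Alw (W c e0 p : ℕ) : Prop :=
  ((Nat.gcd (p - 1) W : ℕ) : ℤ) ∣ (c : ℤ) - e0 ∧ Nat.Coprime ((p - 1) / Nat.gcd (p - 1) W) W

end Pool.Agent.BDN
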