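import Mathlib
import Pool.Agent.BDN.Defs

/-!
Definitions for the project BDN, second part: classes, masses, families of weights.
-/

namespace Pool.Agent.BDN

open Polynomial Finset Pool.Agent.Helper29

/-- the integers of `(N/2, N]` in the class `c` modulo `W` -/
def NN (N W c : ℕ) : Finset ℕ := (Ioc (N / 2) N).filter (fun n => n % W = c)

/-- the mass of a set `G` of pairs `(p, e)` at the scale `N` -/
noncomputable def mass (N : ℕ) (u : ℕ → ℝ) (G : Finset (ℕ × ℕ)) : ℝ :=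
  ∑ x ∈ G, u x.2 * (Real.log x.1 / ((x.1 : ℝ) - 1)) / Real.log N

/-- the weight of the pair `(p, e)` -/
noncomputable def om (W N : ℕ) (u : ℕ → ℝ) (x : ℕ × ℕ) : ℝ :=
  u x.2 * (Real.log x.1 / Real.log N) / (Nat.gcd (x.1 - 1) W : ℝ)

/-- Families of weights `u` on a finite set `I` of integers `e = e0` modulo `W`, at the scale `X`
(`X` is about `log N`). -/
structure Fam (W e0 : ℕ) (C0 X : ℝ) (I : Finset ℕ) (u : ℕ → ℝ) : Prop where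
  cls : ∀ e ∈ I, e % W = e0
  lo : ∀ e ∈ I, X ^ (44 / 100 : ℝ) ≤ (e : ℝ)
  hi : ∀ e ∈ I, (e : ℝ) ≤ X ^ (49 / 100 : ℝ)
  nonneg : ∀ e ∈ I, 0 ≤ u e
  le : ∀ e ∈ I, u e ≤ X ^ (-(44 / 100) : ℝ)
  sum : ∑ e ∈ I, u e = 1
  eq : ∀ g r : ℕ, 1 < g → Nat.Coprime g W → (g : ℝ) ≤ 2 * X ^ (1 / 2 : ℝ) →
    ∑ e ∈ I.filter (fun e => e % g = r), u e ≤ C0 / (Nat.totient g : ℝ) + X ^ (-(6 / 100) : ℝ)

/-- the hypotheses on the weights used in the second moment argument at the scale `N` -/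
structure Wts (W e0 N : ℕ) (C0 : ℝ) (I : Finset ℕ) (u : ℕ → ℝ) : Prop where
  cls : ∀ e ∈ I, e % W = e0
  hi : ∀ e ∈ I, (e : ℝ) ≤ Real.log N ^ (1 / 2 : ℝ)
  nonneg : ∀ e ∈ I, 0 ≤ u e
  le : ∀ e ∈ I, u e ≤ Real.log N ^ (-(43 / 100) : ℝ)
  sum : ∑ e ∈ I, u e ≤ 1
  eq : ∀ g r : ℕ, 1 < g → Nat.Coprime g W → (g : ℝ) ≤ 2 * Real.log N ^ (1 / 2 : ℝ) →
    ∑ e ∈ I.filter (fun e => e % g = r), u e ≤
      C0 / (Nat.totient g : ℝ) + Real.log N ^ (-(5 / 100) : ℝ)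

/-- the pairs `(p, e)` used at the scale `N` -/
def Prs (N W c e0 : ℕ) (I : Finset ℕ) (G : Finset (ℕ × ℕ)) : Prop :=
  ∀ x ∈ G, x.1 ∈ Rg N (1 / 100) (495 / 1000) ∧ x.2 ∈ I ∧ Alw W c e0 x.1

open Classical in
/-- the pairs of the direct argument: at most `t - 1` zeros of `B_e` modulo `p`, all simple -/
noncomputable def GG (N : ℕ) (a b : ℝ) (W c e0 : ℕ) (I : Finset ℕ) (t : ℕ) : Finset (ℕ × ℕ) :=
  ((Rg N a b) ×ˢ I).filter (fun x => Alw W c e0 x.1 ∧ Sim x.1 x.2 ∧ rp x.1 x.2 < t)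

/-- in the class `e0` modulo `Ww w` there are families of `e` with `B_e` irreducible -/
def Rich (w e0 : ℕ) (C0 : ℝ) : Prop :=
  ∃ X0 : ℝ, ∀ X : ℝ, X0 ≤ X → ∃ (I : Finset ℕ) (u : ℕ → ℝ), Fam (Ww w) e0 C0 X I u ∧
    ∀ e ∈ I, Irreducible (Polynomial.bernoulli e)

open Classical in
/-- lower bound for the allowed primes -/
def AM (W c e0 : ℕ) (μ : ℝ) : Prop :=
  ∀ ε : ℝ, 0 < ε → ∃ y0 : ℝ, ∀ x y : ℝ, 1 ≤ x → x ≤ y → y0 ≤ y →
    μ * (Real.log y - Real.log x) - ε * Real.log y ≤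
      ∑ p ∈ (Icc 1 ⌊y⌋₊).filter (fun p : ℕ => p.Prime ∧ x < (p : ℝ) ∧ Alw W c e0 p),
        Real.log p / ((p : ℝ) - 1)

open Classical in
/-- in the class `c` modulo `Ww w` at most the proportion `κ` of the `B_n` has a divisor whose degree
satisfies `P` -/
def NoF (w c : ℕ) (κ : ℝ) (P : ℕ → Prop) : Prop :=
  ∃ N0 : ℕ, ∀ N : ℕ, N0 ≤ N →
    (((NN N (Ww w) c).filter (fun n => ∃ D : ℕ, 1 ≤ D ∧ D ≤ n / 2 ∧ P D ∧ Fac n D)).card : ℝ) ≤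
      κ * ((N : ℝ) / (Ww w : ℝ))

open Classical in
/-- Theorem A: large degrees -/
def ThmA (A : ℝ) : Prop :=
  0 < A ∧ ∀ ε : ℝ, 0 < ε → ∃ N0 : ℕ, ∀ N : ℕ, N0 ≤ N →
    (((Ioc (N / 2) N).filter (fun n => Even n ∧ ∃ H : ℚ[X], H.Monic ∧ H ∣ Polynomial.bernoulli n ∧
      Real.log N ^ A ≤ (H.natDegree : ℝ) ∧ H.natDegree ≤ n / 2)).card : ℝ) ≤ ε * N

open Classical in
/-- the number of zeros modulo `p` of an integral polynomial -/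
noncomputable def nzf (f : ℤ[X]) (p : ℕ) : ℕ := ((range p).filter (fun a => (p : ℤ) ∣ f.eval (a : ℤ))).card

end Pool.Agent.BDN
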