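import Pool.Agent.BDT.CLam
import Pool.Agent.Helper24.Mertens
import Pool.Agent.ALT.EL1

/-!
# BDL-MAP (1.3h): Mertens in arithmetic progressions (file Pool/Agent/BDN/MAP.lean)

(1) `∑_{n ≤ x} Λ(n)/n = log x + O(1)`: `∑_{d ≤ x} Λ(d) ⌊x/d⌋ = log x!`, Stirling (`Stirling.le_log_factorial_stirling`, upper bound `log n! ≤ n log n`), Chebyshev; or from the two bounds for `∑_{p ≤ x} log p/p` in Pool/Agent/ALT/EL1.lean (`mertens_lower`) and Pool/Agent/Helper24/Mertens.lean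
(`sum_log_div_le`). (2) Orthogonality: `∑_{n ≤ x, n = a (q)} Λ(n)/n = (1/φ(q)) ∑_χ χ(a)^{-1} ∑_{n ≤ x} χ(n) Λ(n)/n` (`DirichletCharacter.sum_char_inv_mul_char_eq`); the characters `χ ≠ 1` contribute `O(1)` (`clam`), `χ = 1` gives `∑_{(n,q)=1} Λ(n)/n = log x + O(1)` (the prime powers of the primes
dividing `q` contribute at most `∑_{p ∣ q} log p/(p-1)`). (3) The prime powers `p^k`, `k ≥ 2`, contribute `≤ ∑ log p/(p(p-1)) = O(1)`, and `log p/(p-1) - log p/p = log p/(p(p-1))`, again `O(1)`.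
-/

open Finset Pool.Agent.BDT

namespace Pool.Agent.BDN

private theorem map_logfac (x : ℕ) :
    Real.log (x.factorial : ℝ) = ∑ n ∈ Icc 1 x, Real.log n := by
  induction x with
  | zero => simp
  | succ x ih =>
    rw [sum_Icc_succ_top (by omega), ← ih, Nat.factorial_succ, Nat.cast_mul,
      Real.log_mul (by positivity) (by positivity), add_comm]

private theorem map_id (x : ℕ) : Real.log (x.factorial : ℝ) =
    ∑ d ∈ Icc 1 x, ArithmeticFunction.vonMangoldt d * ((x / d : ℕ) : ℝ) := by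
  rw [map_logfac]
  have e2 : ∀ n ∈ Icc 1 x, Real.log n =
      ∑ d ∈ Icc 1 x, if d ∣ n then ArithmeticFunction.vonMangoldt d else 0 := by
    intro n hn
    rw [mem_Icc] at hn
    rw [← ArithmeticFunction.vonMangoldt_sum, ← sum_filter]
    refine sum_congr ?_ fun _ _ => rfl
    ext d
    rw [Nat.mem_divisors, mem_filter, mem_Icc]
    constructor
    · rintro ⟨h, h0⟩
      exact ⟨⟨Nat.pos_of_dvd_of_pos h (by omega), (Nat.le_of_dvd (by omega) h).trans hn.2⟩, h⟩
    · rintro ⟨_, h⟩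
      exact ⟨h, by omega⟩
  rw [sum_congr rfl e2, sum_comm]
  refine sum_congr rfl fun d hd => ?_
  rw [← sum_filter, sum_const, nsmul_eq_mul, mul_comm]
  congr 2
  exact Nat.Ioc_filter_dvd_card_eq_div x d

private theorem map_nn (n : ℕ) : 0 ≤ (ArithmeticFunction.vonMangoldt n : ℝ) / n :=
  div_nonneg ArithmeticFunction.vonMangoldt_nonneg (Nat.cast_nonneg n)

private theorem map_total {x : ℕ} (hx : 1 ≤ x) :
    ∑ n ∈ Icc 1 x, (ArithmeticFunction.vonMangoldt n : ℝ) / n ≤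
      Real.log x + (Real.log 4 + 4) := by
  have hx0 : (0 : ℝ) < x := by exact_mod_cast hx
  have h1 := map_id x
  have h2 : ∑ n ∈ Icc 1 x, (ArithmeticFunction.vonMangoldt n : ℝ) ≤ (Real.log 4 + 4) * x := by
    have h := Chebyshev.psi_le_const_mul_self (x := (x : ℝ)) hx0.le
    unfold Chebyshev.psi at h
    rw [Nat.floor_natCast] at h
    exact h
  have h3 : Real.log (x.factorial : ℝ) ≤ x * Real.log x := by
    have h : ((x.factorial : ℕ) : ℝ) ≤ (x : ℝ) ^ x := by exact_mod_cast Nat.factorial_le_pow x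
    rw [← Real.log_pow]
    exact Real.log_le_log (by positivity) h
  have h4 : (x : ℝ) * ∑ n ∈ Icc 1 x, (ArithmeticFunction.vonMangoldt n : ℝ) / n ≤
      ∑ d ∈ Icc 1 x, ArithmeticFunction.vonMangoldt d * ((x / d : ℕ) : ℝ) +
        ∑ n ∈ Icc 1 x, (ArithmeticFunction.vonMangoldt n : ℝ) := by
    rw [mul_sum, ← sum_add_distrib]
    refine sum_le_sum fun n hn => ?_
    have hn0 : (0 : ℝ) < n := by exact_mod_cast (mem_Icc.1 hn).1
    have h5 : (x : ℝ) / n ≤ ((x / n : ℕ) : ℝ) + 1 := by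
      rw [div_le_iff₀ hn0]
      have h6 : x < (x / n + 1) * n := by
        rw [mul_comm]
        exact Nat.lt_mul_div_succ x (mem_Icc.1 hn).1
      exact_mod_cast h6.le
    calc (x : ℝ) * (ArithmeticFunction.vonMangoldt n / n) =
          ArithmeticFunction.vonMangoldt n * ((x : ℝ) / n) := by ring
      _ ≤ ArithmeticFunction.vonMangoldt n * (((x / n : ℕ) : ℝ) + 1) :=
          mul_le_mul_of_nonneg_left h5 ArithmeticFunction.vonMangoldt_nonneg
      _ = _ := by ring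
  have h7 : (x : ℝ) * ∑ n ∈ Icc 1 x, (ArithmeticFunction.vonMangoldt n : ℝ) / n ≤
      x * (Real.log x + (Real.log 4 + 4)) := by
    rw [← h1] at h4
    linarith
  exact le_of_mul_le_mul_left h7 hx0

private theorem map_primes (x : ℕ) : (Icc 1 x).filter Nat.Prime = Nat.primesLE x := by
  ext p
  rw [mem_filter, mem_Icc, Nat.mem_primesLE]
  constructor
  · rintro ⟨⟨_, h⟩, hp⟩
    exact ⟨h, hp⟩
  · rintro ⟨h, hp⟩
    exact ⟨⟨hp.one_le, h⟩, hp⟩

/-- the non-primes -/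
private theorem map_np {x : ℕ} (hx : 1 ≤ x) :
    ∑ n ∈ (Icc 1 x).filter (fun n => ¬ n.Prime), (ArithmeticFunction.vonMangoldt n : ℝ) / n ≤
      Real.log 4 + 4 + 23 / 10 := by
  have h1 := map_total hx
  have h2 := Pool.Agent.ALT.mertens_lower hx
  rw [← sum_filter_add_sum_filter_not (Icc 1 x) Nat.Prime] at h1
  have h3 : ∑ n ∈ (Icc 1 x).filter Nat.Prime, (ArithmeticFunction.vonMangoldt n : ℝ) / n =
      ∑ p ∈ Nat.primesLE x, Real.log p / p := by
    rw [map_primes]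
    refine sum_congr rfl fun p hp => ?_
    rw [ArithmeticFunction.vonMangoldt_apply_prime (Nat.mem_primesLE.1 hp).2]
  rw [h3] at h1
  linarith

private theorem map_split (x : ℕ) (P : ℕ → Prop) [DecidablePred P] :
    ∑ n ∈ (Icc 1 x).filter P, (ArithmeticFunction.vonMangoldt n : ℝ) / n =
      ∑ p ∈ (Icc 1 x).filter (fun p => p.Prime ∧ P p), Real.log p / p +
      ∑ n ∈ (Icc 1 x).filter (fun n => ¬ n.Prime ∧ P n),
        (ArithmeticFunction.vonMangoldt n : ℝ) / n := by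
  rw [← sum_filter_add_sum_filter_not ((Icc 1 x).filter P) Nat.Prime, filter_filter,
    filter_filter]
  congr 1
  · refine sum_congr ?_ fun p hp => ?_
    · ext p
      simp only [mem_filter]
      tauto
    · rw [ArithmeticFunction.vonMangoldt_apply_prime (mem_filter.1 hp).2.1]
  · refine sum_congr ?_ fun _ _ => rfl
    ext p
    simp only [mem_filter]
    tauto

private theorem map_npP {x : ℕ} (hx : 1 ≤ x) (P : ℕ → Prop) [DecidablePred P] :
    0 ≤ ∑ n ∈ (Icc 1 x).filter (fun n => ¬ n.Prime ∧ P n),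
        (ArithmeticFunction.vonMangoldt n : ℝ) / n ∧
    ∑ n ∈ (Icc 1 x).filter (fun n => ¬ n.Prime ∧ P n),
        (ArithmeticFunction.vonMangoldt n : ℝ) / n ≤ Real.log 4 + 4 + 23 / 10 := by
  refine ⟨sum_nonneg fun n _ => map_nn n, le_trans ?_ (map_np hx)⟩
  refine sum_le_sum_of_subset_of_nonneg ?_ fun n _ _ => map_nn n
  intro n hn
  rw [mem_filter] at hn ⊢
  exact ⟨hn.1, hn.2.1⟩

private theorem map_diff {x : ℕ} (hx : 1 ≤ x) (P : ℕ → Prop) [DecidablePred P] :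
    |∑ p ∈ (Icc 1 x).filter (fun p => p.Prime ∧ P p), Real.log p / ((p : ℝ) - 1) -
      ∑ n ∈ (Icc 1 x).filter P, (ArithmeticFunction.vonMangoldt n : ℝ) / n| ≤
      Real.log 4 + 4 + 23 / 10 + 13 / 10 := by
  have h1 := map_split x P
  obtain ⟨h2, h3⟩ := map_npP hx P
  have h4 := Pool.Agent.ALT.sum_log_tail' x
  have hlt : ∀ p : ℕ, p.Prime → 0 ≤ Real.log p / ((p : ℝ) * ((p : ℝ) - 1)) := by
    intro p hp
    have h5 : (1 : ℝ) < p := by exact_mod_cast hp.one_lt
    have h6 : 0 ≤ Real.log p := Real.log_natCast_nonneg p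
    have h7 : 0 < (p : ℝ) - 1 := by linarith
    positivity
  have h5 : ∑ p ∈ (Icc 1 x).filter (fun p => p.Prime ∧ P p), Real.log p / ((p : ℝ) - 1) =
      ∑ p ∈ (Icc 1 x).filter (fun p => p.Prime ∧ P p), Real.log p / p +
      ∑ p ∈ (Icc 1 x).filter (fun p => p.Prime ∧ P p),
        Real.log p / ((p : ℝ) * ((p : ℝ) - 1)) := by
    rw [← sum_add_distrib]
    refine sum_congr rfl fun p hp => ?_
    have h6 : (1 : ℝ) < p := by exact_mod_cast (mem_filter.1 hp).2.1.one_lt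
    have h7 : (p : ℝ) - 1 ≠ 0 := by linarith
    have h8 : (p : ℝ) ≠ 0 := by linarith
    field_simp
    ring
  have h6 : 0 ≤ ∑ p ∈ (Icc 1 x).filter (fun p => p.Prime ∧ P p),
      Real.log p / ((p : ℝ) * ((p : ℝ) - 1)) :=
    sum_nonneg fun p hp => hlt p (mem_filter.1 hp).2.1
  have h7 : ∑ p ∈ (Icc 1 x).filter (fun p => p.Prime ∧ P p),
      Real.log p / ((p : ℝ) * ((p : ℝ) - 1)) ≤ 13 / 10 := by
    refine le_trans ?_ h4
    rw [← map_primes]
    refine sum_le_sum_of_subset_of_nonneg ?_ fun p hp _ => hlt p (mem_filter.1 hp).2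
    intro p hp
    rw [mem_filter] at hp ⊢
    exact ⟨hp.1, hp.2.1⟩
  have h8 : 0 ≤ Real.log 4 := Real.log_nonneg (by norm_num)
  rw [abs_le]
  constructor <;> linarith

/-- the sum over all `n` coprime to `q` -/
private theorem map_cop (q : ℕ) (hq : 0 < q) : ∃ C : ℝ, ∀ x : ℕ, 1 ≤ x →
    |∑ n ∈ (Icc 1 x).filter (fun n => Nat.Coprime n q),
      (ArithmeticFunction.vonMangoldt n : ℝ) / n - Real.log x| ≤ C := by
  refine ⟨(Real.log 4 + 4 + 23 / 10) + (∑ p ∈ q.primeFactors, Real.log p / p + 23 / 10),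
    fun x hx => ?_⟩
  have h1 := map_total hx
  have h2 := Pool.Agent.ALT.mertens_lower hx
  have h3 : ∑ p ∈ Nat.primesLE x, Real.log p / p ≤
      ∑ n ∈ Icc 1 x, (ArithmeticFunction.vonMangoldt n : ℝ) / n := by
    rw [← map_primes]
    calc ∑ p ∈ (Icc 1 x).filter Nat.Prime, Real.log p / p =
        ∑ p ∈ (Icc 1 x).filter Nat.Prime, (ArithmeticFunction.vonMangoldt p : ℝ) / p :=
          sum_congr rfl fun p hp => by
            rw [ArithmeticFunction.vonMangoldt_apply_prime (mem_filter.1 hp).2]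
      _ ≤ _ := sum_le_sum_of_subset_of_nonneg (filter_subset _ _) fun n _ _ => map_nn n
  have h4 := sum_filter_add_sum_filter_not (Icc 1 x) (fun n => Nat.Coprime n q)
    (fun n => (ArithmeticFunction.vonMangoldt n : ℝ) / n)
  have h5 : 0 ≤ ∑ n ∈ (Icc 1 x).filter (fun n => ¬ Nat.Coprime n q),
      (ArithmeticFunction.vonMangoldt n : ℝ) / n := sum_nonneg fun n _ => map_nn n
  have h6 := map_split x (fun n => ¬ Nat.Coprime n q)
  obtain ⟨-, h7⟩ := map_npP hx (fun n => ¬ Nat.Coprime n q)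
  have h8 : ∑ p ∈ (Icc 1 x).filter (fun p => p.Prime ∧ ¬ Nat.Coprime p q), Real.log p / p ≤
      ∑ p ∈ q.primeFactors, Real.log p / p := by
    refine sum_le_sum_of_subset_of_nonneg ?_ fun p _ _ =>
      div_nonneg (Real.log_natCast_nonneg p) (Nat.cast_nonneg p)
    intro p hp
    rw [mem_filter] at hp
    rw [Nat.mem_primeFactors]
    refine ⟨hp.2.1, ?_, hq.ne'⟩
    by_contra hd
    exact hp.2.2 ((Nat.Prime.coprime_iff_not_dvd hp.2.1).2 hd)
  have h9 : 0 ≤ Real.log 4 := Real.log_nonneg (by norm_num)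
  have h10 : 0 ≤ ∑ p ∈ q.primeFactors, Real.log p / p := sum_nonneg fun p _ =>
      div_nonneg (Real.log_natCast_nonneg p) (Nat.cast_nonneg p)
  rw [abs_le]
  constructor <;> linarith

/-- orthogonality -/
private theorem map_orth (q a : ℕ) (hq : 0 < q) (ha : Nat.Coprime a q) : ∃ C : ℝ, ∀ x : ℕ,
    |(Nat.totient q : ℝ) * ∑ n ∈ (Icc 1 x).filter (fun n => n % q = a % q),
      (ArithmeticFunction.vonMangoldt n : ℝ) / n -
      ∑ n ∈ (Icc 1 x).filter (fun n => Nat.Coprime n q),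
      (ArithmeticFunction.vonMangoldt n : ℝ) / n| ≤ C := by
  classical
  have : NeZero q := ⟨hq.ne'⟩
  have hau : IsUnit (a : ZMod q) := (ZMod.isUnit_iff_coprime a q).2 ha
  have hC : ∀ χ : DirichletCharacter ℂ q, ∃ C : ℝ, χ ≠ 1 → ∀ x : ℕ,
      ‖∑ n ∈ Icc 1 x, χ (n : ZMod q) *
        ((ArithmeticFunction.vonMangoldt n / n : ℝ) : ℂ)‖ ≤ C := by
    intro χ
    by_cases h : χ = 1
    · exact ⟨0, fun h' => absurd h h'⟩
    · obtain ⟨C, hC⟩ := clam χ h
      exact ⟨C, fun _ => hC⟩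
  choose C hC using hC
  refine ⟨∑ χ ∈ univ.erase (1 : DirichletCharacter ℂ q), |C χ|, fun x => ?_⟩
  have e1 : (((Nat.totient q : ℝ) * ∑ n ∈ (Icc 1 x).filter (fun n => n % q = a % q),
      (ArithmeticFunction.vonMangoldt n : ℝ) / n : ℝ) : ℂ) =
      ∑ χ : DirichletCharacter ℂ q, χ ((a : ZMod q)⁻¹) * ∑ n ∈ Icc 1 x, χ (n : ZMod q) *
        ((ArithmeticFunction.vonMangoldt n / n : ℝ) : ℂ) := by
    have e2 : ∀ χ : DirichletCharacter ℂ q, χ ((a : ZMod q)⁻¹) * ∑ n ∈ Icc 1 x,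
        χ (n : ZMod q) * ((ArithmeticFunction.vonMangoldt n / n : ℝ) : ℂ) =
        ∑ n ∈ Icc 1 x, χ ((a : ZMod q)⁻¹) * χ (n : ZMod q) *
          ((ArithmeticFunction.vonMangoldt n / n : ℝ) : ℂ) := by
      intro χ
      rw [mul_sum]
      exact sum_congr rfl fun n _ => by ring
    rw [sum_congr rfl fun χ _ => e2 χ, sum_comm]
    have e3 : ∀ n ∈ Icc 1 x, ∑ χ : DirichletCharacter ℂ q, χ ((a : ZMod q)⁻¹) *
        χ (n : ZMod q) * ((ArithmeticFunction.vonMangoldt n / n : ℝ) : ℂ) =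
        if n % q = a % q then
          (Nat.totient q : ℂ) * ((ArithmeticFunction.vonMangoldt n / n : ℝ) : ℂ) else 0 := by
      intro n _
      rw [← sum_mul, DirichletCharacter.sum_char_inv_mul_char_eq ℂ hau]
      by_cases h : n % q = a % q
      · rw [if_pos h, if_pos ((ZMod.natCast_eq_natCast_iff' a n q).2 h.symm)]
      · rw [if_neg h, if_neg fun h' => h ((ZMod.natCast_eq_natCast_iff' a n q).1 h').symm,
          zero_mul]
    rw [sum_congr rfl e3, ← sum_filter, ← mul_sum]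
    push_cast
    rfl
  have e4 : ((∑ n ∈ (Icc 1 x).filter (fun n => Nat.Coprime n q),
      (ArithmeticFunction.vonMangoldt n : ℝ) / n : ℝ) : ℂ) =
      (1 : DirichletCharacter ℂ q) ((a : ZMod q)⁻¹) * ∑ n ∈ Icc 1 x,
        (1 : DirichletCharacter ℂ q) (n : ZMod q) *
        ((ArithmeticFunction.vonMangoldt n / n : ℝ) : ℂ) := by
    have h1 : (1 : DirichletCharacter ℂ q) ((a : ZMod q)⁻¹) = 1 := by
      refine MulChar.one_apply ?_
      obtain ⟨u, hu⟩ := hau
      rw [← hu, ZMod.inv_coe_unit]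
      exact Units.isUnit _
    rw [h1, one_mul, sum_filter, Complex.ofReal_sum]
    refine sum_congr rfl fun n _ => ?_
    by_cases h : Nat.Coprime n q
    · rw [if_pos h, MulChar.one_apply ((ZMod.isUnit_iff_coprime n q).2 h), one_mul]
    · rw [if_neg h, MulChar.map_nonunit _ (fun h' => h ((ZMod.isUnit_iff_coprime n q).1 h')),
        zero_mul, Complex.ofReal_zero]
  have e5 : (((Nat.totient q : ℝ) * ∑ n ∈ (Icc 1 x).filter (fun n => n % q = a % q),
      (ArithmeticFunction.vonMangoldt n : ℝ) / n -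
      ∑ n ∈ (Icc 1 x).filter (fun n => Nat.Coprime n q),
      (ArithmeticFunction.vonMangoldt n : ℝ) / n : ℝ) : ℂ) =
      ∑ χ ∈ univ.erase (1 : DirichletCharacter ℂ q), χ ((a : ZMod q)⁻¹) *
        ∑ n ∈ Icc 1 x, χ (n : ZMod q) *
        ((ArithmeticFunction.vonMangoldt n / n : ℝ) : ℂ) := by
    rw [Complex.ofReal_sub, e1, e4, ← add_sum_erase univ _ (mem_univ (1 : DirichletCharacter ℂ q))]
    ring
  rw [← Real.norm_eq_abs, ← Complex.norm_real, e5]
  refine (norm_sum_le _ _).trans (sum_le_sum fun χ hχ => ?_)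
  rw [norm_mul]
  have h1 : ‖χ ((a : ZMod q)⁻¹)‖ ≤ 1 := DirichletCharacter.norm_le_one χ _
  have h2 := (hC χ (ne_of_mem_erase hχ) x).trans (le_abs_self _)
  calc ‖χ ((a : ZMod q)⁻¹)‖ * ‖∑ n ∈ Icc 1 x, χ (n : ZMod q) *
        ((ArithmeticFunction.vonMangoldt n / n : ℝ) : ℂ)‖ ≤ 1 * |C χ| :=
        mul_le_mul h1 h2 (norm_nonneg _) zero_le_one
    _ = |C χ| := one_mul _

theorem mertens_ap (q a : ℕ) (hq : 0 < q) (ha : Nat.Coprime a q) : ∃ C : ℝ, ∀ x : ℕ, 1 ≤ x →
    |∑ p ∈ (Icc 1 x).filter (fun p => p.Prime ∧ p % q = a % q), Real.log p / ((p : ℝ) - 1) -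
      Real.log x / (Nat.totient q : ℝ)| ≤ C := by
  obtain ⟨C1, hC1⟩ := map_cop q hq
  obtain ⟨C2, hC2⟩ := map_orth q a hq ha
  have hφ : (0 : ℝ) < Nat.totient q := by exact_mod_cast Nat.totient_pos.2 hq
  refine ⟨(Real.log 4 + 4 + 23 / 10 + 13 / 10) + (C2 + C1) / Nat.totient q, fun x hx => ?_⟩
  have h1 := map_diff hx (fun n => n % q = a % q)
  have h2 := hC2 x
  have h3 := hC1 x hx
  obtain ⟨T, hT⟩ : ∃ T : ℝ, T = ∑ n ∈ (Icc 1 x).filter (fun n => n % q = a % q),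
    (ArithmeticFunction.vonMangoldt n : ℝ) / n := ⟨_, rfl⟩
  obtain ⟨S, hS⟩ : ∃ S : ℝ, S = ∑ n ∈ (Icc 1 x).filter (fun n => Nat.Coprime n q),
    (ArithmeticFunction.vonMangoldt n : ℝ) / n := ⟨_, rfl⟩
  have h4 : |T - Real.log x / Nat.totient q| ≤ (C2 + C1) / Nat.totient q := by
    have e1 : T - Real.log x / Nat.totient q =
        ((Nat.totient q * T - S) + (S - Real.log x)) / Nat.totient q := by
      field_simp
      ring
    rw [e1, abs_div, abs_of_pos hφ]
    refine div_le_div_of_nonneg_right ?_ hφ.le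
    refine (abs_add_le _ _).trans (add_le_add ?_ ?_)
    · rw [hT, hS]
      exact h2
    · rw [hS]
      exact h3
  have h5 : |∑ p ∈ (Icc 1 x).filter (fun p => p.Prime ∧ p % q = a % q),
      Real.log p / ((p : ℝ) - 1) - T| ≤ Real.log 4 + 4 + 23 / 10 + 13 / 10 := by
    rw [hT]
    exact h1
  calc |∑ p ∈ (Icc 1 x).filter (fun p => p.Prime ∧ p % q = a % q),
      Real.log p / ((p : ℝ) - 1) - Real.log x / Nat.totient q|
      = |(∑ p ∈ (Icc 1 x).filter (fun p => p.Prime ∧ p % q = a % q),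
      Real.log p / ((p : ℝ) - 1) - T) + (T - Real.log x / Nat.totient q)| := by
        congr 1
        ring
    _ ≤ _ := (abs_add_le _ _).trans (add_le_add h5 h4)

end Pool.Agent.BDN
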