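import Mathlib
import Pool.Agent.BDN.MAP
import Pool.Agent.BDN.DefsB

/-!
BDN-AA. The allowed primes have the expected density.

PLAN. `W = Ww w = (w!)^w`; for a prime `q ≤ w`, `v_q(W) ≥ w`; the primes dividing `W` are the primes `q ≤ w`.
1. If `p` is prime, `¬ q0^j ∣ p - 1` and `¬ q^(v_q(W)+1) ∣ p - 1` for all primes `q ≤ w`, then `Alw W c e0 p`: put `g = gcd (p-1) W`.
   (a) `g ∣ c - e0` in `ℤ`: `g = q0^a g'` with `g'` prime to `q0` (`a = v_q0(g)`); `g' ∣ ordCompl q0 W ∣ c - e0`;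
   `q0^a ∣ p - 1` forces `a ≤ j - 1`, so `q0^a ∣ q0^(j-1) ∣ c - e0`; coprime, so the product divides.
   (b) if a prime `q` divides `(p-1)/g` and `W`, then `v_q(g) < v_q(p-1)`, `v_q(g) = min(v_q(p-1), v_q(W))`, so `v_q(p-1) > v_q(W)`:
   contradiction.
2. `mertens_ap` for the moduli `1`, `q0^j`, `q^(v_q(W)+1)` (residue `1`): the sum over the primes in `(x, y]` in the class `1`
   modulo `Q` is `(log y - log x)/φ(Q) + O(1)` (use `⌊x⌋₊`, `⌊y⌋₊`, `|log ⌊x⌋₊ - log x| ≤ 1` for `x ≥ 1`; `Q ∣ p - 1` iff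
   `p % Q = 1 % Q` for `p ≥ 1`).
   So the sum over the allowed `p ∈ (x, y]` is at least `(log y - log x)(1 - 1/φ(q0^j) - ∑_{q ≤ w} 1/φ(q^(v_q(W)+1))) - C`, and
   `φ(q^(v+1)) ≥ 2^w`, so the last sum is `≤ w/2^w ≤ 1/1000` for `w ≥ 20`. Finally `C ≤ ε log y` for `y ≥ y0`.
`am_self`: the same without the prime `q0` (`c - c = 0` is divisible by everything).
-/

namespace Pool.Agent.BDN

open Finset

/-- the primes of `(x, y]` which are `1` modulo `Q` -/
private noncomputable def prs (Q : ℕ) (x y : ℝ) : Finset ℕ :=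
  (Icc 1 ⌊y⌋₊).filter (fun p : ℕ => p.Prime ∧ x < (p : ℝ) ∧ Q ∣ p - 1)

private theorem term_nonneg (p : ℕ) (hp : p.Prime) : 0 ≤ Real.log p / ((p : ℝ) - 1) := by
  have h2 : (2 : ℝ) ≤ p := by exact_mod_cast hp.two_le
  exact div_nonneg (Real.log_nonneg (by linarith)) (by linarith)

private theorem log_floor (x : ℝ) (hx : 1 ≤ x) :
    Real.log x - 1 ≤ Real.log (⌊x⌋₊ : ℝ) ∧ Real.log (⌊x⌋₊ : ℝ) ≤ Real.log x := by
  have h1 : 1 ≤ ⌊x⌋₊ := Nat.le_floor (by simpa using hx)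
  have h2 : (1 : ℝ) ≤ (⌊x⌋₊ : ℝ) := by exact_mod_cast h1
  have h3 : x < (⌊x⌋₊ : ℝ) + 1 := Nat.lt_floor_add_one x
  have h4 : (⌊x⌋₊ : ℝ) ≤ x := Nat.floor_le (by linarith)
  refine ⟨?_, Real.log_le_log (by linarith) h4⟩
  have h5 : Real.log x ≤ Real.log (2 * (⌊x⌋₊ : ℝ)) := Real.log_le_log (by linarith) (by linarith)
  rw [Real.log_mul (by norm_num) (by linarith)] at h5
  have h6 := Real.log_two_lt_d9
  linarith

private theorem prs_sum (Q : ℕ) (hQ : 0 < Q) : ∃ K : ℝ, ∀ x y : ℝ, 1 ≤ x → x ≤ y →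
    |∑ p ∈ prs Q x y, Real.log p / ((p : ℝ) - 1) -
      (Real.log y - Real.log x) / (Nat.totient Q : ℝ)| ≤ K := by
  classical
  obtain ⟨C, hC⟩ := mertens_ap Q 1 hQ (Nat.coprime_one_left Q)
  refine ⟨2 * C + 2, fun x y hx hxy => ?_⟩
  have hy : 1 ≤ y := hx.trans hxy
  have h1x : 1 ≤ ⌊x⌋₊ := Nat.le_floor (by simpa using hx)
  have h1y : 1 ≤ ⌊y⌋₊ := Nat.le_floor (by simpa using hy)
  have hfl : ⌊x⌋₊ ≤ ⌊y⌋₊ := Nat.floor_le_floor hxy
  have hCx := hC ⌊x⌋₊ h1x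
  have hCy := hC ⌊y⌋₊ h1y
  have hmod : ∀ p : ℕ, p.Prime → (p % Q = 1 % Q ↔ Q ∣ p - 1) := fun p hp => by
    have h1 : 1 ≤ p := hp.one_le
    constructor
    · intro h
      exact (Nat.modEq_iff_dvd' h1).1 (show 1 ≡ p [MOD Q] from h.symm)
    · intro h
      exact ((Nat.modEq_iff_dvd' h1).2 h).symm
  have hsplit : ∑ p ∈ (Icc 1 ⌊y⌋₊).filter (fun p => p.Prime ∧ p % Q = 1 % Q),
      Real.log p / ((p : ℝ) - 1) =
      ∑ p ∈ (Icc 1 ⌊x⌋₊).filter (fun p => p.Prime ∧ p % Q = 1 % Q), Real.log p / ((p : ℝ) - 1) +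
      ∑ p ∈ prs Q x y, Real.log p / ((p : ℝ) - 1) := by
    rw [← Finset.sum_union]
    · refine Finset.sum_congr ?_ fun _ _ => rfl
      ext p
      rw [Finset.mem_union, prs, Finset.mem_filter, Finset.mem_filter, Finset.mem_filter,
        Finset.mem_Icc, Finset.mem_Icc]
      constructor
      · rintro ⟨⟨h1, h2⟩, h3, h4⟩
        by_cases h : x < (p : ℝ)
        · exact Or.inr ⟨⟨h1, h2⟩, h3, h, (hmod p h3).1 h4⟩
        · exact Or.inl ⟨⟨h1, Nat.le_floor (not_lt.1 h)⟩, h3, h4⟩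
      · rintro (⟨⟨h1, h2⟩, h3, h4⟩ | ⟨⟨h1, h2⟩, h3, h4, h5⟩)
        · exact ⟨⟨h1, h2.trans hfl⟩, h3, h4⟩
        · exact ⟨⟨h1, h2⟩, h3, (hmod p h3).2 h5⟩
    · rw [Finset.disjoint_left]
      intro p hp1 hp2
      have h1 := (Finset.mem_Icc.1 (Finset.mem_filter.1 hp1).1).2
      have h2 := (Finset.mem_filter.1 hp2).2.2.1
      have h3 : (p : ℝ) ≤ x := (Nat.le_floor_iff (by linarith)).1 h1
      linarith
  have hx2 := log_floor x hx
  have hy2 := log_floor y hy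
  have hφ : (1 : ℝ) ≤ (Nat.totient Q : ℝ) := by exact_mod_cast Nat.totient_pos.2 hQ
  have hd : |((Real.log (⌊y⌋₊ : ℝ) - Real.log (⌊x⌋₊ : ℝ)) - (Real.log y - Real.log x)) /
      (Nat.totient Q : ℝ)| ≤ 2 := by
    rw [abs_div, abs_of_pos (by linarith : (0 : ℝ) < (Nat.totient Q : ℝ)),
      div_le_iff₀ (by linarith)]
    have : |(Real.log (⌊y⌋₊ : ℝ) - Real.log (⌊x⌋₊ : ℝ)) - (Real.log y - Real.log x)| ≤ 2 := by
      rw [abs_le]
      constructor <;> linarith [hx2.1, hx2.2, hy2.1, hy2.2]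
    linarith
  rw [hsplit] at hCy
  have hCx' := abs_le.1 hCx
  have hCy' := abs_le.1 hCy
  have hd' := abs_le.1 hd
  have e : ((Real.log (⌊y⌋₊ : ℝ) - Real.log (⌊x⌋₊ : ℝ)) - (Real.log y - Real.log x)) /
      (Nat.totient Q : ℝ) = Real.log (⌊y⌋₊ : ℝ) / (Nat.totient Q : ℝ) -
      Real.log (⌊x⌋₊ : ℝ) / (Nat.totient Q : ℝ) -
      (Real.log y - Real.log x) / (Nat.totient Q : ℝ) := by ring
  rw [e] at hd'
  rw [abs_le]
  constructor <;> linarith [hCx'.1, hCx'.2, hCy'.1, hCy'.2, hd'.1, hd'.2]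

private theorem bi_le (B : Finset ℕ) (t : ℕ → Finset ℕ) (f : ℕ → ℝ)
    (hf : ∀ b ∈ B, ∀ p ∈ t b, 0 ≤ f p) :
    ∑ p ∈ B.biUnion t, f p ≤ ∑ b ∈ B, ∑ p ∈ t b, f p := by
  classical
  induction B using Finset.induction_on with
  | empty => simp
  | insert a s ha ih =>
    rw [Finset.sum_insert ha, Finset.biUnion_insert]
    have s2 := Finset.sum_union_inter (s₁ := t a) (s₂ := s.biUnion t) (f := f)
    have s3 : 0 ≤ ∑ p ∈ t a ∩ s.biUnion t, f p := Finset.sum_nonneg fun p hp =>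
      hf a (Finset.mem_insert_self _ _) p (Finset.mem_inter.1 hp).1
    have s4 := ih fun b hb => hf b (Finset.mem_insert_of_mem hb)
    linarith

private theorem am_gen (W c e0 : ℕ) (B : Finset ℕ) (Q : ℕ → ℕ) (hB : ∀ b ∈ B, 0 < Q b) (μ : ℝ)
    (hμ : μ ≤ 1 - ∑ b ∈ B, 1 / (Nat.totient (Q b) : ℝ))
    (hal : ∀ p : ℕ, p.Prime → (∀ b ∈ B, ¬ Q b ∣ p - 1) → Alw W c e0 p) : AM W c e0 μ := by
  classical
  obtain ⟨K1, hK1⟩ := prs_sum 1 Nat.one_pos
  have hK : ∀ b : ℕ, ∃ K : ℝ, b ∈ B → ∀ x y : ℝ, 1 ≤ x → x ≤ y →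
    |∑ p ∈ prs (Q b) x y, Real.log p / ((p : ℝ) - 1) -
      (Real.log y - Real.log x) / (Nat.totient (Q b) : ℝ)| ≤ K := fun b => by
    by_cases h : b ∈ B
    · obtain ⟨K, hK⟩ := prs_sum (Q b) (hB b h)
      exact ⟨K, fun _ => hK⟩
    · exact ⟨0, fun h' => absurd h' h⟩
  choose K hK using hK
  intro ε hε
  refine ⟨Real.exp ((K1 + ∑ b ∈ B, K b) / ε), fun x y hx hxy hy => ?_⟩
  have hy1 : 1 ≤ y := hx.trans hxy
  have hlogy : (K1 + ∑ b ∈ B, K b) / ε ≤ Real.log y := by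
    rw [Real.le_log_iff_exp_le (by linarith)]
    exact hy
  rw [div_le_iff₀ hε] at hlogy
  have hΔ : 0 ≤ Real.log y - Real.log x := by
    have := Real.log_le_log (by linarith) hxy
    linarith
  have hsub : prs 1 x y ⊆ ((Icc 1 ⌊y⌋₊).filter (fun p : ℕ => p.Prime ∧ x < (p : ℝ) ∧
      Alw W c e0 p)) ∪ B.biUnion (fun b => prs (Q b) x y) := fun p hp => by
    obtain ⟨h1, h2, h3, _⟩ := Finset.mem_filter.1 hp
    by_cases h : ∀ b ∈ B, ¬ Q b ∣ p - 1
    · exact Finset.mem_union_left _ (Finset.mem_filter.2 ⟨h1, h2, h3, hal p h2 h⟩)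
    · push Not at h
      obtain ⟨b, hb, hb2⟩ := h
      exact Finset.mem_union_right _ (Finset.mem_biUnion.2
        ⟨b, hb, Finset.mem_filter.2 ⟨h1, h2, h3, hb2⟩⟩)
  have hnn : ∀ p ∈ ((Icc 1 ⌊y⌋₊).filter (fun p : ℕ => p.Prime ∧ x < (p : ℝ) ∧
      Alw W c e0 p)) ∪ B.biUnion (fun b => prs (Q b) x y),
      0 ≤ Real.log p / ((p : ℝ) - 1) := fun p hp => by
    rcases Finset.mem_union.1 hp with h | h
    · exact term_nonneg p (Finset.mem_filter.1 h).2.1
    · obtain ⟨b, _, hb⟩ := Finset.mem_biUnion.1 h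
      exact term_nonneg p (Finset.mem_filter.1 hb).2.1
  have s1 : ∑ p ∈ prs 1 x y, Real.log p / ((p : ℝ) - 1) ≤
      ∑ p ∈ (Icc 1 ⌊y⌋₊).filter (fun p : ℕ => p.Prime ∧ x < (p : ℝ) ∧ Alw W c e0 p),
        Real.log p / ((p : ℝ) - 1) +
      ∑ b ∈ B, ∑ p ∈ prs (Q b) x y, Real.log p / ((p : ℝ) - 1) := by
    refine (Finset.sum_le_sum_of_subset_of_nonneg hsub fun p hp _ => hnn p hp).trans ?_
    have s2 := Finset.sum_union_inter (s₁ := (Icc 1 ⌊y⌋₊).filter (fun p : ℕ => p.Prime ∧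
      x < (p : ℝ) ∧ Alw W c e0 p)) (s₂ := B.biUnion (fun b => prs (Q b) x y))
      (f := fun p : ℕ => Real.log p / ((p : ℝ) - 1))
    have s3 : 0 ≤ ∑ p ∈ ((Icc 1 ⌊y⌋₊).filter (fun p : ℕ => p.Prime ∧
      x < (p : ℝ) ∧ Alw W c e0 p)) ∩ B.biUnion (fun b => prs (Q b) x y),
        Real.log p / ((p : ℝ) - 1) :=
      Finset.sum_nonneg fun p hp => hnn p (Finset.mem_union_left _ (Finset.mem_inter.1 hp).1)
    have s4 : ∑ p ∈ B.biUnion (fun b => prs (Q b) x y), Real.log p / ((p : ℝ) - 1) ≤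
        ∑ b ∈ B, ∑ p ∈ prs (Q b) x y, Real.log p / ((p : ℝ) - 1) := by
      refine bi_le B (fun b => prs (Q b) x y) (fun p : ℕ => Real.log p / ((p : ℝ) - 1)) ?_
      intro b _ p hp
      exact term_nonneg p (Finset.mem_filter.1 hp).2.1
    linarith
  have s5 : ∑ b ∈ B, ∑ p ∈ prs (Q b) x y, Real.log p / ((p : ℝ) - 1) ≤
      ∑ b ∈ B, ((Real.log y - Real.log x) * (1 / (Nat.totient (Q b) : ℝ)) + K b) := by
    refine Finset.sum_le_sum fun b hb => ?_
    have h := (abs_le.1 (hK b hb x y hx hxy)).2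
    have e : (Real.log y - Real.log x) * (1 / (Nat.totient (Q b) : ℝ)) =
      (Real.log y - Real.log x) / (Nat.totient (Q b) : ℝ) := by ring
    rw [e]
    linarith
  rw [Finset.sum_add_distrib, ← Finset.mul_sum] at s5
  have s6 := (abs_le.1 (hK1 x y hx hxy)).1
  rw [Nat.totient_one, Nat.cast_one, div_one] at s6
  have s7 : μ * (Real.log y - Real.log x) ≤
      (1 - ∑ b ∈ B, 1 / (Nat.totient (Q b) : ℝ)) * (Real.log y - Real.log x) :=
    mul_le_mul_of_nonneg_right hμ hΔ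
  nlinarith

private theorem Ww_ne (w : ℕ) : Ww w ≠ 0 := (pow_pos (Nat.factorial_pos w) w).ne'

private theorem fact_ge (w q : ℕ) (hq : q.Prime) (hqw : q ≤ w) :
    w ≤ (Ww w).factorization q := by
  have h1 : q ∣ w.factorial := (hq.dvd_factorial).2 hqw
  have h2 : q ^ w ∣ Ww w := pow_dvd_pow_of_dvd h1 w
  exact (hq.pow_dvd_iff_le_factorization (Ww_ne w)).1 h2

private theorem small_sum (w : ℕ) (hw : 20 ≤ w) :
    ∑ q ∈ (range (w + 1)).filter Nat.Prime,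
      1 / (Nat.totient (q ^ ((Ww w).factorization q + 1)) : ℝ) ≤ 1 / 1000 := by
  have h1 : ∀ q ∈ (range (w + 1)).filter Nat.Prime,
      1 / (Nat.totient (q ^ ((Ww w).factorization q + 1)) : ℝ) ≤ 1 / (2 : ℝ) ^ w := fun q hq => by
    obtain ⟨hq1, hq2⟩ := Finset.mem_filter.1 hq
    have hq3 : q ≤ w := by
      have := Finset.mem_range.1 hq1
      omega
    refine one_div_le_one_div_of_le (by positivity) ?_
    have h2 : 2 ^ w ≤ Nat.totient (q ^ ((Ww w).factorization q + 1)) := by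
      rw [Nat.totient_prime_pow_succ hq2]
      have h3 : 2 ^ w ≤ q ^ ((Ww w).factorization q) :=
        (Nat.pow_le_pow_left hq2.two_le w).trans
          (Nat.pow_le_pow_right hq2.pos (fact_ge w q hq2 hq3))
      have h4 : 1 ≤ q - 1 := by
        have := hq2.two_le
        omega
      exact h3.trans (Nat.le_mul_of_pos_right _ h4)
    exact_mod_cast h2
  have h2 : ((range (w + 1)).filter Nat.Prime).card ≤ w := by
    have h3 : (range (w + 1)).filter Nat.Prime ⊆ Icc 1 w := fun q hq => by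
      obtain ⟨hq1, hq2⟩ := Finset.mem_filter.1 hq
      have := Finset.mem_range.1 hq1
      exact Finset.mem_Icc.2 ⟨hq2.one_le, by omega⟩
    have h4 := Finset.card_le_card h3
    simpa using h4
  have h5 : 1000 * w ≤ 2 ^ w := by
    induction w, hw using Nat.le_induction with
    | base => norm_num
    | succ n hn ih =>
      have ih' : 1000 * n ≤ 2 ^ n := by
        clear ih h1 h2
        induction n, hn using Nat.le_induction with
        | base => norm_num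
        | succ m hm ihm => rw [pow_succ]; omega
      rw [pow_succ]; omega
  refine (Finset.sum_le_sum h1).trans ?_
  rw [Finset.sum_const, nsmul_eq_mul, mul_one_div, div_le_div_iff₀ (by positivity) (by norm_num)]
  have h6 : ((((range (w + 1)).filter Nat.Prime).card : ℕ) : ℝ) ≤ w := by exact_mod_cast h2
  have h7 : 1000 * (w : ℝ) ≤ 2 ^ w := by exact_mod_cast h5
  linarith

private theorem cop_part (w p : ℕ) (hp : p.Prime)
    (h : ∀ q ∈ (range (w + 1)).filter Nat.Prime, ¬ q ^ ((Ww w).factorization q + 1) ∣ p - 1) :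
    Nat.Coprime ((p - 1) / Nat.gcd (p - 1) (Ww w)) (Ww w) := by
  have hp1 : p - 1 ≠ 0 := by
    have := hp.two_le
    omega
  refine Nat.coprime_of_dvd fun q hq hq1 hq2 => ?_
  have hqw : q ≤ w := (hq.dvd_factorial).1 (hq.dvd_of_dvd_pow hq2)
  have hn := h q (Finset.mem_filter.2 ⟨Finset.mem_range.2 (by omega), hq⟩)
  have ha : (p - 1).factorization q ≤ (Ww w).factorization q := by
    by_contra hcon
    exact hn ((pow_dvd_pow q (not_le.1 hcon)).trans (Nat.ordProj_dvd (p - 1) q))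
  have hg : q ^ (p - 1).factorization q ∣ Nat.gcd (p - 1) (Ww w) :=
    Nat.dvd_gcd (Nat.ordProj_dvd _ _) ((pow_dvd_pow q ha).trans (Nat.ordProj_dvd _ _))
  refine Nat.pow_succ_factorization_not_dvd hp1 hq ?_
  rw [pow_succ]
  have h2 : Nat.gcd (p - 1) (Ww w) * ((p - 1) / Nat.gcd (p - 1) (Ww w)) = p - 1 :=
    Nat.mul_div_cancel' (Nat.gcd_dvd_left _ _)
  have h3 := Nat.mul_dvd_mul hg hq1
  rwa [h2] at h3

theorem am_adj (w q0 j c e0 : ℕ) (hw : 20 ≤ w) (hq0 : q0.Prime) (hj : 1 ≤ j)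
    (h1 : ((Ww w / q0 ^ (Ww w).factorization q0 : ℕ) : ℤ) ∣ (c : ℤ) - e0)
    (h2 : ((q0 ^ (j - 1) : ℕ) : ℤ) ∣ (c : ℤ) - e0) :
    AM (Ww w) c e0 (1 - 1 / (Nat.totient (q0 ^ j) : ℝ) - 1 / 1000) := by
  have h0 : (0 : ℕ) ∉ (range (w + 1)).filter Nat.Prime := fun h =>
    Nat.not_prime_zero (Finset.mem_filter.1 h).2
  refine am_gen (Ww w) c e0 (insert 0 ((range (w + 1)).filter Nat.Prime))
    (fun b => if b = 0 then q0 ^ j else b ^ ((Ww w).factorization b + 1)) ?_ _ ?_ ?_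
  · intro b hb
    by_cases hb0 : b = 0
    · simp only [if_pos hb0]
      exact pow_pos hq0.pos j
    · simp only [if_neg hb0]
      exact pow_pos (Nat.pos_of_ne_zero hb0) _
  · rw [Finset.sum_insert h0]
    have e1 : ∑ b ∈ (range (w + 1)).filter Nat.Prime, 1 /
        (Nat.totient (if b = 0 then q0 ^ j else b ^ ((Ww w).factorization b + 1)) : ℝ) =
        ∑ q ∈ (range (w + 1)).filter Nat.Prime,
      1 / (Nat.totient (q ^ ((Ww w).factorization q + 1)) : ℝ) :=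
      Finset.sum_congr rfl fun b hb => by
        rw [if_neg]
        rintro rfl
        exact h0 hb
    rw [e1, if_pos rfl]
    have := small_sum w hw
    linarith
  · intro p hp hall
    have hall2 : ∀ q ∈ (range (w + 1)).filter Nat.Prime,
        ¬ q ^ ((Ww w).factorization q + 1) ∣ p - 1 := fun q hq => by
      have h := hall q (Finset.mem_insert_of_mem hq)
      rwa [if_neg] at h
      rintro rfl
      exact h0 hq
    have hall0 : ¬ q0 ^ j ∣ p - 1 := by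
      have h := hall 0 (Finset.mem_insert_self _ _)
      rwa [if_pos rfl] at h
    refine ⟨?_, cop_part w p hp hall2⟩
    set g := Nat.gcd (p - 1) (Ww w) with hg
    have hgW : g ∣ Ww w := Nat.gcd_dvd_right _ _
    have hgp : g ∣ p - 1 := Nat.gcd_dvd_left _ _
    have hg0 : g ≠ 0 := fun h => Ww_ne w (Nat.eq_zero_of_zero_dvd (h ▸ hgW))
    have d1 : ((g / q0 ^ g.factorization q0 : ℕ) : ℤ) ∣ (c : ℤ) - e0 :=
      (Int.natCast_dvd_natCast.2 (Nat.ordCompl_dvd_ordCompl_of_dvd hgW q0)).trans h1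
    have ha : g.factorization q0 ≤ j - 1 := by
      by_contra hcon
      have h3 : j ≤ g.factorization q0 := by omega
      exact hall0 ((pow_dvd_pow q0 h3).trans ((Nat.ordProj_dvd g q0).trans hgp))
    have d2 : ((q0 ^ g.factorization q0 : ℕ) : ℤ) ∣ (c : ℤ) - e0 :=
      (Int.natCast_dvd_natCast.2 (pow_dvd_pow q0 ha)).trans h2
    have hco : IsCoprime ((q0 ^ g.factorization q0 : ℕ) : ℤ)
        ((g / q0 ^ g.factorization q0 : ℕ) : ℤ) :=
      Nat.isCoprime_iff_coprime.2 ((Nat.coprime_ordCompl hq0 hg0).pow_left _)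
    have h4 := hco.mul_dvd d2 d1
    rw [← Nat.cast_mul, Nat.ordProj_mul_ordCompl_eq_self] at h4
    exact h4

theorem am_self (w c : ℕ) (hw : 20 ≤ w) : AM (Ww w) c c (1 - 1 / 1000) := by
  refine am_gen (Ww w) c c ((range (w + 1)).filter Nat.Prime)
    (fun b => b ^ ((Ww w).factorization b + 1)) ?_ _ ?_ ?_
  · intro b hb
    exact pow_pos (Finset.mem_filter.1 hb).2.pos _
  · have := small_sum w hw
    linarith
  · intro p hp hall
    refine ⟨?_, cop_part w p hp hall⟩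
    rw [sub_self]
    exact dvd_zero _

end Pool.Agent.BDN
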