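import Mathlib
import Pool.Agent.BDN.DefsB

/-!
Reducibility of Bernoulli polynomials in terms of the degrees of their monic divisors, and the
divisibility of these degrees by powers of two and three.
-/

namespace Pool.Agent.BDN

open Polynomial Finset

theorem irr_iff (n : ℕ) (hn : 1 ≤ n) :
    ¬ Irreducible (Polynomial.bernoulli n) ↔ ∃ D : ℕ, 1 ≤ D ∧ D ≤ n / 2 ∧ Fac n D := by
  have hm := Pool.Agent.Helper29.monic_bernoulli n
  have hd := Pool.Agent.Helper29.natDegree_bernoulli n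
  have h1 : Polynomial.bernoulli n ≠ 1 := by
    intro h
    rw [h, natDegree_one] at hd
    omega
  rw [hm.irreducible_iff_lt_natDegree_lt h1, hd]
  push Not
  constructor
  · rintro ⟨q, hq, hqd, hdvd⟩
    rw [mem_Ioc] at hqd
    exact ⟨q.natDegree, by omega, hqd.2, q, hq, hdvd, rfl⟩
  · rintro ⟨D, hD1, hD2, H, hH, hdvd, hHD⟩
    exact ⟨H, hH, mem_Ioc.2 ⟨by omega, by omega⟩, hdvd⟩

theorem fac_dvd (n D a b : ℕ) (hn : 0 < n) (he : Even n) (ha : 2 ^ a ∣ n) (hb : 3 ^ b ∣ n)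
    (h : Fac n D) : 2 ^ a * 3 ^ b ∣ D := by
  obtain ⟨H, -, hdvd, hHD⟩ := h
  have h2 := Pool.Agent.Helper29.two_part hn he hdvd
  have h3 := Pool.Agent.Helper29.three_part hn he hdvd
  rw [hHD] at h2 h3
  have h2' : 2 ^ a ∣ D := (pow_dvd_pow 2
    ((Nat.prime_two.pow_dvd_iff_le_factorization hn.ne').1 ha)).trans h2
  have h3' : 3 ^ b ∣ D := (pow_dvd_pow 3
    ((Nat.prime_three.pow_dvd_iff_le_factorization hn.ne').1 hb)).trans h3
  exact Nat.Coprime.mul_dvd_of_dvd_of_dvd (Nat.Coprime.pow _ _ (by norm_num)) h2' h3'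

end Pool.Agent.BDN
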