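import Mathlib
import Pool.Agent.BDN.DefsB

/-!
BDN-CA. Counting integers of `(N/2, N]` in residue classes.

PLAN. `NN N W c` are the `n` in `(N/2, N]` (`N/2` = floor) with `n % W = c`. For coprime `W`, `r`, the conditions
`n ≡ c (W)`, `n ≡ e (r)` are one class modulo `W r` (`Nat.chineseRemainder`); an interval of `M = N - N/2` consecutive integers
contains at least `M/(W r) - 1` and at most `M/(W r) + 1` elements of a class (`Nat.count_modEq_card`,
`Int.Ioc_filter_modEq_card`, `Nat.Ioc_filter_modEq_card`, or Pool.Agent.Helper24.abs_card_modEq_sub_le), `N/2 ≤ M ≤ (N + 1)/2` (real).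
`cnt_upper`: if the set is nonempty (contains `n1`) it is contained in the class of `n1` modulo `W lcm(r, r')`:
at most `(N+1)/(2 W l) + 1 ≤ N/(2 W l) + 2`. `cnt_zero`: `n ≡ e`, `n ≡ e'` modulo `gcd r r'`.
`alw_iff`: with `g = gcd (p-1) W`, `p - 1 = g r`: `g ∣ W`, so `n ≡ c`, `e ≡ e0` modulo `g`, and `g ∣ c - e0`, so
`n ≡ e` modulo `g` always; `gcd(g, r) = 1` as `r` is coprime to `W`. So `n ≡ e` modulo `g r` iff modulo `r`
(`Nat.modEq_and_modEq_iff_modEq_mul`).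
-/

namespace Pool.Agent.BDN

open Finset

private theorem ca_abs (A M v r : ℕ) (hr : 0 < r) :
    |(((Ioc A (A + M)).filter (fun m => m ≡ v [MOD r])).card : ℝ) - (M : ℝ) / r| ≤ 1 := by
  have h := Nat.Ioc_filter_modEq_card A (A + M) hr v
  set N := ((Ioc A (A + M)).filter (fun m => m ≡ v [MOD r])).card with hN
  have hrq : (0 : ℚ) < r := by exact_mod_cast hr
  have e : ((A + M : ℕ) : ℚ) - v = ((A : ℚ) - v) + M := by push_cast; ring
  rw [e, add_div] at h
  set u : ℚ := ((A : ℚ) - v) / r with hu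
  set t : ℚ := (M : ℚ) / r with ht
  have ht0 : 0 ≤ t := by positivity
  have hmono : ⌊u⌋ ≤ ⌊u + t⌋ := Int.floor_le_floor (by linarith)
  rw [max_eq_left (by linarith)] at h
  have h1 := Int.floor_le u
  have h2 := Int.lt_floor_add_one u
  have h3 := Int.floor_le (u + t)
  have h4 := Int.lt_floor_add_one (u + t)
  have h' : ((N : ℤ) : ℚ) = ((⌊u + t⌋ - ⌊u⌋ : ℤ) : ℚ) := by rw [h]
  push_cast at h'
  have hq : |(N : ℚ) - t| ≤ 1 := by
    rw [abs_le]
    constructor <;> linarith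
  have hq' : |((((N : ℚ) - t) : ℚ) : ℝ)| ≤ 1 := by
    exact_mod_cast hq
  rw [ht] at hq'
  push_cast at hq'
  exact hq'

/-- one class in `(N/2, N]` -/
private theorem ca_cls (N v r : ℕ) (hr : 0 < r) :
    (N : ℝ) / (2 * r) - 1 ≤ (((Ioc (N / 2) N).filter (fun m => m ≡ v [MOD r])).card : ℝ) ∧
    (((Ioc (N / 2) N).filter (fun m => m ≡ v [MOD r])).card : ℝ) ≤ (N : ℝ) / (2 * r) + 2 := by
  have h := ca_abs (N / 2) (N - N / 2) v r hr
  have e : N / 2 + (N - N / 2) = N := by omega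
  rw [e, abs_le] at h
  have h1 : (N : ℝ) / 2 ≤ ((N - N / 2 : ℕ) : ℝ) := by
    have : N ≤ 2 * (N - N / 2) := by omega
    have h2 : (N : ℝ) ≤ 2 * ((N - N / 2 : ℕ) : ℝ) := by exact_mod_cast this
    linarith
  have h2 : ((N - N / 2 : ℕ) : ℝ) ≤ ((N : ℝ) + 1) / 2 := by
    have : 2 * (N - N / 2) ≤ N + 1 := by omega
    have h2 : 2 * ((N - N / 2 : ℕ) : ℝ) ≤ N + 1 := by exact_mod_cast this
    linarith
  have hr1 : (1 : ℝ) ≤ r := by exact_mod_cast hr
  have hr0 : (0 : ℝ) < r := by linarith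
  have h3 : (N : ℝ) / (2 * r) ≤ ((N - N / 2 : ℕ) : ℝ) / r := by
    rw [← div_div]
    exact div_le_div_of_nonneg_right h1 hr0.le
  have h4 : ((N - N / 2 : ℕ) : ℝ) / r ≤ (N : ℝ) / (2 * r) + 1 / (2 * r) := by
    calc ((N - N / 2 : ℕ) : ℝ) / r ≤ (((N : ℝ) + 1) / 2) / r := div_le_div_of_nonneg_right h2 hr0.le
      _ = (N : ℝ) / (2 * r) + 1 / (2 * r) := by
        field_simp
  have h5 : (1 : ℝ) / (2 * r) ≤ 1 := by
    rw [div_le_one (by linarith)]
    linarith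
  constructor <;> linarith [h.1, h.2]

open Classical in
theorem cnt_lower (W r c e N : ℕ) (hW : 0 < W) (hr : 0 < r) (hco : Nat.Coprime W r) (hc : c < W) :
    (N : ℝ) / (2 * ((W : ℝ) * r)) - 1 ≤
      (((NN N W c).filter (fun n => n ≡ e [MOD r])).card : ℝ) := by
  obtain ⟨v, hv1, hv2⟩ := Nat.chineseRemainder hco c e
  have h := (ca_cls N v (W * r) (Nat.mul_pos hW hr)).1
  rw [Nat.cast_mul] at h
  refine h.trans ?_
  have hsub : (Ioc (N / 2) N).filter (fun m => m ≡ v [MOD W * r]) ⊆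
      (NN N W c).filter (fun n => n ≡ e [MOD r]) := by
    intro n hn
    rw [mem_filter] at hn
    unfold NN
    rw [mem_filter, mem_filter]
    have h1 : n ≡ v [MOD W] := hn.2.of_mul_right r
    have h2 : n ≡ v [MOD r] := hn.2.of_mul_left W
    refine ⟨⟨hn.1, ?_⟩, h2.trans hv2⟩
    have h3 : n ≡ c [MOD W] := h1.trans hv1
    have h4 : n % W = c % W := h3
    rw [h4, Nat.mod_eq_of_lt hc]
  exact_mod_cast card_le_card hsub

open Classical in
theorem cnt_upper (W r r' c e e' N : ℕ) (hW : 0 < W) (hr : 0 < r) (hr' : 0 < r')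
    (hco : Nat.Coprime W r) (hco' : Nat.Coprime W r') :
    (((NN N W c).filter (fun n => n ≡ e [MOD r] ∧ n ≡ e' [MOD r'])).card : ℝ) ≤
      (N : ℝ) / (2 * ((W : ℝ) * (Nat.lcm r r' : ℕ))) + 2 := by
  rcases Finset.eq_empty_or_nonempty ((NN N W c).filter (fun n => n ≡ e [MOD r] ∧ n ≡ e' [MOD r']))
    with h0 | ⟨n1, h1⟩
  · rw [h0, card_empty, Nat.cast_zero]
    positivity
  · have hl : 0 < Nat.lcm r r' := Nat.lcm_pos hr hr'
    have h := (ca_cls N n1 (W * Nat.lcm r r') (Nat.mul_pos hW hl)).2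
    rw [Nat.cast_mul] at h
    refine le_trans ?_ h
    have hsub : (NN N W c).filter (fun n => n ≡ e [MOD r] ∧ n ≡ e' [MOD r']) ⊆
        (Ioc (N / 2) N).filter (fun m => m ≡ n1 [MOD W * Nat.lcm r r']) := by
      intro n hn
      unfold NN at hn h1
      rw [mem_filter, mem_filter] at hn h1
      rw [mem_filter]
      refine ⟨hn.1.1, ?_⟩
      have h2 : n ≡ n1 [MOD W] := by
        show n % W = n1 % W
        rw [hn.1.2, h1.1.2]
      have h3 : n ≡ n1 [MOD r] := hn.2.1.trans h1.2.1.symm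
      have h4 : n ≡ n1 [MOD r'] := hn.2.2.trans h1.2.2.symm
      have h5 : n ≡ n1 [MOD Nat.lcm r r'] := by
        rw [Nat.modEq_iff_dvd] at h3 h4 ⊢
        exact Int.natCast_dvd.2 (Nat.lcm_dvd (Int.natCast_dvd.1 h3) (Int.natCast_dvd.1 h4))
      have h6 : Nat.Coprime W (Nat.lcm r r') :=
        Nat.Coprime.coprime_dvd_right (Nat.lcm_dvd_mul r r') (Nat.Coprime.mul_right hco hco')
      exact (Nat.modEq_and_modEq_iff_modEq_mul h6).1 ⟨h2, h5⟩
    exact_mod_cast card_le_card hsub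

open Classical in
theorem cnt_zero (W r r' c e e' N : ℕ) (h : ¬ e ≡ e' [MOD (Nat.gcd r r')]) :
    ((NN N W c).filter (fun n => n ≡ e [MOD r] ∧ n ≡ e' [MOD r'])).card = 0 := by
  rw [card_eq_zero, filter_eq_empty_iff]
  rintro n - ⟨h1, h2⟩
  apply h
  exact (h1.of_dvd (Nat.gcd_dvd_left r r')).symm.trans (h2.of_dvd (Nat.gcd_dvd_right r r'))

theorem cnt_all (W c N : ℕ) (hW : 0 < W) : ((NN N W c).card : ℝ) ≤ (N : ℝ) / (2 * W) + 2 := by
  have h := (ca_cls N c W hW).2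
  refine le_trans ?_ h
  have hsub : NN N W c ⊆ (Ioc (N / 2) N).filter (fun m => m ≡ c [MOD W]) := by
    intro n hn
    unfold NN at hn
    rw [mem_filter] at hn ⊢
    refine ⟨hn.1, ?_⟩
    show n % W = c % W
    rw [← hn.2, Nat.mod_mod]
  exact_mod_cast card_le_card hsub

theorem alw_iff (W c e0 p n e : ℕ) (hW : 0 < W) (hp : 2 ≤ p) (h : Alw W c e0 p) (hn : n % W = c)
    (he : e % W = e0) : n ≡ e [MOD (p - 1)] ↔ n ≡ e [MOD ((p - 1) / Nat.gcd (p - 1) W)] := by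
  obtain ⟨h1, h2⟩ := h
  set g := Nat.gcd (p - 1) W with hg
  have hgp : g ∣ p - 1 := Nat.gcd_dvd_left _ _
  have hgW : g ∣ W := Nat.gcd_dvd_right _ _
  obtain ⟨r, hr⟩ := hgp
  have hg0 : 0 < g := Nat.gcd_pos_of_pos_right _ hW
  have hr' : (p - 1) / g = r := by rw [hr, Nat.mul_div_cancel_left _ hg0]
  rw [hr'] at h2 ⊢
  have h3 : n ≡ e [MOD g] := by
    rw [Nat.modEq_iff_dvd]
    have h4 : (g : ℤ) ∣ (n : ℤ) - c := by
      have h5 : n ≡ c [MOD W] := by
        show n % W = c % W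
        rw [← hn, Nat.mod_mod]
      have h6 := (Nat.modEq_iff_dvd.1 (h5.of_dvd hgW).symm)
      exact h6
    have h5 : (g : ℤ) ∣ (e : ℤ) - e0 := by
      have h5 : e ≡ e0 [MOD W] := by
        show e % W = e0 % W
        rw [← he, Nat.mod_mod]
      exact Nat.modEq_iff_dvd.1 (h5.of_dvd hgW).symm
    have h6 : (e : ℤ) - n = ((e : ℤ) - e0) - ((c : ℤ) - e0) - ((n : ℤ) - c) := by ring
    rw [h6]
    exact (h5.sub h1).sub h4
  have hco : Nat.Coprime g r := (Nat.Coprime.coprime_dvd_right hgW h2).symm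
  rw [hr, ← Nat.modEq_and_modEq_iff_modEq_mul hco]
  exact ⟨fun h => h.2, fun h => ⟨h3, h⟩⟩

end Pool.Agent.BDN
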