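import Mathlib
import Pool.Agent.BDN.AD
import Pool.Agent.BDN.CA

/-!
BDN-AR. A family from one block in which not too many `B_e` are reducible; good classes are rich.

PLAN. `W = Ww w > 0`. `N = ⌊X^γ⌋₊`, `X` large (depending on `w`, `γ`), `I = {e ∈ NN N W e0 : B_e irreducible}`, `u = 1/#I`.
`#NN N W e0 ≥ N/(2W) - 1` (`cnt_lower` with `r = 1`), so `#I ≥ N/(2W) - 1 - 3N/(10W) = N/(5W) - 1 ≥ N/(6W) > 0`.
* `cls`: definition of `NN`. `lo`: `e > N/2 ≥ (X^γ - 2)/2 ≥ X^.44`, as `γ ≥ .441`. `hi`: `e ≤ N ≤ X^γ ≤ X^.49`.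
* `le`: `1/#I ≤ 6W/N ≤ X^(-.44)`.
* `eq`: `e % W = e0`, `e % g = r`, `gcd(g, W) = 1`: `cnt_upper` with `r = g`, `r' = 1` (if `e % g = r` then
  `e ≡ r [MOD g]`): `≤ N/(2 W g) + 2`; divided by `#I ≥ N/(6W)`: `≤ 3/g + 12 W/N ≤ 10/φ(g) + X^(-.06)`
  (`φ(g) ≤ g`; `12 W/N ≤ X^(-.06)` for large `X`).
`rich_of_good`: `γ = 465/1000`; for `e` in the block, `¬ Irreducible` implies `∃ D, 1 ≤ D ≤ e/2, Fac e D` (`irr_iff`), so
the number of reducible ones is `≤ κ N/W ≤ (3/10) N/W` for `N ≥ N0`.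
-/

namespace Pool.Agent.BDN

open Finset

private theorem ar_Wpos (w : ℕ) : 0 < Ww w := by
  unfold Ww
  exact pow_pos (Nat.factorial_pos w) w

private theorem ar_large (K : ℝ) (γ : ℝ) (h1 : 441 / 1000 ≤ γ) : ∃ X0 : ℝ, ∀ X : ℝ, X0 ≤ X →
    1 ≤ X ∧ K ≤ X ^ (1 / 1000 : ℝ) ∧ K * X ^ (44 / 100 : ℝ) ≤ X ^ γ := by
  have ht := (tendsto_rpow_atTop (y := (1 / 1000 : ℝ)) (by norm_num)).eventually_ge_atTop K
  obtain ⟨X0, hX0⟩ := Filter.eventually_atTop.1 (ht.and (Filter.eventually_ge_atTop (1 : ℝ)))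
  refine ⟨X0, fun X hX => ?_⟩
  obtain ⟨h2, h3⟩ := hX0 X hX
  refine ⟨h3, h2, ?_⟩
  have hX0' : 0 < X := by linarith
  calc K * X ^ (44 / 100 : ℝ) ≤ X ^ (1 / 1000 : ℝ) * X ^ (44 / 100 : ℝ) :=
        mul_le_mul_of_nonneg_right h2 (Real.rpow_nonneg hX0'.le _)
    _ = X ^ (441 / 1000 : ℝ) := by
        rw [← Real.rpow_add hX0']
        norm_num
    _ ≤ X ^ γ := Real.rpow_le_rpow_of_exponent_le h3 h1

open Classical in
theorem fam_block (w : ℕ) (hw : 2 ≤ w) (γ : ℝ) (h1 : 441 / 1000 ≤ γ) (h2 : γ ≤ 489 / 1000) :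
    ∃ X0 : ℝ, ∀ X : ℝ, X0 ≤ X → ∀ e0 : ℕ, e0 < Ww w →
      (((NN ⌊X ^ γ⌋₊ (Ww w) e0).filter (fun e => ¬ Irreducible (Polynomial.bernoulli e))).card : ℝ) ≤
        3 / 10 * ((⌊X ^ γ⌋₊ : ℝ) / (Ww w : ℝ)) →
      ∃ (I : Finset ℕ) (u : ℕ → ℝ), Fam (Ww w) e0 10 X I u ∧
        ∀ e ∈ I, Irreducible (Polynomial.bernoulli e) := by
  have hW := ar_Wpos w
  have hWr : (1 : ℝ) ≤ (Ww w : ℝ) := by exact_mod_cast hW
  obtain ⟨X0, hX0⟩ := ar_large (100 * (Ww w : ℝ)) γ h1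
  refine ⟨X0, fun X hX e0 he0 hred => ?_⟩
  obtain ⟨hX1, hK, hKY⟩ := hX0 X hX
  have hXp : 0 < X := by linarith
  set N := ⌊X ^ γ⌋₊ with hN
  have hY0 : 0 ≤ X ^ γ := Real.rpow_nonneg hXp.le _
  have hNle : (N : ℝ) ≤ X ^ γ := Nat.floor_le hY0
  have hNlt : X ^ γ < (N : ℝ) + 1 := Nat.lt_floor_add_one _
  have h44 : 1 ≤ X ^ (44 / 100 : ℝ) := Real.one_le_rpow hX1 (by norm_num)
  have hY : 100 * (Ww w : ℝ) ≤ X ^ γ := by nlinarith
  have hNbig : X ^ γ ≤ 2 * (N : ℝ) := by linarith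
  have hN50 : 50 * (Ww w : ℝ) ≤ N := by linarith
  have hNpos : (0 : ℝ) < N := by linarith
  set I := (NN N (Ww w) e0).filter (fun e => Irreducible (Polynomial.bernoulli e)) with hI
  have hcard : (N : ℝ) / (6 * (Ww w : ℝ)) ≤ (I.card : ℝ) := by
    have h3 := cnt_lower (Ww w) 1 e0 0 N hW one_pos (Nat.coprime_one_right _) he0
    have h4 : (((NN N (Ww w) e0).filter (fun n => n ≡ 0 [MOD 1])).card : ℝ) ≤
        ((NN N (Ww w) e0).card : ℝ) := by
      exact_mod_cast card_le_card (filter_subset _ _)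
    have h5 := card_filter_add_card_filter_not (s := NN N (Ww w) e0)
      (fun e => Irreducible (Polynomial.bernoulli e))
    have h5' : (I.card : ℝ) + (((NN N (Ww w) e0).filter
        (fun e => ¬ Irreducible (Polynomial.bernoulli e))).card : ℝ) =
        ((NN N (Ww w) e0).card : ℝ) := by exact_mod_cast h5
    have e1 : (N : ℝ) / (2 * ((Ww w : ℝ) * (1 : ℕ))) = 15 * ((N : ℝ) / (30 * (Ww w : ℝ))) := by
      push_cast
      field_simp
      ring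
    have e2 : (N : ℝ) / (6 * (Ww w : ℝ)) = 5 * ((N : ℝ) / (30 * (Ww w : ℝ))) := by
      field_simp
      ring
    have e3 : 3 / 10 * ((N : ℝ) / (Ww w : ℝ)) = 9 * ((N : ℝ) / (30 * (Ww w : ℝ))) := by
      field_simp
      ring
    have e4 : 1 ≤ (N : ℝ) / (30 * (Ww w : ℝ)) := by
      rw [one_le_div (by positivity)]
      linarith
    rw [e1] at h3
    rw [e3] at hred
    rw [e2]
    linarith
  have hcpos : 0 < (I.card : ℝ) := lt_of_lt_of_le (by positivity) hcard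
  have hinv : (1 : ℝ) / (I.card : ℝ) ≤ 6 * (Ww w : ℝ) / N := by
    have h3 := one_div_le_one_div_of_le (by positivity) hcard
    rwa [one_div_div] at h3
  have hlast : 24 * (Ww w : ℝ) / (2 * N) ≤ X ^ (-(44 / 100) : ℝ) := by
    rw [Real.rpow_neg hXp.le, ← one_div, div_le_div_iff₀ (by linarith) (by linarith)]
    nlinarith
  refine ⟨I, fun _ => 1 / (I.card : ℝ), ⟨?_, ?_, ?_, ?_, ?_, ?_, ?_⟩, ?_⟩
  · intro e he
    have h3 := (mem_filter.1 he).1
    unfold NN at h3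
    exact (mem_filter.1 h3).2
  · intro e he
    have h3 := (mem_filter.1 he).1
    unfold NN at h3
    have h4 := (mem_Ioc.1 (mem_filter.1 h3).1).1
    have h5 : N + 1 ≤ 2 * e := by omega
    have h6 : (N : ℝ) + 1 ≤ 2 * (e : ℝ) := by exact_mod_cast h5
    nlinarith
  · intro e he
    have h3 := (mem_filter.1 he).1
    unfold NN at h3
    have h4 := (mem_Ioc.1 (mem_filter.1 h3).1).2
    have h5 : (e : ℝ) ≤ N := by exact_mod_cast h4
    exact (h5.trans hNle).trans (Real.rpow_le_rpow_of_exponent_le hX1 (by linarith))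
  · intro e _
    positivity
  · intro e _
    refine hinv.trans (le_trans ?_ hlast)
    rw [div_le_div_iff₀ hNpos (by linarith)]
    nlinarith
  · rw [sum_const, nsmul_eq_mul, mul_one_div, div_self hcpos.ne']
  · intro g r hg hgW _
    rw [sum_const, nsmul_eq_mul, mul_one_div]
    have hgr : (1 : ℝ) < g := by exact_mod_cast hg
    have h3 := cnt_upper (Ww w) g 1 e0 r 0 N hW (by omega) one_pos hgW.symm
      (Nat.coprime_one_right _)
    rw [Nat.lcm_one_right] at h3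
    have hsub : I.filter (fun e => e % g = r) ⊆
        (NN N (Ww w) e0).filter (fun n => n ≡ r [MOD g] ∧ n ≡ 0 [MOD 1]) := by
      intro e he
      rw [mem_filter] at he ⊢
      refine ⟨(mem_filter.1 he.1).1, ?_, Nat.modEq_one⟩
      show e % g = r % g
      rw [← he.2, Nat.mod_mod]
    have h4 : ((I.filter (fun e => e % g = r)).card : ℝ) ≤
        (N : ℝ) / (2 * ((Ww w : ℝ) * (g : ℕ))) + 2 :=
      le_trans (by exact_mod_cast card_le_card hsub) h3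
    have hφ : (Nat.totient g : ℝ) ≤ g := by exact_mod_cast Nat.totient_le g
    have hφ0 : (0 : ℝ) < Nat.totient g := by exact_mod_cast Nat.totient_pos.2 (by omega)
    have h5 : ((I.filter (fun e => e % g = r)).card : ℝ) / (I.card : ℝ) ≤
        ((N : ℝ) / (2 * ((Ww w : ℝ) * (g : ℕ))) + 2) * (6 * (Ww w : ℝ) / N) := by
      rw [div_eq_mul_one_div]
      exact mul_le_mul h4 hinv (by positivity) (by positivity)
    have h6 : ((N : ℝ) / (2 * ((Ww w : ℝ) * (g : ℕ))) + 2) * (6 * (Ww w : ℝ) / N) =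
        3 / (g : ℝ) + 24 * (Ww w : ℝ) / (2 * N) := by
      field_simp
      ring
    have h7 : 3 / (g : ℝ) ≤ 10 / (Nat.totient g : ℝ) := by
      rw [div_le_div_iff₀ (by linarith) hφ0]
      nlinarith
    have h8 : X ^ (-(44 / 100) : ℝ) ≤ X ^ (-(6 / 100) : ℝ) :=
      Real.rpow_le_rpow_of_exponent_le hX1 (by norm_num)
    linarith
  · intro e he
    exact (mem_filter.1 he).2

theorem rich_of_good (w c : ℕ) (κ : ℝ) (hw : 2 ≤ w) (hc : c < Ww w) (hκ : κ ≤ 3 / 10)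
    (h : NoF w c κ (fun _ => True)) : Rich w c 10 := by
  classical
  obtain ⟨X0, hX0⟩ := fam_block w hw (465 / 1000) (by norm_num) (by norm_num)
  obtain ⟨N0, hN0⟩ := h
  have ht := (tendsto_rpow_atTop (y := (465 / 1000 : ℝ)) (by norm_num)).eventually_ge_atTop (N0 : ℝ)
  obtain ⟨X1, hX1⟩ := Filter.eventually_atTop.1 ht
  refine ⟨max X0 X1, fun X hX => hX0 X ((le_max_left _ _).trans hX) c hc ?_⟩
  have h1 : (N0 : ℝ) ≤ X ^ (465 / 1000 : ℝ) := hX1 X ((le_max_right _ _).trans hX)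
  have h2 : N0 ≤ ⌊X ^ (465 / 1000 : ℝ)⌋₊ := Nat.le_floor h1
  have h3 := hN0 _ h2
  have h4 : (0 : ℝ) ≤ (⌊X ^ (465 / 1000 : ℝ)⌋₊ : ℝ) / (Ww w : ℝ) := by positivity
  refine le_trans ?_ (h3.trans (mul_le_mul_of_nonneg_right hκ h4))
  have hsub : (NN ⌊X ^ (465 / 1000 : ℝ)⌋₊ (Ww w) c).filter
      (fun e => ¬ Irreducible (Polynomial.bernoulli e)) ⊆
      (NN ⌊X ^ (465 / 1000 : ℝ)⌋₊ (Ww w) c).filter
        (fun n => ∃ D : ℕ, 1 ≤ D ∧ D ≤ n / 2 ∧ True ∧ Fac n D) := by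
    intro e he
    rw [mem_filter] at he ⊢
    refine ⟨he.1, ?_⟩
    have h5 := he.1
    unfold NN at h5
    have h6 := (mem_Ioc.1 (mem_filter.1 h5).1).1
    obtain ⟨D, hD1, hD2, hD3⟩ := (irr_iff e (by omega)).1 he.2
    exact ⟨D, hD1, hD2, trivial, hD3⟩
  have h5 := card_le_card hsub
  convert (Nat.cast_le (α := ℝ)).2 h5

end Pool.Agent.BDN
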