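import Mathlib
import Pool.Agent.BDN.DefsB

/-!
The counts `rp` and `nzf` as cardinalities of sets of natural numbers.
-/

namespace Pool.Agent.BDN

open Polynomial Finset Pool.Agent.Helper29

open Classical in
theorem rp_eq (p e : ℕ) : rp p e = ((range p).filter (fun a : ℕ =>
    PI p ((Polynomial.bernoulli e).eval (a : ℚ) / p))).card := by
  unfold rp
  symm
  refine Finset.card_bij (fun (a : ℕ) _ => (a : ℚ)) ?_ ?_ ?_
  · intro a ha
    rw [Finset.mem_filter] at ha
    rw [Finset.mem_filter]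
    refine ⟨?_, ha.2⟩
    exact (@Finset.mem_sup ℚ ℕ (fun _ _ => Classical.propDecidable _) (range p)
      (fun b : ℕ => ({(b : ℚ)} : Finset ℚ)) _).2
      ⟨a, ha.1, Finset.mem_singleton_self _⟩
  · intro a _ b _ hab
    exact_mod_cast hab
  · intro q hq
    rw [Finset.mem_filter] at hq
    obtain ⟨b, hb, hqb⟩ := (@Finset.mem_sup ℚ ℕ (fun _ _ => Classical.propDecidable _) (range p)
      (fun b : ℕ => ({(b : ℚ)} : Finset ℚ)) _).1 hq.1
    have hqb' : q = (b : ℚ) := Finset.mem_singleton.1 hqb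
    refine ⟨b, ?_, hqb'.symm⟩
    rw [Finset.mem_filter]
    exact ⟨hb, hqb' ▸ hq.2⟩

open Classical in
theorem nzf_eq (f : ℤ[X]) (p : ℕ) : nzf f p = ((range p).filter (fun a : ℕ =>
    (p : ℤ) ∣ f.eval (a : ℤ))).card := by
  unfold nzf
  symm
  refine Finset.card_bij (fun (a : ℕ) _ => (a : ℤ)) ?_ ?_ ?_
  · intro a ha
    rw [Finset.mem_filter] at ha
    rw [Finset.mem_filter]
    refine ⟨?_, ha.2⟩
    exact (@Finset.mem_sup ℤ ℕ (fun _ _ => Classical.propDecidable _) (range p)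
      (fun b : ℕ => ({(b : ℤ)} : Finset ℤ)) _).2
      ⟨a, ha.1, Finset.mem_singleton_self _⟩
  · intro a _ b _ hab
    exact_mod_cast hab
  · intro q hq
    rw [Finset.mem_filter] at hq
    obtain ⟨b, hb, hqb⟩ := (@Finset.mem_sup ℤ ℕ (fun _ _ => Classical.propDecidable _) (range p)
      (fun b : ℕ => ({(b : ℤ)} : Finset ℤ)) _).1 hq.1
    have hqb' : q = (b : ℤ) := Finset.mem_singleton.1 hqb
    refine ⟨b, ?_, hqb'.symm⟩
    rw [Finset.mem_filter]
    exact ⟨hb, hqb' ▸ hq.2⟩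

end Pool.Agent.BDN
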