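import Pool.Agent.BDT.BInt
import Pool.Agent.BDT.LAvg

/-!
# BDL-LBern (1.1h): lattice bound for the zeros of Bernoulli polynomials (file Pool/Agent/BDN/LBern.lean)

`f, d` from `bern_int` (irreducible over `ℚ`: unit multiple), `P` = the primes `p ≤ Y` with `p ≥ e + 2`, `B = ⌈Y^((1+ε/4)/e)⌉`, then `lavg`.
-/

open Polynomial Finset Pool.Agent.BDT

namespace Pool.Agent.BDN

private theorem h1 (K δ : ℝ) (hK : 0 < K) (hδ : 0 < δ) : ∃ L0 : ℝ, ∀ L : ℝ, L0 ≤ L → ∀ e : ℕ, 1 ≤ e →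
    (e : ℝ) ≤ L ^ (493 / 1000 : ℝ) → K * ((e : ℝ) + 1) ^ 2 * (Real.log (e + 1) + 1) ≤ δ * L := by
  set M : ℝ := 51 * K * (2 : ℝ) ^ (101 / 50 : ℝ) / δ with hM
  have hM0 : 0 < M := by positivity
  obtain ⟨L1, hL1⟩ := Filter.eventually_atTop.1
    ((tendsto_rpow_atTop (show (0 : ℝ) < 1 - 493 / 1000 * (101 / 50) by norm_num)).eventually_ge_atTop M)
  refine ⟨max L1 1, fun L hL e he heL => ?_⟩
  have hL0 : 1 ≤ L := (le_max_right _ _).trans hL
  have hLM : M ≤ L ^ (1 - 493 / 1000 * (101 / 50) : ℝ) := hL1 L ((le_max_left _ _).trans hL)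
  have he1 : (1 : ℝ) ≤ e := by exact_mod_cast he
  have hlog : Real.log ((e : ℝ) + 1) ≤ 50 * ((e : ℝ) + 1) ^ (1 / 50 : ℝ) := by
    have := Real.log_le_rpow_div (show (0 : ℝ) ≤ (e : ℝ) + 1 by positivity) (show (0 : ℝ) < 1 / 50 by norm_num)
    refine this.trans (le_of_eq ?_)
    ring
  have hone : (1 : ℝ) ≤ ((e : ℝ) + 1) ^ (1 / 50 : ℝ) := Real.one_le_rpow (by linarith) (by norm_num)
  have h2 : K * ((e : ℝ) + 1) ^ 2 * (Real.log (e + 1) + 1) ≤
      51 * K * ((e : ℝ) + 1) ^ (101 / 50 : ℝ) := by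
    have h3 : ((e : ℝ) + 1) ^ (101 / 50 : ℝ) = ((e : ℝ) + 1) ^ 2 * ((e : ℝ) + 1) ^ (1 / 50 : ℝ) := by
      rw [← Real.rpow_natCast, ← Real.rpow_add (by linarith)]
      norm_num
    rw [h3]
    have h4 : Real.log ((e : ℝ) + 1) + 1 ≤ 51 * ((e : ℝ) + 1) ^ (1 / 50 : ℝ) := by linarith
    calc K * ((e : ℝ) + 1) ^ 2 * (Real.log (e + 1) + 1)
        ≤ K * ((e : ℝ) + 1) ^ 2 * (51 * ((e : ℝ) + 1) ^ (1 / 50 : ℝ)) := by gcongr
      _ = _ := by ring
  have h5 : ((e : ℝ) + 1) ^ (101 / 50 : ℝ) ≤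
      (2 : ℝ) ^ (101 / 50 : ℝ) * L ^ (493 / 1000 * (101 / 50) : ℝ) := by
    have h6 : (e : ℝ) + 1 ≤ 2 * L ^ (493 / 1000 : ℝ) := by linarith
    have h7 := Real.rpow_le_rpow (by positivity) h6 (show (0 : ℝ) ≤ 101 / 50 by norm_num)
    refine h7.trans (le_of_eq ?_)
    rw [Real.mul_rpow (by norm_num) (by positivity), ← Real.rpow_mul (by linarith)]
  have h8 : L = L ^ (1 - 493 / 1000 * (101 / 50) : ℝ) * L ^ (493 / 1000 * (101 / 50) : ℝ) := by
    rw [← Real.rpow_add (by linarith)]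
    norm_num
  calc K * ((e : ℝ) + 1) ^ 2 * (Real.log (e + 1) + 1)
      ≤ 51 * K * ((e : ℝ) + 1) ^ (101 / 50 : ℝ) := h2
    _ ≤ 51 * K * ((2 : ℝ) ^ (101 / 50 : ℝ) * L ^ (493 / 1000 * (101 / 50) : ℝ)) := by gcongr
    _ = δ * (M * L ^ (493 / 1000 * (101 / 50) : ℝ)) := by
        rw [hM]; field_simp
    _ ≤ δ * (L ^ (1 - 493 / 1000 * (101 / 50) : ℝ) * L ^ (493 / 1000 * (101 / 50) : ℝ)) := by gcongr
    _ = δ * L := by rw [← h8]

private theorem small (ε : ℝ) (hε : 0 < ε) (hε1 : ε ≤ 1) : ∃ Y0 : ℝ, ∀ Y : ℕ, Y0 ≤ Y → ∀ e : ℕ, 2 ≤ e → Even e →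
    Irreducible (Polynomial.bernoulli e) → (e : ℝ) ≤ Real.log Y ^ (493 / 1000 : ℝ) →
    ∑ p ∈ (Icc 1 Y).filter (fun p => p.Prime ∧ e + 2 ≤ p), (rp p e : ℝ) * (Real.log p / ((p : ℝ) - 1)) ≤
      (1 + ε) * Real.log Y := by
  obtain ⟨C, hC, hbi⟩ := bern_int
  obtain ⟨L0, hL0⟩ := h1 (C + 2) (ε / 4) (by linarith) (by linarith)
  set T : ℕ := ⌈32 / ε⌉₊ with hT
  have hTε : 32 / ε ≤ (T : ℝ) := Nat.le_ceil _
  have hT32 : (32 : ℝ) ≤ T := by
    refine le_trans ?_ hTε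
    rw [le_div_iff₀ hε]; linarith
  -- conditions on Y
  have ev1 : ∀ᶠ Y : ℕ in Filter.atTop, L0 ≤ Real.log Y :=
    (Real.tendsto_log_atTop.comp tendsto_natCast_atTop_atTop).eventually_ge_atTop L0
  have ev2 : ∀ᶠ Y : ℕ in Filter.atTop, 8 * (T : ℝ) ^ 2 / ε ≤ Real.log Y :=
    (Real.tendsto_log_atTop.comp tendsto_natCast_atTop_atTop).eventually_ge_atTop _
  have ev3 : ∀ᶠ Y : ℕ in Filter.atTop, 16 / ε ≤ (Y : ℝ) ^ (ε / 4) :=
    ((tendsto_rpow_atTop (show (0 : ℝ) < ε / 4 by linarith)).comp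
      tendsto_natCast_atTop_atTop).eventually_ge_atTop _
  obtain ⟨Y1, hY1⟩ := Filter.eventually_atTop.1 (ev1.and (ev2.and (ev3.and (Filter.eventually_ge_atTop 3))))
  refine ⟨Y1, fun Y hY e he2 heven hirr heL => ?_⟩
  obtain ⟨hYL, hYT, hYε, hY3⟩ := hY1 Y (by exact_mod_cast hY)
  set L : ℝ := Real.log Y with hL
  have hY0 : (0 : ℝ) < Y := by
    have : 0 < Y := by omega
    exact_mod_cast this
  have hY1' : (1 : ℝ) ≤ Y := by
    have : 1 ≤ Y := by omega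
    exact_mod_cast this
  have hLpos : 0 ≤ L := Real.log_nonneg hY1'
  obtain ⟨f, d, hd0, hfd, hdeg, hlead, hnd, hl1, hlogl1⟩ := hbi e (by omega)
  have hfirr : Irreducible (f.map (Int.castRingHom ℚ)) := by
    rw [hfd]
    have hdq : (d : ℚ) ≠ 0 := by exact_mod_cast hd0.ne'
    exact (irreducible_isUnit_mul (isUnit_C.2 (isUnit_iff_ne_zero.2 hdq))).2 hirr
  set P := (Icc 1 Y).filter (fun p => p.Prime ∧ e + 2 ≤ p) with hPdef
  have hPmem : ∀ p ∈ P, p.Prime ∧ e + 2 ≤ p ∧ p ≤ Y := by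
    intro p hp
    rw [hPdef, mem_filter, mem_Icc] at hp
    exact ⟨hp.2.1, hp.2.2, hp.1.2⟩
  have hrp : ∀ p ∈ P, rp p e = nzf f p := fun p hp =>
    rp_nzf (hPmem p hp).1 (hnd p (hPmem p hp).1 (hPmem p hp).2.1) hfd
  have heR : (0 : ℝ) < e := by
    have : 0 < e := by omega
    exact_mod_cast this
  have he1R : (1 : ℝ) ≤ e := by
    have : 1 ≤ e := by omega
    exact_mod_cast this
  -- the box
  set β : ℝ := (Y : ℝ) ^ ((1 + ε / 4) / e) with hβ
  have hβ1 : 1 ≤ β := Real.one_le_rpow hY1' (by positivity)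
  set B : ℕ := ⌈β⌉₊ with hB
  have hBge : β ≤ (B : ℝ) := Nat.le_ceil _
  have hB1 : 1 ≤ B := by
    have : (1 : ℝ) ≤ B := hβ1.trans hBge
    exact_mod_cast this
  have hBle : (B : ℝ) ≤ 2 * β := by
    have := (Nat.ceil_lt_add_one (show 0 ≤ β by linarith)).le
    linarith
  have hBpow : (Y : ℝ) ^ (1 + ε / 4) ≤ (B : ℝ) ^ e := by
    calc (Y : ℝ) ^ (1 + ε / 4) = β ^ e := by
          rw [hβ, ← Real.rpow_natCast, ← Real.rpow_mul hY0.le]
          congr 1
          field_simp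
      _ ≤ (B : ℝ) ^ e := by gcongr
  have key := lavg f e (by omega) hdeg hfirr B hB1 P (fun p hp => ⟨(hPmem p hp).1, by
    rw [hlead]
    intro h
    exact hnd p (hPmem p hp).1 (hPmem p hp).2.1 (by exact_mod_cast h)⟩)
  -- right side
  have hlogB : (e : ℝ) * Real.log B ≤ e * Real.log 2 + (1 + ε / 4) * L := by
    have h2 : Real.log B ≤ Real.log 2 + Real.log β := by
      rw [← Real.log_mul (by norm_num) (by linarith)]
      exact Real.log_le_log (by exact_mod_cast hB1) hBle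
    have h3 : Real.log β = (1 + ε / 4) / e * L := by
      rw [hβ, Real.log_rpow hY0]
    have h4 : (e : ℝ) * Real.log β = (1 + ε / 4) * L := by
      rw [h3]; field_simp
    calc (e : ℝ) * Real.log B ≤ e * (Real.log 2 + Real.log β) := by gcongr
      _ = e * Real.log 2 + e * Real.log β := by ring
      _ = _ := by rw [h4]
  have hloge1 : 0 ≤ Real.log ((e : ℝ) + 1) := Real.log_nonneg (by linarith)
  have hrhs : (e : ℝ) * Real.log (l1 f) + e * Real.log (e * B) ≤ (1 + ε / 2) * L := by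
    have h2 : Real.log ((e : ℝ) * B) = Real.log e + Real.log B :=
      Real.log_mul (by linarith) (by
        have : (1 : ℝ) ≤ B := by exact_mod_cast hB1
        linarith)
    have h3 : (e : ℝ) * Real.log (l1 f) ≤ C * ((e : ℝ) + 1) ^ 2 * Real.log ((e : ℝ) + 1) := by
      calc (e : ℝ) * Real.log (l1 f) ≤ ((e : ℝ) + 1) * (C * (e + 1) * Real.log (e + 1)) := by
            have h0 : 0 ≤ Real.log (l1 f) := Real.log_nonneg hl1
            gcongr
            linarith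
        _ = _ := by ring
    have h4 : (e : ℝ) * Real.log e ≤ ((e : ℝ) + 1) ^ 2 * Real.log ((e : ℝ) + 1) := by
      have h5 : Real.log (e : ℝ) ≤ Real.log ((e : ℝ) + 1) := Real.log_le_log heR (by linarith)
      have h6 : (e : ℝ) ≤ ((e : ℝ) + 1) ^ 2 := by nlinarith
      calc (e : ℝ) * Real.log e ≤ e * Real.log ((e : ℝ) + 1) := by gcongr
        _ ≤ ((e : ℝ) + 1) ^ 2 * Real.log ((e : ℝ) + 1) := by gcongr
    have h7 : (e : ℝ) * Real.log 2 ≤ ((e : ℝ) + 1) ^ 2 := by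
      have : Real.log 2 ≤ 1 := by linarith [Real.log_two_lt_d9]
      nlinarith
    have h8 := hL0 L hYL e (by omega) heL
    rw [h2]
    nlinarith
  -- left side
  have hYpos : (0 : ℝ) < (Y : ℝ) ^ (ε / 4) := by positivity
  have hleft : ∀ p ∈ P, (1 - ε / 16) * ((nzf f p : ℝ) * Real.log p / p) ≤
      (nzf f p : ℝ) * Real.log p * (1 / (p : ℝ) - 1 / (B : ℝ) ^ e) := by
    intro p hp
    obtain ⟨hpp, hpe, hpY⟩ := hPmem p hp
    have hp0 : (0 : ℝ) < p := by exact_mod_cast hpp.pos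
    have hp1 : (1 : ℝ) ≤ p := by exact_mod_cast hpp.one_lt.le
    have hlogp : 0 ≤ Real.log p := Real.log_nonneg hp1
    have h2 : 1 / (B : ℝ) ^ e ≤ ε / 16 * (1 / p) := by
      have h3 : (p : ℝ) * (16 / ε) ≤ (B : ℝ) ^ e := by
        calc (p : ℝ) * (16 / ε) ≤ Y * (Y : ℝ) ^ (ε / 4) := by
              have : (p : ℝ) ≤ Y := by exact_mod_cast hpY
              gcongr
          _ = (Y : ℝ) ^ (1 + ε / 4) := by
              rw [Real.rpow_add hY0, Real.rpow_one]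
          _ ≤ (B : ℝ) ^ e := hBpow
      calc 1 / (B : ℝ) ^ e ≤ 1 / ((p : ℝ) * (16 / ε)) :=
            one_div_le_one_div_of_le (by positivity) h3
        _ = ε / 16 * (1 / p) := by field_simp
    have h4 : (0 : ℝ) ≤ (nzf f p : ℝ) * Real.log p := by positivity
    calc (1 - ε / 16) * ((nzf f p : ℝ) * Real.log p / p)
        = (nzf f p : ℝ) * Real.log p * (1 / (p : ℝ) - ε / 16 * (1 / p)) := by ring
      _ ≤ (nzf f p : ℝ) * Real.log p * (1 / (p : ℝ) - 1 / (B : ℝ) ^ e) := by gcongr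
  set S : ℝ := ∑ p ∈ P, (nzf f p : ℝ) * Real.log p / p with hS
  have hSle : (1 - ε / 16) * S ≤ (1 + ε / 2) * L := by
    rw [hS, Finset.mul_sum]
    exact (Finset.sum_le_sum hleft).trans (key.trans hrhs)
  -- passage to p - 1
  have hterm : ∀ p ∈ P, (rp p e : ℝ) * (Real.log p / ((p : ℝ) - 1)) ≤
      (if p ∈ Icc 1 T then 2 * (T : ℝ) else 0) + (1 + ε / 16) * ((nzf f p : ℝ) * Real.log p / p) := by
    intro p hp
    obtain ⟨hpp, hpe, hpY⟩ := hPmem p hp
    rw [hrp p hp]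
    have hp0 : (0 : ℝ) < p := by exact_mod_cast hpp.pos
    have hp2 : (2 : ℝ) ≤ p := by exact_mod_cast hpp.two_le
    have hlogp : 0 ≤ Real.log p := Real.log_nonneg (by linarith)
    have h4 : (0 : ℝ) ≤ (nzf f p : ℝ) * Real.log p / p := by positivity
    split_ifs with hpT
    · rw [mem_Icc] at hpT
      have hnz : (nzf f p : ℝ) ≤ p := by
        have : nzf f p ≤ p := by
          classical
          rw [nzf_eq]
          exact (Finset.card_filter_le _ _).trans (by rw [card_range])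
        exact_mod_cast this
      have h5 : Real.log p ≤ (p : ℝ) - 1 := Real.log_le_sub_one_of_pos hp0
      have h6 : Real.log p / ((p : ℝ) - 1) ≤ 1 := by
        rw [div_le_one (by linarith)]; exact h5
      have h7 : (p : ℝ) ≤ T := by exact_mod_cast hpT.2
      have h8 : 0 ≤ Real.log p / ((p : ℝ) - 1) := div_nonneg hlogp (by linarith)
      have h9 : (nzf f p : ℝ) * (Real.log p / ((p : ℝ) - 1)) ≤ p * 1 := by gcongr
      have h10 : 0 ≤ (1 + ε / 16) * ((nzf f p : ℝ) * Real.log p / p) := by positivity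
      linarith
    · have hpT' : (T : ℝ) < p := by
        have : T < p := by
          by_contra h
          exact hpT (mem_Icc.2 ⟨hpp.one_lt.le, by omega⟩)
        exact_mod_cast this
      have h5 : 1 / ((p : ℝ) - 1) ≤ (1 + ε / 16) * (1 / p) := by
        rw [div_le_iff₀ (by linarith)]
        have h6 : 32 ≤ ε * p := by
          have h7 : 32 / ε ≤ p := by linarith
          rw [div_le_iff₀ hε] at h7
          linarith
        have h8 : (1 + ε / 16) * (1 / (p : ℝ)) * ((p : ℝ) - 1) = (1 + ε / 16) * ((p - 1) / p) := by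
          ring
        rw [h8, ← mul_div_assoc, le_div_iff₀ hp0]
        nlinarith
      rw [zero_add]
      calc (nzf f p : ℝ) * (Real.log p / ((p : ℝ) - 1))
          = (nzf f p : ℝ) * Real.log p * (1 / ((p : ℝ) - 1)) := by ring
        _ ≤ (nzf f p : ℝ) * Real.log p * ((1 + ε / 16) * (1 / p)) := by gcongr
        _ = _ := by ring
  have hsum1 : ∑ p ∈ P, (if p ∈ Icc 1 T then 2 * (T : ℝ) else 0) ≤ 2 * (T : ℝ) ^ 2 := by
    rw [← Finset.sum_filter]
    have h5 : P.filter (fun p => p ∈ Icc 1 T) ⊆ Icc 1 T := fun p hp => (mem_filter.1 hp).2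
    calc ∑ p ∈ P.filter (fun p => p ∈ Icc 1 T), 2 * (T : ℝ) ≤ ∑ p ∈ Icc 1 T, 2 * (T : ℝ) :=
          Finset.sum_le_sum_of_subset_of_nonneg h5 (fun _ _ _ => by positivity)
      _ = 2 * (T : ℝ) ^ 2 := by
          rw [Finset.sum_const, Nat.card_Icc, nsmul_eq_mul]
          push_cast
          ring
  have htot : ∑ p ∈ P, (rp p e : ℝ) * (Real.log p / ((p : ℝ) - 1)) ≤ 2 * (T : ℝ) ^ 2 + (1 + ε / 16) * S := by
    refine (Finset.sum_le_sum hterm).trans ?_
    rw [Finset.sum_add_distrib, hS, ← Finset.mul_sum]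
    linarith
  refine htot.trans ?_
  have hT2 : 2 * (T : ℝ) ^ 2 ≤ ε / 4 * L := by
    rw [div_le_iff₀ hε] at hYT
    linarith
  have hS2 : (1 + ε / 16) * S ≤ (1 + 3 * ε / 4) * L := by
    have h5 : 0 < 1 - ε / 16 := by linarith
    have h6 : S ≤ (1 + ε / 2) * L / (1 - ε / 16) := by
      rw [le_div_iff₀ h5]; linarith
    have h7 : (1 + ε / 16) * ((1 + ε / 2) * L / (1 - ε / 16)) ≤ (1 + 3 * ε / 4) * L := by
      rw [← mul_div_assoc, div_le_iff₀ h5]
      have h8 : (1 + ε / 16) * (1 + ε / 2) ≤ (1 + 3 * ε / 4) * (1 - ε / 16) := by nlinarith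
      nlinarith
    have h9 : (0 : ℝ) < 1 + ε / 16 := by linarith
    exact (mul_le_mul_of_nonneg_left h6 h9.le).trans h7
  linarith

theorem lattice_bern (ε : ℝ) (hε : 0 < ε) : ∃ Y0 : ℝ, ∀ Y : ℕ, Y0 ≤ Y → ∀ e : ℕ, 2 ≤ e → Even e →
    Irreducible (Polynomial.bernoulli e) → (e : ℝ) ≤ Real.log Y ^ (493 / 1000 : ℝ) →
    ∑ p ∈ (Icc 1 Y).filter (fun p => p.Prime ∧ e + 2 ≤ p), (rp p e : ℝ) * (Real.log p / ((p : ℝ) - 1)) ≤
      (1 + ε) * Real.log Y := by
  obtain ⟨Y0, hY0⟩ := small (min ε 1) (lt_min hε one_pos) (min_le_right _ _)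
  refine ⟨max Y0 1, fun Y hY e he heven hirr heL => ?_⟩
  have h := hY0 Y ((le_max_left _ _).trans hY) e he heven hirr heL
  have hL : 0 ≤ Real.log Y := Real.log_nonneg ((le_max_right _ _).trans hY)
  refine h.trans ?_
  have := min_le_left ε 1
  gcongr

end Pool.Agent.BDN
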