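import Pool.Agent.BDT.BInt

/-!
# BDL-SimFew (1.2h): few primes with multiple zeros, few primes with an odd number of zeros (file Pool/Agent/BDN/SimFew.lean)

`sim_few`: `f, d` for `e`, `g, d'` for `e - 1` from `bern_int`; `¬ Sim p e` gives a common zero modulo `p`, so `p ∣ R`, `R` from `res_bound f g`.
`rp_odd_few`: `a ↦ (1 - a) mod p` is an involution on the zeros of `B_e` modulo `p` with the only possible fixed point `(p+1)/2`.
-/

open Polynomial Finset Pool.Agent.BDT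

namespace Pool.Agent.BDN

/-- a set of primes dividing a nonzero integer is small -/
private theorem card_log (R : ℤ) (hR : R ≠ 0) (S : Finset ℕ) (hS : ∀ p ∈ S, p.Prime ∧ (p : ℤ) ∣ R) :
    (S.card : ℝ) * Real.log 2 ≤ Real.log |(R : ℝ)| := by
  have h1 : ∏ p ∈ S, p ∣ R.natAbs := by
    refine Finset.prod_primes_dvd _ (fun p hp => (hS p hp).1.prime) (fun p hp => ?_)
    exact Int.natCast_dvd.1 (hS p hp).2
  have h2 : ∏ p ∈ S, p ≤ R.natAbs := Nat.le_of_dvd (Int.natAbs_pos.2 hR) h1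
  have h3 : 2 ^ S.card ≤ ∏ p ∈ S, p := by
    rw [← Finset.prod_const]
    exact Finset.prod_le_prod' (fun p hp => (hS p hp).1.two_le)
  have h4 : (2 : ℝ) ^ S.card ≤ |(R : ℝ)| := by
    have h5 : ((2 ^ S.card : ℕ) : ℝ) ≤ ((R.natAbs : ℕ) : ℝ) := by exact_mod_cast h3.trans h2
    rw [Nat.cast_natAbs] at h5
    push_cast at h5
    exact h5
  have h5 := Real.log_le_log (by positivity) h4
  rwa [Real.log_pow] at h5

private theorem log_succ_le (e : ℕ) : Real.log ((e : ℝ) + 1) ≤ e := by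
  have := Real.log_le_sub_one_of_pos (show (0 : ℝ) < (e : ℝ) + 1 by positivity)
  linarith

theorem sim_few : ∃ C : ℝ, 0 < C ∧ ∀ e : ℕ, 2 ≤ e → Even e → Irreducible (Polynomial.bernoulli e) →
    ∀ S : Finset ℕ, (∀ p ∈ S, p.Prime ∧ e + 2 ≤ p ∧ ¬ Sim p e) → (S.card : ℝ) ≤ C * (e : ℝ) ^ 3 := by
  obtain ⟨C, hC, hbi⟩ := bern_int
  have hl2 : 0 < Real.log 2 := Real.log_pos (by norm_num)
  refine ⟨4 * C / Real.log 2, by positivity, fun e he heven hirr S hS => ?_⟩
  obtain ⟨f, d, hd0, hfd, hdeg, hlead, hnd, hl1, hlogl1⟩ := hbi e (by omega)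
  obtain ⟨g, d', hd0', hgd, hdeg', hlead', hnd', hl1', hlogl1'⟩ := hbi (e - 1) (by omega)
  have hfirr : Irreducible (f.map (Int.castRingHom ℚ)) := by
    rw [hfd]
    have hdq : (d : ℚ) ≠ 0 := by exact_mod_cast hd0.ne'
    exact (irreducible_isUnit_mul (isUnit_C.2 (isUnit_iff_ne_zero.2 hdq))).2 hirr
  have hg0 : g ≠ 0 := by
    rintro rfl
    rw [leadingCoeff_zero] at hlead'
    have : (d' : ℤ) ≠ 0 := by exact_mod_cast hd0'.ne'
    exact this hlead'.symm
  obtain ⟨R, hR0, hRle, hRdvd⟩ := res_bound f g hfirr hg0 (by rw [hdeg, hdeg']; omega)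
  have h1 := card_log R hR0 S (fun p hp => by
    obtain ⟨hpp, hpe, hns⟩ := hS p hp
    refine ⟨hpp, ?_⟩
    unfold Sim at hns
    push Not at hns
    obtain ⟨a, hap, ha1, ha2⟩ := hns
    rw [pi_iff hpp (hnd p hpp hpe) hfd] at ha1
    rw [pi_iff hpp (hnd' p hpp (by omega)) hgd] at ha2
    have h2 := hRdvd p hpp (by
      rw [hlead]
      intro h
      exact hnd p hpp hpe (by exact_mod_cast h)) {a} (fun b hb => by
        rw [mem_singleton] at hb
        rw [hb]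
        exact ⟨hap, ha1, ha2⟩)
    rwa [card_singleton, pow_one] at h2)
  have he1 : (1 : ℝ) ≤ e := by
    have : 1 ≤ e := by omega
    exact_mod_cast this
  have hRpos : 0 < |(R : ℝ)| := abs_pos.2 (by exact_mod_cast hR0)
  have hlf : 0 ≤ Real.log (l1 f) := Real.log_nonneg hl1
  have hlg : 0 ≤ Real.log (l1 g) := Real.log_nonneg hl1'
  have h3 : Real.log |(R : ℝ)| ≤ e * Real.log (l1 f) + e * Real.log (l1 g) := by
    have h4 := Real.log_le_log hRpos hRle
    rw [Real.log_mul (by positivity) (by positivity), Real.log_pow, Real.log_pow, hdeg] at h4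
    have h5 : ((e - 1 : ℕ) : ℝ) ≤ e := by exact_mod_cast Nat.sub_le e 1
    have h6 : ((e - 1 : ℕ) : ℝ) * Real.log (l1 f) ≤ e * Real.log (l1 f) := by gcongr
    linarith
  have h4 : Real.log (l1 f) ≤ C * (2 * e) * e := by
    refine hlogl1.trans ?_
    have h5 := log_succ_le e
    have h6 : 0 ≤ Real.log ((e : ℝ) + 1) := Real.log_nonneg (by linarith)
    calc C * ((e : ℝ) + 1) * Real.log (e + 1) ≤ C * ((e : ℝ) + 1) * e := by gcongr
      _ ≤ C * (2 * e) * e := by gcongr; linarith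
  have h5 : Real.log (l1 g) ≤ C * (2 * e) * e := by
    refine hlogl1'.trans ?_
    have h7 : ((e - 1 : ℕ) : ℝ) = (e : ℝ) - 1 := by
      rw [Nat.cast_sub (by omega)]; simp
    have h5 := log_succ_le (e - 1)
    rw [h7] at h5 ⊢
    have h8 : (e : ℝ) - 1 + 1 = e := by ring
    rw [h8] at h5 ⊢
    have h6 : 0 ≤ Real.log (e : ℝ) := Real.log_nonneg he1
    calc C * (e : ℝ) * Real.log e ≤ C * (e : ℝ) * e := by gcongr; linarith
      _ ≤ C * (2 * e) * e := by gcongr; linarith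
  rw [div_mul_eq_mul_div, le_div_iff₀ hl2]
  calc (S.card : ℝ) * Real.log 2 ≤ Real.log |(R : ℝ)| := h1
    _ ≤ e * Real.log (l1 f) + e * Real.log (l1 g) := h3
    _ ≤ e * (C * (2 * e) * e) + e * (C * (2 * e) * e) := by gcongr
    _ = 4 * C * (e : ℝ) ^ 3 := by ring

/-- the homogenized value at `1/2` -/
private noncomputable def F0 (f : ℤ[X]) (e : ℕ) : ℤ := ∑ i ∈ range (e + 1), f.coeff i * 2 ^ (e - i)

private theorem F0_eq (f : ℤ[X]) (e : ℕ) (hdeg : f.natDegree = e) :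
    ((F0 f e : ℤ) : ℚ) = 2 ^ e * (f.map (Int.castRingHom ℚ)).eval (1 / 2 : ℚ) := by
  unfold F0
  rw [eval_map, eval₂_eq_sum_range, hdeg, Finset.mul_sum]
  push_cast
  refine Finset.sum_congr rfl fun i hi => ?_
  rw [mem_range] at hi
  have h1 : (2 : ℚ) ^ e = 2 ^ (e - i) * 2 ^ i := by
    rw [← pow_add]; congr 1; omega
  rw [h1, one_div, inv_pow]
  have h2 : (2 : ℚ) ^ i ≠ 0 := by positivity
  simp only [eq_intCast]
  field_simp

private theorem F0_dvd (f : ℤ[X]) (e : ℕ) (hdeg : f.natDegree = e) (p : ℕ) (a : ℤ)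
    (ha : (p : ℤ) ∣ 2 * a - 1) (hf : (p : ℤ) ∣ f.eval a) : (p : ℤ) ∣ F0 f e := by
  have h1 : (p : ℤ) ∣ 2 ^ e * f.eval a - F0 f e := by
    unfold F0
    rw [eval_eq_sum_range, hdeg, Finset.mul_sum, ← Finset.sum_sub_distrib]
    refine Finset.dvd_sum fun i hi => ?_
    rw [mem_range] at hi
    have h2 : (2 : ℤ) ^ e = 2 ^ (e - i) * 2 ^ i := by
      rw [← pow_add]; congr 1; omega
    have h3 : (2 : ℤ) ^ e * (f.coeff i * a ^ i) - f.coeff i * 2 ^ (e - i) =
        f.coeff i * 2 ^ (e - i) * ((2 * a) ^ i - 1 ^ i) := by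
      rw [h2, mul_pow]; ring
    rw [h3]
    exact Dvd.dvd.mul_left (ha.trans (sub_dvd_pow_sub_pow _ _ _)) _
  have h2 : F0 f e = 2 ^ e * f.eval a - (2 ^ e * f.eval a - F0 f e) := by ring
  rw [h2]
  exact dvd_sub (Dvd.dvd.mul_left hf _) h1

private theorem F0_abs (f : ℤ[X]) (e : ℕ) (hdeg : f.natDegree = e) : |((F0 f e : ℤ) : ℝ)| ≤ 2 ^ e * l1 f := by
  unfold F0 l1
  rw [hdeg, Finset.mul_sum]
  push_cast
  refine (Finset.abs_sum_le_sum_abs _ _).trans (Finset.sum_le_sum fun i _ => ?_)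
  rw [abs_mul, abs_of_nonneg (by positivity : (0 : ℝ) ≤ 2 ^ (e - i)), mul_comm]
  have : (2 : ℝ) ^ (e - i) ≤ 2 ^ e := pow_le_pow_right₀ (by norm_num) (Nat.sub_le _ _)
  gcongr

private theorem even_zeros (f : ℤ[X]) (e : ℕ) (hdeg : f.natDegree = e) (hsym : ∀ a : ℤ, f.eval (1 - a) = f.eval a)
    (p : ℕ) (hp : p.Prime) (hnd : ¬ (p : ℤ) ∣ F0 f e) : Even (nzf f p) := by
  classical
  rw [nzf_eq, ← ZMod.natCast_eq_zero_iff_even]
  set Z := (range p).filter (fun a : ℕ => (p : ℤ) ∣ f.eval (a : ℤ)) with hZ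
  have hcard : ((Z.card : ℕ) : ZMod 2) = ∑ a ∈ Z, (1 : ZMod 2) := by simp
  rw [hcard]
  have hp2 := hp.two_le
  -- the involution
  have hinv : ∀ a ∈ Z, (p + 1 - a) % p ∈ Z := by
    intro a ha
    rw [hZ, mem_filter, mem_range] at ha ⊢
    refine ⟨Nat.mod_lt _ (by omega), ?_⟩
    have h1 : (((p + 1 - a) % p : ℕ) : ℤ) ≡ 1 - (a : ℤ) [ZMOD p] := by
      have h2 : (((p + 1 - a) % p : ℕ) : ℤ) ≡ ((p + 1 - a : ℕ) : ℤ) [ZMOD p] := by
        rw [Int.natCast_mod]
        exact Int.mod_modEq _ _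
      refine h2.trans ?_
      rw [Nat.cast_sub (by omega)]
      push_cast
      have h3 : (p : ℤ) + 1 - a = 1 - a + p := by ring
      rw [h3]
      exact Int.add_modEq_right
    have h4 : (p : ℤ) ∣ f.eval (((p + 1 - a) % p : ℕ) : ℤ) - f.eval (1 - (a : ℤ)) :=
      (h1.symm.dvd).trans (sub_dvd_eval_sub _ _ _)
    rw [hsym] at h4
    exact (dvd_sub_comm.1 h4 |> fun h => by
      have h5 : f.eval (((p + 1 - a) % p : ℕ) : ℤ) = f.eval (a : ℤ) - (f.eval (a : ℤ) - f.eval (((p + 1 - a) % p : ℕ) : ℤ)) := by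
        ring
      rw [h5]
      exact dvd_sub ha.2 h)
  refine Finset.sum_involution (fun a _ => (p + 1 - a) % p) (fun a ha => ?_) (fun a ha _ => ?_) hinv (fun a ha => ?_)
  · show (1 : ZMod 2) + 1 = 0
    decide
  · intro hfix
    apply hnd
    rw [hZ, mem_filter, mem_range] at ha
    refine F0_dvd f e hdeg p (a : ℤ) ?_ ha.2
    have h1 : (p : ℤ) ∣ ((p + 1 - a : ℕ) : ℤ) - (((p + 1 - a) % p : ℕ) : ℤ) := by
      rw [Int.natCast_mod]
      exact Int.dvd_self_sub_emod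
    rw [hfix, Nat.cast_sub (by omega)] at h1
    push_cast at h1
    have h2 : 2 * (a : ℤ) - 1 = p - ((p : ℤ) + 1 - a - a) := by ring
    rw [h2]
    exact dvd_sub (dvd_refl _) h1
  · show (p + 1 - (p + 1 - a) % p) % p = a
    rw [hZ, mem_filter, mem_range] at ha
    have hap := ha.1
    rcases Nat.lt_or_ge a 2 with h2 | h2
    · interval_cases a
      · have h3 : (p + 1 - 0) % p = 1 := by
          rw [Nat.sub_zero, Nat.add_mod_left, Nat.mod_eq_of_lt (by omega)]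
        rw [h3, Nat.add_sub_cancel, Nat.mod_self]
      · rw [Nat.add_sub_cancel, Nat.mod_self, Nat.sub_zero, Nat.add_mod_left, Nat.mod_eq_of_lt (by omega)]
    · have h3 : (p + 1 - a) % p = p + 1 - a := Nat.mod_eq_of_lt (by omega)
      rw [h3]
      have h4 : p + 1 - (p + 1 - a) = a := by omega
      rw [h4, Nat.mod_eq_of_lt hap]

theorem rp_odd_few : ∃ C : ℝ, 0 < C ∧ ∀ e : ℕ, 2 ≤ e → Even e → Irreducible (Polynomial.bernoulli e) →
    ∀ S : Finset ℕ, (∀ p ∈ S, p.Prime ∧ e + 2 ≤ p ∧ ¬ Even (rp p e)) → (S.card : ℝ) ≤ C * (e : ℝ) ^ 2 := by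
  obtain ⟨C, hC, hbi⟩ := bern_int
  have hl2 : 0 < Real.log 2 := Real.log_pos (by norm_num)
  refine ⟨(2 * C + 1) / Real.log 2, by positivity, fun e he heven hirr S hS => ?_⟩
  obtain ⟨f, d, hd0, hfd, hdeg, hlead, hnd, hl1, hlogl1⟩ := hbi e (by omega)
  have hdq : (d : ℚ) ≠ 0 := by exact_mod_cast hd0.ne'
  have hfirr : Irreducible (f.map (Int.castRingHom ℚ)) := by
    rw [hfd]
    exact (irreducible_isUnit_mul (isUnit_C.2 (isUnit_iff_ne_zero.2 hdq))).2 hirr
  have hsym : ∀ a : ℤ, f.eval (1 - a) = f.eval a := by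
    intro a
    have h1 : ∀ b : ℤ, ((f.eval b : ℤ) : ℚ) = d * (Polynomial.bernoulli e).eval (b : ℚ) := by
      intro b
      have h2 := congrArg (fun g => g.eval (b : ℚ)) hfd
      simp only [eval_mul, eval_C] at h2
      rw [← h2]
      have h3 := Polynomial.eval_intCast_map (Int.castRingHom ℚ) f b
      simp only [eq_intCast] at h3
      exact h3.symm
    have h4 : ((f.eval (1 - a) : ℤ) : ℚ) = ((f.eval a : ℤ) : ℚ) := by
      rw [h1, h1]
      push_cast
      rw [Polynomial.bernoulli_eval_one_sub, heven.neg_one_pow, one_mul]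
    exact_mod_cast h4
  have hF0 : F0 f e ≠ 0 := by
    intro h
    have h1 := F0_eq f e hdeg
    rw [h] at h1
    have h2 : (f.map (Int.castRingHom ℚ)).eval (1 / 2 : ℚ) = 0 := by
      have h3 : (2 : ℚ) ^ e ≠ 0 := by positivity
      simpa [h3] using h1.symm
    have h3 : (f.map (Int.castRingHom ℚ)).natDegree = e := by
      rw [natDegree_map_eq_of_injective Int.cast_injective, hdeg]
    have h4 := Polynomial.degree_eq_one_of_irreducible_of_root hfirr h2
    have h5 : (f.map (Int.castRingHom ℚ)).natDegree = 1 := natDegree_eq_of_degree_eq_some h4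
    omega
  have h1 := card_log (F0 f e) hF0 S (fun p hp => by
    obtain ⟨hpp, hpe, hns⟩ := hS p hp
    refine ⟨hpp, ?_⟩
    by_contra hcon
    apply hns
    rw [rp_nzf hpp (hnd p hpp hpe) hfd]
    exact even_zeros f e hdeg hsym p hpp hcon)
  have he1 : (1 : ℝ) ≤ e := by
    have : 1 ≤ e := by omega
    exact_mod_cast this
  have hRpos : 0 < |((F0 f e : ℤ) : ℝ)| := abs_pos.2 (by exact_mod_cast hF0)
  have h3 : Real.log |((F0 f e : ℤ) : ℝ)| ≤ e * Real.log 2 + Real.log (l1 f) := by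
    have h4 := Real.log_le_log hRpos (F0_abs f e hdeg)
    rwa [Real.log_mul (by positivity) (by positivity), Real.log_pow] at h4
  have h4 : Real.log (l1 f) ≤ C * (2 * e) * e := by
    refine hlogl1.trans ?_
    have h5 := log_succ_le e
    have h6 : 0 ≤ Real.log ((e : ℝ) + 1) := Real.log_nonneg (by linarith)
    calc C * ((e : ℝ) + 1) * Real.log (e + 1) ≤ C * ((e : ℝ) + 1) * e := by gcongr
      _ ≤ C * (2 * e) * e := by gcongr; linarith
  have h5 : (e : ℝ) * Real.log 2 ≤ (e : ℝ) ^ 2 := by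
    have : Real.log 2 ≤ 1 := by linarith [Real.log_two_lt_d9]
    nlinarith
  rw [div_mul_eq_mul_div, le_div_iff₀ hl2]
  calc (S.card : ℝ) * Real.log 2 ≤ Real.log |((F0 f e : ℤ) : ℝ)| := h1
    _ ≤ e * Real.log 2 + Real.log (l1 f) := h3
    _ ≤ (e : ℝ) ^ 2 + C * (2 * e) * e := add_le_add h5 h4
    _ = (2 * C + 1) * (e : ℝ) ^ 2 := by ring

end Pool.Agent.BDN
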