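import Mathlib
import Pool.Agent.BDN.DefsB

/-!
BDN-UA. From families at the scale `X ∈ [log N, 4 log N]` to weights at the scale `N`; monotonicity facts.

PLAN. `L = log N` large, `L ≤ X ≤ 4 L`. `hi`: `e ≤ X^.49 ≤ (4 L)^.49 ≤ L^.5`. `le`: `u e ≤ X^(-.44) ≤ L^(-.44) ≤ L^(-.43)`.
`sum`: equality. `eq`: `g ≤ 2 L^.5 ≤ 2 X^.5`, and `X^(-.06) ≤ L^(-.06) ≤ L^(-.05)`.
`fam_bounds`: `L^(43/100) ≤ X^.44 ≤ e` etc., and parity: `W = Ww w` is even for `w ≥ 2` (`2 ∣ w!`, `w ≥ 1`), so `e ≡ e0` modulo 2.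
`ww_pos`, `ww_even`: positivity and parity.
`nof_mono`, `nof_union`: filters are contained in each other / in a union.
-/

namespace Pool.Agent.BDN

open Finset

theorem ww_pos (w : ℕ) : 0 < Ww w := by
  unfold Ww
  exact Nat.pow_pos (Nat.factorial_pos w)

theorem ww_dvd (w q : ℕ) (hq : 1 ≤ q) (hqw : q ≤ w) : q ^ w ∣ Ww w := by
  unfold Ww
  exact pow_dvd_pow_of_dvd (Nat.dvd_factorial (by omega) hqw) w

theorem ww_even (w : ℕ) (hw : 2 ≤ w) : Even (Ww w) := by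
  have h1 := ww_dvd w 2 (by norm_num) hw
  have h2 : 2 ∣ 2 ^ w := dvd_pow_self 2 (by omega)
  exact even_iff_two_dvd.2 (h2.trans h1)

private lemma exists_big (K : ℝ) : ∃ N0 : ℕ, ∀ N : ℕ, N0 ≤ N → K ≤ Real.log N := by
  refine ⟨⌈Real.exp K⌉₊, fun N hN => ?_⟩
  have h1 : Real.exp K ≤ N := (Nat.le_ceil _).trans (by exact_mod_cast hN)
  exact (Real.le_log_iff_exp_le ((Real.exp_pos K).trans_le h1)).2 h1

/-- `(4 L)^(49/100) ≤ L^(4925/10000)` for large `L` -/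
private lemma four_pow {L : ℝ} (hL : (4 : ℝ) ^ (200 : ℝ) ≤ L) {X : ℝ} (hX0 : 0 ≤ X) (hX : X ≤ 4 * L) :
    X ^ (49 / 100 : ℝ) ≤ L ^ (4925 / 10000 : ℝ) := by
  have hL0 : 0 < L := lt_of_lt_of_le (by positivity) hL
  calc X ^ (49 / 100 : ℝ) ≤ (4 * L) ^ (49 / 100 : ℝ) := Real.rpow_le_rpow hX0 hX (by norm_num)
    _ = 4 ^ (49 / 100 : ℝ) * L ^ (49 / 100 : ℝ) := Real.mul_rpow (by norm_num) hL0.le
    _ ≤ L ^ (25 / 10000 : ℝ) * L ^ (49 / 100 : ℝ) := by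
        gcongr
        calc (4 : ℝ) ^ (49 / 100 : ℝ) ≤ 4 ^ ((200 : ℝ) * (25 / 10000 : ℝ)) :=
              Real.rpow_le_rpow_of_exponent_le (by norm_num) (by norm_num)
          _ = ((4 : ℝ) ^ (200 : ℝ)) ^ (25 / 10000 : ℝ) := by rw [← Real.rpow_mul (by norm_num)]
          _ ≤ L ^ (25 / 10000 : ℝ) := Real.rpow_le_rpow (by positivity) hL (by norm_num)
    _ = L ^ (4925 / 10000 : ℝ) := by rw [← Real.rpow_add hL0]; norm_num

private lemma one_le_four : (1 : ℝ) ≤ (4 : ℝ) ^ (200 : ℝ) := Real.one_le_rpow (by norm_num) (by norm_num)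

theorem fam_wts : ∃ N0 : ℕ, ∀ N : ℕ, N0 ≤ N → ∀ (W e0 : ℕ) (C0 X : ℝ) (I : Finset ℕ) (u : ℕ → ℝ),
    Real.log N ≤ X → X ≤ 4 * Real.log N → Fam W e0 C0 X I u → Wts W e0 N C0 I u := by
  obtain ⟨N0, hN0⟩ := exists_big ((4 : ℝ) ^ (200 : ℝ))
  refine ⟨N0, fun N hN W e0 C0 X I u h1 h2 hF => ?_⟩
  have hL := hN0 N hN
  set L := Real.log N with hLdef
  have hL1 : 1 ≤ L := one_le_four.trans hL
  have hX0 : 0 < X := by linarith
  refine ⟨hF.cls, fun e he => ?_, hF.nonneg, fun e he => ?_, hF.sum.le, fun g r hg hgW hgL => ?_⟩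
  · refine (hF.hi e he).trans ((four_pow hL hX0.le h2).trans ?_)
    exact Real.rpow_le_rpow_of_exponent_le hL1 (by norm_num)
  · refine (hF.le e he).trans ?_
    refine (Real.rpow_le_rpow_of_nonpos (by linarith) h1 (by norm_num)).trans ?_
    exact Real.rpow_le_rpow_of_exponent_le hL1 (by norm_num)
  · have h3 : (g : ℝ) ≤ 2 * X ^ (1 / 2 : ℝ) := by
      refine hgL.trans ?_
      have := Real.rpow_le_rpow (by linarith) h1 (by norm_num : (0 : ℝ) ≤ 1 / 2)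
      linarith
    refine (hF.eq g r hg hgW h3).trans ?_
    have h4 : X ^ (-(6 / 100) : ℝ) ≤ L ^ (-(5 / 100) : ℝ) :=
      (Real.rpow_le_rpow_of_nonpos (by linarith) h1 (by norm_num)).trans
        (Real.rpow_le_rpow_of_exponent_le hL1 (by norm_num))
    linarith

theorem fam_bounds (w : ℕ) (hw : 2 ≤ w) : ∃ N0 : ℕ, ∀ N : ℕ, N0 ≤ N → ∀ (e0 : ℕ) (C0 X : ℝ) (I : Finset ℕ)
    (u : ℕ → ℝ), Real.log N ≤ X → X ≤ 4 * Real.log N → Even e0 → Fam (Ww w) e0 C0 X I u →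
    ∀ e ∈ I, Even e ∧ 4 ≤ e ∧ Real.log N ^ (43 / 100 : ℝ) ≤ (e : ℝ) ∧
      (e : ℝ) ≤ Real.log N ^ (4925 / 10000 : ℝ) := by
  obtain ⟨N0, hN0⟩ := exists_big ((4 : ℝ) ^ (200 : ℝ))
  refine ⟨N0, fun N hN e0 C0 X I u h1 h2 he0 hF e he => ?_⟩
  have hL := hN0 N hN
  set L := Real.log N with hLdef
  have hL1 : 1 ≤ L := one_le_four.trans hL
  have hX0 : 0 < X := by linarith
  have hlo : L ^ (43 / 100 : ℝ) ≤ (e : ℝ) := by
    refine le_trans ?_ (hF.lo e he)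
    refine (Real.rpow_le_rpow_of_exponent_le hL1 (by norm_num : (43 / 100 : ℝ) ≤ 44 / 100)).trans ?_
    exact Real.rpow_le_rpow (by linarith) h1 (by norm_num)
  have h4 : (4 : ℝ) ≤ L ^ (43 / 100 : ℝ) := by
    calc (4 : ℝ) = 4 ^ (1 : ℝ) := by rw [Real.rpow_one]
      _ ≤ 4 ^ ((200 : ℝ) * (43 / 100 : ℝ)) := Real.rpow_le_rpow_of_exponent_le (by norm_num) (by norm_num)
      _ = ((4 : ℝ) ^ (200 : ℝ)) ^ (43 / 100 : ℝ) := by rw [← Real.rpow_mul (by norm_num)]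
      _ ≤ L ^ (43 / 100 : ℝ) := Real.rpow_le_rpow (by positivity) hL (by norm_num)
  refine ⟨?_, ?_, hlo, (hF.hi e he).trans (four_pow hL hX0.le h2)⟩
  · have h5 : e = Ww w * (e / Ww w) + e0 := by
      conv_lhs => rw [← Nat.div_add_mod e (Ww w), hF.cls e he]
    rw [h5]
    exact ((ww_even w hw).mul_right _).add he0
  · have : (4 : ℝ) ≤ (e : ℝ) := h4.trans hlo
    exact_mod_cast this

theorem nof_mono (w c : ℕ) (κ κ' : ℝ) (P P' : ℕ → Prop) (h : NoF w c κ P) (hκ : κ ≤ κ')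
    (hP : ∀ D, P' D → P D) : NoF w c κ' P' := by
  classical
  obtain ⟨N0, hN0⟩ := h
  refine ⟨N0, fun N hN => ?_⟩
  have h1 := hN0 N hN
  have h2 : (N : ℝ) / (Ww w : ℝ) ≥ 0 := by positivity
  refine le_trans ?_ (h1.trans (mul_le_mul_of_nonneg_right hκ h2))
  have h3 : ((NN N (Ww w) c).filter (fun n => ∃ D : ℕ, 1 ≤ D ∧ D ≤ n / 2 ∧ P' D ∧ Fac n D)) ⊆
      ((NN N (Ww w) c).filter (fun n => ∃ D : ℕ, 1 ≤ D ∧ D ≤ n / 2 ∧ P D ∧ Fac n D)) := by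
    intro n hn
    rw [mem_filter] at hn ⊢
    obtain ⟨hn1, D, hD1, hD2, hD3, hD4⟩ := hn
    exact ⟨hn1, D, hD1, hD2, hP D hD3, hD4⟩
  exact_mod_cast card_le_card h3

theorem nof_union (w c : ℕ) (κ κ' : ℝ) (P P' : ℕ → Prop) (h : NoF w c κ P) (h' : NoF w c κ' P') :
    NoF w c (κ + κ') (fun D => P D ∨ P' D) := by
  classical
  obtain ⟨N0, hN0⟩ := h
  obtain ⟨N0', hN0'⟩ := h'
  refine ⟨max N0 N0', fun N hN => ?_⟩
  have h1 := hN0 N ((le_max_left _ _).trans hN)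
  have h1' := hN0' N ((le_max_right _ _).trans hN)
  have h3 : ((NN N (Ww w) c).filter (fun n => ∃ D : ℕ, 1 ≤ D ∧ D ≤ n / 2 ∧ (P D ∨ P' D) ∧ Fac n D)) ⊆
      ((NN N (Ww w) c).filter (fun n => ∃ D : ℕ, 1 ≤ D ∧ D ≤ n / 2 ∧ P D ∧ Fac n D)) ∪
      ((NN N (Ww w) c).filter (fun n => ∃ D : ℕ, 1 ≤ D ∧ D ≤ n / 2 ∧ P' D ∧ Fac n D)) := by
    intro n hn
    rw [mem_union]
    simp only [mem_filter] at hn ⊢
    obtain ⟨hn1, D, hD1, hD2, hD3 | hD3, hD4⟩ := hn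
    · exact Or.inl ⟨hn1, D, hD1, hD2, hD3, hD4⟩
    · exact Or.inr ⟨hn1, D, hD1, hD2, hD3, hD4⟩
  have h4 := (card_le_card h3).trans (card_union_le _ _)
  have h5 : (((NN N (Ww w) c).filter
      (fun n => ∃ D : ℕ, 1 ≤ D ∧ D ≤ n / 2 ∧ (P D ∨ P' D) ∧ Fac n D)).card : ℝ) ≤
      (((NN N (Ww w) c).filter (fun n => ∃ D : ℕ, 1 ≤ D ∧ D ≤ n / 2 ∧ P D ∧ Fac n D)).card : ℝ) +
      (((NN N (Ww w) c).filter (fun n => ∃ D : ℕ, 1 ≤ D ∧ D ≤ n / 2 ∧ P' D ∧ Fac n D)).card : ℝ) := by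
    exact_mod_cast h4
  calc _ ≤ _ := h5
    _ ≤ κ * ((N : ℝ) / (Ww w : ℝ)) + κ' * ((N : ℝ) / (Ww w : ℝ)) := add_le_add h1 h1'
    _ = (κ + κ') * ((N : ℝ) / (Ww w : ℝ)) := by ring

end Pool.Agent.BDN
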