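import Mathlib
import Pool.Agent.BDN.LBern
import Pool.Agent.BDN.SimFew
import Pool.Agent.BDN.UA

/-!
BDN-BK. Two scales: for a family of irreducible `B_e` the pairs with few zeros cannot be negligible at both scales.

PLAN. `X` large, `N1 = ⌊exp(.4425 X)⌋₊`, `N2 = ⌊exp(.4875 X)⌋₊` (so `log Ni ≤ X ≤ 4 log Ni`), `x = N1^.335`, `y = N2^.495`,
`Y = ⌊y⌋₊`. Suppose both masses are `< 1/1000`. For each `e ∈ I` (`e` even, `4 ≤ e`, `e ≤ X^.49`):
* `∑_{p ∈ (x,y], Alw} log p/(p-1) ≥ μ (log y - log x) - ε log y` (AM).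
* every prime `p ∈ (x, y]` lies in `Rg N1 .335 .495` or in `Rg N2 .335 .495` (`N2^.335 ≤ N1^.495` because
  `.335 · .4875 = .1633 < .4425 · .495 = .2190`, with room for the integer parts).
* split the allowed `p ∈ (x,y]`: `¬ Sim p e` (few, `sim_few`: total `≤ ε X`), `rp p e < t` and `Sim` (they belong to `GG` at the scale
  `N1` or `N2`), and `rp p e ≥ t`: `∑ log p/(p-1) ≤ (1/t)(1 + ε) log Y` (`lattice_bern`, `e ≤ X^.49 ≤ (log Y)^.493`).
Multiply with `u e` and sum over `e` (`∑ u = 1`):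
`μ (log y - log x) - ε log y ≤ ε X + mass1 log N1 + mass2 log N2 + (1/t)(1+ε) log y`, where
`log y - log x ≥ (.495 · .4875 - .335 · .4425) X - 1 ≥ .09307 X - 1`, `log y ≤ .24132 X`. Multiply by `t ≤ 6` and use `t μ ≥ 2.9`:
`2.9 · .09307 X - O(1) ≤ .24132 X (1 + ε) + 6 (ε · 1.3 + .001 (.4425 + .4875)) X`, i.e. `.2699 X ≤ .2470 X + 8.2 ε X + O(1)`: a
contradiction for `ε = 1/1000` and `X` large. (`μ ≥ 0` since `t μ ≥ 2.9`.)
-/

namespace Pool.Agent.BDN

open Finset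

private theorem log_floor {A : ℝ} (hA : 1 ≤ A) :
    A - 7 / 10 ≤ Real.log (⌊Real.exp A⌋₊ : ℕ) ∧ Real.log (⌊Real.exp A⌋₊ : ℕ) ≤ A ∧
      1 ≤ ⌊Real.exp A⌋₊ := by
  have h2 : (2 : ℝ) ≤ Real.exp A := by
    have := Real.add_one_le_exp A
    linarith
  have h3 : Real.exp A / 2 ≤ ((⌊Real.exp A⌋₊ : ℕ) : ℝ) := by
    have := Nat.lt_floor_add_one (Real.exp A)
    linarith
  have h4 : ((⌊Real.exp A⌋₊ : ℕ) : ℝ) ≤ Real.exp A := Nat.floor_le (by linarith)
  have h5 : (0 : ℝ) < ((⌊Real.exp A⌋₊ : ℕ) : ℝ) := by linarith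
  have hl2 := Real.log_two_lt_d9
  refine ⟨?_, ?_, ?_⟩
  · have h6 := Real.log_le_log (by positivity) h3
    rw [Real.log_div (by positivity) (by norm_num), Real.log_exp] at h6
    linarith
  · have h6 := Real.log_le_log h5 h4
    rwa [Real.log_exp] at h6
  · exact_mod_cast Nat.one_le_iff_ne_zero.mpr (by
      intro h
      rw [h] at h5
      simp at h5)

private theorem split_sum (S : Finset ℕ) (g : ℕ → ℝ) (hg : ∀ p ∈ S, 0 ≤ g p) (P Q R : ℕ → Prop)
    [DecidablePred P] [DecidablePred Q] [DecidablePred R]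
    (h : ∀ p ∈ S, P p ∨ Q p ∨ R p) :
    ∑ p ∈ S, g p ≤ ∑ p ∈ S.filter P, g p + ∑ p ∈ S.filter Q, g p + ∑ p ∈ S.filter R, g p := by
  rw [Finset.sum_filter, Finset.sum_filter, Finset.sum_filter, ← Finset.sum_add_distrib,
    ← Finset.sum_add_distrib]
  refine Finset.sum_le_sum fun p hp => ?_
  have h0 := hg p hp
  have a1 : (0 : ℝ) ≤ if P p then g p else 0 := by split_ifs <;> linarith
  have a2 : (0 : ℝ) ≤ if Q p then g p else 0 := by split_ifs <;> linarith
  have a3 : (0 : ℝ) ≤ if R p then g p else 0 := by split_ifs <;> linarith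
  rcases h p hp with h1 | h1 | h1
  · rw [if_pos h1]
    linarith
  · rw [if_pos h1]
    linarith
  · rw [if_pos h1]
    linarith

private theorem double_sum (S I : Finset ℕ) (u g : ℕ → ℝ) (Q : ℕ → ℕ → Prop) [DecidableRel Q]
    (G1 G2 : Finset (ℕ × ℕ))
    (hu : ∀ z ∈ G1 ∪ G2, 0 ≤ u z.2 * g z.1)
    (h : ∀ p ∈ S, ∀ e ∈ I, Q p e → (p, e) ∈ G1 ∪ G2) :
    ∑ e ∈ I, u e * ∑ p ∈ S.filter (fun p => Q p e), g p ≤
      ∑ z ∈ G1, u z.2 * g z.1 + ∑ z ∈ G2, u z.2 * g z.1 := by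
  have h1 : ∑ e ∈ I, u e * ∑ p ∈ S.filter (fun p => Q p e), g p =
      ∑ z ∈ (S ×ˢ I).filter (fun z => Q z.1 z.2), u z.2 * g z.1 := by
    rw [Finset.sum_filter, Finset.sum_product_right]
    refine Finset.sum_congr rfl fun e _ => ?_
    rw [Finset.sum_filter, Finset.mul_sum]
    refine Finset.sum_congr rfl fun p _ => ?_
    split_ifs <;> simp
  rw [h1]
  have h2 : (S ×ˢ I).filter (fun z => Q z.1 z.2) ⊆ G1 ∪ G2 := by
    intro z hz
    rw [Finset.mem_filter, Finset.mem_product] at hz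
    exact h z.1 hz.1.1 z.2 hz.1.2 hz.2
  have h3 := Finset.sum_le_sum_of_subset_of_nonneg (f := fun z : ℕ × ℕ => u z.2 * g z.1) h2
    (fun z hz _ => hu z hz)
  have h4 := Finset.sum_union_inter (s₁ := G1) (s₂ := G2) (f := fun z : ℕ × ℕ => u z.2 * g z.1)
  have h5 : 0 ≤ ∑ z ∈ G1 ∩ G2, u z.2 * g z.1 :=
    Finset.sum_nonneg fun z hz => hu z (Finset.mem_union_left _ (Finset.mem_inter.mp hz).1)
  linarith

private theorem mass_mul {N : ℕ} (h : Real.log N ≠ 0) (u : ℕ → ℝ) (G : Finset (ℕ × ℕ)) :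
    ∑ z ∈ G, u z.2 * (Real.log z.1 / ((z.1 : ℝ) - 1)) = mass N u G * Real.log N := by
  unfold mass
  rw [Finset.sum_mul]
  refine Finset.sum_congr rfl fun z _ => ?_
  field_simp

open Filter in
private theorem asym (y0 Y0 C : ℝ) : ∃ X0 : ℝ, ∀ X : ℝ, X0 ≤ X → 100 ≤ X ∧
    y0 ≤ Real.exp (23 / 100 * X) ∧ Y0 ≤ Real.exp (23 / 100 * X) ∧
    X ^ (49 / 100 : ℝ) ≤ (23 / 100 * X) ^ (493 / 1000 : ℝ) ∧
    X + 2 ≤ Real.exp (14 / 100 * X) ∧
    C * X ^ 3 ≤ 1 / 1000 * (Real.exp (14 / 100 * X) - 1) := by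
  have t1 : Tendsto (fun X : ℝ => 23 / 100 * X) atTop atTop :=
    tendsto_id.const_mul_atTop (by norm_num)
  have t2 : Tendsto (fun X : ℝ => Real.exp (23 / 100 * X)) atTop atTop :=
    Real.tendsto_exp_atTop.comp t1
  have t3 : Tendsto (fun X : ℝ => 14 / 100 * X) atTop atTop :=
    tendsto_id.const_mul_atTop (by norm_num)
  have e1 : ∀ᶠ X : ℝ in atTop, X ^ (49 / 100 : ℝ) ≤ (23 / 100 * X) ^ (493 / 1000 : ℝ) := by
    have h1 : Tendsto (fun X : ℝ => X ^ (3 / 1000 : ℝ)) atTop atTop :=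
      tendsto_rpow_atTop (by norm_num)
    have hpos : (0 : ℝ) < (23 / 100 : ℝ) ^ (493 / 1000 : ℝ) := Real.rpow_pos_of_pos (by norm_num) _
    filter_upwards [h1.eventually_ge_atTop (((23 / 100 : ℝ) ^ (493 / 1000 : ℝ))⁻¹),
      eventually_gt_atTop (0 : ℝ)] with X hX hX0
    rw [Real.mul_rpow (by norm_num) hX0.le]
    have h2 : X ^ (493 / 1000 : ℝ) = X ^ (3 / 1000 : ℝ) * X ^ (49 / 100 : ℝ) := by
      rw [← Real.rpow_add hX0]
      norm_num
    rw [h2, ← mul_assoc]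
    refine le_mul_of_one_le_left (by positivity) ?_
    rw [inv_le_iff_one_le_mul₀' hpos] at hX
    exact hX
  have key : ∀ (D : ℝ), ∀ᶠ z : ℝ in atTop, D * z ^ 3 ≤ Real.exp z := by
    intro D
    have h1 := (Real.isLittleO_pow_exp_atTop (n := 3)).bound (show (0 : ℝ) < 1 / (|D| + 1) by positivity)
    filter_upwards [h1, eventually_ge_atTop (0 : ℝ)] with z hz hz0
    rw [Real.norm_of_nonneg (by positivity), Real.norm_of_nonneg (by positivity),
      one_div, inv_mul_eq_div, le_div_iff₀ (by positivity)] at hz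
    have h3 : 0 ≤ z ^ 3 := by positivity
    have h4 : D * z ^ 3 ≤ |D| * z ^ 3 := mul_le_mul_of_nonneg_right (le_abs_self D) h3
    linarith
  have e2 : ∀ᶠ X : ℝ in atTop, C * X ^ 3 ≤ 1 / 1000 * (Real.exp (14 / 100 * X) - 1) := by
    have h1 := t3.eventually (key ((1000 * |C| + 1) * (100 / 14) ^ 3))
    filter_upwards [h1, eventually_ge_atTop (1 : ℝ)] with X hX hX1
    have h2 : (1000 * |C| + 1) * (100 / 14) ^ 3 * (14 / 100 * X) ^ 3 = (1000 * |C| + 1) * X ^ 3 := by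
      ring
    rw [h2] at hX
    have h3 : (1 : ℝ) ≤ X ^ 3 := one_le_pow₀ hX1
    have h4 : C * X ^ 3 ≤ |C| * X ^ 3 := mul_le_mul_of_nonneg_right (le_abs_self C) (by positivity)
    linarith
  have e3 : ∀ᶠ X : ℝ in atTop, X + 2 ≤ Real.exp (14 / 100 * X) := by
    have h1 := t3.eventually (key (3 * (100 / 14) ^ 3))
    filter_upwards [h1, eventually_ge_atTop (1 : ℝ)] with X hX hX1
    have h2 : 3 * (100 / 14) ^ 3 * (14 / 100 * X) ^ 3 = 3 * X ^ 3 := by
      ring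
    rw [h2] at hX
    have h3 : X ≤ X ^ 3 := by
      calc X = X ^ 1 := (pow_one X).symm
        _ ≤ X ^ 3 := pow_le_pow_right₀ hX1 (by norm_num)
    linarith
  have hall := (eventually_ge_atTop (100 : ℝ)).and ((t2.eventually_ge_atTop y0).and
    ((t2.eventually_ge_atTop Y0).and (e1.and (e3.and e2))))
  obtain ⟨X0, hX0⟩ := eventually_atTop.mp hall
  exact ⟨X0, fun X hX => hX0 X hX⟩

private theorem mem_GG {N : ℕ} {a b : ℝ} {W c e0 : ℕ} {I : Finset ℕ} {t : ℕ} {z : ℕ × ℕ} :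
    z ∈ GG N a b W c e0 I t ↔ (z.1 ∈ Rg N a b ∧ z.2 ∈ I) ∧ Alw W c e0 z.1 ∧ Sim z.1 z.2 ∧
      rp z.1 z.2 < t := by
  classical
  unfold GG
  rw [Finset.mem_filter, Finset.mem_product]

private theorem mem_Rg {N p : ℕ} {a b : ℝ} :
    p ∈ Rg N a b ↔ p ∈ Icc 1 N ∧ p.Prime ∧ (N : ℝ) ^ a < p ∧ (p : ℝ) ≤ (N : ℝ) ^ b := by
  unfold Rg
  exact Finset.mem_filter

theorem two_scale (w c e0 t : ℕ) (μ C0 : ℝ) (hw : 2 ≤ w) (he0 : Even e0) (hAM : AM (Ww w) c e0 μ)
    (ht : 1 ≤ t) (ht6 : t ≤ 6) (hμ : 29 / 10 ≤ t * μ) :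
    ∃ X0 : ℝ, ∀ X : ℝ, X0 ≤ X → ∀ (I : Finset ℕ) (u : ℕ → ℝ), Fam (Ww w) e0 C0 X I u →
      (∀ e ∈ I, Irreducible (Polynomial.bernoulli e)) → ∀ N1 N2 : ℕ,
      N1 = ⌊Real.exp (4425 / 10000 * X)⌋₊ → N2 = ⌊Real.exp (4875 / 10000 * X)⌋₊ →
      1 / 1000 ≤ mass N1 u (GG N1 (335 / 1000) (495 / 1000) (Ww w) c e0 I t) ∨
      1 / 1000 ≤ mass N2 u (GG N2 (335 / 1000) (495 / 1000) (Ww w) c e0 I t) := by
  classical
  obtain ⟨y0, hAM0⟩ := hAM (1 / 1000) (by norm_num)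
  obtain ⟨Y0, hLB⟩ := lattice_bern (1 / 1000) (by norm_num)
  obtain ⟨C, hC, hSim⟩ := sim_few
  obtain ⟨X0, hX0⟩ := asym y0 Y0 C
  refine ⟨X0, ?_⟩
  intro X hX I u hF hirr N1 N2 hN1 hN2
  obtain ⟨hX100, hy0, hY0, hX49, hXx, hXC⟩ := hX0 X hX
  by_contra hcon
  push Not at hcon
  obtain ⟨hm1, hm2⟩ := hcon
  -- sizes
  obtain ⟨a1, a2, a3⟩ := log_floor (A := 4425 / 10000 * X) (by linarith)
  obtain ⟨b1, b2, b3⟩ := log_floor (A := 4875 / 10000 * X) (by linarith)
  rw [← hN1] at a1 a2 a3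
  rw [← hN2] at b1 b2 b3
  have hN1p : (0 : ℝ) < (N1 : ℝ) := by exact_mod_cast a3
  have hN2p : (0 : ℝ) < (N2 : ℝ) := by exact_mod_cast b3
  have hN1r : (1 : ℝ) ≤ (N1 : ℝ) := by exact_mod_cast a3
  have hN2r : (1 : ℝ) ≤ (N2 : ℝ) := by exact_mod_cast b3
  set l1 := Real.log N1 with hl1
  set l2 := Real.log N2 with hl2
  set x : ℝ := (N1 : ℝ) ^ (335 / 1000 : ℝ) with hx
  set y : ℝ := (N2 : ℝ) ^ (495 / 1000 : ℝ) with hy
  have hlx : Real.log x = 335 / 1000 * l1 := Real.log_rpow hN1p _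
  have hly : Real.log y = 495 / 1000 * l2 := Real.log_rpow hN2p _
  have hx0 : 0 < x := Real.rpow_pos_of_pos hN1p _
  have hyp : 0 < y := Real.rpow_pos_of_pos hN2p _
  have hxexp : Real.exp (14 / 100 * X) ≤ x := by
    rw [← Real.exp_log hx0, hlx]
    exact Real.exp_le_exp.mpr (by linarith)
  have hyexp : y = Real.exp (495 / 1000 * l2) := by
    rw [← hly, Real.exp_log hyp]
  obtain ⟨c1, c2, c3⟩ := log_floor (A := 495 / 1000 * l2) (by linarith)
  rw [← hyexp] at c1 c2 c3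
  set Y := ⌊y⌋₊ with hYd
  have hYp : (0 : ℝ) < (Y : ℝ) := by exact_mod_cast c3
  have hYlog : 23 / 100 * X ≤ Real.log Y := by linarith
  have hYexp : Real.exp (23 / 100 * X) ≤ (Y : ℝ) := by
    rw [← Real.exp_log hYp]
    exact Real.exp_le_exp.mpr hYlog
  have hYy : (Y : ℝ) ≤ y := Nat.floor_le hyp.le
  have hx1 : 1 ≤ x := Real.one_le_rpow hN1r (by norm_num)
  have hxy : x ≤ y := by
    rw [← Real.log_le_log_iff hx0 hyp, hlx, hly]
    linarith
  have hmid : (N2 : ℝ) ^ (335 / 1000 : ℝ) ≤ (N1 : ℝ) ^ (495 / 1000 : ℝ) := by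
    rw [← Real.log_le_log_iff (Real.rpow_pos_of_pos hN2p _) (Real.rpow_pos_of_pos hN1p _),
      Real.log_rpow hN2p, Real.log_rpow hN1p, ← hl1, ← hl2]
    linarith
  have hAM1 := hAM0 x y hx1 hxy (hy0.trans (hYexp.trans hYy))
  set S : Finset ℕ := (Icc 1 ⌊y⌋₊).filter
    (fun p : ℕ => p.Prime ∧ x < (p : ℝ) ∧ Alw (Ww w) c e0 p) with hS
  have hSm : ∀ p ∈ S, p ∈ Icc 1 Y ∧ p.Prime ∧ x < (p : ℝ) ∧ Alw (Ww w) c e0 p := by
    intro p hp
    exact Finset.mem_filter.mp hp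
  set g : ℕ → ℝ := fun p => Real.log p / ((p : ℝ) - 1) with hg
  have hg0 : ∀ p : ℕ, 0 ≤ g p := by
    intro p
    rcases Nat.eq_zero_or_pos p with h | h
    · rw [hg, h]
      simp
    · have h1 : (1 : ℝ) ≤ (p : ℝ) := by exact_mod_cast h
      exact div_nonneg (Real.log_nonneg h1) (by linarith)
  have hAM2 : μ * (Real.log y - Real.log x) - 1 / 1000 * Real.log y ≤ ∑ p ∈ S, g p := by
    convert hAM1 using 2
  have htr : (1 : ℝ) ≤ (t : ℝ) := by exact_mod_cast ht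
  have ht6r : (t : ℝ) ≤ 6 := by exact_mod_cast ht6
  -- facts on e
  have hI : ∀ e ∈ I, 2 ≤ e ∧ Even e ∧ (e : ℝ) ≤ X ^ (49 / 100 : ℝ) ∧ (e : ℝ) ≤ X := by
    intro e he
    have h1 : (1 : ℝ) ≤ (e : ℝ) :=
      (Real.one_le_rpow (by linarith) (by norm_num)).trans (hF.lo e he)
    have h2 : 1 ≤ e := by exact_mod_cast h1
    have h3 : Even e := by
      have h4 := hF.cls e he
      have h5 := ww_even w hw
      rw [← Nat.mod_add_div e (Ww w), h4]
      exact he0.add (h5.mul_right _)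
    refine ⟨?_, h3, hF.hi e he, ?_⟩
    · obtain ⟨k, hk⟩ := h3
      omega
    · refine (hF.hi e he).trans ?_
      calc X ^ (49 / 100 : ℝ) ≤ X ^ (1 : ℝ) :=
            Real.rpow_le_rpow_of_exponent_le (by linarith) (by norm_num)
        _ = X := Real.rpow_one X
  -- one e
  have hone : ∀ e ∈ I, ∑ p ∈ S, g p ≤ X / 1000 +
      ∑ p ∈ S.filter (fun p => Sim p e ∧ rp p e < t), g p +
      1 / (t : ℝ) * ((1 + 1 / 1000) * Real.log Y) := by
    intro e he
    obtain ⟨he2, hev, he49, heX⟩ := hI e he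
    have hep : ∀ p ∈ S, e + 2 ≤ p := by
      intro p hp
      have h1 := (hSm p hp).2.2.1
      have h2 : (e : ℝ) + 2 ≤ (p : ℝ) := by linarith
      exact_mod_cast h2
    have hsp := split_sum S g (fun p _ => hg0 p) (fun p => ¬ Sim p e)
      (fun p => Sim p e ∧ rp p e < t) (fun p => t ≤ rp p e) (fun p _ => by
        by_cases h1 : Sim p e
        · rcases lt_or_ge (rp p e) t with h2 | h2
          · exact Or.inr (Or.inl ⟨h1, h2⟩)
          · exact Or.inr (Or.inr h2)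
        · exact Or.inl h1)
    have hA : ∑ p ∈ S.filter (fun p => ¬ Sim p e), g p ≤ X / 1000 := by
      have h1 := hSim e he2 hev (hirr e he) (S.filter (fun p => ¬ Sim p e)) (fun p hp => by
        rw [Finset.mem_filter] at hp
        exact ⟨(hSm p hp.1).2.1, hep p hp.1, hp.2⟩)
      have h2 : ∀ p ∈ S.filter (fun p => ¬ Sim p e), g p ≤ X / (x - 1) := by
        intro p hp
        rw [Finset.mem_filter] at hp
        obtain ⟨q1, q2, q3, q4⟩ := hSm p hp.1
        rw [Finset.mem_Icc] at q1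
        have hpY : (p : ℝ) ≤ (Y : ℝ) := by exact_mod_cast q1.2
        have hpp : (0 : ℝ) < (p : ℝ) := by linarith
        have hlp : Real.log p ≤ X := by
          have := Real.log_le_log hpp (hpY.trans hYy)
          rw [hly] at this
          linarith
        have hxm : 0 < x - 1 := by linarith
        calc g p = Real.log p / ((p : ℝ) - 1) := rfl
          _ ≤ X / ((p : ℝ) - 1) := div_le_div_of_nonneg_right hlp (by linarith)
          _ ≤ X / (x - 1) := div_le_div_of_nonneg_left (by linarith) hxm (by linarith)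
      have hxm : 0 < x - 1 := by linarith
      calc ∑ p ∈ S.filter (fun p => ¬ Sim p e), g p
          ≤ ∑ _p ∈ S.filter (fun p => ¬ Sim p e), X / (x - 1) := Finset.sum_le_sum h2
        _ = ((S.filter (fun p => ¬ Sim p e)).card : ℝ) * (X / (x - 1)) := by
            rw [Finset.sum_const, nsmul_eq_mul]
        _ ≤ (C * X ^ 3) * (X / (x - 1)) := by
            refine mul_le_mul_of_nonneg_right (h1.trans ?_) (by positivity)
            refine mul_le_mul_of_nonneg_left ?_ hC.le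
            exact pow_le_pow_left₀ (by positivity) heX 3
        _ ≤ (1 / 1000 * (x - 1)) * (X / (x - 1)) := by
            refine mul_le_mul_of_nonneg_right ?_ (by positivity)
            linarith
        _ = X / 1000 := by
            field_simp
    have hR : ∑ p ∈ S.filter (fun p => t ≤ rp p e), g p ≤
        1 / (t : ℝ) * ((1 + 1 / 1000) * Real.log Y) := by
      have h1 := hLB Y (hY0.trans hYexp) e he2 hev (hirr e he) (by
        refine he49.trans (hX49.trans ?_)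
        exact Real.rpow_le_rpow (by positivity) hYlog (by norm_num))
      have h2 : (t : ℝ) * ∑ p ∈ S.filter (fun p => t ≤ rp p e), g p ≤
          ∑ p ∈ (Icc 1 Y).filter (fun p => p.Prime ∧ e + 2 ≤ p),
            (rp p e : ℝ) * (Real.log p / ((p : ℝ) - 1)) := by
        rw [Finset.mul_sum]
        calc ∑ p ∈ S.filter (fun p => t ≤ rp p e), (t : ℝ) * g p
            ≤ ∑ p ∈ S.filter (fun p => t ≤ rp p e), (rp p e : ℝ) * g p := by
              refine Finset.sum_le_sum fun p hp => ?_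
              refine mul_le_mul_of_nonneg_right ?_ (hg0 p)
              exact_mod_cast (Finset.mem_filter.mp hp).2
          _ ≤ _ := by
              refine Finset.sum_le_sum_of_subset_of_nonneg ?_
                fun p _ _ => mul_nonneg (Nat.cast_nonneg _) (hg0 p)
              intro p hp
              rw [Finset.mem_filter] at hp ⊢
              exact ⟨(hSm p hp.1).1, (hSm p hp.1).2.1, hep p hp.1⟩
      have h3 := h2.trans h1
      rw [one_div, inv_mul_eq_div, le_div_iff₀ (by linarith)]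
      linarith
    linarith
  -- sum over e
  have hsum : ∑ p ∈ S, g p ≤ X / 1000 +
      ∑ e ∈ I, u e * ∑ p ∈ S.filter (fun p => Sim p e ∧ rp p e < t), g p +
      1 / (t : ℝ) * ((1 + 1 / 1000) * Real.log Y) := by
    have h1 : ∑ e ∈ I, u e * ∑ p ∈ S, g p ≤ ∑ e ∈ I, u e * (X / 1000 +
      ∑ p ∈ S.filter (fun p => Sim p e ∧ rp p e < t), g p +
      1 / (t : ℝ) * ((1 + 1 / 1000) * Real.log Y)) :=
      Finset.sum_le_sum fun e he => mul_le_mul_of_nonneg_left (hone e he) (hF.nonneg e he)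
    have h2 : ∑ e ∈ I, u e * (X / 1000 +
      ∑ p ∈ S.filter (fun p => Sim p e ∧ rp p e < t), g p +
      1 / (t : ℝ) * ((1 + 1 / 1000) * Real.log Y)) =
      (∑ e ∈ I, u e) * (X / 1000) +
        ∑ e ∈ I, u e * ∑ p ∈ S.filter (fun p => Sim p e ∧ rp p e < t), g p +
      (∑ e ∈ I, u e) * (1 / (t : ℝ) * ((1 + 1 / 1000) * Real.log Y)) := by
      rw [Finset.sum_mul, Finset.sum_mul, ← Finset.sum_add_distrib, ← Finset.sum_add_distrib]
      refine Finset.sum_congr rfl fun e _ => ?_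
      ring
    rw [h2, ← Finset.sum_mul, hF.sum, one_mul, one_mul, one_mul] at h1
    exact h1
  have hdbl := double_sum S I u g (fun p e => Sim p e ∧ rp p e < t)
    (GG N1 (335 / 1000) (495 / 1000) (Ww w) c e0 I t)
    (GG N2 (335 / 1000) (495 / 1000) (Ww w) c e0 I t)
    (fun z hz => by
      have hz2 : z.2 ∈ I := by
        rcases Finset.mem_union.mp hz with h | h
        · exact (mem_GG.mp h).1.2
        · exact (mem_GG.mp h).1.2
      exact mul_nonneg (hF.nonneg _ hz2) (hg0 _))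
    (fun p hp e he hQ => by
      obtain ⟨q1, q2, q3, q4⟩ := hSm p hp
      rw [Finset.mem_Icc] at q1
      have hpY : (p : ℝ) ≤ (Y : ℝ) := by exact_mod_cast q1.2
      rw [Finset.mem_union]
      rcases le_or_gt (p : ℝ) ((N1 : ℝ) ^ (495 / 1000 : ℝ)) with h | h
      · left
        refine mem_GG.mpr ⟨⟨mem_Rg.mpr ⟨?_, q2, q3, h⟩, he⟩, q4, hQ.1, hQ.2⟩
        rw [Finset.mem_Icc]
        refine ⟨q1.1, ?_⟩
        have h1 : (p : ℝ) ≤ (N1 : ℝ) := by
          refine h.trans ?_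
          calc (N1 : ℝ) ^ (495 / 1000 : ℝ) ≤ (N1 : ℝ) ^ (1 : ℝ) :=
                Real.rpow_le_rpow_of_exponent_le hN1r (by norm_num)
            _ = N1 := Real.rpow_one _
        exact_mod_cast h1
      · right
        refine mem_GG.mpr ⟨⟨mem_Rg.mpr ⟨?_, q2, hmid.trans_lt h, hpY.trans hYy⟩, he⟩, q4,
          hQ.1, hQ.2⟩
        rw [Finset.mem_Icc]
        refine ⟨q1.1, ?_⟩
        have h1 : (p : ℝ) ≤ (N2 : ℝ) := by
          refine (hpY.trans hYy).trans ?_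
          calc (N2 : ℝ) ^ (495 / 1000 : ℝ) ≤ (N2 : ℝ) ^ (1 : ℝ) :=
                Real.rpow_le_rpow_of_exponent_le hN2r (by norm_num)
            _ = N2 := Real.rpow_one _
        exact_mod_cast h1)
  rw [mass_mul (by rw [← hl1]; intro h; linarith), mass_mul (by rw [← hl2]; intro h; linarith),
    ← hl1, ← hl2] at hdbl
  have hM1 : mass N1 u (GG N1 (335 / 1000) (495 / 1000) (Ww w) c e0 I t) * l1 ≤ 1 / 1000 * l1 :=
    mul_le_mul_of_nonneg_right hm1.le (by linarith)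
  have hM2 : mass N2 u (GG N2 (335 / 1000) (495 / 1000) (Ww w) c e0 I t) * l2 ≤ 1 / 1000 * l2 :=
    mul_le_mul_of_nonneg_right hm2.le (by linarith)
  have hfin : μ * (Real.log y - Real.log x) ≤ 1 / 1000 * Real.log y + X / 1000 +
      (1 / 1000 * l1 + 1 / 1000 * l2) + 1 / (t : ℝ) * ((1 + 1 / 1000) * Real.log Y) := by
    linarith
  have hfin2 : (t : ℝ) * (μ * (Real.log y - Real.log x)) ≤
      t * (1 / 1000 * Real.log y + X / 1000 + (1 / 1000 * l1 + 1 / 1000 * l2)) +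
        (1 + 1 / 1000) * Real.log Y := by
    have h1 := mul_le_mul_of_nonneg_left hfin (show (0 : ℝ) ≤ t by linarith)
    have h2 : (t : ℝ) * (1 / 1000 * Real.log y + X / 1000 + (1 / 1000 * l1 + 1 / 1000 * l2) +
        1 / (t : ℝ) * ((1 + 1 / 1000) * Real.log Y)) =
      t * (1 / 1000 * Real.log y + X / 1000 + (1 / 1000 * l1 + 1 / 1000 * l2)) +
        (1 + 1 / 1000) * Real.log Y := by
      field_simp
    linarith
  have hd : 93 / 1000 * X - 35 / 100 ≤ Real.log y - Real.log x := by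
    rw [hlx, hly]
    linarith
  have hlow : 29 / 10 * (93 / 1000 * X - 35 / 100) ≤ (t : ℝ) * (μ * (Real.log y - Real.log x)) := by
    have h1 : (29 / 10 : ℝ) * (Real.log y - Real.log x) ≤ (t : ℝ) * μ * (Real.log y - Real.log x) :=
      mul_le_mul_of_nonneg_right hμ (by linarith)
    have h2 : (29 / 10 : ℝ) * (93 / 1000 * X - 35 / 100) ≤ 29 / 10 * (Real.log y - Real.log x) := by
      linarith
    linarith
  have hup : (t : ℝ) * (1 / 1000 * Real.log y + X / 1000 + (1 / 1000 * l1 + 1 / 1000 * l2)) ≤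
      6 * (1 / 1000 * Real.log y + X / 1000 + (1 / 1000 * l1 + 1 / 1000 * l2)) := by
    refine mul_le_mul_of_nonneg_right ht6r ?_
    rw [hly]
    linarith
  linarith

end Pool.Agent.BDN
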