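import Mathlib
import Pool.Agent.BDN.LBern
import Pool.Agent.BDN.SimFew
import Pool.Agent.BDN.UA

/-!
BDN-MLo. Lower bounds for the mass of the pairs with few zeros.

For a fixed `e` the allowed primes of the range are given by `AM`; the primes with `¬ Sim p e` (or `rp p e` odd) are few, and the
primes with `rp p e ≥ t` are controlled by `lattice_bern`.
-/

namespace Pool.Agent.BDN

open Finset

private theorem mlo_ev {a b ε C y0 Y0 : ℝ} (ha : 0 < a) (hb : 0 < b) (hε : 0 < ε) (hC : 0 < C) :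
    ∃ N0 : ℕ, ∀ N : ℕ, N0 ≤ N → 1 ≤ (N : ℝ) ∧ 1 ≤ Real.log N ∧ Real.log N + 2 ≤ (N : ℝ) ^ a ∧
      C * Real.log N ^ 3 ≤ ε * ((N : ℝ) ^ a - 1) ∧ y0 ≤ (N : ℝ) ^ b ∧
      Y0 ≤ (⌊(N : ℝ) ^ b⌋₊ : ℝ) ∧
      Real.log N ^ (4925 / 10000 : ℝ) ≤ Real.log (⌊(N : ℝ) ^ b⌋₊ : ℝ) ^ (493 / 1000 : ℝ) := by
  have hK : 0 < 4 + C / ε := by positivity
  have h1 : ∀ᶠ x : ℝ in Filter.atTop, (4 + C / ε) * Real.log x ^ 3 ≤ x ^ a := by
    have h := (isLittleO_log_rpow_rpow_atTop (s := a) 3 ha).bound (c := (4 + C / ε)⁻¹)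
      (by positivity)
    filter_upwards [h, Filter.eventually_ge_atTop (1 : ℝ)] with x hx hx1
    have hl : 0 ≤ Real.log x := Real.log_nonneg hx1
    rw [Real.norm_of_nonneg (Real.rpow_nonneg hl _),
      Real.norm_of_nonneg (Real.rpow_nonneg (by linarith) _)] at hx
    have h3 : Real.log x ^ (3 : ℝ) = Real.log x ^ 3 := by
      simp
    rw [h3, inv_mul_eq_div, le_div_iff₀ hK] at hx
    linarith
  have h2 : ∀ᶠ x : ℝ in Filter.atTop, 1 ≤ Real.log x :=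
    Real.tendsto_log_atTop.eventually_ge_atTop 1
  have h3 : ∀ᶠ x : ℝ in Filter.atTop, y0 ≤ x ^ b := (tendsto_rpow_atTop hb).eventually_ge_atTop y0
  have h4 : ∀ᶠ x : ℝ in Filter.atTop, max 2 Y0 ≤ x ^ (b / 2) :=
    (tendsto_rpow_atTop (by positivity)).eventually_ge_atTop _
  have h5 : ∀ᶠ x : ℝ in Filter.atTop,
      (2 / b) ^ (493 / 1000 : ℝ) ≤ Real.log x ^ (5 / 10000 : ℝ) :=
    ((tendsto_rpow_atTop (by norm_num : (0 : ℝ) < 5 / 10000)).comp
      Real.tendsto_log_atTop).eventually_ge_atTop _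
  have h6 : ∀ᶠ x : ℝ in Filter.atTop, (1 : ℝ) ≤ x := Filter.eventually_ge_atTop 1
  have hall := tendsto_natCast_atTop_atTop (R := ℝ).eventually
    ((((((h1.and h2).and h3).and h4).and h5).and h6))
  obtain ⟨N0, hN0⟩ := Filter.eventually_atTop.1 hall
  refine ⟨N0, fun N hN => ?_⟩
  obtain ⟨⟨⟨⟨⟨g1, g2⟩, g3⟩, g4⟩, g5⟩, g6⟩ := hN0 N hN
  have hN0' : (0 : ℝ) < N := by linarith
  have hl3 : 1 ≤ Real.log (N : ℝ) ^ 3 := one_le_pow₀ g2
  have hle : Real.log (N : ℝ) ≤ Real.log (N : ℝ) ^ 3 := le_self_pow₀ g2 (by norm_num)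
  have hCε : 0 ≤ C / ε * Real.log (N : ℝ) ^ 3 := by positivity
  have e1 : (4 + C / ε) * Real.log (N : ℝ) ^ 3 =
      4 * Real.log (N : ℝ) ^ 3 + C / ε * Real.log (N : ℝ) ^ 3 := by ring
  have e2 : ε * (C / ε * Real.log (N : ℝ) ^ 3) = C * Real.log (N : ℝ) ^ 3 := by
    field_simp
  have hsq : (N : ℝ) ^ b = ((N : ℝ) ^ (b / 2)) ^ 2 := by
    rw [← Real.rpow_mul_natCast hN0'.le]
    congr 1
    push_cast
    ring
  have hx2 : 2 ≤ (N : ℝ) ^ (b / 2) := (le_max_left _ _).trans g4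
  have hY : (N : ℝ) ^ (b / 2) ≤ (⌊(N : ℝ) ^ b⌋₊ : ℝ) := by
    have h7 := Nat.sub_one_lt_floor ((N : ℝ) ^ b)
    have h8 : (N : ℝ) ^ (b / 2) ≤ (N : ℝ) ^ b - 1 := by
      rw [hsq]
      nlinarith
    linarith
  have hlogY : b / 2 * Real.log N ≤ Real.log (⌊(N : ℝ) ^ b⌋₊ : ℝ) := by
    rw [← Real.log_rpow hN0']
    exact Real.log_le_log (by positivity) hY
  refine ⟨g6, g2, by linarith, ?_, g3, (le_max_right _ _).trans (g4.trans hY), ?_⟩
  · have h7 : C / ε * Real.log (N : ℝ) ^ 3 ≤ (N : ℝ) ^ a - 1 := by linarith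
    have h8 := mul_le_mul_of_nonneg_left h7 hε.le
    rw [e2] at h8
    exact h8
  · have hlp : 0 < Real.log (N : ℝ) := by linarith
    calc Real.log N ^ (4925 / 10000 : ℝ)
        = (b / 2) ^ (493 / 1000 : ℝ) * (2 / b) ^ (493 / 1000 : ℝ) *
            Real.log N ^ (4925 / 10000 : ℝ) := by
          rw [← Real.mul_rpow (by positivity) (by positivity)]
          have : b / 2 * (2 / b) = 1 := by field_simp
          rw [this, Real.one_rpow, one_mul]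
      _ ≤ (b / 2) ^ (493 / 1000 : ℝ) * Real.log N ^ (5 / 10000 : ℝ) *
            Real.log N ^ (4925 / 10000 : ℝ) := by
          refine mul_le_mul_of_nonneg_right ?_ (by positivity)
          exact mul_le_mul_of_nonneg_left g5 (by positivity)
      _ = (b / 2 * Real.log N) ^ (493 / 1000 : ℝ) := by
          rw [Real.mul_rpow (by positivity) hlp.le, mul_assoc, ← Real.rpow_add hlp]
          norm_num
      _ ≤ Real.log (⌊(N : ℝ) ^ b⌋₊ : ℝ) ^ (493 / 1000 : ℝ) :=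
          Real.rpow_le_rpow (by positivity) hlogY (by norm_num)

open Classical in
private theorem mlo_split {N t e : ℕ} {a b : ℝ} {Q B : ℕ → Prop} (ht : 1 ≤ t) (hN : (1 : ℝ) ≤ N)
    (hb : b ≤ 1) (hep : ∀ p ∈ Rg N a b, e + 2 ≤ p) :
    ∑ p ∈ (Icc 1 ⌊(N : ℝ) ^ b⌋₊).filter (fun p : ℕ => p.Prime ∧ (N : ℝ) ^ a < (p : ℝ) ∧ Q p),
      Real.log p / ((p : ℝ) - 1) ≤
    ∑ p ∈ (Rg N a b).filter (fun p => Q p ∧ ¬ B p ∧ rp p e < t), Real.log p / ((p : ℝ) - 1) +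
    ∑ p ∈ (Rg N a b).filter (fun p => B p), Real.log p / ((p : ℝ) - 1) +
    1 / t * ∑ p ∈ (Icc 1 ⌊(N : ℝ) ^ b⌋₊).filter (fun p => p.Prime ∧ e + 2 ≤ p),
      (rp p e : ℝ) * (Real.log p / ((p : ℝ) - 1)) := by
  have hf : ∀ p : ℕ, 1 ≤ p → 0 ≤ Real.log p / ((p : ℝ) - 1) := by
    intro p hp
    have h1 : (1 : ℝ) ≤ p := by exact_mod_cast hp
    exact div_nonneg (Real.log_nonneg h1) (by linarith)
  have hA : ∀ p ∈ (Icc 1 ⌊(N : ℝ) ^ b⌋₊).filter
      (fun p : ℕ => p.Prime ∧ (N : ℝ) ^ a < (p : ℝ) ∧ Q p), p ∈ Rg N a b ∧ Q p := by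
    intro p hp
    rw [mem_filter, mem_Icc] at hp
    obtain ⟨⟨h1, h2⟩, h3, h4, h5⟩ := hp
    have h6 : (p : ℝ) ≤ (N : ℝ) ^ b :=
      le_trans (by exact_mod_cast h2) (Nat.floor_le (Real.rpow_nonneg (by linarith) _))
    have h7 : (N : ℝ) ^ b ≤ N := by
      calc (N : ℝ) ^ b ≤ (N : ℝ) ^ (1 : ℝ) := Real.rpow_le_rpow_of_exponent_le hN hb
        _ = N := Real.rpow_one _
    have h8 : p ≤ N := by exact_mod_cast h6.trans h7
    refine ⟨?_, h5⟩
    unfold Rg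
    rw [mem_filter, mem_Icc]
    exact ⟨⟨h1, h8⟩, h3, h4, h6⟩
  have hRg1 : ∀ p ∈ Rg N a b, 1 ≤ p := by
    intro p hp
    unfold Rg at hp
    rw [mem_filter, mem_Icc] at hp
    exact hp.1.1
  rw [← Finset.sum_filter_add_sum_filter_not _ (fun p => B p),
    ← Finset.sum_filter_add_sum_filter_not (Finset.filter (fun p => ¬ B p) _)
      (fun p => rp p e < t)]
  have hB : ∑ p ∈ ((Icc 1 ⌊(N : ℝ) ^ b⌋₊).filter
      (fun p : ℕ => p.Prime ∧ (N : ℝ) ^ a < (p : ℝ) ∧ Q p)).filter (fun p => B p),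
      Real.log p / ((p : ℝ) - 1) ≤
      ∑ p ∈ (Rg N a b).filter (fun p => B p), Real.log p / ((p : ℝ) - 1) := by
    refine Finset.sum_le_sum_of_subset_of_nonneg ?_ ?_
    · intro p hp
      rw [mem_filter] at hp ⊢
      exact ⟨(hA p hp.1).1, hp.2⟩
    · intro p hp _
      rw [mem_filter] at hp
      exact hf p (hRg1 p hp.1)
  have hG : ∑ p ∈ (((Icc 1 ⌊(N : ℝ) ^ b⌋₊).filter
      (fun p : ℕ => p.Prime ∧ (N : ℝ) ^ a < (p : ℝ) ∧ Q p)).filter (fun p => ¬ B p)).filter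
        (fun p => rp p e < t), Real.log p / ((p : ℝ) - 1) ≤
      ∑ p ∈ (Rg N a b).filter (fun p => Q p ∧ ¬ B p ∧ rp p e < t),
        Real.log p / ((p : ℝ) - 1) := by
    refine Finset.sum_le_sum_of_subset_of_nonneg ?_ ?_
    · intro p hp
      rw [mem_filter, mem_filter] at hp
      rw [mem_filter]
      exact ⟨(hA p hp.1.1).1, (hA p hp.1.1).2, hp.1.2, hp.2⟩
    · intro p hp _
      rw [mem_filter] at hp
      exact hf p (hRg1 p hp.1)
  have ht0 : (0 : ℝ) < t := by exact_mod_cast ht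
  have hR : ∑ p ∈ (((Icc 1 ⌊(N : ℝ) ^ b⌋₊).filter
      (fun p : ℕ => p.Prime ∧ (N : ℝ) ^ a < (p : ℝ) ∧ Q p)).filter (fun p => ¬ B p)).filter
        (fun p => ¬ rp p e < t), Real.log p / ((p : ℝ) - 1) ≤
      1 / t * ∑ p ∈ (Icc 1 ⌊(N : ℝ) ^ b⌋₊).filter (fun p => p.Prime ∧ e + 2 ≤ p),
        (rp p e : ℝ) * (Real.log p / ((p : ℝ) - 1)) := by
    rw [Finset.mul_sum]
    refine le_trans (Finset.sum_le_sum (g := fun p : ℕ =>
      1 / (t : ℝ) * ((rp p e : ℝ) * (Real.log p / ((p : ℝ) - 1)))) ?_)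
      (Finset.sum_le_sum_of_subset_of_nonneg ?_ ?_)
    · intro p hp
      rw [mem_filter, mem_filter] at hp
      have h1 := hf p (hRg1 p (hA p hp.1.1).1)
      have h2 : (t : ℝ) ≤ (rp p e : ℝ) := by exact_mod_cast not_lt.1 hp.2
      have h3 : 1 ≤ 1 / (t : ℝ) * (rp p e : ℝ) := by
        rw [one_div, inv_mul_eq_div, le_div_iff₀ ht0]
        linarith
      calc Real.log p / ((p : ℝ) - 1) = 1 * (Real.log p / ((p : ℝ) - 1)) := (one_mul _).symm
        _ ≤ (1 / (t : ℝ) * (rp p e : ℝ)) * (Real.log p / ((p : ℝ) - 1)) :=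
            mul_le_mul_of_nonneg_right h3 h1
        _ = _ := by ring
    · intro p hp
      rw [mem_filter, mem_filter] at hp
      have h1 := hp.1.1
      rw [mem_filter] at h1
      rw [mem_filter]
      exact ⟨h1.1, h1.2.1, hep p (hA p hp.1.1).1⟩
    · intro p hp _
      rw [mem_filter, mem_Icc] at hp
      have h1 := hf p hp.1.1
      positivity
  linarith

open Classical in
private theorem mlo_bad {N e : ℕ} {a b C ε : ℝ} {B : ℕ → Prop}
    (hl : 1 ≤ Real.log N) (ha1 : Real.log N + 2 ≤ (N : ℝ) ^ a) (hC0 : 0 < C)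
    (hC : C * Real.log N ^ 3 ≤ ε * ((N : ℝ) ^ a - 1)) (he : (e : ℝ) ≤ Real.log N)
    (hcard : (((Rg N a b).filter (fun p => B p)).card : ℝ) ≤ C * (e : ℝ) ^ 3) :
    ∑ p ∈ (Rg N a b).filter (fun p => B p), Real.log p / ((p : ℝ) - 1) ≤ ε * Real.log N := by
  have hpos : 0 < (N : ℝ) ^ a - 1 := by linarith
  have h1 : ∀ p ∈ (Rg N a b).filter (fun p => B p),
      Real.log p / ((p : ℝ) - 1) ≤ Real.log N / ((N : ℝ) ^ a - 1) := by
    intro p hp
    rw [mem_filter] at hp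
    have h2 := hp.1
    unfold Rg at h2
    rw [mem_filter, mem_Icc] at h2
    obtain ⟨⟨h3, h4⟩, h5, h6, h7⟩ := h2
    have h8 : (0 : ℝ) < p := by exact_mod_cast h3
    have h9 : (p : ℝ) ≤ N := by exact_mod_cast h4
    refine div_le_div₀ (by linarith) (Real.log_le_log h8 h9) hpos ?_
    linarith
  refine (Finset.sum_le_card_nsmul _ _ _ h1).trans ?_
  rw [nsmul_eq_mul]
  have h2 : C * (e : ℝ) ^ 3 ≤ C * Real.log N ^ 3 := by
    refine mul_le_mul_of_nonneg_left ?_ hC0.le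
    exact pow_le_pow_left₀ (Nat.cast_nonneg _) he 3
  calc (((Rg N a b).filter (fun p => B p)).card : ℝ) * (Real.log N / ((N : ℝ) ^ a - 1))
      ≤ (ε * ((N : ℝ) ^ a - 1)) * (Real.log N / ((N : ℝ) ^ a - 1)) := by
        refine mul_le_mul_of_nonneg_right (hcard.trans (h2.trans hC)) ?_
        exact div_nonneg (by linarith) hpos.le
    _ = ε * Real.log N := by field_simp

open Classical in
private theorem mlo_core (w c e0 t : ℕ) (μ C0 a b ε C : ℝ) (B : ℕ → ℕ → Prop) (hw : 2 ≤ w)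
    (he0 : Even e0) (hAM : AM (Ww w) c e0 μ) (ht : 1 ≤ t) (ha : 0 < a) (hab : a < b)
    (hb : b ≤ 1 / 2) (hε : 0 < ε) (hC : 0 < C)
    (hB : ∀ e : ℕ, 2 ≤ e → Even e → Irreducible (Polynomial.bernoulli e) → ∀ S : Finset ℕ,
      (∀ p ∈ S, p.Prime ∧ e + 2 ≤ p ∧ B p e) → (S.card : ℝ) ≤ C * (e : ℝ) ^ 3) :
    ∃ N0 : ℕ, ∀ N : ℕ, N0 ≤ N → 1 ≤ Real.log N ∧ ∀ (X : ℝ) (I : Finset ℕ) (u : ℕ → ℝ),
      Real.log N ≤ X → X ≤ 4 * Real.log N → Fam (Ww w) e0 C0 X I u →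
      (∀ e ∈ I, Irreducible (Polynomial.bernoulli e)) → ∀ e ∈ I,
      (μ * (b - a) - b / t - ε) * Real.log N ≤
        ∑ p ∈ (Rg N a b).filter (fun p => Alw (Ww w) c e0 p ∧ ¬ B p e ∧ rp p e < t),
          Real.log p / ((p : ℝ) - 1) := by
  obtain ⟨y0, hy0⟩ := hAM (ε / 3) (by positivity)
  obtain ⟨Y0, hY0⟩ := lattice_bern (ε / 3) (by positivity)
  obtain ⟨N1, hN1⟩ := mlo_ev (a := a) (b := b) (ε := ε / 3) (C := C) (y0 := y0) (Y0 := Y0) ha
    (ha.trans hab) (by positivity) hC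
  obtain ⟨N2, hN2⟩ := fam_bounds w hw
  refine ⟨max N1 N2, fun N hN => ?_⟩
  obtain ⟨g1, g2, g3, g4, g5, g6, g7⟩ := hN1 N ((le_max_left _ _).trans hN)
  refine ⟨g2, fun X I u hX1 hX2 hFam hirr e heI => ?_⟩
  obtain ⟨hev, he4, -, hehi⟩ := hN2 N ((le_max_right _ _).trans hN) e0 C0 X I u hX1 hX2 he0 hFam
    e heI
  have hb0 : 0 < b := ha.trans hab
  have hNpos : (0 : ℝ) < N := by linarith
  have heL : (e : ℝ) ≤ Real.log N := by
    refine hehi.trans ?_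
    calc Real.log N ^ (4925 / 10000 : ℝ) ≤ Real.log N ^ (1 : ℝ) :=
          Real.rpow_le_rpow_of_exponent_le g2 (by norm_num)
      _ = Real.log N := Real.rpow_one _
  have hep : ∀ p ∈ Rg N a b, e + 2 ≤ p := by
    intro p hp
    unfold Rg at hp
    rw [mem_filter] at hp
    have h1 : ((e + 2 : ℕ) : ℝ) ≤ (p : ℝ) := by
      push_cast
      linarith [hp.2.2.1]
    exact_mod_cast h1
  have hsplit := mlo_split (N := N) (t := t) (e := e) (a := a) (b := b)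
    (Q := fun p => Alw (Ww w) c e0 p) (B := fun p => B p e) ht g1 (by linarith) hep
  have hbad := mlo_bad (N := N) (e := e) (a := a) (b := b) (C := C) (ε := ε / 3)
    (B := fun p => B p e) g2 g3 hC g4 heL (by
      refine hB e (by omega) hev (hirr e heI) _ ?_
      intro p hp
      rw [mem_filter] at hp
      refine ⟨?_, hep p hp.1, hp.2⟩
      have h2 := hp.1
      unfold Rg at h2
      rw [mem_filter] at h2
      exact h2.2.1)
  have hlow := hy0 ((N : ℝ) ^ a) ((N : ℝ) ^ b) (Real.one_le_rpow g1 ha.le)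
    (Real.rpow_le_rpow_of_exponent_le g1 hab.le) g5
  rw [Real.log_rpow hNpos, Real.log_rpow hNpos] at hlow
  have hlat := hY0 ⌊(N : ℝ) ^ b⌋₊ g6 e (by omega) hev (hirr e heI) (hehi.trans g7)
  have hlogY : Real.log (⌊(N : ℝ) ^ b⌋₊ : ℝ) ≤ b * Real.log N := by
    rw [← Real.log_rpow hNpos]
    rcases Nat.eq_zero_or_pos ⌊(N : ℝ) ^ b⌋₊ with h0 | h0
    · rw [h0, Nat.cast_zero, Real.log_zero]
      exact Real.log_nonneg (Real.one_le_rpow g1 hb0.le)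
    · exact Real.log_le_log (by exact_mod_cast h0)
        (Nat.floor_le (Real.rpow_nonneg hNpos.le _))
  have ht1 : (1 : ℝ) ≤ t := by exact_mod_cast ht
  have ht0 : (0 : ℝ) < t := by linarith
  have h3 : 1 / (t : ℝ) * ∑ p ∈ (Icc 1 ⌊(N : ℝ) ^ b⌋₊).filter (fun p => p.Prime ∧ e + 2 ≤ p),
      (rp p e : ℝ) * (Real.log p / ((p : ℝ) - 1)) ≤ (b / t + ε / 3) * Real.log N := by
    calc 1 / (t : ℝ) * ∑ p ∈ (Icc 1 ⌊(N : ℝ) ^ b⌋₊).filter (fun p => p.Prime ∧ e + 2 ≤ p),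
        (rp p e : ℝ) * (Real.log p / ((p : ℝ) - 1)) ≤
        1 / (t : ℝ) * ((1 + ε / 3) * Real.log (⌊(N : ℝ) ^ b⌋₊ : ℝ)) := by
          refine mul_le_mul_of_nonneg_left ?_ (by positivity)
          exact hlat
      _ ≤ 1 / (t : ℝ) * ((1 + ε / 3) * (b * Real.log N)) := by
          refine mul_le_mul_of_nonneg_left ?_ (by positivity)
          exact mul_le_mul_of_nonneg_left hlogY (by positivity)
      _ = (b / t + ε / 3 * (b / t)) * Real.log N := by ring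
      _ ≤ (b / t + ε / 3) * Real.log N := by
          refine mul_le_mul_of_nonneg_right ?_ (by linarith)
          have h4 : b / t ≤ 1 := by
            rw [div_le_one ht0]
            linarith
          have h5 : ε / 3 * (b / t) ≤ ε / 3 * 1 :=
            mul_le_mul_of_nonneg_left h4 (by positivity)
          linarith
  have h6 : ε / 3 * (b * Real.log N) ≤ ε / 3 * Real.log N := by
    refine mul_le_mul_of_nonneg_left ?_ (by positivity)
    have : b * Real.log N ≤ 1 * Real.log N :=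
      mul_le_mul_of_nonneg_right (by linarith) (by linarith)
    linarith
  have e3 : (μ * (b - a) - b / t - ε) * Real.log N =
      μ * (b * Real.log N - a * Real.log N) - ε / 3 * Real.log N - ε / 3 * Real.log N -
        (b / t + ε / 3) * Real.log N := by ring
  rw [e3]
  linarith

open Classical in
private theorem mlo_mass {N t W c e0 : ℕ} {a b κ C0 X : ℝ} {I : Finset ℕ} {u : ℕ → ℝ}
    {B : ℕ → ℕ → Prop} {G : Finset (ℕ × ℕ)} (hl : 1 ≤ Real.log N) (hFam : Fam W e0 C0 X I u)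
    (hG : ∀ e ∈ I, ∀ p ∈ Rg N a b, Alw W c e0 p → ¬ B p e → rp p e < t → (p, e) ∈ G)
    (hGI : ∀ x ∈ G, 1 ≤ x.1 ∧ x.2 ∈ I)
    (h : ∀ e ∈ I, κ * Real.log N ≤
      ∑ p ∈ (Rg N a b).filter (fun p => Alw W c e0 p ∧ ¬ B p e ∧ rp p e < t),
        Real.log p / ((p : ℝ) - 1)) : κ ≤ mass N u G := by
  have hl0 : 0 < Real.log N := by linarith
  have h1 : κ = ∑ e ∈ I, u e * κ := by rw [← Finset.sum_mul, hFam.sum, one_mul]
  have h2 : ∑ e ∈ I, u e * κ ≤ ∑ e ∈ I, u e *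
      ((∑ p ∈ (Rg N a b).filter (fun p => Alw W c e0 p ∧ ¬ B p e ∧ rp p e < t),
        Real.log p / ((p : ℝ) - 1)) / Real.log N) := by
    refine Finset.sum_le_sum fun e he => ?_
    refine mul_le_mul_of_nonneg_left ?_ (hFam.nonneg e he)
    rw [le_div_iff₀ hl0]
    exact h e he
  have h3 : ∑ e ∈ I, u e *
      ((∑ p ∈ (Rg N a b).filter (fun p => Alw W c e0 p ∧ ¬ B p e ∧ rp p e < t),
        Real.log p / ((p : ℝ) - 1)) / Real.log N) =
      ∑ x ∈ I.sigma (fun e => (Rg N a b).filter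
        (fun p => Alw W c e0 p ∧ ¬ B p e ∧ rp p e < t)),
        u x.1 * (Real.log x.2 / ((x.2 : ℝ) - 1)) / Real.log N := by
    rw [Finset.sum_sigma]
    refine Finset.sum_congr rfl fun e _ => ?_
    rw [Finset.sum_div, Finset.mul_sum]
    refine Finset.sum_congr rfl fun p _ => ?_
    ring
  have h4 : ∑ x ∈ I.sigma (fun e => (Rg N a b).filter
        (fun p => Alw W c e0 p ∧ ¬ B p e ∧ rp p e < t)),
        u x.1 * (Real.log x.2 / ((x.2 : ℝ) - 1)) / Real.log N =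
      ∑ x ∈ (I.sigma (fun e => (Rg N a b).filter
        (fun p => Alw W c e0 p ∧ ¬ B p e ∧ rp p e < t))).image
          (fun x : (_ : ℕ) × ℕ => (x.2, x.1)),
        u x.2 * (Real.log x.1 / ((x.1 : ℝ) - 1)) / Real.log N := by
    rw [Finset.sum_image]
    rintro ⟨e, p⟩ _ ⟨e', p'⟩ _ hxy
    simp only [Prod.mk.injEq] at hxy
    obtain ⟨rfl, rfl⟩ := hxy
    rfl
  have h5 : ∑ x ∈ (I.sigma (fun e => (Rg N a b).filter
        (fun p => Alw W c e0 p ∧ ¬ B p e ∧ rp p e < t))).image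
          (fun x : (_ : ℕ) × ℕ => (x.2, x.1)),
        u x.2 * (Real.log x.1 / ((x.1 : ℝ) - 1)) / Real.log N ≤ mass N u G := by
    unfold mass
    refine Finset.sum_le_sum_of_subset_of_nonneg ?_ ?_
    · intro x hx
      rw [mem_image] at hx
      obtain ⟨⟨e, p⟩, hx, rfl⟩ := hx
      rw [mem_sigma, mem_filter] at hx
      exact hG e hx.1 p hx.2.1 hx.2.2.1 hx.2.2.2.1 hx.2.2.2.2
    · intro x hx _
      obtain ⟨h6, h7⟩ := hGI x hx
      have h8 : (1 : ℝ) ≤ (x.1 : ℝ) := by exact_mod_cast h6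
      refine div_nonneg (mul_nonneg (hFam.nonneg _ h7) ?_) hl0.le
      exact div_nonneg (Real.log_nonneg h8) (by linarith)
  rw [h3, h4] at h2
  linarith

private theorem mlo_GG {N t W c e0 : ℕ} {a b : ℝ} {I : Finset ℕ} :
    ∀ x ∈ GG N a b W c e0 I t, 1 ≤ x.1 ∧ x.2 ∈ I := by
  classical
  intro x hx
  unfold GG at hx
  rw [mem_filter, mem_product] at hx
  refine ⟨?_, hx.1.2⟩
  have h1 := hx.1.1
  unfold Rg at h1
  rw [mem_filter, mem_Icc] at h1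
  exact h1.1.1

theorem mass_lower (w c e0 t : ℕ) (μ C0 a b ε : ℝ) (hw : 2 ≤ w) (he0 : Even e0)
    (hAM : AM (Ww w) c e0 μ) (ht : 1 ≤ t) (ha : 0 < a) (hab : a < b) (hb : b ≤ 1 / 2) (hε : 0 < ε) :
    ∃ N0 : ℕ, ∀ N : ℕ, N0 ≤ N → ∀ (X : ℝ) (I : Finset ℕ) (u : ℕ → ℝ), Real.log N ≤ X →
      X ≤ 4 * Real.log N → Fam (Ww w) e0 C0 X I u → (∀ e ∈ I, Irreducible (Polynomial.bernoulli e)) →
      μ * (b - a) - b / t - ε ≤ mass N u (GG N a b (Ww w) c e0 I t) := by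
  classical
  obtain ⟨C, hC, hCs⟩ := sim_few
  obtain ⟨N0, hN0⟩ := mlo_core w c e0 t μ C0 a b ε C (fun p e => ¬ Sim p e) hw he0 hAM ht ha hab
    hb hε hC hCs
  refine ⟨N0, fun N hN X I u hX1 hX2 hFam hirr => ?_⟩
  obtain ⟨hl, h1⟩ := hN0 N hN
  refine mlo_mass (B := fun p e => ¬ Sim p e) hl hFam ?_ mlo_GG (h1 X I u hX1 hX2 hFam hirr)
  intro e he p hp h2 h3 h4
  unfold GG
  rw [mem_filter, mem_product]
  exact ⟨⟨hp, he⟩, h2, not_not.1 h3, h4⟩

theorem mass_zero (w c e0 : ℕ) (μ C0 a b ε : ℝ) (hw : 2 ≤ w) (he0 : Even e0)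
    (hAM : AM (Ww w) c e0 μ) (ha : 0 < a) (hab : a < b) (hb : b ≤ 1 / 2) (hε : 0 < ε) :
    ∃ N0 : ℕ, ∀ N : ℕ, N0 ≤ N → ∀ (X : ℝ) (I : Finset ℕ) (u : ℕ → ℝ), Real.log N ≤ X →
      X ≤ 4 * Real.log N → Fam (Ww w) e0 C0 X I u → (∀ e ∈ I, Irreducible (Polynomial.bernoulli e)) →
      μ * (b - a) - b / 2 - ε ≤ mass N u (GG N a b (Ww w) c e0 I 1) := by
  classical
  obtain ⟨C1, hC1, hCs1⟩ := sim_few
  obtain ⟨C2, hC2, hCs2⟩ := rp_odd_few
  have hbound : ∀ e : ℕ, 2 ≤ e → Even e → Irreducible (Polynomial.bernoulli e) →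
      ∀ S : Finset ℕ, (∀ p ∈ S, p.Prime ∧ e + 2 ≤ p ∧ (¬ Sim p e ∨ ¬ Even (rp p e))) →
        (S.card : ℝ) ≤ (C1 + C2) * (e : ℝ) ^ 3 := by
    intro e he hev hirr S hS
    have h1 := hCs1 e he hev hirr (S.filter fun p => ¬ Sim p e) (by
      intro p hp
      rw [mem_filter] at hp
      exact ⟨(hS p hp.1).1, (hS p hp.1).2.1, hp.2⟩)
    have h2 := hCs2 e he hev hirr (S.filter fun p => ¬ Even (rp p e)) (by
      intro p hp
      rw [mem_filter] at hp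
      exact ⟨(hS p hp.1).1, (hS p hp.1).2.1, hp.2⟩)
    have h3 : S ⊆ (S.filter fun p => ¬ Sim p e) ∪ (S.filter fun p => ¬ Even (rp p e)) := by
      intro p hp
      rw [mem_union, mem_filter, mem_filter]
      rcases (hS p hp).2.2 with h | h
      · exact Or.inl ⟨hp, h⟩
      · exact Or.inr ⟨hp, h⟩
    have h4 : (S.card : ℝ) ≤ ((S.filter fun p => ¬ Sim p e).card : ℝ) +
        ((S.filter fun p => ¬ Even (rp p e)).card : ℝ) := by
      exact_mod_cast (Finset.card_le_card h3).trans (Finset.card_union_le _ _)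
    have he1 : (1 : ℝ) ≤ e := by exact_mod_cast (by omega : 1 ≤ e)
    have h5 : (e : ℝ) ^ 2 ≤ (e : ℝ) ^ 3 := pow_le_pow_right₀ he1 (by norm_num)
    have h6 : C2 * (e : ℝ) ^ 2 ≤ C2 * (e : ℝ) ^ 3 := mul_le_mul_of_nonneg_left h5 hC2.le
    have h7 : (C1 + C2) * (e : ℝ) ^ 3 = C1 * (e : ℝ) ^ 3 + C2 * (e : ℝ) ^ 3 := by ring
    rw [h7]
    linarith
  obtain ⟨N0, hN0⟩ := mlo_core w c e0 2 μ C0 a b ε (C1 + C2)
    (fun p e => ¬ Sim p e ∨ ¬ Even (rp p e)) hw he0 hAM (by norm_num) ha hab hb hε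
    (by positivity) hbound
  refine ⟨N0, fun N hN X I u hX1 hX2 hFam hirr => ?_⟩
  obtain ⟨hl, h1⟩ := hN0 N hN
  refine mlo_mass (B := fun p e => ¬ Sim p e ∨ ¬ Even (rp p e)) (t := 2) hl hFam ?_ mlo_GG
    (by
      have h2 := h1 X I u hX1 hX2 hFam hirr
      simpa using h2)
  intro e he p hp h2 h3 h4
  unfold GG
  rw [mem_filter, mem_product]
  rw [not_or, not_not, not_not] at h3
  refine ⟨⟨hp, he⟩, h2, h3.1, ?_⟩
  obtain ⟨k, hk⟩ := h3.2
  show rp p e < 1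
  omega

end Pool.Agent.BDN
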