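import Mathlib
import Pool.Agent.BDN.CA
import Pool.Agent.Helper52.PrimeSums

/-!
BDN-CB. The first moment, and simple bounds for the weights.
-/

namespace Pool.Agent.BDN

open Finset

private theorem Ww_pos (w : ℕ) : 0 < Ww w := pow_pos (Nat.factorial_pos w) w

private theorem rg_prime {N p : ℕ} {a b : ℝ} (h : p ∈ Rg N a b) : p.Prime := by
  unfold Rg at h
  rw [mem_filter] at h
  exact h.2.1

private theorem rg_le {N p : ℕ} {a b : ℝ} (h : p ∈ Rg N a b) : p ≤ N := by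
  unfold Rg at h
  rw [mem_filter, mem_Icc] at h
  exact h.1.2

private theorem logN_pos {N : ℕ} (hN : 3 ≤ N) : 0 < Real.log N := by
  apply Real.log_pos
  have : (3 : ℝ) ≤ N := by exact_mod_cast hN
  linarith

private theorem log_ratio {N p : ℕ} (hN : 3 ≤ N) (hp : p.Prime) (hpN : p ≤ N) :
    0 ≤ Real.log p / Real.log N ∧ Real.log p / Real.log N ≤ 1 := by
  have h1 := logN_pos hN
  refine ⟨div_nonneg (Real.log_natCast_nonneg p) h1.le, ?_⟩
  rw [div_le_one h1]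
  apply Real.log_le_log
  · exact_mod_cast hp.pos
  · exact_mod_cast hpN

private theorem gcd_one (w p : ℕ) : (1 : ℝ) ≤ (Nat.gcd (p - 1) (Ww w) : ℝ) := by
  have h1 : 0 < Nat.gcd (p - 1) (Ww w) := Nat.gcd_pos_of_pos_right _ (Ww_pos w)
  exact_mod_cast h1

theorem om_nonneg (w N c e0 : ℕ) (C0 : ℝ) (I : Finset ℕ) (u : ℕ → ℝ) (G : Finset (ℕ × ℕ)) (hN : 3 ≤ N)
    (hu : Wts (Ww w) e0 N C0 I u) (hG : Prs N (Ww w) c e0 I G) : ∀ x ∈ G, 0 ≤ om (Ww w) N u x := by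
  intro x hx
  obtain ⟨h1, h2, h3⟩ := hG x hx
  have h4 := (log_ratio hN (rg_prime h1) (rg_le h1)).1
  exact div_nonneg (mul_nonneg (hu.nonneg _ h2) h4) (Nat.cast_nonneg _)

theorem om_le (w N c e0 : ℕ) (C0 : ℝ) (I : Finset ℕ) (u : ℕ → ℝ) (G : Finset (ℕ × ℕ)) (hN : 3 ≤ N)
    (hu : Wts (Ww w) e0 N C0 I u) (hG : Prs N (Ww w) c e0 I G) : ∀ x ∈ G, om (Ww w) N u x ≤ u x.2 := by
  intro x hx
  obtain ⟨h1, h2, h3⟩ := hG x hx
  obtain ⟨h4, h5⟩ := log_ratio hN (rg_prime h1) (rg_le h1)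
  have h6 := gcd_one w x.1
  have h7 := hu.nonneg _ h2
  unfold om
  rw [div_le_iff₀ (by linarith)]
  calc u x.2 * (Real.log x.1 / Real.log N) ≤ u x.2 * 1 := mul_le_mul_of_nonneg_left h5 h7
    _ ≤ u x.2 * (Nat.gcd (x.1 - 1) (Ww w) : ℝ) := mul_le_mul_of_nonneg_left h6 h7

private theorem card_rg (N : ℕ) (a b : ℝ) : ((Rg N a b).card : ℝ) ≤ (N : ℝ) ^ b := by
  have h0 : (0 : ℝ) ≤ (N : ℝ) ^ b := Real.rpow_nonneg (Nat.cast_nonneg _) _
  have h1 : Rg N a b ⊆ Icc 1 ⌊(N : ℝ) ^ b⌋₊ := by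
    intro p hp
    unfold Rg at hp
    rw [mem_filter, mem_Icc] at hp
    rw [mem_Icc]
    exact ⟨hp.1.1, Nat.le_floor hp.2.2.2⟩
  have h2 := card_le_card h1
  rw [Nat.card_Icc, Nat.add_sub_cancel] at h2
  have h3 : ((Rg N a b).card : ℝ) ≤ (⌊(N : ℝ) ^ b⌋₊ : ℝ) := by exact_mod_cast h2
  exact h3.trans (Nat.floor_le h0)

private theorem G_sub {w N c e0 : ℕ} {I : Finset ℕ} {G : Finset (ℕ × ℕ)}
    (hG : Prs N (Ww w) c e0 I G) : G ⊆ (Rg N (1 / 100) (495 / 1000)) ×ˢ I := by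
  intro x hx
  obtain ⟨h1, h2, -⟩ := hG x hx
  exact mem_product.2 ⟨h1, h2⟩

theorem om_sum (w N c e0 : ℕ) (C0 : ℝ) (I : Finset ℕ) (u : ℕ → ℝ) (G : Finset (ℕ × ℕ)) (hN : 3 ≤ N)
    (hu : Wts (Ww w) e0 N C0 I u) (hG : Prs N (Ww w) c e0 I G) :
    ∑ x ∈ G, om (Ww w) N u x ≤ (N : ℝ) ^ (495 / 1000 : ℝ) := by
  calc ∑ x ∈ G, om (Ww w) N u x ≤ ∑ x ∈ G, u x.2 :=
        sum_le_sum fun x hx => om_le w N c e0 C0 I u G hN hu hG x hx
    _ ≤ ∑ x ∈ (Rg N (1 / 100) (495 / 1000)) ×ˢ I, u x.2 := by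
        apply sum_le_sum_of_subset_of_nonneg (G_sub hG)
        intro x hx _
        exact hu.nonneg _ (mem_product.1 hx).2
    _ = ((Rg N (1 / 100) (495 / 1000)).card : ℝ) * ∑ e ∈ I, u e := by
        rw [sum_product]
        show ∑ _x ∈ Rg N (1 / 100) (495 / 1000), ∑ e ∈ I, u e = _
        rw [sum_const, nsmul_eq_mul]
    _ ≤ ((Rg N (1 / 100) (495 / 1000)).card : ℝ) * 1 :=
        mul_le_mul_of_nonneg_left hu.sum (Nat.cast_nonneg _)
    _ ≤ (N : ℝ) ^ (495 / 1000 : ℝ) := by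
        rw [mul_one]
        exact card_rg N _ _

private theorem p_sub {p : ℕ} (hp : p.Prime) : (0 : ℝ) < (p : ℝ) - 1 := by
  have : (2 : ℝ) ≤ p := by exact_mod_cast hp.two_le
  linarith

theorem mass_le : ∃ N0 : ℕ, ∀ N : ℕ, N0 ≤ N → ∀ (w c e0 : ℕ) (C0 : ℝ) (I : Finset ℕ) (u : ℕ → ℝ)
    (G : Finset (ℕ × ℕ)), Wts (Ww w) e0 N C0 I u → Prs N (Ww w) c e0 I G → mass N u G ≤ 4 := by
  refine ⟨4, fun N hN w c e0 C0 I u G hu hG => ?_⟩
  have hN3 : 3 ≤ N := by omega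
  have hlog := logN_pos hN3
  have hlog4 : Real.log 4 ≤ Real.log N := by
    apply Real.log_le_log (by norm_num)
    exact_mod_cast hN
  have hR0 : ∀ p ∈ Rg N (1 / 100) (495 / 1000), 0 ≤ Real.log p / ((p : ℝ) - 1) := fun p hp =>
    div_nonneg (Real.log_natCast_nonneg p) (p_sub (rg_prime hp)).le
  have hsum : ∑ p ∈ Rg N (1 / 100) (495 / 1000), Real.log p / ((p : ℝ) - 1) ≤
      4 * Real.log N := by
    calc ∑ p ∈ Rg N (1 / 100) (495 / 1000), Real.log p / ((p : ℝ) - 1) ≤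
        ∑ p ∈ Rg N (1 / 100) (495 / 1000), 2 * (Real.log p / (p : ℝ)) := by
          apply sum_le_sum
          intro p hp
          have hp2 : (2 : ℝ) ≤ p := by exact_mod_cast (rg_prime hp).two_le
          have h0 := Real.log_natCast_nonneg p
          rw [← mul_div_assoc, div_le_div_iff₀ (by linarith) (by linarith)]
          nlinarith
      _ ≤ ∑ p ∈ Pool.Agent.Helper52.pr 0 N, 2 * (Real.log p / (p : ℝ)) := by
          apply sum_le_sum_of_subset_of_nonneg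
          · intro p hp
            rw [Pool.Agent.Helper52.mem_pr]
            exact ⟨(rg_prime hp).pos, rg_le hp, rg_prime hp⟩
          · intro p _ _
            have h0 := Real.log_natCast_nonneg p
            positivity
      _ = 2 * ∑ p ∈ Pool.Agent.Helper52.pr 0 N, Real.log p / (p : ℝ) := by rw [mul_sum]
      _ ≤ 2 * (Real.log N + Real.log 4) :=
          mul_le_mul_of_nonneg_left (Pool.Agent.Helper52.mertens1 (by omega)) (by norm_num)
      _ ≤ 4 * Real.log N := by linarith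
  unfold mass
  calc ∑ x ∈ G, u x.2 * (Real.log x.1 / ((x.1 : ℝ) - 1)) / Real.log N ≤
      ∑ x ∈ (Rg N (1 / 100) (495 / 1000)) ×ˢ I,
        u x.2 * (Real.log x.1 / ((x.1 : ℝ) - 1)) / Real.log N := by
        apply sum_le_sum_of_subset_of_nonneg (G_sub hG)
        intro x hx _
        obtain ⟨h1, h2⟩ := mem_product.1 hx
        exact div_nonneg (mul_nonneg (hu.nonneg _ h2) (hR0 _ h1)) hlog.le
    _ = (∑ e ∈ I, u e) * (∑ p ∈ Rg N (1 / 100) (495 / 1000), Real.log p / ((p : ℝ) - 1)) /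
          Real.log N := by
        rw [← sum_div, sum_product_right, sum_mul_sum]
    _ ≤ 1 * (4 * Real.log N) / Real.log N := by
        apply div_le_div_of_nonneg_right _ hlog.le
        exact mul_le_mul hu.sum hsum (sum_nonneg hR0) zero_le_one
    _ = 4 := by
        rw [one_mul, mul_div_assoc, div_self hlog.ne', mul_one]

theorem mass_nonneg (w N c e0 : ℕ) (C0 : ℝ) (I : Finset ℕ) (u : ℕ → ℝ) (G : Finset (ℕ × ℕ)) (hN : 3 ≤ N)
    (hu : Wts (Ww w) e0 N C0 I u) (hG : Prs N (Ww w) c e0 I G) : 0 ≤ mass N u G := by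
  apply sum_nonneg
  intro x hx
  obtain ⟨h1, h2, -⟩ := hG x hx
  exact div_nonneg (mul_nonneg (hu.nonneg _ h2) (div_nonneg (Real.log_natCast_nonneg _)
    (p_sub (rg_prime h1)).le)) (logN_pos hN).le

open Classical in
theorem first_mom (w N c e0 : ℕ) (C0 : ℝ) (I : Finset ℕ) (u : ℕ → ℝ) (G : Finset (ℕ × ℕ)) (hN : 3 ≤ N)
    (hc : c < Ww w) (hu : Wts (Ww w) e0 N C0 I u) (hG : Prs N (Ww w) c e0 I G) :
    (N : ℝ) / (2 * (Ww w : ℝ)) * mass N u G - (N : ℝ) ^ (495 / 1000 : ℝ) ≤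
      ∑ n ∈ NN N (Ww w) c, ∑ x ∈ G.filter (fun x => n ≡ x.2 [MOD (x.1 - 1)]), om (Ww w) N u x := by
  have hW := Ww_pos w
  have hWr : (0 : ℝ) < (Ww w : ℝ) := by exact_mod_cast hW
  have hsw : ∑ n ∈ NN N (Ww w) c, ∑ x ∈ G.filter (fun x => n ≡ x.2 [MOD (x.1 - 1)]),
      om (Ww w) N u x =
      ∑ x ∈ G, (((NN N (Ww w) c).filter (fun n => n ≡ x.2 [MOD (x.1 - 1)])).card : ℝ) *
        om (Ww w) N u x := by
    simp_rw [sum_filter]
    rw [sum_comm]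
    apply sum_congr rfl
    intro x _
    rw [← sum_filter, sum_const, nsmul_eq_mul]
  rw [hsw]
  have hterm : ∀ x ∈ G, (N : ℝ) / (2 * (Ww w : ℝ)) *
      (u x.2 * (Real.log x.1 / ((x.1 : ℝ) - 1)) / Real.log N) - om (Ww w) N u x ≤
      (((NN N (Ww w) c).filter (fun n => n ≡ x.2 [MOD (x.1 - 1)])).card : ℝ) *
        om (Ww w) N u x := by
    intro x hx
    obtain ⟨h1, h2, h3⟩ := hG x hx
    have hp := rg_prime h1
    have hom := om_nonneg w N c e0 C0 I u G hN hu hG x hx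
    have hg : 0 < Nat.gcd (x.1 - 1) (Ww w) := Nat.gcd_pos_of_pos_right _ hW
    have hp1 : 0 < x.1 - 1 := Nat.sub_pos_of_lt hp.one_lt
    have hgr : Nat.gcd (x.1 - 1) (Ww w) * ((x.1 - 1) / Nat.gcd (x.1 - 1) (Ww w)) = x.1 - 1 :=
      Nat.mul_div_cancel' (Nat.gcd_dvd_left _ _)
    have hr : 0 < (x.1 - 1) / Nat.gcd (x.1 - 1) (Ww w) := by
      apply Nat.pos_of_ne_zero
      intro h0
      rw [h0, mul_zero] at hgr
      omega
    have hset : (NN N (Ww w) c).filter (fun n => n ≡ x.2 [MOD (x.1 - 1)]) =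
        (NN N (Ww w) c).filter
          (fun n => n ≡ x.2 [MOD ((x.1 - 1) / Nat.gcd (x.1 - 1) (Ww w))]) := by
      apply filter_congr
      intro n hn
      unfold NN at hn
      rw [mem_filter] at hn
      exact alw_iff (Ww w) c e0 x.1 n x.2 hW hp.two_le h3 hn.2 (hu.cls _ h2)
    have hcnt := cnt_lower (Ww w) ((x.1 - 1) / Nat.gcd (x.1 - 1) (Ww w)) c x.2 N hW hr
      h3.2.symm hc
    rw [hset]
    have hgR : (0 : ℝ) < (Nat.gcd (x.1 - 1) (Ww w) : ℝ) := by exact_mod_cast hg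
    have hrR : (0 : ℝ) < (((x.1 - 1) / Nat.gcd (x.1 - 1) (Ww w) : ℕ) : ℝ) := by exact_mod_cast hr
    have hgrR : (Nat.gcd (x.1 - 1) (Ww w) : ℝ) *
        (((x.1 - 1) / Nat.gcd (x.1 - 1) (Ww w) : ℕ) : ℝ) = (x.1 : ℝ) - 1 := by
      have h5 : (((Nat.gcd (x.1 - 1) (Ww w) *
          ((x.1 - 1) / Nat.gcd (x.1 - 1) (Ww w)) : ℕ)) : ℝ) = ((x.1 - 1 : ℕ) : ℝ) := by rw [hgr]
      rw [Nat.cast_mul, Nat.cast_sub hp.one_lt.le, Nat.cast_one] at h5
      exact h5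
    have hlogN := logN_pos hN
    have hmain : (N : ℝ) / (2 * (Ww w : ℝ)) *
        (u x.2 * (Real.log x.1 / ((x.1 : ℝ) - 1)) / Real.log N) =
        (N : ℝ) / (2 * ((Ww w : ℝ) * (((x.1 - 1) / Nat.gcd (x.1 - 1) (Ww w) : ℕ) : ℝ))) *
          om (Ww w) N u x := by
      unfold om
      rw [← hgrR]
      field_simp
    rw [hmain]
    have h6 := mul_le_mul_of_nonneg_right hcnt hom
    rw [sub_mul, one_mul] at h6
    exact h6
  have hs := sum_le_sum hterm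
  rw [sum_sub_distrib, ← mul_sum] at hs
  have ho := om_sum w N c e0 C0 I u G hN hu hG
  have hm : mass N u G = ∑ x ∈ G, u x.2 * (Real.log x.1 / ((x.1 : ℝ) - 1)) / Real.log N := rfl
  rw [hm]
  linarith

end Pool.Agent.BDN
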