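import Mathlib

/-!
# BDL-PHI: sums with Euler's function

With `a(T) = ∏_{p ∈ T} 14/p` for a finite set `T` of primes, `(g/φ(g))^3 ≤ ∏_{p ∣ g} (1 + 14/p) = ∑_{T ⊆ primes of g} a(T)`.
-/

open Finset

namespace Pool.Agent.BDN

private lemma phi_local {x : ℝ} (hx : 0 ≤ x) (hx2 : x ≤ 1 / 2) : 1 ≤ (1 + 14 * x) * (1 - x) ^ 3 := by
  have h : (1 + 14 * x) * (1 - x) ^ 3 - 1 = x * ((1 - 2 * x) * (11 - 17 * x + 7 * x ^ 2)) := by ring
  have h1 : 0 ≤ 11 - 17 * x + 7 * x ^ 2 := by nlinarith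
  have h2 : 0 ≤ x * ((1 - 2 * x) * (11 - 17 * x + 7 * x ^ 2)) := by
    apply mul_nonneg hx
    apply mul_nonneg _ h1
    linarith
  linarith

private noncomputable def aT (T : Finset ℕ) : ℝ := ∏ p ∈ T, (14 / (p : ℝ))

private lemma aT_nonneg (T : Finset ℕ) : 0 ≤ aT T :=
  Finset.prod_nonneg fun _ _ => by positivity

private lemma phi_ratio (g : ℕ) (hg : 0 < g) :
    ((g : ℝ) / (Nat.totient g : ℝ)) ^ 3 ≤ ∑ T ∈ g.primeFactors.powerset, aT T := by
  have hφ : (0 : ℝ) < (Nat.totient g : ℝ) := by exact_mod_cast Nat.totient_pos.2 hg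
  have h1 : (Nat.totient g : ℝ) = g * ∏ p ∈ g.primeFactors, (1 - (p : ℝ)⁻¹) := by
    have := Nat.totient_eq_mul_prod_factors g
    have h2 : ((Nat.totient g : ℚ) : ℝ) = ((g * ∏ p ∈ g.primeFactors, (1 - (p : ℚ)⁻¹) : ℚ) : ℝ) := by
      rw [this]
    push_cast at h2
    exact h2
  have h2 : ∑ T ∈ g.primeFactors.powerset, aT T = ∏ p ∈ g.primeFactors, (1 + 14 / (p : ℝ)) := by
    rw [Finset.prod_one_add]
    rfl
  rw [h2, div_pow, div_le_iff₀ (by positivity), h1, mul_pow, ← Finset.prod_pow, mul_left_comm,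
    ← Finset.prod_mul_distrib]
  have h3 : (1 : ℝ) ≤ ∏ p ∈ g.primeFactors, (1 + 14 / (p : ℝ)) * (1 - (p : ℝ)⁻¹) ^ 3 := by
    refine le_trans (le_of_eq (Finset.prod_const_one (s := g.primeFactors) (M := ℝ)).symm) ?_
    apply Finset.prod_le_prod (fun _ _ => zero_le_one)
    intro p hp
    have hp2 : 2 ≤ p := (Nat.prime_of_mem_primeFactors hp).two_le
    have hp2' : (2 : ℝ) ≤ p := by exact_mod_cast hp2
    have h4 : (p : ℝ)⁻¹ ≤ 1 / 2 := by
      rw [one_div]
      exact inv_anti₀ (by norm_num) hp2'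
    have := phi_local (x := (p : ℝ)⁻¹) (by positivity) h4
    rw [div_eq_mul_inv]
    exact this
  have h4 : (0 : ℝ) ≤ (g : ℝ) ^ 3 := by positivity
  nlinarith

private lemma ratio_ge_one (g : ℕ) (hg : 0 < g) : (1 : ℝ) ≤ (g : ℝ) / (Nat.totient g : ℝ) := by
  have hφ : (0 : ℝ) < (Nat.totient g : ℝ) := by exact_mod_cast Nat.totient_pos.2 hg
  rw [le_div_iff₀ hφ, one_mul]
  exact_mod_cast Nat.totient_le g

private lemma swap_sum (S : Finset ℕ) (G : ℕ) (hS : ∀ g ∈ S, 0 < g ∧ g ≤ G) (f : ℕ → ℝ)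
    (hf : ∀ g ∈ S, 0 ≤ f g) (B : ℝ) (hB : 0 ≤ B)
    (hd : ∀ d : ℕ, 0 < d → ∑ g ∈ S.filter (fun g => d ∣ g), f g ≤ B / d) :
    ∑ g ∈ S, f g * ∑ T ∈ g.primeFactors.powerset, aT T ≤ B * Real.exp 28 := by
  classical
  set P : Finset ℕ := (Icc 1 G).filter Nat.Prime with hP
  have h1 : ∀ g ∈ S, ∑ T ∈ g.primeFactors.powerset, aT T ≤
      ∑ T ∈ P.powerset, (if (∏ p ∈ T, p) ∣ g then aT T else 0) := by
    intro g hg
    have hsub : g.primeFactors.powerset ⊆ P.powerset := by
      apply Finset.powerset_mono.2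
      intro p hp
      rw [hP, mem_filter, mem_Icc]
      have h2 := Nat.prime_of_mem_primeFactors hp
      have h3 := Nat.le_of_dvd (hS g hg).1 (Nat.dvd_of_mem_primeFactors hp)
      exact ⟨⟨h2.one_lt.le, h3.trans (hS g hg).2⟩, h2⟩
    calc ∑ T ∈ g.primeFactors.powerset, aT T
        = ∑ T ∈ g.primeFactors.powerset, (if (∏ p ∈ T, p) ∣ g then aT T else 0) := by
          apply Finset.sum_congr rfl
          intro T hT
          rw [Finset.mem_powerset] at hT
          have : (∏ p ∈ T, p) ∣ g := by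
            apply Finset.prod_primes_dvd
            · intro p hp
              exact (Nat.prime_of_mem_primeFactors (hT hp)).prime
            · intro p hp
              exact Nat.dvd_of_mem_primeFactors (hT hp)
          rw [if_pos this]
      _ ≤ _ := by
          apply Finset.sum_le_sum_of_subset_of_nonneg hsub
          intro T _ _
          split_ifs
          · exact aT_nonneg T
          · exact le_rfl
  calc ∑ g ∈ S, f g * ∑ T ∈ g.primeFactors.powerset, aT T
      ≤ ∑ g ∈ S, f g * ∑ T ∈ P.powerset, (if (∏ p ∈ T, p) ∣ g then aT T else 0) :=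
        Finset.sum_le_sum fun g hg => mul_le_mul_of_nonneg_left (h1 g hg) (hf g hg)
    _ = ∑ T ∈ P.powerset, aT T * ∑ g ∈ S.filter (fun g => (∏ p ∈ T, p) ∣ g), f g := by
        simp_rw [Finset.mul_sum]
        rw [Finset.sum_comm]
        apply Finset.sum_congr rfl
        intro T _
        rw [Finset.sum_filter]
        apply Finset.sum_congr rfl
        intro g _
        split_ifs <;> ring
    _ ≤ ∑ T ∈ P.powerset, aT T * (B / ((∏ p ∈ T, p : ℕ) : ℝ)) := by
        apply Finset.sum_le_sum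
        intro T hT
        apply mul_le_mul_of_nonneg_left _ (aT_nonneg T)
        apply hd
        apply Finset.prod_pos
        intro p hp
        rw [Finset.mem_powerset] at hT
        exact (mem_filter.1 (hT hp)).2.pos
    _ = B * ∑ T ∈ P.powerset, ∏ p ∈ T, (14 / (p : ℝ) ^ 2) := by
        rw [Finset.mul_sum]
        apply Finset.sum_congr rfl
        intro T _
        unfold aT
        have : ∏ p ∈ T, (14 / (p : ℝ) ^ 2) = (∏ p ∈ T, (14 / (p : ℝ))) / ∏ p ∈ T, (p : ℝ) := by
          rw [← Finset.prod_div_distrib]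
          apply Finset.prod_congr rfl
          intro p _
          rw [div_div, pow_two]
        rw [this]
        push_cast
        ring
    _ ≤ B * Real.exp 28 := by
        apply mul_le_mul_of_nonneg_left _ hB
        rw [← Finset.prod_one_add]
        calc ∏ p ∈ P, (1 + 14 / (p : ℝ) ^ 2) ≤ ∏ p ∈ P, Real.exp (14 / (p : ℝ) ^ 2) := by
              apply Finset.prod_le_prod
              · intro p _; positivity
              · intro p _
                have := Real.add_one_le_exp (14 / (p : ℝ) ^ 2)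
                linarith
          _ = Real.exp (∑ p ∈ P, 14 / (p : ℝ) ^ 2) := by rw [Real.exp_sum]
          _ ≤ Real.exp 28 := by
              apply Real.exp_le_exp.2
              have h2 : ∑ p ∈ P, 14 / (p : ℝ) ^ 2 ≤ ∑ m ∈ Icc 1 G, 14 / (m : ℝ) ^ 2 := by
                apply Finset.sum_le_sum_of_subset_of_nonneg
                · rw [hP]; exact filter_subset _ _
                · intro m _ _; positivity
              have h3 : ∀ K : ℕ, ∑ m ∈ Icc 1 (K + 1), 14 / (m : ℝ) ^ 2 ≤ 28 - 14 / (K + 1 : ℝ) := by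
                intro K
                induction K with
                | zero => norm_num
                | succ K ih =>
                  rw [Finset.sum_Icc_succ_top (by omega)]
                  have h5 : (14 : ℝ) / ((K + 1 + 1 : ℕ) : ℝ) ^ 2 ≤
                      14 / ((K : ℝ) + 1) - 14 / (((K + 1 : ℕ) : ℝ) + 1) := by
                    push_cast
                    rw [div_sub_div _ _ (by positivity) (by positivity),
                      div_le_div_iff₀ (by positivity) (by positivity)]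
                    nlinarith [sq_nonneg (K : ℝ), Nat.cast_nonneg (α := ℝ) K]
                  linarith
              refine h2.trans ?_
              rcases Nat.eq_zero_or_pos G with h0 | h0
              · subst h0; norm_num
              · obtain ⟨K, rfl⟩ : ∃ K, G = K + 1 := ⟨G - 1, by omega⟩
                have := h3 K
                have h6 : (0 : ℝ) ≤ 14 / (K + 1 : ℝ) := by positivity
                linarith

private lemma filter_dvd_eq (a b d : ℕ) (hd : 0 < d) : (Icc (a + 1) b).filter (fun g => d ∣ g) =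
    (Icc (a / d + 1) (b / d)).image (fun m => d * m) := by
  ext g
  rw [mem_filter, mem_image, mem_Icc]
  constructor
  · rintro ⟨⟨h1, h2⟩, m, rfl⟩
    refine ⟨m, ?_, rfl⟩
    rw [mem_Icc]
    constructor
    · rw [Nat.succ_le_iff, Nat.div_lt_iff_lt_mul hd, mul_comm]; omega
    · rw [Nat.le_div_iff_mul_le hd, mul_comm]; exact h2
  · rintro ⟨m, hm, rfl⟩
    rw [mem_Icc, Nat.succ_le_iff, Nat.div_lt_iff_lt_mul hd, Nat.le_div_iff_mul_le hd] at hm
    refine ⟨⟨?_, ?_⟩, dvd_mul_right _ _⟩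
    · rw [mul_comm] at hm; omega
    · rw [mul_comm]; exact hm.2

private lemma tail_one (m : ℕ) (hm : 1 ≤ m) :
    1 / (m : ℝ) ^ 2 ≤ 2 / (m : ℝ) - 2 / ((m : ℝ) + 1) := by
  have hm' : (1 : ℝ) ≤ m := by exact_mod_cast hm
  rw [div_sub_div _ _ (by positivity) (by positivity),
    div_le_div_iff₀ (by positivity) (by positivity)]
  nlinarith [mul_nonneg (by linarith : (0 : ℝ) ≤ m) (by linarith : (0 : ℝ) ≤ (m : ℝ) - 1)]

private lemma tail_sq (M K : ℕ) (hM : 1 ≤ M) : ∑ m ∈ Icc M K, 1 / (m : ℝ) ^ 2 ≤ (2 : ℝ) / (M : ℝ) := by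
  have key : ∀ K : ℕ, M ≤ K → ∑ m ∈ Icc M K, 1 / (m : ℝ) ^ 2 ≤ (2 : ℝ) / (M : ℝ) - 2 / ((K : ℝ) + 1) := by
    intro K hK
    induction K, hK using Nat.le_induction with
    | base =>
      rw [Finset.Icc_self, Finset.sum_singleton]
      exact tail_one M hM
    | succ K hK ih =>
      rw [Finset.sum_Icc_succ_top (by omega)]
      have h5 := tail_one (K + 1) (by omega)
      push_cast at h5 ⊢
      linarith
  rcases Nat.lt_or_ge K M with h | h
  · rw [Finset.Icc_eq_empty (by omega), Finset.sum_empty]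
    positivity
  · have := key K h
    have h2 : (0 : ℝ) ≤ 2 / ((K : ℝ) + 1) := by positivity
    linarith

private lemma ratio_pow (g : ℕ) (hg : 0 < g) :
    ((g : ℝ) / (Nat.totient g : ℝ)) ^ 2 ≤ ((g : ℝ) / (Nat.totient g : ℝ)) ^ 3 :=
  pow_le_pow_right₀ (ratio_ge_one g hg) (by norm_num)

theorem phi_tail : ∃ C : ℝ, 0 < C ∧ ∀ w G : ℕ, 1 ≤ w →
    ∑ g ∈ Icc (w + 1) G, (g : ℝ) / (Nat.totient g : ℝ) ^ 3 ≤ C / w := by
  refine ⟨2 * Real.exp 28, by positivity, fun w G hw => ?_⟩
  have hw0 : (0 : ℝ) < w := by exact_mod_cast hw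
  have h1 : ∑ g ∈ Icc (w + 1) G, (g : ℝ) / (Nat.totient g : ℝ) ^ 3 ≤
      ∑ g ∈ Icc (w + 1) G, (1 / (g : ℝ) ^ 2) * ∑ T ∈ g.primeFactors.powerset, aT T := by
    apply Finset.sum_le_sum
    intro g hg
    rw [mem_Icc] at hg
    have hg0 : 0 < g := by omega
    have hg' : (0 : ℝ) < g := by exact_mod_cast hg0
    have hφ : (0 : ℝ) < (Nat.totient g : ℝ) := by exact_mod_cast Nat.totient_pos.2 hg0
    have h2 := phi_ratio g hg0
    have h3 : (g : ℝ) / (Nat.totient g : ℝ) ^ 3 =
        1 / (g : ℝ) ^ 2 * ((g : ℝ) / (Nat.totient g : ℝ)) ^ 3 := by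
      field_simp
    rw [h3]
    exact mul_le_mul_of_nonneg_left h2 (by positivity)
  refine h1.trans ?_
  have h2 := swap_sum (Icc (w + 1) G) G (fun g hg => by rw [mem_Icc] at hg; omega)
    (fun g => 1 / (g : ℝ) ^ 2) (fun g _ => by positivity) (2 / w) (by positivity) ?_
  · refine h2.trans (le_of_eq ?_)
    ring
  · intro d hd
    have hd' : (0 : ℝ) < d := by exact_mod_cast hd
    rw [filter_dvd_eq w G d hd, Finset.sum_image (fun a _ b _ h => Nat.eq_of_mul_eq_mul_left hd h)]
    have h3 : ∑ m ∈ Icc (w / d + 1) (G / d), 1 / ((d * m : ℕ) : ℝ) ^ 2 =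
        1 / (d : ℝ) ^ 2 * ∑ m ∈ Icc (w / d + 1) (G / d), 1 / (m : ℝ) ^ 2 := by
      rw [Finset.mul_sum]
      apply Finset.sum_congr rfl
      intro m _
      push_cast
      rw [mul_pow, one_div_mul_one_div]
    rw [h3]
    have h4 := tail_sq (w / d + 1) (G / d) (Nat.le_add_left _ _)
    have h5 : (w : ℝ) / d ≤ ((w / d + 1 : ℕ) : ℝ) := by
      rw [div_le_iff₀ hd']
      have h6 : w < (w / d + 1) * d := by
        have h7 := Nat.div_add_mod w d
        have h8 := Nat.mod_lt w hd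
        have h9 : (w / d + 1) * d = d * (w / d) + d := by ring
        omega
      exact_mod_cast h6.le
    have h6 : 2 / ((w / d + 1 : ℕ) : ℝ) ≤ 2 / ((w : ℝ) / d) :=
      div_le_div_of_nonneg_left (by norm_num) (by positivity) h5
    refine (mul_le_mul_of_nonneg_left (h4.trans h6) (by positivity)).trans (le_of_eq ?_)
    field_simp

theorem phi_log : ∃ C : ℝ, 0 < C ∧ ∀ G : ℕ, 1 ≤ G →
    ∑ g ∈ Icc 1 G, (g : ℝ) / (Nat.totient g : ℝ) ^ 2 ≤ C * (1 + Real.log G) := by
  refine ⟨Real.exp 28, by positivity, fun G hG => ?_⟩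
  have hlog : 0 ≤ Real.log G := Real.log_nonneg (by exact_mod_cast hG)
  have h1 : ∑ g ∈ Icc 1 G, (g : ℝ) / (Nat.totient g : ℝ) ^ 2 ≤
      ∑ g ∈ Icc 1 G, (1 / (g : ℝ)) * ∑ T ∈ g.primeFactors.powerset, aT T := by
    apply Finset.sum_le_sum
    intro g hg
    rw [mem_Icc] at hg
    have hg0 : 0 < g := by omega
    have hg' : (0 : ℝ) < g := by exact_mod_cast hg0
    have hφ : (0 : ℝ) < (Nat.totient g : ℝ) := by exact_mod_cast Nat.totient_pos.2 hg0
    have h2 := (ratio_pow g hg0).trans (phi_ratio g hg0)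
    have h3 : (g : ℝ) / (Nat.totient g : ℝ) ^ 2 =
        1 / (g : ℝ) * ((g : ℝ) / (Nat.totient g : ℝ)) ^ 2 := by
      field_simp
    rw [h3]
    exact mul_le_mul_of_nonneg_left h2 (by positivity)
  refine h1.trans ?_
  have h2 := swap_sum (Icc 1 G) G (fun g hg => by rw [mem_Icc] at hg; omega)
    (fun g => 1 / (g : ℝ)) (fun g _ => by positivity) (1 + Real.log G) (by positivity) ?_
  · refine h2.trans (le_of_eq ?_)
    ring
  · intro d hd
    have hd' : (0 : ℝ) < d := by exact_mod_cast hd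
    have h0 : Icc 1 G = Icc (0 + 1) G := rfl
    rw [h0, filter_dvd_eq 0 G d hd, Finset.sum_image (fun a _ b _ h => Nat.eq_of_mul_eq_mul_left hd h),
      Nat.zero_div]
    have h3 : ∑ m ∈ Icc (0 + 1) (G / d), 1 / ((d * m : ℕ) : ℝ) =
        1 / (d : ℝ) * ∑ m ∈ Icc (0 + 1) (G / d), 1 / (m : ℝ) := by
      rw [Finset.mul_sum]
      apply Finset.sum_congr rfl
      intro m _
      push_cast
      rw [one_div_mul_one_div]
    rw [h3]
    have h4 : ∑ m ∈ Icc (0 + 1) (G / d), 1 / (m : ℝ) ≤ 1 + Real.log G := by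
      have h5 : ∑ m ∈ Icc (0 + 1) (G / d), 1 / (m : ℝ) ≤ ∑ m ∈ Icc (0 + 1) G, 1 / (m : ℝ) := by
        apply Finset.sum_le_sum_of_subset_of_nonneg
        · exact Finset.Icc_subset_Icc le_rfl (Nat.div_le_self _ _)
        · intro m _ _; positivity
      have h6 := harmonic_le_one_add_log G
      rw [harmonic_eq_sum_Icc] at h6
      push_cast at h6
      refine h5.trans (le_trans (le_of_eq ?_) h6)
      apply Finset.sum_congr rfl
      intro m _
      rw [one_div]
    refine (mul_le_mul_of_nonneg_left h4 (by positivity)).trans (le_of_eq ?_)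
    ring

end Pool.Agent.BDN
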