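import Pool.Agent.BDN.BT
import Pool.Agent.BDN.DefsB

/-!
# Primes `p = 1` modulo `g` in the wide range

The Brun-Titchmarsh inequality on the dyadic intervals `(2^j y₀, 2^(j+1) y₀]`, `y₀ = ⌊N^0.01⌋`.
-/

open Finset

namespace Pool.Agent.BDN

private theorem tau_event : ∃ N0 : ℕ, ∀ N : ℕ, N0 ≤ N → 3 ≤ N ∧
    2 ≤ ⌊(N : ℝ) ^ (1 / 100 : ℝ)⌋₊ ∧ Real.log N ^ 2 ≤ (⌊(N : ℝ) ^ (1 / 100 : ℝ)⌋₊ : ℝ) := by
  have h1 := (isLittleO_log_rpow_rpow_atTop (2 : ℝ)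
    (show (0 : ℝ) < 1 / 100 by norm_num)).bound (show (0 : ℝ) < 1 / 2 by norm_num)
  have h2 := (tendsto_rpow_atTop (show (0 : ℝ) < 1 / 100 by norm_num)).eventually_ge_atTop 4
  obtain ⟨x0, hx0⟩ :=
    Filter.eventually_atTop.1 ((h1.and h2).and (Filter.eventually_ge_atTop (3 : ℝ)))
  refine ⟨⌈x0⌉₊, fun N hN => ?_⟩
  have hN' : x0 ≤ N := (Nat.le_ceil x0).trans (by exact_mod_cast hN)
  obtain ⟨⟨a1, a2⟩, a3⟩ := hx0 N hN'
  have hN3 : 3 ≤ N := by exact_mod_cast a3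
  have hfl := Nat.lt_floor_add_one ((N : ℝ) ^ (1 / 100 : ℝ))
  have hN0 : (0 : ℝ) ≤ N := Nat.cast_nonneg _
  have hp : 0 ≤ (N : ℝ) ^ (1 / 100 : ℝ) := Real.rpow_nonneg hN0 _
  have hl : 0 ≤ Real.log N := Real.log_natCast_nonneg N
  rw [Real.norm_of_nonneg (Real.rpow_nonneg hl _), Real.norm_of_nonneg hp, Real.rpow_two] at a1
  refine ⟨hN3, ?_, ?_⟩
  · have : (2 : ℝ) < (⌊(N : ℝ) ^ (1 / 100 : ℝ)⌋₊ : ℝ) := by linarith
    exact_mod_cast this.le
  · linarith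

private theorem tau_interval {C : ℝ}
    (hBT : ∀ q a y : ℕ, 0 < q → 2 ≤ y → q ^ 2 ≤ y →
      (((Ioc y (2 * y)).filter (fun p => p.Prime ∧ p % q = a % q)).card : ℝ) ≤
        C * y / ((Nat.totient q : ℝ) * Real.log y))
    {g y : ℕ} (hg : 1 ≤ g) (hy : 2 ≤ y) (hgy : g ^ 2 ≤ y) :
    ∑ p ∈ (Ioc y (2 * y)).filter (fun p => p.Prime ∧ p % g = 1 % g),
      Real.log p / ((p : ℝ) - 1) ≤ 2 * C / (Nat.totient g : ℝ) := by
  have h1 := hBT g 1 y hg hy hgy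
  have hy2 : (2 : ℝ) ≤ y := by exact_mod_cast hy
  have hy0 : (0 : ℝ) < y := by linarith
  have hlog : 0 < Real.log y := Real.log_pos (by linarith)
  have hφ0 : (0 : ℝ) < Nat.totient g := by exact_mod_cast Nat.totient_pos.2 hg
  have h2 : ∀ p ∈ (Ioc y (2 * y)).filter (fun p => p.Prime ∧ p % g = 1 % g),
      Real.log p / ((p : ℝ) - 1) ≤ 2 * Real.log y / y := by
    intro p hp
    rw [mem_filter, mem_Ioc] at hp
    have h3 : (y : ℝ) + 1 ≤ p := by exact_mod_cast hp.1.1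
    have h4 : (p : ℝ) ≤ 2 * y := by exact_mod_cast hp.1.2
    have h5 : Real.log p ≤ 2 * Real.log y := by
      have h6 : Real.log p ≤ Real.log ((y : ℝ) ^ 2) :=
        Real.log_le_log (by linarith) (by nlinarith)
      rwa [Real.log_pow, Nat.cast_ofNat] at h6
    have h7 : 0 ≤ Real.log p := Real.log_nonneg (by linarith)
    gcongr
    linarith
  have h3 := sum_le_card_nsmul _ _ _ h2
  rw [nsmul_eq_mul] at h3
  refine h3.trans ?_
  calc (((Ioc y (2 * y)).filter (fun p => p.Prime ∧ p % g = 1 % g)).card : ℝ) *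
        (2 * Real.log y / y)
      ≤ C * y / ((Nat.totient g : ℝ) * Real.log y) * (2 * Real.log y / y) :=
        mul_le_mul_of_nonneg_right h1 (by positivity)
    _ = 2 * C / (Nat.totient g : ℝ) := by
        field_simp

private theorem tau_dyad (f : ℕ → ℝ) (P : ℕ → Prop) [DecidablePred P] (y0 : ℕ) (K : ℝ)
    (h : ∀ j, ∑ p ∈ (Ioc (2 ^ j * y0) (2 * (2 ^ j * y0))).filter P, f p ≤ K) (J : ℕ) :
    ∑ p ∈ (Ioc y0 (2 ^ J * y0)).filter P, f p ≤ J * K := by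
  induction J with
  | zero => simp
  | succ J ih =>
    have h1 : y0 ≤ 2 ^ J * y0 := Nat.le_mul_of_pos_left _ (by positivity)
    have h2 : 2 ^ (J + 1) * y0 = 2 * (2 ^ J * y0) := by ring
    have h3 : (Ioc y0 (2 ^ (J + 1) * y0)).filter P =
        (Ioc y0 (2 ^ J * y0)).filter P ∪
          (Ioc (2 ^ J * y0) (2 * (2 ^ J * y0))).filter P := by
      rw [← filter_union, h2, Ioc_union_Ioc_eq_Ioc h1 (by omega)]
    have h4 : Disjoint ((Ioc y0 (2 ^ J * y0)).filter P)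
        ((Ioc (2 ^ J * y0) (2 * (2 ^ J * y0))).filter P) := by
      rw [disjoint_left]
      intro p hp hp'
      rw [mem_filter, mem_Ioc] at hp hp'
      omega
    rw [h3, sum_union h4]
    have h5 := h J
    push_cast
    linarith

private theorem tau_clog {N : ℕ} (hN : 3 ≤ N) : (Nat.clog 2 N : ℝ) ≤ 3 * Real.log N := by
  have h1 : 2 ^ (Nat.clog 2 N).pred < N := Nat.pow_pred_clog_lt_self (by norm_num) (by omega)
  have hN3 : (3 : ℝ) ≤ N := by exact_mod_cast hN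
  have hlog1 : 1 ≤ Real.log N := by
    rw [Real.le_log_iff_exp_le (by linarith)]
    have := Real.exp_one_lt_d9
    linarith
  have h2 : ((2 : ℝ) ^ (Nat.clog 2 N).pred) ≤ N := by exact_mod_cast h1.le
  have h3 := Real.log_le_log (by positivity) h2
  rw [Real.log_pow] at h3
  have h4 := Real.log_two_gt_d9
  have h5 : (Nat.clog 2 N : ℝ) ≤ ((Nat.clog 2 N).pred : ℝ) + 1 := by
    have : Nat.clog 2 N ≤ (Nat.clog 2 N).pred + 1 := by
      rw [Nat.pred_eq_sub_one]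
      omega
    exact_mod_cast this
  have h6 : 0 ≤ ((Nat.clog 2 N).pred : ℝ) := Nat.cast_nonneg _
  nlinarith

theorem tau_g : ∃ C : ℝ, 0 < C ∧ ∃ N0 : ℕ, ∀ N : ℕ, N0 ≤ N → ∀ g : ℕ, 1 ≤ g → (g : ℝ) ≤ Real.log N →
    ∑ p ∈ (Rg N (1 / 100) (495 / 1000)).filter (fun p => g ∣ p - 1), Real.log p / ((p : ℝ) - 1) ≤
      C * Real.log N / (Nat.totient g : ℝ) := by
  obtain ⟨C, hC, hBT⟩ := brun_titchmarsh
  obtain ⟨N0, hN0⟩ := tau_event
  refine ⟨6 * C, by positivity, N0, fun N hN g hg hgN => ?_⟩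
  obtain ⟨hN3, hy2, hlog⟩ := hN0 N hN
  set y0 := ⌊(N : ℝ) ^ (1 / 100 : ℝ)⌋₊ with hy0
  have hgy : g ^ 2 ≤ y0 := by
    have h1 : (g : ℝ) ^ 2 ≤ Real.log N ^ 2 := pow_le_pow_left₀ (Nat.cast_nonneg _) hgN 2
    exact_mod_cast h1.trans hlog
  have hφ0 : (0 : ℝ) < Nat.totient g := by exact_mod_cast Nat.totient_pos.2 hg
  have hint : ∀ j : ℕ, ∑ p ∈ (Ioc (2 ^ j * y0) (2 * (2 ^ j * y0))).filter
      (fun p => p.Prime ∧ p % g = 1 % g), Real.log p / ((p : ℝ) - 1) ≤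
        2 * C / (Nat.totient g : ℝ) := by
    intro j
    have h1 : y0 ≤ 2 ^ j * y0 := Nat.le_mul_of_pos_left _ (by positivity)
    exact tau_interval hBT hg (hy2.trans h1) (hgy.trans h1)
  have h2 := tau_dyad (fun p => Real.log p / ((p : ℝ) - 1)) _ y0 _ hint (Nat.clog 2 N)
  have hsub : (Rg N (1 / 100) (495 / 1000)).filter (fun p => g ∣ p - 1) ⊆
      (Ioc y0 (2 ^ Nat.clog 2 N * y0)).filter (fun p => p.Prime ∧ p % g = 1 % g) := by
    intro p hp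
    rw [mem_filter, Rg, mem_filter, mem_Icc] at hp
    obtain ⟨⟨⟨hp1, hpN⟩, hpp, hpl, -⟩, hgp⟩ := hp
    rw [mem_filter, mem_Ioc]
    refine ⟨⟨?_, ?_⟩, hpp, ?_⟩
    · have h3 : (y0 : ℝ) ≤ (N : ℝ) ^ (1 / 100 : ℝ) :=
        Nat.floor_le (Real.rpow_nonneg (Nat.cast_nonneg _) _)
      exact_mod_cast lt_of_le_of_lt h3 hpl
    · have h3 : N ≤ 2 ^ Nat.clog 2 N := Nat.le_pow_clog (by norm_num) N
      have h4 : 2 ^ Nat.clog 2 N ≤ 2 ^ Nat.clog 2 N * y0 := Nat.le_mul_of_pos_right _ (by omega)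
      omega
    · exact ((Nat.modEq_iff_dvd' hp1).2 hgp).symm
  have h3 : ∑ p ∈ (Rg N (1 / 100) (495 / 1000)).filter (fun p => g ∣ p - 1),
      Real.log p / ((p : ℝ) - 1) ≤
      ∑ p ∈ (Ioc y0 (2 ^ Nat.clog 2 N * y0)).filter (fun p => p.Prime ∧ p % g = 1 % g),
        Real.log p / ((p : ℝ) - 1) := by
    refine sum_le_sum_of_subset_of_nonneg hsub fun p hp _ => ?_
    rw [mem_filter] at hp
    have h4 : (1 : ℝ) ≤ p := by exact_mod_cast hp.2.1.one_lt.le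
    exact div_nonneg (Real.log_nonneg h4) (by linarith)
  refine h3.trans (h2.trans ?_)
  have h4 := tau_clog hN3
  calc (Nat.clog 2 N : ℝ) * (2 * C / (Nat.totient g : ℝ))
      ≤ (3 * Real.log N) * (2 * C / (Nat.totient g : ℝ)) :=
        mul_le_mul_of_nonneg_right h4 (by positivity)
    _ = 6 * C * Real.log N / (Nat.totient g : ℝ) := by ring

end Pool.Agent.BDN
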