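import Mathlib
import Pool.Agent.BDN.CB
import Pool.Agent.BDN.TAU
import Pool.Agent.BDN.PHI

/-!
BDN-CC. The second moment, pairs with different `e`: the count for a pair is at most
`N g / (2 W r r') + 2` with `g` the greatest common divisor of the parts `r`, `r'` of `p - 1`, `p' - 1` prime to `W`,
and it vanishes unless `g` divides `e - e'`. The pairs with `g = 1` give the square of the mass, the others have
`g > w` and are summed with Brun-Titchmarsh and the equidistribution of the weights.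
-/

namespace Pool.Agent.BDN

open Finset

/-- the normalised weight -/
private noncomputable def ccm (N : ℕ) (u : ℕ → ℝ) (x : ℕ × ℕ) : ℝ :=
  u x.2 * (Real.log x.1 / ((x.1 : ℝ) - 1)) / Real.log N

private lemma ccm_nonneg {N : ℕ} {u : ℕ → ℝ} {x : ℕ × ℕ} (hN : 3 ≤ N) (hx : 2 ≤ x.1)
    (hu : 0 ≤ u x.2) : 0 ≤ ccm N u x := by
  have h1 : (2 : ℝ) ≤ x.1 := by exact_mod_cast hx
  have h2 : 0 ≤ Real.log x.1 := Real.log_nonneg (by linarith)
  have h3 : (3 : ℝ) ≤ N := by exact_mod_cast hN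
  have h4 : 0 ≤ Real.log N := Real.log_nonneg (by linarith)
  unfold ccm
  exact div_nonneg (mul_nonneg hu (div_nonneg h2 (by linarith))) h4

private lemma ccm_prod (N : ℕ) (u : ℕ → ℝ) (A B : Finset ℕ) :
    ∑ y ∈ A ×ˢ B, ccm N u y =
      (∑ p ∈ A, Real.log p / ((p : ℝ) - 1)) / Real.log N * ∑ e ∈ B, u e := by
  rw [Finset.sum_product, Finset.sum_div, Finset.sum_mul]
  refine Finset.sum_congr rfl fun p _ => ?_
  rw [Finset.mul_sum]
  refine Finset.sum_congr rfl fun e _ => ?_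
  unfold ccm
  ring

private lemma cc_om {W N : ℕ} {u : ℕ → ℝ} {x : ℕ × ℕ} (hW : 0 < W) (hx : 2 ≤ x.1) :
    om W N u x = ccm N u x * (((x.1 - 1) / Nat.gcd (x.1 - 1) W : ℕ) : ℝ) := by
  have hg : 0 < Nat.gcd (x.1 - 1) W := Nat.gcd_pos_of_pos_right _ hW
  have hd : Nat.gcd (x.1 - 1) W ∣ x.1 - 1 := Nat.gcd_dvd_left _ _
  have h1 : Nat.gcd (x.1 - 1) W * ((x.1 - 1) / Nat.gcd (x.1 - 1) W) = x.1 - 1 :=
    Nat.mul_div_cancel' hd
  have h2 : ((x.1 : ℝ) - 1) = (Nat.gcd (x.1 - 1) W : ℝ) * (((x.1 - 1) / Nat.gcd (x.1 - 1) W : ℕ) : ℝ) := by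
    rw [← Nat.cast_mul, h1]
    rw [Nat.cast_sub (by omega)]
    norm_num
  have h3 : (0 : ℝ) < Nat.gcd (x.1 - 1) W := by exact_mod_cast hg
  have h4 : (0 : ℝ) < (((x.1 - 1) / Nat.gcd (x.1 - 1) W : ℕ) : ℝ) := by
    have : 0 < (x.1 - 1) / Nat.gcd (x.1 - 1) W := by
      rcases Nat.eq_zero_or_pos ((x.1 - 1) / Nat.gcd (x.1 - 1) W) with h | h
      · rw [h, mul_zero] at h1
        omega
      · exact h
    exact_mod_cast this
  unfold om ccm
  rw [h2]
  field_simp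

private lemma cc_W {w : ℕ} : 0 < Ww w := by
  unfold Ww
  positivity

private lemma cc_gt {w g : ℕ} (hw : 2 ≤ w) (hg : 1 < g) (hco : Nat.Coprime g (Ww w)) : w < g := by
  by_contra h
  push Not at h
  have h1 : g ∣ w.factorial := Nat.dvd_factorial (by omega) h
  have h2 : g ∣ Ww w := by
    unfold Ww
    exact h1.trans (dvd_pow_self _ (by omega))
  have h3 : Nat.gcd g (Ww w) = g := Nat.gcd_eq_left h2
  rw [Nat.Coprime, h3] at hco
  omega

private lemma cc_le {e e' g : ℕ} {X : ℝ} (h : e ≡ e' [MOD g]) (hne : e ≠ e') (he : (e : ℝ) ≤ X)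
    (he' : (e' : ℝ) ≤ X) : (g : ℝ) ≤ X := by
  rcases lt_or_gt_of_ne hne with hlt | hgt
  · have h1 : g ∣ e' - e := (Nat.modEq_iff_dvd' hlt.le).1 h
    have h2 : g ≤ e' - e := Nat.le_of_dvd (by omega) h1
    have h3 : (g : ℝ) ≤ e' := by exact_mod_cast (by omega : g ≤ e')
    linarith
  · have h1 : g ∣ e - e' := (Nat.modEq_iff_dvd' hgt.le).1 h.symm
    have h2 : g ≤ e - e' := Nat.le_of_dvd (by omega) h1
    have h3 : (g : ℝ) ≤ e := by exact_mod_cast (by omega : g ≤ e)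
    linarith

private lemma cc_prime {N : ℕ} {a b : ℝ} {p : ℕ} (h : p ∈ Rg N a b) : 2 ≤ p := by
  unfold Rg at h
  exact (mem_filter.1 h).2.1.two_le

/-- the condition on `g` for a pair -/
private def ccI (g : ℕ) (x y : ℕ × ℕ) : Prop :=
  g ∣ x.1 - 1 ∧ g ∣ y.1 - 1 ∧ y.2 % g = x.2 % g

private instance (g : ℕ) (x y : ℕ × ℕ) : Decidable (ccI g x y) := by
  unfold ccI
  infer_instance

open Classical in
private lemma cc_pair {w N c e0 : ℕ} {C0 : ℝ} {I : Finset ℕ} {u : ℕ → ℝ} {G : Finset (ℕ × ℕ)}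
    (hw : 2 ≤ w) (hN : 3 ≤ N) (hu : Wts (Ww w) e0 N C0 I u)
    (hG : Prs N (Ww w) c e0 I G) {x y : ℕ × ℕ} (hx : x ∈ G) (hy : y ∈ G) (hne : x.2 ≠ y.2) :
    om (Ww w) N u x * om (Ww w) N u y *
      (((NN N (Ww w) c).filter (fun n => n ≡ x.2 [MOD (x.1 - 1)] ∧ n ≡ y.2 [MOD (y.1 - 1)])).card : ℝ) ≤
    2 * (om (Ww w) N u x * om (Ww w) N u y) + (N : ℝ) / (2 * (Ww w : ℝ)) *
      (ccm N u x * ccm N u y +
        ∑ g ∈ (Icc (w + 1) ⌊Real.log N ^ (1 / 2 : ℝ)⌋₊).filter (fun g => Nat.Coprime g (Ww w)),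
          (g : ℝ) * (if ccI g x y then ccm N u x * ccm N u y else 0)) := by
  obtain ⟨hx1, hx2, hx3⟩ := hG x hx
  obtain ⟨hy1, hy2, hy3⟩ := hG y hy
  have hxp := cc_prime hx1
  have hyp := cc_prime hy1
  have hW : 0 < Ww w := cc_W
  have hWr : (0 : ℝ) < Ww w := by exact_mod_cast hW
  set r := (x.1 - 1) / Nat.gcd (x.1 - 1) (Ww w) with hr
  set r' := (y.1 - 1) / Nat.gcd (y.1 - 1) (Ww w) with hr'
  have hcr : Nat.Coprime r (Ww w) := hx3.2
  have hcr' : Nat.Coprime r' (Ww w) := hy3.2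
  have hrd : r ∣ x.1 - 1 := Nat.div_dvd_of_dvd (Nat.gcd_dvd_left _ _)
  have hrd' : r' ∣ y.1 - 1 := Nat.div_dvd_of_dvd (Nat.gcd_dvd_left _ _)
  have hr0 : 0 < r := Nat.pos_of_dvd_of_pos hrd (by omega)
  have hr0' : 0 < r' := Nat.pos_of_dvd_of_pos hrd' (by omega)
  have homx := om_nonneg w N c e0 C0 I u G hN hu hG x hx
  have homy := om_nonneg w N c e0 C0 I u G hN hu hG y hy
  have hmx : 0 ≤ ccm N u x := ccm_nonneg hN hxp (hu.nonneg _ hx2)
  have hmy : 0 ≤ ccm N u y := ccm_nonneg hN hyp (hu.nonneg _ hy2)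
  have hH : 0 ≤ (N : ℝ) / (2 * (Ww w : ℝ)) := by positivity
  have hset : (NN N (Ww w) c).filter (fun n => n ≡ x.2 [MOD (x.1 - 1)] ∧ n ≡ y.2 [MOD (y.1 - 1)]) =
      (NN N (Ww w) c).filter (fun n => n ≡ x.2 [MOD r] ∧ n ≡ y.2 [MOD r']) := by
    refine Finset.filter_congr fun n hn => ?_
    have hnW : n % Ww w = c := (mem_filter.1 hn).2
    rw [alw_iff (Ww w) c e0 x.1 n x.2 hW hxp hx3 hnW (hu.cls _ hx2),
      alw_iff (Ww w) c e0 y.1 n y.2 hW hyp hy3 hnW (hu.cls _ hy2)]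
  rw [hset]
  have hsum0 : 0 ≤ ∑ g ∈ (Icc (w + 1) ⌊Real.log N ^ (1 / 2 : ℝ)⌋₊).filter
      (fun g => Nat.Coprime g (Ww w)),
      (g : ℝ) * (if ccI g x y then ccm N u x * ccm N u y else 0) := by
    refine Finset.sum_nonneg fun g _ => mul_nonneg (Nat.cast_nonneg _) ?_
    split_ifs
    · exact mul_nonneg hmx hmy
    · exact le_rfl
  by_cases hmod : x.2 ≡ y.2 [MOD (Nat.gcd r r')]
  · have hcnt := cnt_upper (Ww w) r r' c x.2 y.2 N hW hr0 hr0' hcr.symm hcr'.symm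
    set g := Nat.gcd r r' with hg
    have hg0 : 0 < g := Nat.gcd_pos_of_pos_left _ hr0
    have hl : g * Nat.lcm r r' = r * r' := Nat.gcd_mul_lcm r r'
    have hl0 : 0 < Nat.lcm r r' := Nat.lcm_pos hr0 hr0'
    have hlr : (g : ℝ) * (Nat.lcm r r' : ℕ) = (r : ℝ) * r' := by exact_mod_cast hl
    have hl0r : (0 : ℝ) < (Nat.lcm r r' : ℕ) := by exact_mod_cast hl0
    have hmain : om (Ww w) N u x * om (Ww w) N u y * ((N : ℝ) / (2 * ((Ww w : ℝ) * (Nat.lcm r r' : ℕ)))) =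
        (N : ℝ) / (2 * (Ww w : ℝ)) * ((g : ℝ) * (ccm N u x * ccm N u y)) := by
      rw [cc_om hW hxp, cc_om hW hyp, ← hr, ← hr']
      have h1 : ccm N u x * (r : ℝ) * (ccm N u y * (r' : ℝ)) =
          ccm N u x * ccm N u y * ((g : ℝ) * (Nat.lcm r r' : ℕ)) := by
        rw [hlr]
        ring
      rw [h1]
      field_simp
    have hstep : om (Ww w) N u x * om (Ww w) N u y *
        (((NN N (Ww w) c).filter (fun n => n ≡ x.2 [MOD r] ∧ n ≡ y.2 [MOD r'])).card : ℝ) ≤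
        2 * (om (Ww w) N u x * om (Ww w) N u y) +
          (N : ℝ) / (2 * (Ww w : ℝ)) * ((g : ℝ) * (ccm N u x * ccm N u y)) := by
      rw [← hmain]
      have h2 := mul_le_mul_of_nonneg_left hcnt (mul_nonneg homx homy)
      linarith
    refine hstep.trans ?_
    have h3 : (g : ℝ) * (ccm N u x * ccm N u y) ≤ ccm N u x * ccm N u y +
        ∑ g ∈ (Icc (w + 1) ⌊Real.log N ^ (1 / 2 : ℝ)⌋₊).filter (fun g => Nat.Coprime g (Ww w)),
          (g : ℝ) * (if ccI g x y then ccm N u x * ccm N u y else 0) := by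
      rcases Nat.lt_or_ge 1 g with h1 | h1
      · have hco : Nat.Coprime g (Ww w) := Nat.Coprime.coprime_dvd_left (Nat.gcd_dvd_left _ _) hcr
        have hgw := cc_gt hw h1 hco
        have hgX : (g : ℝ) ≤ Real.log N ^ (1 / 2 : ℝ) :=
          cc_le hmod hne (hu.hi _ hx2) (hu.hi _ hy2)
        have hmem : g ∈ (Icc (w + 1) ⌊Real.log N ^ (1 / 2 : ℝ)⌋₊).filter
            (fun g => Nat.Coprime g (Ww w)) := by
          rw [mem_filter, mem_Icc]
          exact ⟨⟨hgw, Nat.le_floor hgX⟩, hco⟩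
        have hI : ccI g x y :=
          ⟨(Nat.gcd_dvd_left _ _).trans hrd, (Nat.gcd_dvd_right _ _).trans hrd', hmod.symm⟩
        have h4 := Finset.single_le_sum (f := fun g : ℕ =>
          (g : ℝ) * (if ccI g x y then ccm N u x * ccm N u y else 0)) (fun g _ => by
            refine mul_nonneg (Nat.cast_nonneg _) ?_
            split_ifs
            · exact mul_nonneg hmx hmy
            · exact le_rfl) hmem
        simp only [if_pos hI] at h4
        have h5 := mul_nonneg hmx hmy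
        linarith
      · have hg1 : g = 1 := by omega
        rw [hg1, Nat.cast_one, one_mul]
        linarith
    have h6 := mul_le_mul_of_nonneg_left h3 hH
    linarith
  · rw [cnt_zero (Ww w) r r' c x.2 y.2 N hmod, Nat.cast_zero, mul_zero]
    have h1 := mul_nonneg homx homy
    have h2 := mul_nonneg hmx hmy
    have h3 := mul_nonneg hH (add_nonneg h2 hsum0)
    linarith

private lemma cc_inner {N : ℕ} {u : ℕ → ℝ} {I : Finset ℕ} {G : Finset (ℕ × ℕ)}
    (hN : 3 ≤ N) (hu : ∀ e ∈ I, 0 ≤ u e)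
    (hG : ∀ x ∈ G, x.1 ∈ Rg N (1 / 100) (495 / 1000) ∧ x.2 ∈ I) (P Q : ℕ → Prop) [DecidablePred P]
    [DecidablePred Q] :
    ∑ y ∈ G.filter (fun y => P y.1 ∧ Q y.2), ccm N u y ≤
      (∑ p ∈ (Rg N (1 / 100) (495 / 1000)).filter P, Real.log p / ((p : ℝ) - 1)) / Real.log N *
        ∑ e ∈ I.filter Q, u e := by
  rw [← ccm_prod]
  refine Finset.sum_le_sum_of_subset_of_nonneg ?_ fun y hy _ => ?_
  · intro y hy
    rw [mem_filter] at hy
    rw [mem_product, mem_filter, mem_filter]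
    exact ⟨⟨(hG y hy.1).1, hy.2.1⟩, (hG y hy.1).2, hy.2.2⟩
  · rw [mem_product, mem_filter, mem_filter] at hy
    exact ccm_nonneg hN (cc_prime hy.1.1) (hu _ hy.2.1)

private lemma cc_g {w N e0 g : ℕ} {C0 C1 : ℝ} {I : Finset ℕ} {u : ℕ → ℝ} {G : Finset (ℕ × ℕ)}
    (hN : 3 ≤ N) (hC0 : 0 ≤ C0) (hu : Wts (Ww w) e0 N C0 I u)
    (hG : ∀ x ∈ G, x.1 ∈ Rg N (1 / 100) (495 / 1000) ∧ x.2 ∈ I) (hg : 1 < g)
    (hco : Nat.Coprime g (Ww w)) (hgX : (g : ℝ) ≤ Real.log N ^ (1 / 2 : ℝ))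
    (htau : ∑ p ∈ (Rg N (1 / 100) (495 / 1000)).filter (fun p => g ∣ p - 1),
      Real.log p / ((p : ℝ) - 1) ≤ C1 * Real.log N / (Nat.totient g : ℝ)) :
    ∑ x ∈ G, ∑ y ∈ G, (if ccI g x y then ccm N u x * ccm N u y else 0) ≤
      (C1 / (Nat.totient g : ℝ)) ^ 2 *
        (C0 / (Nat.totient g : ℝ) + Real.log N ^ (-(5 / 100) : ℝ)) := by
  have hNr : (3 : ℝ) ≤ N := by exact_mod_cast hN
  have hL : 0 < Real.log N := Real.log_pos (by linarith)
  have hphi : (0 : ℝ) < Nat.totient g := by exact_mod_cast Nat.totient_pos.2 (by omega)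
  set T : ℝ := (∑ p ∈ (Rg N (1 / 100) (495 / 1000)).filter (fun p => g ∣ p - 1),
      Real.log p / ((p : ℝ) - 1)) / Real.log N with hT
  have hT1 : T ≤ C1 / (Nat.totient g : ℝ) := by
    rw [hT, div_le_iff₀ hL]
    refine htau.trans (le_of_eq ?_)
    ring
  have hT0 : 0 ≤ T := by
    rw [hT]
    refine div_nonneg (Finset.sum_nonneg fun p hp => ?_) hL.le
    have h1 : (2 : ℝ) ≤ p := by exact_mod_cast cc_prime (mem_filter.1 hp).1
    exact div_nonneg (Real.log_nonneg (by linarith)) (by linarith)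
  set E : ℝ := C0 / (Nat.totient g : ℝ) + Real.log N ^ (-(5 / 100) : ℝ) with hE
  have hE0 : 0 ≤ E := by
    rw [hE]
    have := Real.rpow_nonneg hL.le (-(5 / 100))
    positivity
  have hgX2 : (g : ℝ) ≤ 2 * Real.log N ^ (1 / 2 : ℝ) := by
    have := Real.rpow_nonneg hL.le (1 / 2)
    linarith
  -- inner sum
  have hin : ∀ x ∈ G, ∑ y ∈ G, (if ccI g x y then ccm N u x * ccm N u y else 0) ≤
      (if g ∣ x.1 - 1 then ccm N u x else 0) * (T * E) := by
    intro x hx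
    have hmx : 0 ≤ ccm N u x := ccm_nonneg hN (cc_prime (hG x hx).1) (hu.nonneg _ (hG x hx).2)
    by_cases hd : g ∣ x.1 - 1
    · rw [if_pos hd]
      have h1 : ∑ y ∈ G, (if ccI g x y then ccm N u x * ccm N u y else 0) =
          ccm N u x * ∑ y ∈ G.filter (fun y => g ∣ y.1 - 1 ∧ y.2 % g = x.2 % g), ccm N u y := by
        rw [Finset.sum_filter, Finset.mul_sum]
        refine Finset.sum_congr rfl fun y _ => ?_
        by_cases hc : g ∣ y.1 - 1 ∧ y.2 % g = x.2 % g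
        · rw [if_pos hc, if_pos (show ccI g x y from ⟨hd, hc⟩)]
        · rw [if_neg hc, if_neg (show ¬ ccI g x y from fun h => hc h.2), mul_zero]
      rw [h1]
      refine mul_le_mul_of_nonneg_left ?_ hmx
      have h2 := cc_inner hN hu.nonneg hG (fun p => g ∣ p - 1) (fun e => e % g = x.2 % g)
      refine h2.trans ?_
      rw [← hT]
      exact mul_le_mul_of_nonneg_left (hu.eq g (x.2 % g) hg hco hgX2) hT0
    · rw [if_neg hd, zero_mul]
      refine le_of_eq (Finset.sum_eq_zero fun y _ => ?_)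
      rw [if_neg (show ¬ ccI g x y from fun h => hd h.1)]
  have h3 : ∑ x ∈ G, (if g ∣ x.1 - 1 then ccm N u x else 0) ≤ T := by
    rw [← Finset.sum_filter]
    have h4 : G.filter (fun x => g ∣ x.1 - 1) = G.filter (fun x => g ∣ x.1 - 1 ∧ True) := by
      refine Finset.filter_congr fun x _ => ?_
      rw [and_true]
    rw [h4]
    have h5 := cc_inner hN hu.nonneg hG (fun p => g ∣ p - 1) (fun _ => True)
    refine h5.trans ?_
    rw [← hT, Finset.filter_true]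
    calc T * ∑ e ∈ I, u e ≤ T * 1 := mul_le_mul_of_nonneg_left hu.sum hT0
      _ = T := mul_one T
  calc ∑ x ∈ G, ∑ y ∈ G, (if ccI g x y then ccm N u x * ccm N u y else 0)
      ≤ ∑ x ∈ G, (if g ∣ x.1 - 1 then ccm N u x else 0) * (T * E) := Finset.sum_le_sum hin
    _ = (∑ x ∈ G, (if g ∣ x.1 - 1 then ccm N u x else 0)) * (T * E) := by rw [Finset.sum_mul]
    _ ≤ T * (T * E) := mul_le_mul_of_nonneg_right h3 (mul_nonneg hT0 hE0)
    _ = T ^ 2 * E := by ring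
    _ ≤ (C1 / (Nat.totient g : ℝ)) ^ 2 * E :=
        mul_le_mul_of_nonneg_right (pow_le_pow_left₀ hT0 hT1 2) hE0

private lemma cc_asym (A W : ℝ) : ∃ N0 : ℕ, ∀ N : ℕ, N0 ≤ N →
    A * (1 + Real.log (Real.log N)) ≤ 1 / 2 * Real.log N ^ (1 / 100 : ℝ) ∧
      8 * W * Real.log N ≤ (N : ℝ) ^ (1 / 100 : ℝ) := by
  have h1 : ∀ᶠ L : ℝ in Filter.atTop, A * (1 + Real.log L) ≤ 1 / 2 * L ^ (1 / 100 : ℝ) := by
    have ha : (fun L : ℝ => A * (1 + Real.log L)) =o[Filter.atTop] fun L : ℝ => L ^ (1 / 100 : ℝ) := by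
      refine Asymptotics.IsLittleO.const_mul_left ?_ A
      refine Asymptotics.IsLittleO.add ?_ (isLittleO_log_rpow_atTop (by norm_num))
      exact Asymptotics.isLittleO_const_left.2 (Or.inr (tendsto_norm_atTop_atTop.comp
        (tendsto_rpow_atTop (by norm_num))))
    filter_upwards [ha.def (show (0 : ℝ) < 1 / 2 by norm_num), Filter.eventually_ge_atTop 1] with L hL hL1
    have h2 : 0 ≤ L ^ (1 / 100 : ℝ) := Real.rpow_nonneg (by linarith) _
    rw [Real.norm_of_nonneg h2] at hL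
    exact (Real.le_norm_self _).trans hL
  have h2 : ∀ᶠ x : ℝ in Filter.atTop, 8 * W * Real.log x ≤ x ^ (1 / 100 : ℝ) := by
    have ha : (fun x : ℝ => 8 * W * Real.log x) =o[Filter.atTop] fun x : ℝ => x ^ (1 / 100 : ℝ) :=
      (isLittleO_log_rpow_atTop (by norm_num)).const_mul_left _
    filter_upwards [ha.def (show (0 : ℝ) < 1 by norm_num), Filter.eventually_ge_atTop 1] with x hx hx1
    have h2 : 0 ≤ x ^ (1 / 100 : ℝ) := Real.rpow_nonneg (by linarith) _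
    rw [Real.norm_of_nonneg h2, one_mul] at hx
    exact (Real.le_norm_self _).trans hx
  have h3 : ∀ᶠ N : ℕ in Filter.atTop,
      A * (1 + Real.log (Real.log N)) ≤ 1 / 2 * Real.log N ^ (1 / 100 : ℝ) :=
    (Real.tendsto_log_atTop.comp tendsto_natCast_atTop_atTop).eventually h1
  have h4 : ∀ᶠ N : ℕ in Filter.atTop, 8 * W * Real.log N ≤ (N : ℝ) ^ (1 / 100 : ℝ) :=
    tendsto_natCast_atTop_atTop.eventually h2
  obtain ⟨N0, hN0⟩ := Filter.eventually_atTop.1 (h3.and h4)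
  exact ⟨N0, hN0⟩

open Classical in
theorem second_mom : ∃ C : ℝ, 0 < C ∧ ∀ (w : ℕ) (C0 : ℝ), 2 ≤ w → 1 ≤ C0 → ∃ N0 : ℕ, ∀ N : ℕ, N0 ≤ N →
    ∀ (c e0 : ℕ) (I : Finset ℕ) (u : ℕ → ℝ) (G : Finset (ℕ × ℕ)), c < Ww w →
    Wts (Ww w) e0 N C0 I u → Prs N (Ww w) c e0 I G →
    ∑ x ∈ G, ∑ y ∈ G.filter (fun y => x.2 ≠ y.2), om (Ww w) N u x * om (Ww w) N u y *
      (((NN N (Ww w) c).filter (fun n => n ≡ x.2 [MOD (x.1 - 1)] ∧ n ≡ y.2 [MOD (y.1 - 1)])).card : ℝ) ≤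
      (N : ℝ) / (2 * (Ww w : ℝ)) *
        (mass N u G ^ 2 + C * C0 / w + Real.log N ^ (-(4 / 100) : ℝ)) := by
  obtain ⟨C1, hC1, N1, htau⟩ := tau_g
  obtain ⟨C2, hC2, htail⟩ := phi_tail
  obtain ⟨C3, hC3, hlog⟩ := phi_log
  refine ⟨C1 ^ 2 * C2, by positivity, ?_⟩
  intro w C0 hw hC0
  obtain ⟨N2, hN2⟩ := cc_asym (C1 ^ 2 * C3) (Ww w : ℝ)
  refine ⟨max (max N1 N2) 3, ?_⟩
  intro N hN c e0 I u G hc hu hG
  have hN1 : N1 ≤ N := (le_max_left _ _).trans ((le_max_left _ _).trans hN)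
  have hNN2 : N2 ≤ N := (le_max_right _ _).trans ((le_max_left _ _).trans hN)
  have hN3 : 3 ≤ N := (le_max_right _ _).trans hN
  have hNr : (3 : ℝ) ≤ N := by exact_mod_cast hN3
  have hL1 : 1 ≤ Real.log N := by
    rw [Real.le_log_iff_exp_le (by linarith)]
    have := Real.exp_one_lt_d9
    linarith
  have hL : 0 < Real.log N := by linarith
  obtain ⟨hA1, hA2⟩ := hN2 N hNN2
  have hW : (0 : ℝ) < Ww w := by exact_mod_cast (cc_W (w := w))
  set X : ℕ := ⌊Real.log N ^ (1 / 2 : ℝ)⌋₊ with hX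
  set Gs := (Icc (w + 1) X).filter (fun g => Nat.Coprime g (Ww w)) with hGs
  set H : ℝ := (N : ℝ) / (2 * (Ww w : ℝ)) with hH
  have hH0 : 0 < H := by
    rw [hH]
    positivity
  have hG2 : ∀ x ∈ G, x.1 ∈ Rg N (1 / 100) (495 / 1000) ∧ x.2 ∈ I := fun x hx =>
    ⟨(hG x hx).1, (hG x hx).2.1⟩
  have hm0 : ∀ x ∈ G, 0 ≤ ccm N u x := fun x hx =>
    ccm_nonneg hN3 (cc_prime (hG x hx).1) (hu.nonneg _ (hG x hx).2.1)
  have hom0 := om_nonneg w N c e0 C0 I u G hN3 hu hG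
  have hXL : Real.log N ^ (1 / 2 : ℝ) ≤ Real.log N := by
    calc Real.log N ^ (1 / 2 : ℝ) ≤ Real.log N ^ (1 : ℝ) :=
          Real.rpow_le_rpow_of_exponent_le hL1 (by norm_num)
      _ = Real.log N := Real.rpow_one _
  have hXr : (X : ℝ) ≤ Real.log N ^ (1 / 2 : ℝ) := Nat.floor_le (Real.rpow_nonneg hL.le _)
  -- step 1: termwise
  have hstep1 : ∑ x ∈ G, ∑ y ∈ G.filter (fun y => x.2 ≠ y.2), om (Ww w) N u x * om (Ww w) N u y *
      (((NN N (Ww w) c).filter (fun n => n ≡ x.2 [MOD (x.1 - 1)] ∧ n ≡ y.2 [MOD (y.1 - 1)])).card : ℝ) ≤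
      ∑ x ∈ G, ∑ y ∈ G, (2 * (om (Ww w) N u x * om (Ww w) N u y) + H *
      (ccm N u x * ccm N u y +
        ∑ g ∈ Gs, (g : ℝ) * (if ccI g x y then ccm N u x * ccm N u y else 0))) := by
    refine Finset.sum_le_sum fun x hx => ?_
    refine (Finset.sum_le_sum fun y hy => cc_pair hw hN3 hu hG hx (mem_filter.1 hy).1
      (mem_filter.1 hy).2).trans ?_
    refine Finset.sum_le_sum_of_subset_of_nonneg (Finset.filter_subset _ _) fun y hy _ => ?_
    have h1 := mul_nonneg (hom0 x hx) (hom0 y hy)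
    have h2 := mul_nonneg (hm0 x hx) (hm0 y hy)
    have h3 : 0 ≤ ∑ g ∈ Gs, (g : ℝ) * (if ccI g x y then ccm N u x * ccm N u y else 0) := by
      refine Finset.sum_nonneg fun g _ => mul_nonneg (Nat.cast_nonneg _) ?_
      split_ifs
      · exact h2
      · exact le_rfl
    have h4 := mul_nonneg hH0.le (add_nonneg h2 h3)
    linarith
  -- step 2: rearrange
  have hstep2 : ∑ x ∈ G, ∑ y ∈ G, (2 * (om (Ww w) N u x * om (Ww w) N u y) + H *
      (ccm N u x * ccm N u y +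
        ∑ g ∈ Gs, (g : ℝ) * (if ccI g x y then ccm N u x * ccm N u y else 0))) =
      2 * (∑ x ∈ G, om (Ww w) N u x) ^ 2 + H * (mass N u G ^ 2 +
        ∑ g ∈ Gs, (g : ℝ) * ∑ x ∈ G, ∑ y ∈ G,
          (if ccI g x y then ccm N u x * ccm N u y else 0)) := by
    have e1 : ∑ x ∈ G, ∑ y ∈ G, om (Ww w) N u x * om (Ww w) N u y =
        (∑ x ∈ G, om (Ww w) N u x) ^ 2 := by
      rw [pow_two, Finset.sum_mul_sum]
    have e2 : ∑ x ∈ G, ∑ y ∈ G, ccm N u x * ccm N u y = mass N u G ^ 2 := by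
      rw [pow_two, ← Finset.sum_mul_sum]
      rfl
    have e3 : ∑ x ∈ G, ∑ y ∈ G, ∑ g ∈ Gs,
        (g : ℝ) * (if ccI g x y then ccm N u x * ccm N u y else 0) =
        ∑ g ∈ Gs, (g : ℝ) * ∑ x ∈ G, ∑ y ∈ G,
          (if ccI g x y then ccm N u x * ccm N u y else 0) := by
      have e4 : ∀ x ∈ G, ∑ y ∈ G, ∑ g ∈ Gs,
          (g : ℝ) * (if ccI g x y then ccm N u x * ccm N u y else 0) =
          ∑ g ∈ Gs, ∑ y ∈ G, (g : ℝ) * (if ccI g x y then ccm N u x * ccm N u y else 0) :=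
        fun x _ => Finset.sum_comm
      rw [Finset.sum_congr rfl e4, Finset.sum_comm]
      refine Finset.sum_congr rfl fun g _ => ?_
      rw [Finset.mul_sum]
      refine Finset.sum_congr rfl fun x _ => ?_
      rw [Finset.mul_sum]
    rw [← e1, ← e2, ← e3]
    simp only [Finset.mul_sum, Finset.sum_add_distrib, mul_add]
  -- step 3: the divisors
  have hphi : ∀ g ∈ Gs, (0 : ℝ) < Nat.totient g := by
    intro g hg
    have h1 := (mem_Icc.1 (mem_filter.1 hg).1).1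
    exact_mod_cast Nat.totient_pos.2 (by omega)
  have hstep3 : ∑ g ∈ Gs, (g : ℝ) * ∑ x ∈ G, ∑ y ∈ G,
          (if ccI g x y then ccm N u x * ccm N u y else 0) ≤
      C1 ^ 2 * C2 * C0 / w + C1 ^ 2 * C3 * (1 + Real.log (Real.log N)) *
        Real.log N ^ (-(5 / 100) : ℝ) := by
    have h1 : ∀ g ∈ Gs, (g : ℝ) * ∑ x ∈ G, ∑ y ∈ G,
          (if ccI g x y then ccm N u x * ccm N u y else 0) ≤
        C1 ^ 2 * C0 * ((g : ℝ) / (Nat.totient g : ℝ) ^ 3) +
          C1 ^ 2 * Real.log N ^ (-(5 / 100) : ℝ) * ((g : ℝ) / (Nat.totient g : ℝ) ^ 2) := by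
      intro g hg
      have hp := hphi g hg
      obtain ⟨h2, h3⟩ := mem_filter.1 hg
      obtain ⟨h4, h5⟩ := mem_Icc.1 h2
      have h6 : (g : ℝ) ≤ Real.log N ^ (1 / 2 : ℝ) := by
        have : (g : ℝ) ≤ X := by exact_mod_cast h5
        linarith
      have h7 := cc_g hN3 (by linarith : (0 : ℝ) ≤ C0) hu hG2 (by omega : 1 < g) h3 h6
        (htau N hN1 g (by omega) (h6.trans hXL))
      refine (mul_le_mul_of_nonneg_left h7 (Nat.cast_nonneg g)).trans (le_of_eq ?_)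
      field_simp
    refine (Finset.sum_le_sum h1).trans ?_
    rw [Finset.sum_add_distrib, ← Finset.mul_sum, ← Finset.mul_sum]
    have h8 : ∑ g ∈ Gs, (g : ℝ) / (Nat.totient g : ℝ) ^ 3 ≤ C2 / w := by
      refine le_trans ?_ (htail w X (by omega))
      exact Finset.sum_le_sum_of_subset_of_nonneg (Finset.filter_subset _ _)
        fun g _ _ => by positivity
    have h9 : ∑ g ∈ Gs, (g : ℝ) / (Nat.totient g : ℝ) ^ 2 ≤
        C3 * (1 + Real.log (Real.log N)) := by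
      rcases Nat.eq_zero_or_pos X with hX0 | hX0
      · have hemp : Gs = ∅ := by
          rw [hGs, hX0]
          rw [Finset.filter_eq_empty_iff]
          intro g hg
          have := mem_Icc.1 hg
          omega
        rw [hemp, Finset.sum_empty]
        have := Real.log_nonneg hL1
        positivity
      · have h10 : ∑ g ∈ Gs, (g : ℝ) / (Nat.totient g : ℝ) ^ 2 ≤ C3 * (1 + Real.log X) := by
          refine le_trans ?_ (hlog X hX0)
          refine Finset.sum_le_sum_of_subset_of_nonneg ?_ fun g _ _ => by positivity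
          intro g hg
          have h11 := mem_Icc.1 (mem_filter.1 hg).1
          exact mem_Icc.2 ⟨by omega, h11.2⟩
        have h12 : Real.log X ≤ Real.log (Real.log N) := by
          have h13 : (0 : ℝ) < X := by exact_mod_cast hX0
          exact Real.log_le_log h13 (hXr.trans hXL)
        have h14 := mul_le_mul_of_nonneg_left h12 hC3.le
        linarith
    have h15 : C1 ^ 2 * C0 * ∑ g ∈ Gs, (g : ℝ) / (Nat.totient g : ℝ) ^ 3 ≤
        C1 ^ 2 * C0 * (C2 / w) := mul_le_mul_of_nonneg_left h8 (by positivity)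
    have h16 : C1 ^ 2 * Real.log N ^ (-(5 / 100) : ℝ) *
        ∑ g ∈ Gs, (g : ℝ) / (Nat.totient g : ℝ) ^ 2 ≤
        C1 ^ 2 * Real.log N ^ (-(5 / 100) : ℝ) * (C3 * (1 + Real.log (Real.log N))) := by
      refine mul_le_mul_of_nonneg_left h9 ?_
      have := Real.rpow_nonneg hL.le (-(5 / 100))
      positivity
    calc _ ≤ C1 ^ 2 * C0 * (C2 / w) + C1 ^ 2 * Real.log N ^ (-(5 / 100) : ℝ) *
          (C3 * (1 + Real.log (Real.log N))) := add_le_add h15 h16
      _ = _ := by ring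
  -- step 4: asymptotics
  have hom := om_sum w N c e0 C0 I u G hN3 hu hG
  have homs : 0 ≤ ∑ x ∈ G, om (Ww w) N u x := Finset.sum_nonneg hom0
  have h4a : (∑ x ∈ G, om (Ww w) N u x) ^ 2 ≤ (N : ℝ) ^ (99 / 100 : ℝ) := by
    have h1 := pow_le_pow_left₀ homs hom 2
    refine h1.trans (le_of_eq ?_)
    rw [← Real.rpow_natCast, ← Real.rpow_mul (by linarith)]
    norm_num
  have hLm4 : 0 < Real.log N ^ (-(4 / 100) : ℝ) := Real.rpow_pos_of_pos hL _
  have h4b : C1 ^ 2 * C3 * (1 + Real.log (Real.log N)) * Real.log N ^ (-(5 / 100) : ℝ) ≤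
      1 / 2 * Real.log N ^ (-(4 / 100) : ℝ) := by
    have h1 := mul_le_mul_of_nonneg_right hA1 (Real.rpow_nonneg hL.le (-(5 / 100)))
    refine h1.trans (le_of_eq ?_)
    rw [mul_assoc, ← Real.rpow_add hL]
    norm_num
  have h4c : 2 * (∑ x ∈ G, om (Ww w) N u x) ^ 2 ≤ H * (1 / 2 * Real.log N ^ (-(4 / 100) : ℝ)) := by
    have hN0 : (0 : ℝ) < N := by linarith
    have h1 : Real.log N ^ (-(4 / 100) : ℝ) * Real.log N ≥ 1 := by
      have h2 : Real.log N ^ (-(4 / 100) : ℝ) * Real.log N = Real.log N ^ (96 / 100 : ℝ) := by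
        nth_rewrite 2 [← Real.rpow_one (Real.log N)]
        rw [← Real.rpow_add hL]
        norm_num
      rw [h2]
      exact Real.one_le_rpow hL1 (by norm_num)
    have h2 : (N : ℝ) = (N : ℝ) ^ (99 / 100 : ℝ) * (N : ℝ) ^ (1 / 100 : ℝ) := by
      rw [← Real.rpow_add hN0]
      norm_num
    have h3 : 8 * (Ww w : ℝ) ≤ (N : ℝ) ^ (1 / 100 : ℝ) * Real.log N ^ (-(4 / 100) : ℝ) := by
      have h5 := mul_le_mul_of_nonneg_right hA2 hLm4.le
      have h6 : 8 * (Ww w : ℝ) * 1 ≤ 8 * (Ww w : ℝ) * (Real.log N ^ (-(4 / 100) : ℝ) * Real.log N) :=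
        mul_le_mul_of_nonneg_left h1 (by positivity)
      nlinarith
    have h7 : 2 * (N : ℝ) ^ (99 / 100 : ℝ) ≤ H * (1 / 2 * Real.log N ^ (-(4 / 100) : ℝ)) := by
      have h8 : H * (1 / 2 * Real.log N ^ (-(4 / 100) : ℝ)) =
          (N : ℝ) ^ (99 / 100 : ℝ) *
            ((N : ℝ) ^ (1 / 100 : ℝ) * Real.log N ^ (-(4 / 100) : ℝ)) / (4 * (Ww w : ℝ)) := by
        rw [hH]
        nth_rewrite 1 [h2]
        field_simp
        ring
      rw [h8, le_div_iff₀ (by positivity)]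
      have h9 : 0 ≤ (N : ℝ) ^ (99 / 100 : ℝ) := Real.rpow_nonneg hN0.le _
      have h10 := mul_le_mul_of_nonneg_left h3 h9
      linarith
    linarith
  have h5 := mul_le_mul_of_nonneg_left (add_le_add (le_refl (mass N u G ^ 2)) (hstep3.trans
    (add_le_add (le_refl (C1 ^ 2 * C2 * C0 / w)) h4b))) hH0.le
  refine (hstep1.trans (le_of_eq hstep2)).trans ?_
  linarith

end Pool.Agent.BDN
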