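import Mathlib
import Pool.Agent.BDN.DefsB

/-!
BDN-CD. The diagonal.

PLAN. For `N` large, `(log N)^(1/2) < N/2`, so for `n > N/2` and `e ∈ I`: `e < n`, `1 ≤ n - e ≤ N`. Interchange the sums; for
fixed `e` the map `n ↦ n - e` is injective on `n > N/2` with values in `Icc 1 N`.
`diag_two`: `≤ ∑_e u(e)^2 ∑_{m ∈ T} XX^2 ≤ (max u) (∑ u) N L^.425 ≤ L^(-.43) N L^.425`.
`diag_one`: `≤ ∑_e u(e) ∑_{m ∈ Icc 1 N \ T} XX ≤ B`.
-/

namespace Pool.Agent.BDN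

open Finset

private theorem e_lt {N : ℕ} (hN : 4 ≤ N) {e n : ℕ} (he : (e : ℝ) ≤ Real.log N ^ (1 / 2 : ℝ))
    (hn : n ∈ Ioc (N / 2) N) : e < n := by
  have hN' : (4 : ℝ) ≤ N := by exact_mod_cast hN
  have h1 : Real.log N ≤ N := by
    have := Real.log_le_sub_one_of_pos (show (0 : ℝ) < N by linarith)
    linarith
  have h2 : Real.log N ^ (1 / 2 : ℝ) ≤ (N : ℝ) / 2 := by
    rw [← Real.sqrt_eq_rpow]
    refine Real.sqrt_le_iff.2 ⟨by linarith, ?_⟩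
    nlinarith
  rw [mem_Ioc] at hn
  have h3 : N < 2 * n := by omega
  have h4 : (N : ℝ) < 2 * n := by exact_mod_cast h3
  have h5 : (e : ℝ) < n := by linarith
  exact_mod_cast h5

/-- shifting a sum -/
private theorem shift_sum (S R : Finset ℕ) (e : ℕ) (he : ∀ n ∈ S, e < n) (g : ℕ → ℝ)
    (hg : ∀ m, 0 ≤ g m) : ∑ n ∈ S.filter (fun n => n - e ∈ R), g (n - e) ≤ ∑ m ∈ R, g m := by
  have hinj : Set.InjOn (fun n : ℕ => n - e) (S.filter (fun n => n - e ∈ R)) := by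
    intro a ha b hb hab
    have h1 := he a (mem_filter.1 (mem_coe.1 ha)).1
    have h2 := he b (mem_filter.1 (mem_coe.1 hb)).1
    have h3 : a - e = b - e := hab
    omega
  rw [← sum_image (g := fun n : ℕ => n - e) (f := g) hinj]
  refine sum_le_sum_of_subset_of_nonneg ?_ fun m _ _ => hg m
  intro m hm
  obtain ⟨n, hn, rfl⟩ := mem_image.1 hm
  exact (mem_filter.1 hn).2

open Classical in
theorem diag_two : ∃ N0 : ℕ, ∀ N : ℕ, N0 ≤ N → ∀ (W e0 : ℕ) (C0 : ℝ) (I : Finset ℕ) (u : ℕ → ℝ)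
    (T : Finset ℕ), Wts W e0 N C0 I u →
    ∑ m ∈ T, (XX N m : ℝ) ^ 2 ≤ N * Real.log N ^ (425 / 1000 : ℝ) →
    ∑ n ∈ Ioc (N / 2) N, ∑ e ∈ I, u e ^ 2 * (if n - e ∈ T then (XX N (n - e) : ℝ) ^ 2 else 0) ≤
      N * Real.log N ^ (-(5 / 1000) : ℝ) := by
  refine ⟨4, fun N hN W e0 C0 I u T hW hT => ?_⟩
  have hN' : (4 : ℝ) ≤ N := by exact_mod_cast hN
  have hL : 0 < Real.log N := Real.log_pos (by linarith)
  rw [sum_comm]
  have h1 : ∀ e ∈ I, ∑ n ∈ Ioc (N / 2) N,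
      u e ^ 2 * (if n - e ∈ T then (XX N (n - e) : ℝ) ^ 2 else 0) ≤
      u e * (Real.log N ^ (-(43 / 100) : ℝ) * (N * Real.log N ^ (425 / 1000 : ℝ))) := by
    intro e he
    rw [← mul_sum, ← sum_filter]
    have h2 := (shift_sum (Ioc (N / 2) N) T e (fun n hn => e_lt hN (hW.hi e he) hn)
      (fun m => (XX N m : ℝ) ^ 2) (fun m => by positivity)).trans hT
    have h3 := hW.nonneg e he
    have h4 := hW.le e he
    have h5 : (0 : ℝ) ≤ N * Real.log N ^ (425 / 1000 : ℝ) := by positivity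
    calc u e ^ 2 * ∑ n ∈ (Ioc (N / 2) N).filter (fun n => n - e ∈ T), (XX N (n - e) : ℝ) ^ 2
        ≤ u e ^ 2 * (N * Real.log N ^ (425 / 1000 : ℝ)) :=
          mul_le_mul_of_nonneg_left h2 (by positivity)
      _ = u e * (u e * (N * Real.log N ^ (425 / 1000 : ℝ))) := by ring
      _ ≤ u e * (Real.log N ^ (-(43 / 100) : ℝ) * (N * Real.log N ^ (425 / 1000 : ℝ))) :=
          mul_le_mul_of_nonneg_left (mul_le_mul_of_nonneg_right h4 h5) h3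
  refine (sum_le_sum h1).trans ?_
  rw [← sum_mul]
  have h6 : (0 : ℝ) ≤ Real.log N ^ (-(43 / 100) : ℝ) * (N * Real.log N ^ (425 / 1000 : ℝ)) := by
    positivity
  refine (mul_le_mul_of_nonneg_right hW.sum h6).trans (le_of_eq ?_)
  rw [one_mul, mul_left_comm, ← Real.rpow_add hL]
  norm_num

open Classical in
theorem diag_one : ∃ N0 : ℕ, ∀ N : ℕ, N0 ≤ N → ∀ (W e0 : ℕ) (C0 : ℝ) (I : Finset ℕ) (u : ℕ → ℝ)
    (T : Finset ℕ) (B : ℝ), Wts W e0 N C0 I u →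
    ∑ m ∈ Icc 1 N \ T, (XX N m : ℝ) ≤ B →
    ∑ n ∈ Ioc (N / 2) N, ∑ e ∈ I, u e * (if n - e ∈ T then 0 else (XX N (n - e) : ℝ)) ≤ B := by
  refine ⟨4, fun N hN W e0 C0 I u T B hW hT => ?_⟩
  rw [sum_comm]
  have h1 : ∀ e ∈ I, ∑ n ∈ Ioc (N / 2) N,
      u e * (if n - e ∈ T then 0 else (XX N (n - e) : ℝ)) ≤
      u e * ∑ m ∈ Icc 1 N \ T, (XX N m : ℝ) := by
    intro e he
    rw [← mul_sum]
    refine mul_le_mul_of_nonneg_left ?_ (hW.nonneg e he)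
    have h2 := shift_sum (Ioc (N / 2) N) (Icc 1 N \ T) e
      (fun n hn => e_lt hN (hW.hi e he) hn) (fun m => (XX N m : ℝ)) (fun m => Nat.cast_nonneg _)
    refine le_trans (le_of_eq ?_) h2
    rw [sum_filter]
    refine sum_congr rfl fun n hn => ?_
    have h3 := e_lt hN (hW.hi e he) hn
    rw [mem_Ioc] at hn
    have h4 : n - e ∈ Icc 1 N := mem_Icc.2 ⟨by omega, by omega⟩
    by_cases h5 : n - e ∈ T
    · rw [if_pos h5, if_neg]
      intro h6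
      exact (mem_sdiff.1 h6).2 h5
    · rw [if_neg h5, if_pos (mem_sdiff.2 ⟨h4, h5⟩)]
  refine (sum_le_sum h1).trans ?_
  rw [← sum_mul]
  have h6 : (0 : ℝ) ≤ ∑ m ∈ Icc 1 N \ T, (XX N m : ℝ) := sum_nonneg fun m _ => Nat.cast_nonneg _
  refine (mul_le_mul_of_nonneg_right hW.sum h6).trans ?_
  rw [one_mul]
  exact hT

end Pool.Agent.BDN
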