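import Pool.Agent.BDT.Mom1
import Pool.Agent.BDT.PBd

/-!
# BDT-Trunc (0.9h): the truncated second moment (file Pool/Agent/BDN/Trunc.lean)

`L = log log N`, `T = {m ∈ Icc 1 N : Om (yy N) m ≤ 2.04 L}`, `c = 1/5000`.
First sum: for `m ∉ T`: `1 ≤ (51/50)^Om(m) (51/50)^(-2.04 L)` and `(51/50)^(-2.04 L) = (log N)^(-2.04 log(51/50))`, `log(51/50) ≥ 0.0198`, so by `mom1` the sum is `≤ N (log N)^(1/25 + 1/10000 - 0.040392) ≤ N (log N)^(-1/5000)`.
Second sum: for `m ∈ T`: `1 ≤ (1/2)^Om(m) 2^(2.04 L)`, `2^(2.04 L) = (log N)^(2.04 log 2)`, `log 2 ≤ 0.69315`, so by `mom2`, `pbd` it is `≤ N (log N)^(1.41403 - 1 + 4/10000) ≤ N (log N)^(425/1000)`.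
-/

open Finset Pool.Agent.BDT

namespace Pool.Agent.BDN

private theorem rpow_swap {z l x : ℝ} (hz : 0 < z) (hl : 0 < l) :
    z ^ (x * Real.log l) = l ^ (x * Real.log z) := by
  rw [Real.rpow_def_of_pos hz, Real.rpow_def_of_pos hl]
  congr 1
  ring

theorem trunc : ∃ c : ℝ, 0 < c ∧ ∃ N₀ : ℕ, ∀ N : ℕ, N₀ ≤ N → ∃ T ⊆ Icc 1 N,
    ∑ m ∈ Icc 1 N \ T, (XX N m : ℝ) ≤ N * (Real.log N) ^ (-c) ∧
      ∑ m ∈ T, (XX N m : ℝ) ^ 2 ≤ N * (Real.log N) ^ (425 / 1000 : ℝ) := by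
  classical
  obtain ⟨N₁, h1⟩ := mom1
  obtain ⟨N₂, h2⟩ := mom2
  obtain ⟨N₃, h3⟩ := pbd
  refine ⟨1 / 5000, by norm_num, max (max N₁ N₂) (max N₃ 3), fun N hN => ?_⟩
  have hN1 : N₁ ≤ N := le_trans (le_trans (le_max_left _ _) (le_max_left _ _)) hN
  have hN2 : N₂ ≤ N := le_trans (le_trans (le_max_right _ _) (le_max_left _ _)) hN
  have hN3 : N₃ ≤ N := le_trans (le_trans (le_max_left _ _) (le_max_right _ _)) hN
  have hN4 : 3 ≤ N := le_trans (le_trans (le_max_right _ _) (le_max_right _ _)) hN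
  have hNR : (3 : ℝ) ≤ (N : ℝ) := by exact_mod_cast hN4
  have hN0 : (0 : ℝ) ≤ (N : ℝ) := by linarith
  have hl1 : 1 ≤ Real.log N := by
    rw [Real.le_log_iff_exp_le (by linarith)]
    have := Real.exp_one_lt_d9
    linarith
  have hl0 : 0 < Real.log N := by linarith
  have g1 := h1 N hN1
  have g2 := h2 N hN2
  have g3 := h3 N hN3
  set l := Real.log N with hl
  set L := Real.log l with hL
  have hL0 : 0 ≤ L := Real.log_nonneg hl1
  refine ⟨(Icc 1 N).filter (fun m => (Om (yy N) m : ℝ) ≤ 204 / 100 * L), Finset.filter_subset _ _,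
    ?_, ?_⟩
  · have hK : (0 : ℝ) < (51 / 50 : ℝ) ^ (204 / 100 * L) := Real.rpow_pos_of_pos (by norm_num) _
    have e1 : ∑ m ∈ Icc 1 N \ (Icc 1 N).filter (fun m => (Om (yy N) m : ℝ) ≤ 204 / 100 * L),
        (XX N m : ℝ) ≤ (∑ m ∈ Icc 1 N, (XX N m : ℝ) * (51 / 50 : ℝ) ^ Om (yy N) m) /
          (51 / 50 : ℝ) ^ (204 / 100 * L) := by
      rw [Finset.sum_div]
      refine (Finset.sum_le_sum fun m hm => ?_).trans
        (Finset.sum_le_sum_of_subset_of_nonneg Finset.sdiff_subset fun m _ _ => by positivity)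
      rw [le_div_iff₀ hK]
      refine mul_le_mul_of_nonneg_left ?_ (by positivity)
      obtain ⟨hm1, hm2⟩ := Finset.mem_sdiff.1 hm
      have hm3 : 204 / 100 * L < (Om (yy N) m : ℝ) := by
        by_contra hcon
        exact hm2 (Finset.mem_filter.2 ⟨hm1, not_lt.1 hcon⟩)
      rw [← Real.rpow_natCast]
      exact Real.rpow_le_rpow_of_exponent_le (by norm_num) hm3.le
    refine e1.trans ?_
    rw [div_le_iff₀ hK]
    refine g1.trans ?_
    rw [mul_assoc]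
    refine mul_le_mul_of_nonneg_left ?_ hN0
    rw [rpow_swap (by norm_num) hl0, ← Real.rpow_add hl0]
    refine Real.rpow_le_rpow_of_exponent_le hl1 ?_
    have hlog : 2 * (1 / 50 : ℝ) / (1 / 50 + 2) ≤ Real.log (1 + 1 / 50) :=
      Real.le_log_one_add_of_nonneg (by norm_num)
    have hz : (1 + 1 / 50 : ℝ) = 51 / 50 := by norm_num
    rw [hz] at hlog
    have h5 : (198 / 10000 : ℝ) ≤ 2 * (1 / 50 : ℝ) / (1 / 50 + 2) := by norm_num
    linarith
  · have hK : (0 : ℝ) < (2 : ℝ) ^ (204 / 100 * L) := Real.rpow_pos_of_pos (by norm_num) _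
    have e1 : ∑ m ∈ (Icc 1 N).filter (fun m => (Om (yy N) m : ℝ) ≤ 204 / 100 * L),
        (XX N m : ℝ) ^ 2 ≤ (2 : ℝ) ^ (204 / 100 * L) *
          ∑ m ∈ Icc 1 N, (XX N m : ℝ) ^ 2 * (1 / 2 : ℝ) ^ Om (yy N) m := by
      rw [Finset.mul_sum]
      refine (Finset.sum_le_sum fun m hm => ?_).trans
        (Finset.sum_le_sum_of_subset_of_nonneg (Finset.filter_subset _ _)
          fun m _ _ => by positivity)
      obtain ⟨_, hm2⟩ := Finset.mem_filter.1 hm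
      have h5 : (2 : ℝ) ^ Om (yy N) m ≤ (2 : ℝ) ^ (204 / 100 * L) := by
        rw [← Real.rpow_natCast]
        exact Real.rpow_le_rpow_of_exponent_le (by norm_num) hm2
      have h6 : (2 : ℝ) ^ Om (yy N) m * (1 / 2 : ℝ) ^ Om (yy N) m = 1 := by
        rw [← mul_pow]
        norm_num
      have h7 : (0 : ℝ) ≤ (XX N m : ℝ) ^ 2 * (1 / 2 : ℝ) ^ Om (yy N) m := by positivity
      calc (XX N m : ℝ) ^ 2 = (2 : ℝ) ^ Om (yy N) m * ((XX N m : ℝ) ^ 2 * (1 / 2 : ℝ) ^ Om (yy N) m) := by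
            rw [mul_left_comm, h6, mul_one]
        _ ≤ _ := mul_le_mul_of_nonneg_right h5 h7
    refine e1.trans ?_
    have e2 : ∑ m ∈ Icc 1 N, (XX N m : ℝ) ^ 2 * (1 / 2 : ℝ) ^ Om (yy N) m ≤
        N * l ^ (-(1 / 2) + 1 / 10000 : ℝ) * l ^ (-(1 / 2) + 3 / 10000 : ℝ) :=
      g2.trans (mul_le_mul_of_nonneg_left g3 (by positivity))
    refine (mul_le_mul_of_nonneg_left e2 hK.le).trans ?_
    rw [rpow_swap (by norm_num) hl0, mul_assoc (N : ℝ), ← Real.rpow_add hl0, mul_left_comm,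
      ← Real.rpow_add hl0]
    refine mul_le_mul_of_nonneg_left ?_ hN0
    refine Real.rpow_le_rpow_of_exponent_le hl1 ?_
    have hlog := Real.log_two_lt_d9
    linarith

end Pool.Agent.BDN
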