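import Mathlib
import Pool.Agent.BDN.CC
import Pool.Agent.BDN.CD
import Pool.Agent.BDN.Trunc

/-!
BDN-CE. Concentration: almost all `n` of the class `c` are hit by many `e`.

PLAN. `W = Ww w`, `H = N/(2W)`, `L = log N`, `M = mass N u G` (`η ≤ M ≤ 4` by `mass_le`), `T` from `trunc` (constant `c1 > 0`).
`S(n) = ∑_{x ∈ G, n ≡ x.2 (x.1-1)} om x`; `S_T(n)` = the same sum restricted to `n - x.2 ∈ T`.
For fixed `e` and `n > N/2` (`e < n`): `∑_{p : (p,e) ∈ G, n ≡ e (p-1)} om (p,e) ≤ u e · XX N (n - e)` (`om_le`;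
`n ≡ e (p-1)` iff `p - 1 ∣ n - e`).   (*)
1. `∑_n S ≥ H M - N^.495` (`first_mom`), `∑_n (S - S_T) ≤ N L^(-c1)` (by (*) and `diag_one`; `NN ⊆ Ioc (N/2) N`).
2. `∑_n S_T^2 ≤ ∑_n ∑_{x.2 ≠ y.2} ... + ∑_n ∑_e (∑_p ...)^2 ≤ H (M^2 + C C0/w + L^(-.04)) + N L^(-.005)`
   (`second_mom` for the pairs with different `e`, dropping the truncation (all terms are `≥ 0`); (*) and `diag_two` for equal `e`).
3. `∑_n (S_T - M)^2 ≤ ∑ S_T^2 - 2 M ∑ S_T + M^2 (H + 2)` (`cnt_all`) `≤ H C C0/w + H L^(-.04) + N L^(-.005) +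
   8 (N^.495 + N L^(-c1)) + 32 ≤ 2 H C C0 / w` for `N` large (depending on `w`; `C, C0 > 0`).
   So `#{n ∈ NN : S_T(n) < M/2} ≤ (4/M^2) 2 H C C0/w ≤ 8 H C C0/(w η^2)`.
4. If `S_T(n) ≥ M/2 ≥ η/2` and the set `E(n)` of the `e` hit has fewer than `L^.001` elements, then by (*) and Cauchy-Schwarz
   `η^2/4 ≤ S_T(n)^2 ≤ #E(n) ∑_e u(e)^2 XX(n-e)^2 1_T ≤ L^.001 D(n)`, where `∑_n D(n) ≤ N L^(-.005)` (`diag_two`): at most
   `4 N L^(-.004)/η^2` such `n`: `≤ H C C0/(w η^2)` for `N` large.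
Total `≤ 9 H C C0/(w η^2) = (9 C/2) C0/(w η^2) (N/W)`.
-/

namespace Pool.Agent.BDN

open Finset

private theorem cheb (s : Finset ℕ) (f : ℕ → ℝ) (M V K Q P : ℝ) (hM : 0 < M)
    (h1 : ∑ n ∈ s, f n ^ 2 ≤ Q) (h2 : P ≤ ∑ n ∈ s, f n) (h3 : (s.card : ℝ) ≤ K)
    (hV : Q - 2 * M * P + M ^ 2 * K ≤ V) :
    ((s.filter (fun n => f n < M / 2)).card : ℝ) * (M ^ 2 / 4) ≤ V := by
  have e1 : ((s.filter (fun n => f n < M / 2)).card : ℝ) * (M ^ 2 / 4) ≤
      ∑ n ∈ s.filter (fun n => f n < M / 2), (f n - M) ^ 2 := by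
    rw [← nsmul_eq_mul, ← Finset.sum_const]
    refine Finset.sum_le_sum fun n hn => ?_
    have h := (Finset.mem_filter.1 hn).2
    nlinarith
  have e2 : ∑ n ∈ s.filter (fun n => f n < M / 2), (f n - M) ^ 2 ≤ ∑ n ∈ s, (f n - M) ^ 2 :=
    Finset.sum_le_sum_of_subset_of_nonneg (Finset.filter_subset _ _) fun n _ _ => sq_nonneg _
  have e3 : ∑ n ∈ s, (f n - M) ^ 2 = ∑ n ∈ s, f n ^ 2 - 2 * M * ∑ n ∈ s, f n + M ^ 2 * s.card := by
    have e4 : ∀ n ∈ s, (f n - M) ^ 2 = f n ^ 2 - 2 * M * f n + M ^ 2 := fun n _ => by ring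
    rw [Finset.sum_congr rfl e4, Finset.sum_add_distrib, Finset.sum_sub_distrib, ← Finset.mul_sum,
      Finset.sum_const, nsmul_eq_mul]
    ring
  have e5 : 2 * M * P ≤ 2 * M * ∑ n ∈ s, f n := mul_le_mul_of_nonneg_left h2 (by linarith)
  have e6 : M ^ 2 * (s.card : ℝ) ≤ M ^ 2 * K := mul_le_mul_of_nonneg_left h3 (sq_nonneg _)
  linarith

private theorem sq_split (G : Finset (ℕ × ℕ)) (I : Finset ℕ) (hG : ∀ x ∈ G, x.2 ∈ I)
    (f : ℕ × ℕ → ℝ) :
    (∑ x ∈ G, f x) ^ 2 = ∑ x ∈ G, ∑ y ∈ G.filter (fun y => x.2 ≠ y.2), f x * f y +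
      ∑ e ∈ I, (∑ x ∈ G.filter (fun x => x.2 = e), f x) ^ 2 := by
  have h1 : (∑ x ∈ G, f x) ^ 2 = ∑ x ∈ G, ∑ y ∈ G, f x * f y := by
    rw [sq, Finset.sum_mul_sum]
  have h2 : ∀ x ∈ G, ∑ y ∈ G, f x * f y = ∑ y ∈ G.filter (fun y => x.2 ≠ y.2), f x * f y +
      ∑ y ∈ G.filter (fun y => ¬ x.2 ≠ y.2), f x * f y := fun x _ =>
    (Finset.sum_filter_add_sum_filter_not _ _ _).symm
  rw [h1, Finset.sum_congr rfl h2, Finset.sum_add_distrib]
  congr 1
  rw [← Finset.sum_fiberwise_of_maps_to hG]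
  refine Finset.sum_congr rfl fun e _ => ?_
  rw [sq, Finset.sum_mul_sum]
  refine Finset.sum_congr rfl fun x hx => ?_
  have hx2 := (Finset.mem_filter.1 hx).2
  refine Finset.sum_congr (Finset.filter_congr fun y _ => ?_) fun _ _ => rfl
  rw [hx2, not_not]
  exact eq_comm

private theorem evt (W : ℕ) (c1 δ : ℝ) (hc1 : 0 < c1) (hδ : 0 < δ) : ∃ N6 : ℕ, ∀ N : ℕ, N6 ≤ N →
    Real.log N ^ (-(4 / 100) : ℝ) / (2 * W) + Real.log N ^ (-(5 / 1000) : ℝ) +
      8 * (N : ℝ) ^ (495 / 1000 - 1 : ℝ) + 8 * Real.log N ^ (-c1) + 32 * (N : ℝ) ^ (-1 : ℝ) ≤ δ ∧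
      4 * Real.log N ^ (-(4 / 1000) : ℝ) ≤ δ := by
  have hl : Filter.Tendsto (fun N : ℕ => Real.log (N : ℝ)) Filter.atTop Filter.atTop :=
    Real.tendsto_log_atTop.comp tendsto_natCast_atTop_atTop
  have hN : Filter.Tendsto (fun N : ℕ => (N : ℝ)) Filter.atTop Filter.atTop :=
    tendsto_natCast_atTop_atTop
  have t1 : Filter.Tendsto (fun N : ℕ => Real.log N ^ (-(4 / 100) : ℝ)) Filter.atTop (nhds 0) :=
    (tendsto_rpow_neg_atTop (by norm_num)).comp hl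
  have t2 : Filter.Tendsto (fun N : ℕ => Real.log N ^ (-(5 / 1000) : ℝ)) Filter.atTop (nhds 0) :=
    (tendsto_rpow_neg_atTop (by norm_num)).comp hl
  have t3 : Filter.Tendsto (fun N : ℕ => (N : ℝ) ^ (495 / 1000 - 1 : ℝ)) Filter.atTop (nhds 0) := by
    have h := (tendsto_rpow_neg_atTop (y := (505 / 1000 : ℝ)) (by norm_num)).comp hN
    have e : (495 / 1000 - 1 : ℝ) = -(505 / 1000) := by norm_num
    rw [e]
    exact h
  have t4 : Filter.Tendsto (fun N : ℕ => Real.log N ^ (-c1)) Filter.atTop (nhds 0) :=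
    (tendsto_rpow_neg_atTop hc1).comp hl
  have t5 : Filter.Tendsto (fun N : ℕ => (N : ℝ) ^ (-1 : ℝ)) Filter.atTop (nhds 0) :=
    (tendsto_rpow_neg_atTop (by norm_num)).comp hN
  have t6 : Filter.Tendsto (fun N : ℕ => Real.log N ^ (-(4 / 1000) : ℝ)) Filter.atTop (nhds 0) :=
    (tendsto_rpow_neg_atTop (by norm_num)).comp hl
  have s1 : Filter.Tendsto (fun N : ℕ => Real.log N ^ (-(4 / 100) : ℝ) / (2 * W) +
      Real.log N ^ (-(5 / 1000) : ℝ) + 8 * (N : ℝ) ^ (495 / 1000 - 1 : ℝ) +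
      8 * Real.log N ^ (-c1) + 32 * (N : ℝ) ^ (-1 : ℝ)) Filter.atTop (nhds 0) := by
    have h := ((((t1.div_const (2 * (W : ℝ))).add t2).add (t3.const_mul 8)).add
      (t4.const_mul 8)).add (t5.const_mul 32)
    simpa using h
  have s2 : Filter.Tendsto (fun N : ℕ => 4 * Real.log N ^ (-(4 / 1000) : ℝ)) Filter.atTop
      (nhds 0) := by
    have h := t6.const_mul 4
    simpa using h
  have r := (s1.eventually (ge_mem_nhds hδ)).and (s2.eventually (ge_mem_nhds hδ))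
  exact Filter.eventually_atTop.1 r

open Classical in
private theorem star (w N c e0 : ℕ) (C0 : ℝ) (I : Finset ℕ) (u : ℕ → ℝ) (G : Finset (ℕ × ℕ))
    (hN : 3 ≤ N) (hu : Wts (Ww w) e0 N C0 I u) (hG : Prs N (Ww w) c e0 I G) (n e : ℕ)
    (he : e ∈ I) (hen : e ≤ n) :
    ∑ x ∈ G.filter (fun x => x.2 = e),
      (if n ≡ x.2 [MOD (x.1 - 1)] then om (Ww w) N u x else 0) ≤ u e * XX N (n - e) := by
  rw [← Finset.sum_filter, Finset.filter_filter]
  have h1 : ∑ x ∈ G.filter (fun x => x.2 = e ∧ n ≡ x.2 [MOD (x.1 - 1)]), om (Ww w) N u x ≤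
      ∑ x ∈ G.filter (fun x => x.2 = e ∧ n ≡ x.2 [MOD (x.1 - 1)]), u e := by
    refine Finset.sum_le_sum fun x hx => ?_
    obtain ⟨hx1, hx2, _⟩ := Finset.mem_filter.1 hx
    rw [← hx2]
    exact om_le w N c e0 C0 I u G hN hu hG x hx1
  refine h1.trans ?_
  rw [Finset.sum_const, nsmul_eq_mul, mul_comm]
  refine mul_le_mul_of_nonneg_left ?_ (hu.nonneg e he)
  rw [XX]
  norm_cast
  refine Finset.card_le_card_of_injOn Prod.fst (fun x hx => ?_) fun x hx y hy hxy => ?_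
  · obtain ⟨hx1, hx2, hx3⟩ := Finset.mem_filter.1 hx
    refine Finset.mem_coe.2 (Finset.mem_filter.2 ⟨(hG x hx1).1, ?_⟩)
    rw [hx2] at hx3
    exact (Nat.modEq_iff_dvd' hen).1 hx3.symm
  · have hx2 := (Finset.mem_filter.1 (Finset.mem_coe.1 hx)).2.1
    have hy2 := (Finset.mem_filter.1 (Finset.mem_coe.1 hy)).2.1
    exact Prod.ext hxy (hx2.trans hy2.symm)

private theorem Ww_pos (w : ℕ) : 0 < Ww w := pow_pos (Nat.factorial_pos w) w

open Classical in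
theorem conc : ∃ C : ℝ, 0 < C ∧ ∀ (w : ℕ) (C0 η : ℝ), 2 ≤ w → 1 ≤ C0 → 0 < η → ∃ N0 : ℕ, ∀ N : ℕ, N0 ≤ N →
    ∀ (c e0 : ℕ) (I : Finset ℕ) (u : ℕ → ℝ) (G : Finset (ℕ × ℕ)), c < Ww w →
    Wts (Ww w) e0 N C0 I u → Prs N (Ww w) c e0 I G → η ≤ mass N u G →
    (((NN N (Ww w) c).filter (fun n =>
      (((G.filter (fun x => n ≡ x.2 [MOD (x.1 - 1)])).image Prod.snd).card : ℝ) <
        Real.log N ^ (1 / 1000 : ℝ))).card : ℝ) ≤
      C * C0 / (w * η ^ 2) * ((N : ℝ) / (Ww w : ℝ)) := by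
  obtain ⟨C, hC, hsm⟩ := second_mom
  obtain ⟨c1, hc1, N1, htr⟩ := trunc
  obtain ⟨N2, hml⟩ := mass_le
  obtain ⟨N3, hd2⟩ := diag_two
  obtain ⟨N4, hd1⟩ := diag_one
  refine ⟨9 * C / 2, by positivity, fun w C0 η hw hC0 hη => ?_⟩
  obtain ⟨N5, hsm⟩ := hsm w C0 hw hC0
  have hW0 : 0 < Ww w := Ww_pos w
  have hW : (0 : ℝ) < (Ww w : ℝ) := by exact_mod_cast hW0
  have hw0 : (0 : ℝ) < (w : ℝ) := by
    have : 0 < w := by omega
    exact_mod_cast this
  have hC00 : 0 < C0 := by linarith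
  have hδ : 0 < C * C0 / (2 * (Ww w : ℝ) * w) := by positivity
  obtain ⟨N6, hN6⟩ := evt (Ww w) c1 _ hc1 hδ
  refine ⟨max (max (max N1 N2) (max N3 N4)) (max (max N5 N6) 3), fun N hN => ?_⟩
  have k1 : N1 ≤ N := by omega
  have k2 : N2 ≤ N := by omega
  have k3 : N3 ≤ N := by omega
  have k4 : N4 ≤ N := by omega
  have k5 : N5 ≤ N := by omega
  have k6 : N6 ≤ N := by omega
  have k7 : 3 ≤ N := by omega
  clear hN
  intro c e0 I u G hc hu hG hm
  obtain ⟨hb1, hb2⟩ := hN6 N k6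
  obtain ⟨T, hT, hT1, hT2⟩ := htr N k1
  have hsm := hsm N k5 c e0 I u G hc hu hG
  have hml := hml N k2 w c e0 C0 I u G hu hG
  have hd2 := hd2 N k3 (Ww w) e0 C0 I u T hu hT2
  have hd1 := hd1 N k4 (Ww w) e0 C0 I u T _ hu hT1
  have hfm := first_mom w N c e0 C0 I u G k7 hc hu hG
  have hca := cnt_all (Ww w) c N hW0
  have hom := om_nonneg w N c e0 C0 I u G k7 hu hG
  have hNR : (3 : ℝ) ≤ (N : ℝ) := by exact_mod_cast k7
  have hNpos : (0 : ℝ) < (N : ℝ) := by linarith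
  have hl1 : 1 ≤ Real.log N := by
    rw [Real.le_log_iff_exp_le (by linarith)]
    have := Real.exp_one_lt_d9
    linarith
  have hl0 : 0 < Real.log N := by linarith
  have hlogN : Real.log N < N / 2 := by
    have h1 : Real.log ((N : ℝ) / 2) ≤ (N : ℝ) / 2 - 1 := Real.log_le_sub_one_of_pos (by linarith)
    have h2 : Real.log (N : ℝ) = Real.log ((N : ℝ) / 2) + Real.log 2 := by
      rw [← Real.log_mul (by linarith) (by norm_num)]
      congr 1
      ring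
    have h3 := Real.log_two_lt_d9
    linarith
  have heI : ∀ e ∈ I, (e : ℝ) < N / 2 := fun e he => by
    refine lt_of_le_of_lt ((hu.hi e he).trans ?_) hlogN
    calc Real.log N ^ (1 / 2 : ℝ) ≤ Real.log N ^ (1 : ℝ) :=
          Real.rpow_le_rpow_of_exponent_le hl1 (by norm_num)
      _ = Real.log N := Real.rpow_one _
  have hNNs : NN N (Ww w) c ⊆ Ioc (N / 2) N := Finset.filter_subset _ _
  have hen : ∀ n ∈ NN N (Ww w) c, ∀ e ∈ I, e ≤ n := fun n hn e he => by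
    have h1 := (Finset.mem_Ioc.1 (hNNs hn)).1
    have h2 : N < 2 * n := by omega
    have h3 : (N : ℝ) < 2 * n := by exact_mod_cast h2
    have h4 := heI e he
    have h5 : (e : ℝ) ≤ n := by linarith
    exact_mod_cast h5
  set M := mass N u G with hMdef
  have hM0 : 0 < M := lt_of_lt_of_le hη hm
  set om' : ℕ × ℕ → ℝ := om (Ww w) N u with homdef
  let f : ℕ → ℕ × ℕ → ℝ := fun n x => if n ≡ x.2 [MOD (x.1 - 1)] then om' x else 0
  let g : ℕ → ℕ × ℕ → ℝ := fun n x => if n - x.2 ∈ T then f n x else 0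
  have hf0 : ∀ n, ∀ x ∈ G, 0 ≤ f n x := fun n x hx => by
    by_cases h : n ≡ x.2 [MOD (x.1 - 1)]
    · simp only [f, if_pos h]; exact hom x hx
    · simp only [f, if_neg h]; exact le_rfl
  have hg0 : ∀ n, ∀ x ∈ G, 0 ≤ g n x := fun n x hx => by
    by_cases h : n - x.2 ∈ T
    · simp only [g, if_pos h]; exact hf0 n x hx
    · simp only [g, if_neg h]; exact le_rfl
  have hgf : ∀ n, ∀ x ∈ G, g n x ≤ f n x := fun n x hx => by
    by_cases h : n - x.2 ∈ T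
    · simp only [g, if_pos h]; exact le_rfl
    · simp only [g, if_neg h]; exact hf0 n x hx
  have hGI : ∀ x ∈ G, x.2 ∈ I := fun x hx => (hG x hx).2.1
  have hstar : ∀ n ∈ NN N (Ww w) c, ∀ e ∈ I,
      ∑ x ∈ G.filter (fun x => x.2 = e), f n x ≤ u e * XX N (n - e) := fun n hn e he =>
    star w N c e0 C0 I u G k7 hu hG n e he (hen n hn e he)
  -- the truncated sum
  let S : ℕ → ℝ := fun n => ∑ x ∈ G, g n x
  have hS0 : ∀ n, 0 ≤ S n := fun n => Finset.sum_nonneg (hg0 n)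
  have hge : ∀ n, ∀ e ∈ I, ∑ x ∈ G.filter (fun x => x.2 = e), g n x =
      if n - e ∈ T then ∑ x ∈ G.filter (fun x => x.2 = e), f n x else 0 := fun n e _ => by
    by_cases h : n - e ∈ T
    · rw [if_pos h]
      refine Finset.sum_congr rfl fun x hx => ?_
      have hx2 := (Finset.mem_filter.1 hx).2
      simp only [g, hx2, if_pos h]
    · rw [if_neg h]
      refine Finset.sum_eq_zero fun x hx => ?_
      have hx2 := (Finset.mem_filter.1 hx).2
      simp only [g, hx2, if_neg h]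
  have hgsq : ∀ n ∈ NN N (Ww w) c, ∀ e ∈ I, (∑ x ∈ G.filter (fun x => x.2 = e), g n x) ^ 2 ≤
      u e ^ 2 * (if n - e ∈ T then (XX N (n - e) : ℝ) ^ 2 else 0) := fun n hn e he => by
    rw [hge n e he]
    by_cases h : n - e ∈ T
    · rw [if_pos h, if_pos h, ← mul_pow]
      refine pow_le_pow_left₀ (Finset.sum_nonneg fun x hx => hf0 n x (Finset.mem_filter.1 hx).1)
        (hstar n hn e he) 2
    · rw [if_neg h, if_neg h]
      simp
  -- step 1
  have st1 : (N : ℝ) / (2 * (Ww w : ℝ)) * M - (N : ℝ) ^ (495 / 1000 : ℝ) -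
      N * Real.log N ^ (-c1) ≤ ∑ n ∈ NN N (Ww w) c, S n := by
    have e1 : ∀ n ∈ NN N (Ww w) c,
        ∑ x ∈ G.filter (fun x => n ≡ x.2 [MOD (x.1 - 1)]), om' x ≤ S n +
          ∑ e ∈ I, u e * (if n - e ∈ T then 0 else (XX N (n - e) : ℝ)) := fun n hn => by
      rw [Finset.sum_filter]
      change ∑ x ∈ G, f n x ≤ _
      have e2 : ∑ x ∈ G, f n x = S n + ∑ x ∈ G, (f n x - g n x) := by
        simp only [S]
        rw [← Finset.sum_add_distrib]
        exact Finset.sum_congr rfl fun x _ => by ring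
      rw [e2, add_le_add_iff_left, ← Finset.sum_fiberwise_of_maps_to hGI]
      refine Finset.sum_le_sum fun e he => ?_
      rw [Finset.sum_sub_distrib, hge n e he]
      by_cases h : n - e ∈ T
      · rw [if_pos h, if_pos h]; simp
      · rw [if_neg h, if_neg h, sub_zero]; exact hstar n hn e he
    have e3 := Finset.sum_le_sum e1
    rw [Finset.sum_add_distrib] at e3
    have e4 : ∑ n ∈ NN N (Ww w) c, ∑ e ∈ I, u e * (if n - e ∈ T then 0 else (XX N (n - e) : ℝ)) ≤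
        ∑ n ∈ Ioc (N / 2) N, ∑ e ∈ I, u e * (if n - e ∈ T then 0 else (XX N (n - e) : ℝ)) := by
      refine Finset.sum_le_sum_of_subset_of_nonneg hNNs fun n _ _ => Finset.sum_nonneg fun e he => ?_
      refine mul_nonneg (hu.nonneg e he) ?_
      by_cases h : n - e ∈ T
      · rw [if_pos h]
      · rw [if_neg h]; positivity
    linarith
  -- step 2
  have st2 : ∑ n ∈ NN N (Ww w) c, S n ^ 2 ≤ (N : ℝ) / (2 * (Ww w : ℝ)) *
        (M ^ 2 + C * C0 / w + Real.log N ^ (-(4 / 100) : ℝ)) +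
        N * Real.log N ^ (-(5 / 1000) : ℝ) := by
    have e1 : ∀ n ∈ NN N (Ww w) c, S n ^ 2 ≤
        ∑ x ∈ G, ∑ y ∈ G.filter (fun y => x.2 ≠ y.2), f n x * f n y +
        ∑ e ∈ I, u e ^ 2 * (if n - e ∈ T then (XX N (n - e) : ℝ) ^ 2 else 0) := fun n hn => by
      simp only [S]
      rw [sq_split G I hGI (g n)]
      refine add_le_add (Finset.sum_le_sum fun x hx => Finset.sum_le_sum fun y hy => ?_)
        (Finset.sum_le_sum fun e he => hgsq n hn e he)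
      have hy1 := (Finset.mem_filter.1 hy).1
      exact mul_le_mul (hgf n x hx) (hgf n y hy1) (hg0 n y hy1) (hf0 n x hx)
    have e3 := Finset.sum_le_sum e1
    rw [Finset.sum_add_distrib] at e3
    have e4 : ∑ n ∈ NN N (Ww w) c, ∑ e ∈ I,
        u e ^ 2 * (if n - e ∈ T then (XX N (n - e) : ℝ) ^ 2 else 0) ≤
        ∑ n ∈ Ioc (N / 2) N, ∑ e ∈ I,
          u e ^ 2 * (if n - e ∈ T then (XX N (n - e) : ℝ) ^ 2 else 0) := by
      refine Finset.sum_le_sum_of_subset_of_nonneg hNNs fun n _ _ => Finset.sum_nonneg fun e he => ?_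
      refine mul_nonneg (sq_nonneg _) ?_
      by_cases h : n - e ∈ T
      · rw [if_pos h]; positivity
      · rw [if_neg h]
    have e5 : ∑ n ∈ NN N (Ww w) c, ∑ x ∈ G, ∑ y ∈ G.filter (fun y => x.2 ≠ y.2), f n x * f n y =
        ∑ x ∈ G, ∑ y ∈ G.filter (fun y => x.2 ≠ y.2), om' x * om' y *
        (((NN N (Ww w) c).filter
          (fun n => n ≡ x.2 [MOD (x.1 - 1)] ∧ n ≡ y.2 [MOD (y.1 - 1)])).card : ℝ) := by
      rw [Finset.sum_comm]
      refine Finset.sum_congr rfl fun x _ => ?_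
      rw [Finset.sum_comm]
      refine Finset.sum_congr rfl fun y _ => ?_
      rw [Finset.card_filter, Nat.cast_sum, Finset.mul_sum]
      refine Finset.sum_congr rfl fun n _ => ?_
      by_cases h1 : n ≡ x.2 [MOD (x.1 - 1)]
      · by_cases h2 : n ≡ y.2 [MOD (y.1 - 1)]
        · simp only [f, if_pos h1, if_pos h2]
          simp [h1, h2]
        · simp only [f, if_neg h2]
          simp [h2]
      · simp only [f, if_neg h1]
        simp [h1]
    rw [e5] at e3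
    linarith
  -- step 3
  have hbN : (N : ℝ) / (2 * (Ww w : ℝ)) * Real.log N ^ (-(4 / 100) : ℝ) +
      N * Real.log N ^ (-(5 / 1000) : ℝ) + 8 * (N : ℝ) ^ (495 / 1000 : ℝ) +
      8 * (N * Real.log N ^ (-c1)) + 32 ≤ (N : ℝ) / (2 * (Ww w : ℝ)) * (C * C0 / w) := by
    have h1 := mul_le_mul_of_nonneg_left hb1 hNpos.le
    have h2 : (N : ℝ) * (N : ℝ) ^ (495 / 1000 - 1 : ℝ) = (N : ℝ) ^ (495 / 1000 : ℝ) := by
      rw [Real.rpow_sub_one hNpos.ne']
      field_simp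
    have h3 : (N : ℝ) * (N : ℝ) ^ (-1 : ℝ) = 1 := by
      rw [Real.rpow_neg_one]
      exact mul_inv_cancel₀ hNpos.ne'
    have h4 : (N : ℝ) * (Real.log N ^ (-(4 / 100) : ℝ) / (2 * (Ww w : ℝ)) +
        Real.log N ^ (-(5 / 1000) : ℝ) +
        8 * (N : ℝ) ^ (495 / 1000 - 1 : ℝ) + 8 * Real.log N ^ (-c1) + 32 * (N : ℝ) ^ (-1 : ℝ)) =
        (N : ℝ) / (2 * (Ww w : ℝ)) * Real.log N ^ (-(4 / 100) : ℝ) +
      N * Real.log N ^ (-(5 / 1000) : ℝ) + 8 * ((N : ℝ) * (N : ℝ) ^ (495 / 1000 - 1 : ℝ)) +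
      8 * (N * Real.log N ^ (-c1)) + 32 * ((N : ℝ) * (N : ℝ) ^ (-1 : ℝ)) := by ring
    rw [h4, h2, h3] at h1
    have h5 : (N : ℝ) * (C * C0 / (2 * (Ww w : ℝ) * w)) =
        (N : ℝ) / (2 * (Ww w : ℝ)) * (C * C0 / w) := by
      field_simp
    linarith
  set H : ℝ := (N : ℝ) / (2 * (Ww w : ℝ)) with hH
  have hH0 : 0 < H := by positivity
  have hR1 : 0 ≤ (N : ℝ) ^ (495 / 1000 : ℝ) := by positivity
  have hR2 : 0 ≤ N * Real.log N ^ (-c1) := by positivity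
  have st3 := cheb (NN N (Ww w) c) S M (2 * H * (C * C0 / w)) (H + 2)
    (H * (M ^ 2 + C * C0 / w + Real.log N ^ (-(4 / 100) : ℝ)) +
        N * Real.log N ^ (-(5 / 1000) : ℝ))
    (H * M - (N : ℝ) ^ (495 / 1000 : ℝ) - N * Real.log N ^ (-c1)) hM0 st2 st1 hca (by
      have h1 : 2 * M * (N : ℝ) ^ (495 / 1000 : ℝ) ≤ 8 * (N : ℝ) ^ (495 / 1000 : ℝ) :=
        mul_le_mul_of_nonneg_right (by linarith) hR1
      have h2 : 2 * M * (N * Real.log N ^ (-c1)) ≤ 8 * (N * Real.log N ^ (-c1)) :=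
        mul_le_mul_of_nonneg_right (by linarith) hR2
      have h3 : 2 * M ^ 2 ≤ 32 := by nlinarith
      nlinarith)
  -- step 4
  let D : ℕ → ℝ := fun n => ∑ e ∈ I, u e ^ 2 * (if n - e ∈ T then (XX N (n - e) : ℝ) ^ 2 else 0)
  have hD0 : ∀ n, 0 ≤ D n := fun n => Finset.sum_nonneg fun e _ => by
    refine mul_nonneg (sq_nonneg _) ?_
    by_cases h : n - e ∈ T
    · rw [if_pos h]; positivity
    · rw [if_neg h]
  set B := (NN N (Ww w) c).filter (fun n =>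
      (((G.filter (fun x => n ≡ x.2 [MOD (x.1 - 1)])).image Prod.snd).card : ℝ) <
        Real.log N ^ (1 / 1000 : ℝ)) with hB
  set B1 := (NN N (Ww w) c).filter (fun n => S n < M / 2) with hB1
  have st4 : ∀ n ∈ B \ B1, η ^ 2 / 4 ≤ Real.log N ^ (1 / 1000 : ℝ) * D n := fun n hn => by
    obtain ⟨hn1, hn2⟩ := Finset.mem_sdiff.1 hn
    obtain ⟨hn3, hn4⟩ := Finset.mem_filter.1 hn1
    have hn5 : M / 2 ≤ S n := by
      by_contra hcon
      exact hn2 (Finset.mem_filter.2 ⟨hn3, not_le.1 hcon⟩)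
    set E := (G.filter (fun x => n ≡ x.2 [MOD (x.1 - 1)])).image Prod.snd with hE
    have hEI : E ⊆ I := fun e he => by
      obtain ⟨x, hx, rfl⟩ := Finset.mem_image.1 he
      exact hGI x (Finset.mem_filter.1 hx).1
    have hSE : S n = ∑ e ∈ E, ∑ x ∈ G.filter (fun x => x.2 = e), g n x := by
      have h1 : S n = ∑ e ∈ I, ∑ x ∈ G.filter (fun x => x.2 = e), g n x :=
        (Finset.sum_fiberwise_of_maps_to hGI _).symm
      rw [h1]
      refine (Finset.sum_subset hEI fun e _ heE => ?_).symm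
      refine Finset.sum_eq_zero fun x hx => ?_
      obtain ⟨hx1, hx2⟩ := Finset.mem_filter.1 hx
      have h2 : ¬ n ≡ x.2 [MOD (x.1 - 1)] := fun h => heE (Finset.mem_image.2
        ⟨x, Finset.mem_filter.2 ⟨hx1, h⟩, hx2⟩)
      simp only [g, f, if_neg h2, ite_self]
    have h3 : S n ^ 2 ≤ (E.card : ℝ) * D n := by
      rw [hSE]
      refine sq_sum_le_card_mul_sum_sq.trans (mul_le_mul_of_nonneg_left ?_ (Nat.cast_nonneg _))
      refine (Finset.sum_le_sum fun e he => hgsq n hn3 e (hEI he)).trans ?_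
      refine Finset.sum_le_sum_of_subset_of_nonneg hEI fun e _ _ => ?_
      refine mul_nonneg (sq_nonneg _) ?_
      by_cases h : n - e ∈ T
      · rw [if_pos h]; positivity
      · rw [if_neg h]
    have h4 : (E.card : ℝ) * D n ≤ Real.log N ^ (1 / 1000 : ℝ) * D n :=
      mul_le_mul_of_nonneg_right hn4.le (hD0 n)
    have h5 : (M / 2) ^ 2 ≤ S n ^ 2 := pow_le_pow_left₀ (by linarith) hn5 2
    have h6 : η ^ 2 ≤ M ^ 2 := pow_le_pow_left₀ hη.le hm 2
    linarith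
  have st5 : ((B \ B1).card : ℝ) * (η ^ 2 / 4) ≤ N * Real.log N ^ (-(4 / 1000) : ℝ) := by
    have h1 : ((B \ B1).card : ℝ) * (η ^ 2 / 4) ≤
        ∑ n ∈ B \ B1, Real.log N ^ (1 / 1000 : ℝ) * D n := by
      rw [← nsmul_eq_mul, ← Finset.sum_const]
      exact Finset.sum_le_sum st4
    rw [← Finset.mul_sum] at h1
    have h2 : ∑ n ∈ B \ B1, D n ≤ ∑ n ∈ Ioc (N / 2) N, D n :=
      Finset.sum_le_sum_of_subset_of_nonneg (fun n hn => hNNs (Finset.mem_filter.1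
        (Finset.mem_sdiff.1 hn).1).1) fun n _ _ => hD0 n
    have h3 : ∑ n ∈ Ioc (N / 2) N, D n ≤ N * Real.log N ^ (-(5 / 1000) : ℝ) := hd2
    have h4 : Real.log N ^ (1 / 1000 : ℝ) * (N * Real.log N ^ (-(5 / 1000) : ℝ)) =
        N * Real.log N ^ (-(4 / 1000) : ℝ) := by
      rw [mul_left_comm, ← Real.rpow_add hl0]
      norm_num
    rw [← h4]
    exact h1.trans (mul_le_mul_of_nonneg_left (h2.trans h3) (by positivity))
  have hcard : (B.card : ℝ) ≤ (B1.card : ℝ) + ((B \ B1).card : ℝ) := by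
    have h1 : B ⊆ B1 ∪ (B \ B1) := fun n hn => by
      by_cases h : n ∈ B1
      · exact Finset.mem_union_left _ h
      · exact Finset.mem_union_right _ (Finset.mem_sdiff.2 ⟨hn, h⟩)
    have h2 := (Finset.card_le_card h1).trans (Finset.card_union_le _ _)
    exact_mod_cast h2
  have hη2 : 0 < η ^ 2 := by positivity
  have r1 : (B1.card : ℝ) ≤ 8 * (H * (C * C0 / w)) / η ^ 2 := by
    rw [le_div_iff₀ hη2]
    have h6 : η ^ 2 ≤ M ^ 2 := pow_le_pow_left₀ hη.le hm 2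
    have h7 : (B1.card : ℝ) * η ^ 2 ≤ (B1.card : ℝ) * M ^ 2 :=
      mul_le_mul_of_nonneg_left h6 (Nat.cast_nonneg _)
    linarith
  have r2 : ((B \ B1).card : ℝ) ≤ H * (C * C0 / w) / η ^ 2 := by
    rw [le_div_iff₀ hη2]
    have h1 := mul_le_mul_of_nonneg_left hb2 hNpos.le
    have h5 : (N : ℝ) * (C * C0 / (2 * (Ww w : ℝ) * w)) = H * (C * C0 / w) := by
      rw [hH]
      field_simp
    linarith
  have r3 : 9 * C / 2 * C0 / (w * η ^ 2) * ((N : ℝ) / (Ww w : ℝ)) =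
      8 * (H * (C * C0 / w)) / η ^ 2 + H * (C * C0 / w) / η ^ 2 := by
    rw [hH]
    field_simp
    ring
  rw [r3]
  linarith

end Pool.Agent.BDN
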