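import Mathlib

/-!
# BDL-DIV (0.8h): few divisors near a multiple (file Pool/Agent/BDN/DIV.lean)

If `|D - e k| < t ≤ D`, `k ≥ 1`, then `D - j = e k > 0` for an integer `|j| < t`: `e` is a divisor of one of the at most `2t` positive integers `D - j ≤ 2 (log N)^A`. Divisor bound `d(m) ≤ C m^η`.
-/

open Finset

namespace Pool.Agent.BDN

private theorem div_bd (η : ℝ) (hη : 0 < η) : ∃ C : ℝ, 0 < C ∧ ∀ m : ℕ, 1 ≤ m →
    (m.divisors.card : ℝ) ≤ C * (m : ℝ) ^ η := by
  set P0 : ℕ := ⌈(2 : ℝ) ^ (1 / η)⌉₊ with hP0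
  set c : ℝ := min 1 (η * Real.log 2) with hc
  have hl2 : 0 < Real.log 2 := Real.log_pos (by norm_num)
  have hc0 : 0 < c := lt_min one_pos (by positivity)
  have hc1 : c ≤ 1 := min_le_left _ _
  have hK : 1 ≤ 1 / c := by rw [le_div_iff₀ hc0]; linarith
  refine ⟨(1 / c) ^ P0, by positivity, fun m hm => ?_⟩
  have hm0 : m ≠ 0 := by omega
  rw [Nat.card_divisors hm0]
  push_cast
  have h1 : (m : ℝ) ^ η = ∏ p ∈ m.primeFactors, ((p : ℝ) ^ (m.factorization p)) ^ η := by
    have h2 : (m : ℝ) = ∏ p ∈ m.primeFactors, (p : ℝ) ^ (m.factorization p) := by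
      have h3 := Nat.prod_factorization_pow_eq_self hm0
      conv_lhs => rw [← h3]
      rw [Finsupp.prod, Nat.support_factorization]
      push_cast
      rfl
    conv_lhs => rw [h2]
    rw [← Real.finsetProd_rpow]
    intro p _
    positivity
  rw [h1]
  have h2 : ∀ p ∈ m.primeFactors, ((m.factorization p : ℝ) + 1) ≤
      (if p < P0 then 1 / c else 1) * ((p : ℝ) ^ (m.factorization p)) ^ η := by
    intro p hp
    have hpp := Nat.prime_of_mem_primeFactors hp
    have hp2 : (2 : ℝ) ≤ p := by exact_mod_cast hpp.two_le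
    set v := m.factorization p with hv
    split_ifs with h
    · have h3 : ((2 : ℝ) ^ v) ^ η ≤ ((p : ℝ) ^ v) ^ η := by gcongr
      have h4 : 1 + (v : ℝ) * (η * Real.log 2) ≤ ((2 : ℝ) ^ v) ^ η := by
        have h5 : ((2 : ℝ) ^ v) ^ η = Real.exp (v * (η * Real.log 2)) := by
          rw [Real.rpow_def_of_pos (by positivity), Real.log_pow]
          ring_nf
        rw [h5]
        have := Real.add_one_le_exp ((v : ℝ) * (η * Real.log 2))
        linarith
      have h6 : c * ((v : ℝ) + 1) ≤ 1 + (v : ℝ) * (η * Real.log 2) := by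
        have h7 : c ≤ η * Real.log 2 := min_le_right _ _
        have h8 : (0 : ℝ) ≤ v := by positivity
        nlinarith
      have h9 : c * ((v : ℝ) + 1) ≤ ((p : ℝ) ^ v) ^ η := h6.trans (h4.trans h3)
      rw [div_mul_eq_mul_div, one_mul, le_div_iff₀ hc0]
      linarith
    · have h3 : (2 : ℝ) ≤ (p : ℝ) ^ η := by
        have h4 : (2 : ℝ) ^ (1 / η) ≤ p := by
          have h5 : (P0 : ℝ) ≤ p := by exact_mod_cast (not_lt.1 h)
          exact (Nat.le_ceil _).trans h5
        calc (2 : ℝ) = ((2 : ℝ) ^ (1 / η)) ^ η := by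
              rw [← Real.rpow_mul (by norm_num), one_div_mul_cancel hη.ne', Real.rpow_one]
          _ ≤ (p : ℝ) ^ η := by gcongr
      have h4 : ((p : ℝ) ^ v) ^ η = ((p : ℝ) ^ η) ^ v := by
        rw [← Real.rpow_natCast, ← Real.rpow_mul (by positivity), ← Real.rpow_natCast,
          ← Real.rpow_mul (by positivity), mul_comm]
      rw [one_mul, h4]
      have h5 : (2 : ℝ) ^ v ≤ ((p : ℝ) ^ η) ^ v := by gcongr
      have h6 : (v : ℝ) + 1 ≤ 2 ^ v := by
        have : v + 1 ≤ 2 ^ v := Nat.lt_two_pow_self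
        exact_mod_cast this
      linarith
  refine (Finset.prod_le_prod (fun p _ => by positivity) h2).trans ?_
  rw [Finset.prod_mul_distrib]
  gcongr
  have h3 : ∏ p ∈ m.primeFactors, (if p < P0 then 1 / c else (1 : ℝ)) =
      (1 / c) ^ ((m.primeFactors.filter (fun p => p < P0)).card) := by
    rw [Finset.prod_ite, Finset.prod_const, Finset.prod_const_one, mul_one]
  rw [h3]
  refine pow_le_pow_right₀ hK ?_
  have h4 : m.primeFactors.filter (fun p => p < P0) ⊆ range P0 := by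
    intro p hp
    rw [mem_filter] at hp
    exact mem_range.2 hp.2
  simpa using card_le_card h4

theorem few_dvd (A : ℝ) (hA : 0 < A) (t : ℕ) : ∃ N0 : ℕ, ∀ N : ℕ, N0 ≤ N → ∀ D : ℕ, t ≤ D →
    (D : ℝ) ≤ Real.log N ^ A → ∀ E : Finset ℕ, (∀ e ∈ E, ∃ k : ℕ, 1 ≤ k ∧ |(D : ℤ) - e * k| < t) →
    (E.card : ℝ) < Real.log N ^ (1 / 1000 : ℝ) := by
  set η : ℝ := 1 / (2000 * A) with hη
  have hη0 : 0 < η := by positivity
  obtain ⟨C, hC, hdiv⟩ := div_bd η hη0
  -- the limit
  have hlim : Filter.Tendsto (fun N : ℕ => (Real.log N) ^ (1 / 2000 : ℝ)) Filter.atTop Filter.atTop :=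
    (tendsto_rpow_atTop (by norm_num)).comp (Real.tendsto_log_atTop.comp tendsto_natCast_atTop_atTop)
  obtain ⟨N1, hN1⟩ := Filter.eventually_atTop.1
    (hlim.eventually_gt_atTop (2 * t * (C * (2 : ℝ) ^ η)))
  refine ⟨max N1 3, fun N hN D htD hD E hE => ?_⟩
  have hN1' := hN1 N ((le_max_left _ _).trans hN)
  have hN3 : 3 ≤ N := (le_max_right _ _).trans hN
  have hlog : 0 < Real.log N := Real.log_pos (by exact_mod_cast (by omega : 1 < N))
  -- E is contained in a union of divisor sets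
  have hsub : E ⊆ (Ico 0 (2 * t)).biUnion (fun j => (D + t - j).divisors) := by
    intro e he
    obtain ⟨k, hk, hlt⟩ := hE e he
    rw [abs_lt] at hlt
    have hpos : (0 : ℤ) < e * k := by omega
    have h1 : (e * k : ℕ) < D + t := by
      have : ((e * k : ℕ) : ℤ) < D + t := by push_cast; omega
      exact_mod_cast this
    have h2 : D < e * k + t := by
      have : (D : ℤ) < ((e * k : ℕ) : ℤ) + t := by push_cast; omega
      exact_mod_cast this
    have h3 : 0 < e * k := by exact_mod_cast hpos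
    rw [mem_biUnion]
    refine ⟨D + t - e * k, ?_, ?_⟩
    · rw [mem_Ico]
      omega
    · rw [Nat.mem_divisors]
      have h4 : D + t - (D + t - e * k) = e * k := by omega
      rw [h4]
      exact ⟨dvd_mul_right e k, h3.ne'⟩
  have hD0 : (0 : ℝ) ≤ D := by positivity
  have hcard : (E.card : ℝ) ≤ ∑ j ∈ Ico 0 (2 * t), C * (2 : ℝ) ^ η * (Real.log N) ^ (1 / 2000 : ℝ) := by
    refine (Nat.cast_le.2 ((card_le_card hsub).trans card_biUnion_le)).trans ?_
    push_cast
    refine Finset.sum_le_sum fun j hj => ?_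
    rcases Nat.eq_zero_or_pos (D + t - j) with h0 | h0
    · rw [h0]
      simp only [Nat.divisors_zero, card_empty, Nat.cast_zero]
      positivity
    · refine (hdiv _ h0).trans ?_
      have h1 : ((D + t - j : ℕ) : ℝ) ≤ 2 * (Real.log N) ^ A := by
        have h2 : ((D + t - j : ℕ) : ℝ) ≤ ((D + D : ℕ) : ℝ) := by
          exact_mod_cast (by omega : D + t - j ≤ D + D)
        push_cast at h2
        linarith
      have h2 : ((D + t - j : ℕ) : ℝ) ^ η ≤ (2 * (Real.log N) ^ A) ^ η := by gcongr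
      have h3 : (2 * (Real.log N) ^ A) ^ η = (2 : ℝ) ^ η * (Real.log N) ^ (1 / 2000 : ℝ) := by
        rw [Real.mul_rpow (by norm_num) (by positivity), ← Real.rpow_mul hlog.le]
        congr 2
        rw [hη]
        field_simp
      calc C * ((D + t - j : ℕ) : ℝ) ^ η ≤ C * ((2 : ℝ) ^ η * (Real.log N) ^ (1 / 2000 : ℝ)) := by
            rw [← h3]; gcongr
        _ = _ := by ring
  rw [Finset.sum_const, Nat.card_Ico, Nat.sub_zero, nsmul_eq_mul] at hcard
  push_cast at hcard
  have h5 : (Real.log N) ^ (1 / 1000 : ℝ) =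
      (Real.log N) ^ (1 / 2000 : ℝ) * (Real.log N) ^ (1 / 2000 : ℝ) := by
    rw [← Real.rpow_add hlog]
    norm_num
  rw [h5]
  have h6 : 0 < (Real.log N) ^ (1 / 2000 : ℝ) := Real.rpow_pos_of_pos hlog _
  calc (E.card : ℝ) ≤ 2 * t * (C * (2 : ℝ) ^ η * (Real.log N) ^ (1 / 2000 : ℝ)) := hcard
    _ = (2 * t * (C * (2 : ℝ) ^ η)) * (Real.log N) ^ (1 / 2000 : ℝ) := by ring
    _ < (Real.log N) ^ (1 / 2000 : ℝ) * (Real.log N) ^ (1 / 2000 : ℝ) := by gcongr

end Pool.Agent.BDN
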