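import Mathlib
import Pool.Agent.BDN.Defs
import Pool.Agent.Bern2.BLK1

/-!
BDN-SA. The reduction of `p B_n` modulo `p`.

PLAN.
* `SS_coeff`: the coefficient of `X^i` in `∑_a (X + a)^n` is `C(n,i) ∑_a a^(n-i)` (`coeff_X_add_C_pow`), and
  `∑_{a : ZMod p} a^k` is `-1` if `k > 0` and `p - 1 ∣ k`, and `0` otherwise (`FiniteField.sum_pow_units`,
  `FiniteField.sum_pow_lt_card_sub_one`, `ZMod.card`; for `k = 0` it is `p = 0`; there is also
  Pool/Agent/Helper98/Bern/AL.lean or Helper29 with such sums).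
* `bern_mod2`: copy the proof of `Pool.Agent.Bern2.bern_mod` (Pool/Agent/Bern2/BLK1.lean): `blk1_coeff` gives the
  p-integrality of `coeff i - blk1A p n i / p`; `PI.common` gives the common denominator `D`; the last step compares
  coefficients: `D * blk1A p n i` with `SS_coeff` (`blk1A p n i = -C(n,i)` if `i < n` and `p - 1 ∣ n - i`, else 0).
* `SS_trans`: `SS p n` is invariant under `X ↦ X + a` (reindex the sum).
* `SS_mult`: the multiplicity of the zero `0` is the least `i` with nonzero coefficient. For `i < e`: `p - 1 ∣ n - i`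
  would give `p - 1 ∣ e - i` with `0 < e - i < p - 1`, impossible. For `i = e`: the coefficient is `-C(n, e)`, and
  by Lucas (`Choose.choose_modEq_choose_mod_mul_choose_div_nat`) `C(n, e) ≡ C(n % p, e) * C(n / p, 0)`, not
  divisible by `p` as `e ≤ n % p < p`. For general `a` use `SS_trans`
  (`rootMultiplicity_eq_rootMultiplicity` / `Polynomial.rootMultiplicity_eq_natTrailingDegree`).
* `SS_deg`: the coefficients of index `i > n - (p-1)` vanish.
-/

namespace Pool.Agent.BDN

open Polynomial Finset Pool.Agent.Helper29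

private theorem sum_pow (p k : ℕ) [Fact p.Prime] (hk : k ≠ 0) :
    ∑ a : ZMod p, a ^ k = if (p - 1) ∣ k then -1 else 0 := by
  classical
  have h0 := FiniteField.sum_pow_units (ZMod p) k
  rw [ZMod.card] at h0
  rw [← h0]
  let φ : (ZMod p)ˣ ↪ ZMod p := ⟨fun x ↦ x, Units.val_injective⟩
  have h1 : univ.map φ = univ \ {0} := by
    ext x
    rw [mem_map, mem_sdiff, mem_singleton]
    constructor
    · rintro ⟨u, _, rfl⟩
      exact ⟨mem_univ _, u.ne_zero⟩
    · rintro ⟨_, hx⟩
      exact ⟨Units.mk0 x hx, mem_univ _, rfl⟩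
  calc
    ∑ x : ZMod p, x ^ k = ∑ x ∈ univ \ {(0 : ZMod p)}, x ^ k := by
      rw [← sum_sdiff ({0} : Finset (ZMod p)).subset_univ, sum_singleton, zero_pow hk, add_zero]
    _ = ∑ x : (ZMod p)ˣ, (x ^ k : ZMod p) := by
      rw [← h1, sum_map]
      rfl

theorem SS_coeff (p n i : ℕ) [Fact p.Prime] :
    (SS p n).coeff i = if i < n ∧ (p - 1) ∣ (n - i) then -((n.choose i : ℕ) : ZMod p) else 0 := by
  unfold SS
  rw [finsetSum_coeff]
  have h1 : ∀ a ∈ (univ : Finset (ZMod p)), ((X + C a) ^ n : (ZMod p)[X]).coeff i =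
      a ^ (n - i) * (n.choose i : ZMod p) := fun a _ => coeff_X_add_C_pow a n i
  rw [Finset.sum_congr rfl h1, ← Finset.sum_mul]
  by_cases h : i < n
  · rw [sum_pow p (n - i) (by omega)]
    by_cases h2 : (p - 1) ∣ (n - i)
    · rw [if_pos h2, if_pos ⟨h, h2⟩]
      ring
    · rw [if_neg h2, if_neg (fun hh => h2 hh.2)]
      ring
  · rw [if_neg (fun hh => h hh.1)]
    rcases Nat.lt_or_ge n i with h3 | h3
    · rw [Nat.choose_eq_zero_of_lt h3]
      simp
    · have h4 : n - i = 0 := by omega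
      rw [h4]
      simp

theorem bern_mod2 (p n : ℕ) [Fact p.Prime] (hp3 : 3 ≤ p) :
    ∃ (D : ℤ) (F : ℤ[X]), ¬ (p : ℤ) ∣ D ∧
      F.map (Int.castRingHom ℚ) = C ((D * p : ℤ) : ℚ) * Polynomial.bernoulli n ∧
      F.map (Int.castRingHom (ZMod p)) = C ((D : ℤ) : ZMod p) * SS p n := by
  have hp : p.Prime := Fact.out
  obtain ⟨D, hD, z, hz⟩ := PI.common hp (range (n + 1))
    (fun i => (Polynomial.bernoulli n).coeff i - (Bern2.blk1A p n i : ℚ) / p)
    (fun i _ => Bern2.blk1_coeff hp hp3 n i)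
  have hp0 : (p : ℚ) ≠ 0 := by exact_mod_cast hp.ne_zero
  refine ⟨D, ∑ i ∈ range (n + 1), C (D * Bern2.blk1A p n i + p * z i) * X ^ i, hD, ?_, ?_⟩
  · rw [(Polynomial.bernoulli n).as_sum_range_C_mul_X_pow, natDegree_bernoulli, Finset.mul_sum,
      Polynomial.map_sum]
    apply Finset.sum_congr rfl
    intro i hi
    have h1 := hz i hi
    rw [Polynomial.map_mul, Polynomial.map_C, Polynomial.map_pow, Polynomial.map_X, ← mul_assoc,
      ← C_mul]
    congr 2
    simp only [eq_intCast, Int.cast_add, Int.cast_mul, Int.cast_natCast]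
    rw [← h1]
    field_simp
    ring
  · ext j
    rw [Polynomial.map_sum, finsetSum_coeff, coeff_C_mul, SS_coeff]
    have h1 : ∀ i ∈ range (n + 1),
        ((C (D * Bern2.blk1A p n i + p * z i) * X ^ i : ℤ[X]).map
          (Int.castRingHom (ZMod p))).coeff j =
        if j = i then ((D : ℤ) : ZMod p) * ((Bern2.blk1A p n i : ℤ) : ZMod p) else 0 := by
      intro i _
      rw [Polynomial.map_mul, Polynomial.map_C, Polynomial.map_pow, Polynomial.map_X, coeff_C_mul,
        coeff_X_pow]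
      split_ifs
      · simp
      · simp
    rw [Finset.sum_congr rfl h1, Finset.sum_ite_eq]
    by_cases h2 : j ∈ range (n + 1)
    · rw [if_pos h2]
      unfold Bern2.blk1A
      split_ifs
      · push_cast
        ring
      · simp
    · rw [if_neg h2, if_neg]
      · simp
      · rw [Finset.mem_range] at h2
        intro hh
        omega

theorem SS_trans (p n : ℕ) [Fact p.Prime] (a : ZMod p) : (SS p n).comp (X + C a) = SS p n := by
  unfold SS
  rw [Polynomial.sum_comp]
  apply Fintype.sum_equiv (Equiv.addLeft a)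
  intro b
  rw [Polynomial.pow_comp, Polynomial.add_comp, Polynomial.X_comp, Polynomial.C_comp,
    Equiv.coe_addLeft, C_add]
  ring

private theorem dvd_e {p n e : ℕ} (hen : e < n) (hmod : n ≡ e [MOD (p - 1)]) :
    (p - 1) ∣ (n - e) :=
  (Nat.modEq_iff_dvd' hen.le).1 hmod.symm

private theorem choose_ne (p n e : ℕ) [Fact p.Prime] (hep : e + 2 ≤ p) (hdig : e ≤ n % p) :
    ((n.choose e : ℕ) : ZMod p) ≠ 0 := by
  have hp : p.Prime := Fact.out
  have h1 := Choose.choose_modEq_choose_mod_mul_choose_div_nat (n := n) (k := e) (p := p)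
  rw [Nat.mod_eq_of_lt (by omega : e < p), Nat.div_eq_of_lt (by omega : e < p),
    Nat.choose_zero_right, mul_one] at h1
  rw [(ZMod.natCast_eq_natCast_iff _ _ _).mpr h1]
  intro h2
  rw [ZMod.natCast_eq_zero_iff] at h2
  have h3 : (n % p).choose e ∣ (n % p).factorial := by
    rw [← Nat.choose_mul_factorial_mul_factorial hdig, mul_assoc]
    exact Dvd.intro _ rfl
  have h4 := (hp.dvd_factorial).mp (h2.trans h3)
  have h5 := Nat.mod_lt n hp.pos
  omega

private theorem coeff_e (p n e : ℕ) [Fact p.Prime] (hep : e + 2 ≤ p) (hen : e < n)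
    (hmod : n ≡ e [MOD (p - 1)]) (hdig : e ≤ n % p) : (SS p n).coeff e ≠ 0 := by
  rw [SS_coeff, if_pos ⟨hen, dvd_e hen hmod⟩]
  exact neg_ne_zero.2 (choose_ne p n e hep hdig)

theorem SS_ne_zero (p n e : ℕ) [Fact p.Prime] (he : 0 < e) (hep : e + 2 ≤ p) (hen : e < n)
    (hmod : n ≡ e [MOD (p - 1)]) (hdig : e ≤ n % p) : SS p n ≠ 0 := by
  intro h
  have h1 := coeff_e p n e hep hen hmod hdig
  rw [h] at h1
  exact h1 (coeff_zero _)

theorem SS_mult (p n e : ℕ) [Fact p.Prime] (he : 0 < e) (hep : e + 2 ≤ p) (hen : e < n)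
    (hmod : n ≡ e [MOD (p - 1)]) (hdig : e ≤ n % p) (a : ZMod p) :
    (SS p n).rootMultiplicity a = e := by
  rw [rootMultiplicity_eq_natTrailingDegree, SS_trans]
  have hd := dvd_e hen hmod
  apply le_antisymm
  · exact natTrailingDegree_le_of_ne_zero (coeff_e p n e hep hen hmod hdig)
  · apply le_natTrailingDegree (SS_ne_zero p n e he hep hen hmod hdig)
    intro i hi
    rw [SS_coeff, if_neg]
    rintro ⟨h1, h2⟩
    have h3 : (p - 1) ∣ (n - i) - (n - e) := Nat.dvd_sub h2 hd
    have h4 : n - i - (n - e) = e - i := by omega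
    rw [h4] at h3
    have := Nat.le_of_dvd (by omega) h3
    omega

theorem SS_deg (p n : ℕ) [Fact p.Prime] (h : SS p n ≠ 0) : (SS p n).natDegree + (p - 1) ≤ n := by
  have h1 : (SS p n).coeff (SS p n).natDegree ≠ 0 := by
    rw [coeff_natDegree]
    exact leadingCoeff_ne_zero.2 h
  rw [SS_coeff] at h1
  have h2 : (SS p n).natDegree < n ∧ (p - 1) ∣ (n - (SS p n).natDegree) := by
    by_contra hc
    rw [if_neg hc] at h1
    exact h1 rfl
  have h3 := Nat.le_of_dvd (by omega) h2.2
  omega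

end Pool.Agent.BDN
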