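import Mathlib
import Pool.Agent.BDN.SA
import Pool.Agent.Bern2.BLK2

/-!
BDN-SB. The structure theorem: the degree of a divisor of `B_n` is close to a multiple of `e`.

The reduction modulo `p` of a primitive multiple of the divisor splits, its root multiplicities are `≤ 1` or `≥ e - 1`, and
they are `0` or `e` except at the zeros of `B_e` modulo `p`.
-/

namespace Pool.Agent.BDN

open Polynomial Finset Pool.Agent.Helper29

open UniqueFactorizationMonoid in
private lemma sb_splits {K : Type*} [Field K] {f : K[X]} (hf0 : f ≠ 0)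
    (hf : ∀ g : K[X], Irreducible g → g ∣ f → g.natDegree ≤ 1) : Splits f := by
  obtain ⟨u, hu⟩ := factors_prod hf0
  rw [← hu]
  refine (Splits.multisetProd fun g hg ↦ ?_).mul u.isUnit.splits
  exact Splits.of_natDegree_le_one (hf g (irreducible_of_factor g hg) (dvd_of_mem_factors hg))

/-- the counting step -/
private lemma sb_count {ι : Type*} [Fintype ι] (e D : ℕ) (k : ι → ℕ) (E : ι → Prop)
    [DecidablePred E] (hk : ∀ a, k a ≤ e) (hD : ∑ a, k a = D)
    (h : ∀ a, min (k a) (e - k a) ≤ if E a then 1 else 0) :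
    (∃ j : ℕ, |(D : ℤ) - e * j| ≤ ((Finset.univ.filter E).card : ℤ)) ∧
      (D + 1 < e → D ≤ (Finset.univ.filter E).card) := by
  classical
  have hcard : (Finset.univ.filter E).card = ∑ a : ι, if E a then 1 else 0 := by
    rw [Finset.card_filter]
  constructor
  · refine ⟨(Finset.univ.filter (fun a : ι => e < 2 * k a)).card, ?_⟩
    have h1 : (D : ℤ) - e * ((Finset.univ.filter (fun a : ι => e < 2 * k a)).card : ℤ) =
        ∑ a : ι, ((k a : ℤ) - if e < 2 * k a then (e : ℤ) else 0) := by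
      rw [Finset.sum_sub_distrib, ← hD, Finset.card_filter]
      push_cast
      rw [Finset.mul_sum]
      congr 1
      apply Finset.sum_congr rfl
      intro a _
      split_ifs <;> simp
    rw [h1]
    refine (Finset.abs_sum_le_sum_abs _ _).trans ?_
    rw [hcard]
    push_cast
    apply Finset.sum_le_sum
    intro a _
    have h2 := h a
    have h3 := hk a
    have h4 : |(k a : ℤ) - if e < 2 * k a then (e : ℤ) else 0| ≤
        ((min (k a) (e - k a) : ℕ) : ℤ) := by
      rw [abs_le]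
      split_ifs with h5
      · constructor <;> omega
      · constructor <;> omega
    refine h4.trans ?_
    split_ifs at h2 ⊢ <;> exact_mod_cast h2
  · intro hDe
    rw [hcard, ← hD]
    apply Finset.sum_le_sum
    intro a _
    have h2 := h a
    have h5 : k a ≤ D := by
      rw [← hD]
      exact Finset.single_le_sum (fun _ _ => Nat.zero_le _) (Finset.mem_univ a)
    split_ifs at h2 ⊢ <;> omega

open Classical in
private lemma sb_rp (p e : ℕ) [Fact p.Prime] :
    (Finset.univ.filter fun a : ZMod p =>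
      PI p ((Polynomial.bernoulli e).eval ((a.val : ℕ) : ℚ) / p)).card ≤ rp p e := by
  unfold rp
  refine Finset.card_le_card_of_injOn (fun a => ((a.val : ℕ) : ℚ)) ?_ ?_
  · intro a ha
    rw [Finset.mem_coe, Finset.mem_filter] at ha
    rw [Finset.mem_coe, Finset.mem_filter]
    refine ⟨?_, ha.2⟩
    exact (@Finset.mem_sup ℚ ℕ (fun _ _ => Classical.propDecidable _) (range p)
      (fun b : ℕ => ({(b : ℚ)} : Finset ℚ)) _).2
      ⟨a.val, Finset.mem_range.2 (ZMod.val_lt a), Finset.mem_singleton_self _⟩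
  · intro a _ b _ hab
    have h : ((a.val : ℕ) : ℚ) = ((b.val : ℕ) : ℚ) := hab
    exact ZMod.val_injective p (by exact_mod_cast h)

private lemma sb_not_dvd {p n e : ℕ} (he : 2 ≤ e) (hdig : e ≤ n % p) {i : ℕ} (hi : i < 2) :
    ¬ (p : ℤ) ∣ ((n - i : ℕ) : ℤ) := by
  intro h
  have h1 : p ∣ n - i := by exact_mod_cast h
  have h2 : n % p ≤ n := Nat.mod_le _ _
  rcases Nat.eq_zero_or_pos p with hp | hp
  · subst hp
    rw [Nat.zero_dvd] at h1
    omega
  have h3 := Nat.mod_lt n hp
  have h4 : n = p * (n / p) + n % p := (Nat.div_add_mod n p).symm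
  have h5 : n - i = p * (n / p) + (n % p - i) := by omega
  rw [h5] at h1
  have h6 : p ∣ n % p - i := (Nat.dvd_add_right (Dvd.intro _ rfl)).1 h1
  have h7 := Nat.le_of_dvd (by omega) h6
  omega

theorem struct (p n e D F : ℕ) (hp : p.Prime) (he : 2 ≤ e) (hee : Even e) (hep : e + 2 ≤ p)
    (hne : Even n) (hen : e < n) (hmod : n ≡ e [MOD (p - 1)]) (hdig : e ≤ n % p)
    (hO : Out p n F) (hS : Sim p e) (hF : Fac n D) (hDF : D ≤ F) (hD : D < p - 1) :
    (∃ k : ℕ, |(D : ℤ) - e * k| ≤ (rp p e : ℤ)) ∧ (D + 1 < e → D ≤ rp p e) := by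
  have := Fact.mk hp
  have hp5 : 5 ≤ p := by
    rcases Nat.lt_or_ge p 5 with h | h
    · exfalso
      have hp4 : p = 4 := by omega
      subst hp4
      revert hp
      decide
    · exact h
  have hpI : Prime (p : ℤ) := Nat.prime_iff_prime_int.mp hp
  have hp0 : (p : ℚ) ≠ 0 := by exact_mod_cast hp.ne_zero
  obtain ⟨φ, hφ⟩ : ∃ φ : ℤ →+* ZMod p, φ = Int.castRingHom (ZMod p) := ⟨_, rfl⟩
  have hφ0 : ∀ a : ℤ, φ a = 0 ↔ (p : ℤ) ∣ a := fun a => by
    rw [hφ]
    simpa using ZMod.intCast_zmod_eq_zero_iff_dvd a p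
  obtain ⟨D0, F1, hD0, hF1, hFS⟩ := Pool.Agent.BDN.bern_mod2 p n (by omega)
  have hSS0 : SS p n ≠ 0 := SS_ne_zero p n e (by omega) hep hen hmod hdig
  have hSSdeg := SS_deg p n hSS0
  have hD0' : ((D0 : ℤ) : ZMod p) ≠ 0 := by
    rw [Ne, ZMod.intCast_zmod_eq_zero_iff_dvd]
    exact hD0
  obtain ⟨H, hH, ⟨g, hB⟩, hHD⟩ := hF
  -- the factor `H`
  obtain ⟨H1, hH1p, hH1d, c, hc, hH1c⟩ := exists_primitive hH.ne_zero
  have hdvd : H1.map (algebraMap ℤ ℚ) ∣ F1.map (algebraMap ℤ ℚ) := by
    change H1.map (Int.castRingHom ℚ) ∣ F1.map (Int.castRingHom ℚ)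
    rw [hH1c, hF1, hB]
    refine ⟨C (c⁻¹) * (C ((D0 * p : ℤ) : ℚ) * g), ?_⟩
    have : C c * C c⁻¹ = (1 : ℚ[X]) := by rw [← C_mul, mul_inv_cancel₀ hc, C_1]
    linear_combination (-(C ((D0 * p : ℤ) : ℚ) * g * H)) * this
  obtain ⟨G, hG⟩ := hH1p.dvd_of_fraction_map_dvd_fraction_map hdvd
  have hinj : Function.Injective (Int.castRingHom ℚ) := RingHom.injective_int (Int.castRingHom ℚ)
  have hDp : D0 * p ≠ 0 := by
    intro h
    rcases mul_eq_zero.1 h with h1 | h1
    · exact hD0 (h1 ▸ dvd_zero _)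
    · exact hp.ne_zero (by exact_mod_cast h1)
  have hDpq : ((D0 * p : ℤ) : ℚ) ≠ 0 := by exact_mod_cast hDp
  have hFdeg : F1.natDegree = n := by
    rw [← natDegree_map_eq_of_injective hinj, hF1, natDegree_C_mul hDpq, natDegree_bernoulli]
  have hFlc : F1.leadingCoeff = D0 * p := by
    have h2 := leadingCoeff_map_of_injective hinj F1
    rw [hF1, leadingCoeff_mul, leadingCoeff_C, (monic_bernoulli n).leadingCoeff, mul_one] at h2
    have h3 : ((F1.leadingCoeff : ℤ) : ℚ) = ((D0 * p : ℤ) : ℚ) := by simpa using h2.symm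
    exact_mod_cast h3
  have hF0 : F1 ≠ 0 := by
    rintro rfl
    rw [leadingCoeff_zero] at hFlc
    exact hDp hFlc.symm
  have hG0 : G ≠ 0 := by
    rintro rfl
    rw [mul_zero] at hG
    exact hF0 hG
  have hH10 : H1 ≠ 0 := hH1p.ne_zero
  have hlc : H1.leadingCoeff * G.leadingCoeff = D0 * p := by
    rw [← leadingCoeff_mul, ← hG, hFlc]
  have hdegs : H1.natDegree + G.natDegree = n := by
    rw [← natDegree_mul hH10 hG0, ← hG, hFdeg]
  -- reduction of the product
  have hFm : F1.map φ = C ((D0 : ℤ) : ZMod p) * SS p n := by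
    rw [hφ]
    exact hFS
  have hFm0 : F1.map φ ≠ 0 := by
    rw [hFm]
    exact mul_ne_zero (Polynomial.C_ne_zero.2 hD0') hSS0
  have hFmdeg : (F1.map φ).natDegree = (SS p n).natDegree := by
    rw [hFm, natDegree_C_mul hD0']
  have hprod : H1.map φ * G.map φ = F1.map φ := by rw [← Polynomial.map_mul, ← hG]
  have hH1m0 : H1.map φ ≠ 0 := by
    intro h
    rw [h, zero_mul] at hprod
    exact hFm0 hprod.symm
  have hGm0 : G.map φ ≠ 0 := by
    intro h
    rw [h, mul_zero] at hprod
    exact hFm0 hprod.symm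
  have hdm : (H1.map φ).natDegree + (G.map φ).natDegree = (SS p n).natDegree := by
    rw [← natDegree_mul hH1m0 hGm0, hprod, hFmdeg]
  have hpH1 : ¬ (p : ℤ) ∣ H1.leadingCoeff := by
    intro h
    have hpG : ¬ (p : ℤ) ∣ G.leadingCoeff := by
      intro h'
      have h2 : (p : ℤ) * p ∣ D0 * p := by
        rw [← hlc]
        exact mul_dvd_mul h h'
      have h3 : (p : ℤ) ∣ D0 := (mul_dvd_mul_iff_right hpI.ne_zero).1 h2
      exact hD0 h3
    have hGd : (G.map φ).natDegree = G.natDegree := by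
      apply natDegree_map_of_leadingCoeff_ne_zero
      rw [Ne, hφ0]
      exact hpG
    omega
  have hhd : (H1.map φ).natDegree = D := by
    rw [← hHD, ← hH1d]
    apply natDegree_map_of_leadingCoeff_ne_zero
    rw [Ne, hφ0]
    exact hpH1
  -- the reduction splits
  have hsplit : Splits (H1.map φ) := by
    refine sb_splits hH1m0 ?_
    intro q hq hqd
    have h1 : q ∣ SS p n := by
      have h2 : q ∣ C ((D0 : ℤ) : ZMod p) * SS p n := by
        rw [← hFm, ← hprod]
        exact hqd.trans (Dvd.intro _ rfl)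
      have h3 : IsUnit (C ((D0 : ℤ) : ZMod p)) :=
        Polynomial.isUnit_C.2 (isUnit_iff_ne_zero.2 hD0')
      exact (h3.dvd_mul_left).1 h2
    rcases hO this q hq h1 with h2 | h2
    · exact h2
    · exfalso
      have h3 := natDegree_le_of_dvd hqd hH1m0
      omega
  have hsumH : ∑ a : ZMod p, (H1.map φ).rootMultiplicity a = D := by
    rw [← hhd]
    have h1 : (H1.map φ).roots.card = (H1.map φ).natDegree := splits_iff_card_roots.1 hsplit
    rw [← h1, ← Multiset.sum_count_eq_card (s := Finset.univ) (fun a _ => Finset.mem_univ a)]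
    apply Finset.sum_congr rfl
    intro a _
    rw [count_roots]
  have hcount : ∀ a : ZMod p, (H1.map φ).rootMultiplicity a + (G.map φ).rootMultiplicity a = e := by
    intro a
    have h1 : (H1.map φ * G.map φ) ≠ 0 := by rw [hprod]; exact hFm0
    rw [← rootMultiplicity_mul h1, hprod, hFm]
    have h2 : C ((D0 : ℤ) : ZMod p) * SS p n ≠ 0 := by rw [← hFm]; exact hFm0
    rw [rootMultiplicity_mul h2, rootMultiplicity_C, zero_add]
    exact SS_mult p n e (by omega) hep hen hmod hdig a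
  -- divisibility of the values
  have hval : ∀ a : ZMod p, ∀ i : ℕ, i < 2 → i < (H1.map φ).rootMultiplicity a →
      i < (G.map φ).rootMultiplicity a → i ≤ n →
      PI p ((D0 : ℚ) * ((n.choose i : ℕ) * (Polynomial.bernoulli (n - i)).eval ((a.val : ℕ) : ℚ))
        / p) := by
    intro a i _ hi1 hi2 hin
    have haa : ((a.val : ℕ) : ZMod p) = a := ZMod.natCast_zmod_val a
    obtain ⟨b, hb⟩ : ∃ b : ℕ, b = a.val := ⟨_, rfl⟩
    rw [← hb] at haa ⊢
    have hH1a := (Pool.Agent.Bern2.blk_dvd_iff H1 b ((H1.map φ).rootMultiplicity a)).1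
      (by rw [haa, ← hφ]; exact pow_rootMultiplicity_dvd _ _)
    have hGa := (Pool.Agent.Bern2.blk_dvd_iff G b ((G.map φ).rootMultiplicity a)).1
      (by rw [haa, ← hφ]; exact pow_rootMultiplicity_dvd _ _)
    have hsq := Pool.Agent.Bern2.blk_mul_coeff _ _ _ _ i hH1a hGa hi1 hi2
    rw [← mul_comp, ← hG] at hsq
    obtain ⟨w, hw⟩ := hsq
    have hcoF : (((F1.comp (X + C ((b : ℕ) : ℤ))).coeff i : ℤ) : ℚ) =
        (D0 * p : ℚ) * ((n.choose i : ℕ) *
          (Polynomial.bernoulli (n - i)).eval ((b : ℕ) : ℚ)) := by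
      rw [← Pool.Agent.Bern2.blk_taylor n i b hin]
      have h1 : ((F1.comp (X + C ((b : ℕ) : ℤ))).map (Int.castRingHom ℚ)) =
          C ((D0 * p : ℤ) : ℚ) * (Polynomial.bernoulli n).comp (X + C ((b : ℕ) : ℚ)) := by
        rw [Polynomial.map_comp, hF1, mul_comp, C_comp]
        simp
      have h2 := congrArg (fun Q => Q.coeff i) h1
      simp only [coeff_map, coeff_C_mul] at h2
      simpa using h2
    have hw' : (D0 : ℚ) * ((n.choose i : ℕ) *
        (Polynomial.bernoulli (n - i)).eval ((b : ℕ) : ℚ)) / p = w := by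
      have h1 : (D0 * p : ℚ) * ((n.choose i : ℕ) *
          (Polynomial.bernoulli (n - i)).eval ((b : ℕ) : ℚ)) = (p : ℚ) ^ 2 * w := by
        rw [← hcoF, hw]
        push_cast
        ring
      rw [div_eq_iff hp0]
      apply mul_left_cancel₀ hp0
      linear_combination h1
    rw [hw']
    exact PI.int hp w
  have hn0 : ¬ (p : ℤ) ∣ (n : ℤ) := by
    have := sb_not_dvd (i := 0) he hdig (by norm_num)
    simpa using this
  have hn1 : ¬ (p : ℤ) ∣ ((n - 1 : ℕ) : ℤ) := sb_not_dvd (i := 1) he hdig (by norm_num)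
  have he4 : ∀ a : ZMod p, 1 < (H1.map φ).rootMultiplicity a →
      1 < (G.map φ).rootMultiplicity a → 3 ≤ e := by
    intro a h1 h2
    have := hcount a
    omega
  have hzero : ∀ a : ZMod p, 0 < (H1.map φ).rootMultiplicity a →
      0 < (G.map φ).rootMultiplicity a →
      PI p ((Polynomial.bernoulli e).eval ((a.val : ℕ) : ℚ) / p) := by
    intro a h1 h2
    have h3 := hval a 0 (by norm_num) h1 h2 (Nat.zero_le _)
    rw [Nat.choose_zero_right, Nat.sub_zero, Nat.cast_one, one_mul] at h3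
    have h4 : PI p ((Polynomial.bernoulli n).eval ((a.val : ℕ) : ℚ) / p) := by
      apply Pool.Agent.Bern2.blk_PI_of_mul hp hD0
      rw [← mul_div_assoc]
      exact h3
    obtain ⟨-, h5⟩ := Pool.Agent.Bern2.bern_val p n e 0 a.val hp hp5 he hee hne hep hmod
      (by omega) (by omega)
    rw [Nat.sub_zero, Nat.sub_zero] at h5
    apply Pool.Agent.Bern2.blk_PI_of_mul hp hn0
    have h6 : ((n : ℤ) : ℚ) * ((Polynomial.bernoulli e).eval ((a.val : ℕ) : ℚ) / p) =
        (e : ℚ) * ((Polynomial.bernoulli n).eval ((a.val : ℕ) : ℚ) / p) +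
        -((((e : ℕ) : ℚ) * (Polynomial.bernoulli n).eval ((a.val : ℕ) : ℚ) -
          ((n : ℕ) : ℚ) * (Polynomial.bernoulli e).eval ((a.val : ℕ) : ℚ)) / p) := by
      push_cast
      ring
    rw [h6]
    exact PI.add hp (PI.mul hp (PI.nat hp _) h4) (PI.neg hp h5)
  have hone : ∀ a : ZMod p, 1 < (H1.map φ).rootMultiplicity a →
      ¬ 1 < (G.map φ).rootMultiplicity a := by
    intro a h1 h2
    have he3 := he4 a h1 h2
    refine hS a.val (ZMod.val_lt a) (hzero a (by omega) (by omega)) ?_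
    have h3 := hval a 1 (by norm_num) h1 h2 (by omega)
    rw [Nat.choose_one_right] at h3
    have h4 : PI p ((Polynomial.bernoulli (n - 1)).eval ((a.val : ℕ) : ℚ) / p) := by
      apply Pool.Agent.Bern2.blk_PI_of_mul hp hn0
      apply Pool.Agent.Bern2.blk_PI_of_mul hp hD0
      have h7 : (D0 : ℚ) * (((n : ℤ) : ℚ) *
          ((Polynomial.bernoulli (n - 1)).eval ((a.val : ℕ) : ℚ) / p)) =
          (D0 : ℚ) * ((n : ℕ) * (Polynomial.bernoulli (n - 1)).eval ((a.val : ℕ) : ℚ)) / p := by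
        push_cast
        ring
      rw [h7]
      exact h3
    obtain ⟨-, h5⟩ := Pool.Agent.Bern2.bern_val p n e 1 a.val hp hp5 he hee hne hep hmod
      (by omega) (by omega)
    apply Pool.Agent.Bern2.blk_PI_of_mul hp hn1
    have h6 : (((n - 1 : ℕ) : ℤ) : ℚ) *
        ((Polynomial.bernoulli (e - 1)).eval ((a.val : ℕ) : ℚ) / p) =
        ((e - 1 : ℕ) : ℚ) * ((Polynomial.bernoulli (n - 1)).eval ((a.val : ℕ) : ℚ) / p) +
        -((((e - 1 : ℕ) : ℚ) * (Polynomial.bernoulli (n - 1)).eval ((a.val : ℕ) : ℚ) -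
          ((n - 1 : ℕ) : ℚ) * (Polynomial.bernoulli (e - 1)).eval ((a.val : ℕ) : ℚ)) / p) := by
      rw [Int.cast_natCast]
      ring
    rw [h6]
    exact PI.add hp (PI.mul hp (PI.nat hp _) h4) (PI.neg hp h5)
  classical
  have hfin := sb_count e D (fun a : ZMod p => (H1.map φ).rootMultiplicity a)
    (fun a : ZMod p => PI p ((Polynomial.bernoulli e).eval ((a.val : ℕ) : ℚ) / p))
    (fun a => by have := hcount a; omega) hsumH (by
      intro a
      have h1 := hcount a
      have h2 := hzero a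
      have h3 := hone a
      split_ifs with h4
      · omega
      · have h5 : ¬ (0 < (H1.map φ).rootMultiplicity a ∧ 0 < (G.map φ).rootMultiplicity a) :=
          fun h => h4 (h2 h.1 h.2)
        omega)
  have hrp := sb_rp p e
  obtain ⟨⟨k, hk⟩, h2⟩ := hfin
  have hcardeq : (Finset.univ.filter fun a : ZMod p =>
      PI p ((Polynomial.bernoulli e).eval ((a.val : ℕ) : ℚ) / p)).card ≤ rp p e := by
    refine le_trans (le_of_eq ?_) hrp
    congr
  refine ⟨⟨k, hk.trans (by exact_mod_cast hcardeq)⟩, fun h => (h2 h).trans hcardeq⟩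

end Pool.Agent.BDN
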