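import Mathlib

/-!
BDN-SD. Counting the parameters for which a polynomial relation holds between zeros of a family of polynomials
(Kronecker products of companion matrices).

PLAN. Let `q_z(u) = u^e + ∑_{i < e} c_i(z) u^i`. Index set `ι = Fin k → Fin e` (`card = e^k`). For `j : Fin k` let
`N j : Matrix ι ι K[X]`, `N j α β =` if `α` and `β` agree outside `j` then `comp (α j) (β j)` else `0`, where
`comp i i' =` (if `i + 1 < e`: `1` when `i' = i + 1`, else `0`; if `i + 1 = e`: `- c_{i'}`).
For `r : Fin k → L` with `q_z(r_j) = 0` for all `j` let `v α = ∏_j r_j^(α j)`. Then `(N j at z) *ᵥ v = r_j • v`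
(if `α j + 1 < e`: `v (α + 1_j)`; if `α j + 1 = e`: `-∑ c_i r_j^i = r_j^e`). For a word `w : List (Fin k)` let
`N w = (w.map N).prod`; then `N w *ᵥ v = (w.map r).prod • v`. Let `M = ∑_{w ∈ W} C (a w) • N w`, then
`M(z) *ᵥ v = (∑_w a_w r^w) • v = 0`, and `v ≠ 0` (its value at `α = 0` is `1`; `e ≥ 1`), so `det M(z) = 0` in `L`, hence in `K`
(`Matrix.exists_mulVec_eq_zero_iff`, the determinant commutes with ring homs `RingHom.map_det`, `algebraMap` injective).
Degree: each entry of `N j` has `natDegree ≤ e`, each entry of a product of `≤ T` such matrices has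
`natDegree ≤ T e` (induction on the word), so `det M` has `natDegree ≤ T e e^k` (`Matrix.det_apply`, sum over
permutations of products; `natDegree_sum_le_of_forall_le`, `natDegree_prod_le`).
`det M ≠ 0`: at `z0` all `c_i(z0) = 0`, so `comp` is the shift; put `s(α) = ∑_j α j`. `(N j)(z0) α β ≠ 0` only if
`s β = s α + 1`; `N w (z0) α β ≠ 0` only if `s β = s α + |w|`. Words `w ≠ []` raise `s`. If `det M(z0) = 0`, there is
`v ≠ 0` in `K` with `M(z0) *ᵥ v = 0`; take `α` with `v α ≠ 0` and `s α` maximal: `0 = (M v)(α) = a_[] v α`: contradiction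
with `a_[] ≠ 0`. So `S =` set of roots of `det M` (`Polynomial.card_roots'`).
-/

namespace Pool.Agent.BDN

open Polynomial Finset

section Kron

variable {R : Type*} [CommRing R] {e k : ℕ}

/-- entries of the companion matrix -/
private def kcmp (c : ℕ → R) (i i' : Fin e) : R :=
  if (i : ℕ) + 1 < e then (if (i' : ℕ) = (i : ℕ) + 1 then 1 else 0) else - c i'

open Classical in
private noncomputable def kN (e : ℕ) (c : ℕ → R) (j : Fin k) :
    Matrix (Fin k → Fin e) (Fin k → Fin e) R :=
  fun α β => if ∀ l, l ≠ j → α l = β l then kcmp c (α j) (β j) else 0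

private noncomputable def kW (e : ℕ) (c : ℕ → R) (w : List (Fin k)) :
    Matrix (Fin k → Fin e) (Fin k → Fin e) R :=
  (w.map (kN e c)).prod

private noncomputable def kM (e : ℕ) (c : ℕ → R) (W : Finset (List (Fin k)))
    (a : List (Fin k) → R) : Matrix (Fin k → Fin e) (Fin k → Fin e) R :=
  ∑ w ∈ W, a w • kW e c w

private theorem kcmp_map {S : Type*} [CommRing S] (f : R →+* S) (c : ℕ → R) (i i' : Fin e) :
    f (kcmp c i i') = kcmp (fun n => f (c n)) i i' := by
  unfold kcmp
  split_ifs <;> simp

private theorem kN_map {S : Type*} [CommRing S] (f : R →+* S) (c : ℕ → R) (j : Fin k) :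
    f.mapMatrix (kN e c j) = kN e (fun n => f (c n)) j := by
  ext α β
  simp only [RingHom.mapMatrix_apply, Matrix.map_apply, kN]
  split_ifs
  · exact kcmp_map f c _ _
  · simp

private theorem kW_map {S : Type*} [CommRing S] (f : R →+* S) (c : ℕ → R) (w : List (Fin k)) :
    f.mapMatrix (kW e c w) = kW e (fun n => f (c n)) w := by
  unfold kW
  rw [map_list_prod, List.map_map]
  congr 1
  apply List.map_congr_left
  intro j _
  exact kN_map f c j

private theorem kM_map {S : Type*} [CommRing S] (f : R →+* S) (c : ℕ → R)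
    (W : Finset (List (Fin k))) (a : List (Fin k) → R) :
    f.mapMatrix (kM e c W a) = kM e (fun n => f (c n)) W (fun w => f (a w)) := by
  unfold kM
  rw [map_sum]
  refine Finset.sum_congr rfl fun w _ => ?_
  rw [← kW_map]
  ext α β
  simp [RingHom.mapMatrix_apply, Matrix.map_apply]

private theorem kN_mulVec (c : ℕ → R) (j : Fin k) (v : (Fin k → Fin e) → R)
    (α : Fin k → Fin e) :
    (kN e c j).mulVec v α = ∑ i : Fin e, kcmp c (α j) i * v (Function.update α j i) := by
  rw [Matrix.mulVec, dotProduct]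
  symm
  refine Fintype.sum_of_injective (fun i : Fin e => Function.update α j i)
    (Function.update_injective α j) _ _ ?_ ?_
  · intro β hβ
    have h1 : ¬ ∀ l, l ≠ j → α l = β l := by
      intro h
      apply hβ
      refine ⟨β j, ?_⟩
      funext l
      by_cases hl : l = j
      · subst hl
        simp
      · simp only
        rw [Function.update_of_ne hl, h l hl]
    simp only [kN]
    rw [if_neg h1, zero_mul]
  · intro i
    have h1 : ∀ l, l ≠ j → α l = Function.update α j i l := by
      intro l hl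
      rw [Function.update_of_ne hl]
    simp only [kN]
    rw [if_pos h1, Function.update_self]

private def kv (r : Fin k → R) (α : Fin k → Fin e) : R := ∏ l, r l ^ (α l : ℕ)

private theorem kv_update (r : Fin k → R) (α : Fin k → Fin e) (j : Fin k) (i : Fin e) :
    kv r (Function.update α j i) = r j ^ (i : ℕ) * ∏ l ∈ univ.erase j, r l ^ (α l : ℕ) := by
  unfold kv
  rw [← Finset.mul_prod_erase univ _ (Finset.mem_univ j), Function.update_self]
  congr 1
  refine Finset.prod_congr rfl fun l hl => ?_
  rw [Function.update_of_ne (Finset.ne_of_mem_erase hl)]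

private theorem kcmp_sum (c : ℕ → R) (x : R) (hx : x ^ e + ∑ i ∈ range e, c i * x ^ i = 0)
    (i : Fin e) : ∑ i' : Fin e, kcmp c i i' * x ^ (i' : ℕ) = x ^ ((i : ℕ) + 1) := by
  by_cases h : (i : ℕ) + 1 < e
  · rw [Finset.sum_eq_single (⟨(i : ℕ) + 1, h⟩ : Fin e)]
    · simp [kcmp, h]
    · intro b _ hb
      have hb' : (b : ℕ) ≠ (i : ℕ) + 1 := fun h' => hb (Fin.ext h')
      simp [kcmp, h, hb']
    · intro h'
      exact absurd (Finset.mem_univ _) h'
  · have he : (i : ℕ) + 1 = e := by
      have := i.isLt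
      omega
    have h1 : ∑ i' : Fin e, kcmp c i i' * x ^ (i' : ℕ) = - ∑ n ∈ range e, c n * x ^ n := by
      rw [← Fin.sum_univ_eq_sum_range (fun n => c n * x ^ n) e, ← Finset.sum_neg_distrib]
      refine Finset.sum_congr rfl fun b _ => ?_
      simp [kcmp, h]
    rw [h1, he]
    linear_combination -hx

private theorem kN_kv (c : ℕ → R) (r : Fin k → R)
    (hr : ∀ j, r j ^ e + ∑ i ∈ range e, c i * r j ^ i = 0) (j : Fin k) :
    (kN e c j).mulVec (kv r) = r j • kv r := by
  funext α
  rw [kN_mulVec]
  have h1 : ∑ i : Fin e, kcmp c (α j) i * kv r (Function.update α j i) =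
      (∑ i : Fin e, kcmp c (α j) i * r j ^ (i : ℕ)) * ∏ l ∈ univ.erase j, r l ^ (α l : ℕ) := by
    rw [Finset.sum_mul]
    refine Finset.sum_congr rfl fun i _ => ?_
    rw [kv_update]
    ring
  have h2 : kv r α = r j ^ (α j : ℕ) * ∏ l ∈ univ.erase j, r l ^ (α l : ℕ) := by
    have := kv_update r α j (α j)
    rwa [Function.update_eq_self] at this
  rw [h1, kcmp_sum c (r j) (hr j), Pi.smul_apply, smul_eq_mul, h2]
  ring

private theorem kW_kv (c : ℕ → R) (r : Fin k → R)
    (hr : ∀ j, r j ^ e + ∑ i ∈ range e, c i * r j ^ i = 0) (w : List (Fin k)) :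
    (kW e c w).mulVec (kv r) = (w.map r).prod • kv r := by
  induction w with
  | nil => simp [kW]
  | cons j w ih =>
    have h1 : kW e c (j :: w) = kN e c j * kW e c w := by
      simp [kW]
    rw [h1, ← Matrix.mulVec_mulVec, ih, Matrix.mulVec_smul, kN_kv c r hr j, smul_smul,
      List.map_cons, List.prod_cons, mul_comm]

private theorem kM_kv (c : ℕ → R) (r : Fin k → R)
    (hr : ∀ j, r j ^ e + ∑ i ∈ range e, c i * r j ^ i = 0) (W : Finset (List (Fin k)))
    (a : List (Fin k) → R) :
    (kM e c W a).mulVec (kv r) = (∑ w ∈ W, a w * (w.map r).prod) • kv r := by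
  unfold kM
  rw [Matrix.sum_mulVec, Finset.sum_smul]
  refine Finset.sum_congr rfl fun w _ => ?_
  rw [Matrix.smul_mulVec, kW_kv c r hr w, smul_smul]

private theorem kv_ne (he : 1 ≤ e) [Nontrivial R] (r : Fin k → R) :
    (kv r : (Fin k → Fin e) → R) ≠ 0 := by
  intro h
  have h1 := congrFun h (fun _ => (⟨0, he⟩ : Fin e))
  simp [kv] at h1

/-- the weight -/
private def ks (α : Fin k → Fin e) : ℕ := ∑ l, (α l : ℕ)

private theorem kN_shift (c : ℕ → R) (hc : ∀ i < e, c i = 0) (j : Fin k)
    (α β : Fin k → Fin e) (h : kN e c j α β ≠ 0) : ks β = ks α + 1 := by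
  simp only [kN] at h
  have h1 : ∀ l, l ≠ j → α l = β l := by
    by_contra h'
    rw [if_neg h'] at h
    exact h rfl
  rw [if_pos h1] at h
  unfold kcmp at h
  have h2 : (α j : ℕ) + 1 < e := by
    by_contra h'
    rw [if_neg h', hc _ (β j).isLt, neg_zero] at h
    exact h rfl
  rw [if_pos h2] at h
  have h3 : (β j : ℕ) = (α j : ℕ) + 1 := by
    by_contra h'
    rw [if_neg h'] at h
    exact h rfl
  unfold ks
  rw [← Finset.add_sum_erase univ _ (Finset.mem_univ j),
    ← Finset.add_sum_erase univ (fun l => (α l : ℕ)) (Finset.mem_univ j), h3]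
  have h4 : ∑ l ∈ univ.erase j, (β l : ℕ) = ∑ l ∈ univ.erase j, (α l : ℕ) :=
    Finset.sum_congr rfl fun l hl => by rw [h1 l (Finset.ne_of_mem_erase hl)]
  rw [h4]
  ring

private theorem kW_shift (c : ℕ → R) (hc : ∀ i < e, c i = 0) (w : List (Fin k)) :
    ∀ α β : Fin k → Fin e, kW e c w α β ≠ 0 → ks β = ks α + w.length := by
  induction w with
  | nil =>
    intro α β h
    have h1 : kW e c ([] : List (Fin k)) α β = (1 : Matrix _ _ R) α β := by simp [kW]
    rw [h1, Matrix.one_apply] at h
    have h2 : α = β := by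
      by_contra h'
      rw [if_neg h'] at h
      exact h rfl
    rw [h2]
    simp
  | cons j w ih =>
    intro α β h
    have h1 : kW e c (j :: w) = kN e c j * kW e c w := by
      simp [kW]
    rw [h1, Matrix.mul_apply] at h
    obtain ⟨γ, _, hγ⟩ := Finset.exists_ne_zero_of_sum_ne_zero h
    have h2 := kN_shift c hc j α γ (left_ne_zero_of_mul hγ)
    have h3 := ih γ β (right_ne_zero_of_mul hγ)
    rw [h3, h2, List.length_cons]
    ring

end Kron

private theorem kM_det_ne {K : Type*} [Field K] {e k : ℕ} (c : ℕ → K) (hc : ∀ i < e, c i = 0)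
    (W : Finset (List (Fin k))) (a : List (Fin k) → K) (h0 : [] ∈ W) (ha0 : a [] ≠ 0) :
    (kM e c W a).det ≠ 0 := by
  classical
  intro h
  obtain ⟨v, hv, hMv⟩ := Matrix.exists_mulVec_eq_zero_iff.2 h
  obtain ⟨α0, hα0⟩ := Function.ne_iff.1 hv
  obtain ⟨α, hα, hmax⟩ := Finset.exists_max_image (univ.filter fun α => v α ≠ 0) ks
    ⟨α0, Finset.mem_filter.2 ⟨Finset.mem_univ _, hα0⟩⟩
  have hvα : v α ≠ 0 := (Finset.mem_filter.1 hα).2
  have h1 : (kM e c W a).mulVec v α = a [] * v α := by
    unfold kM
    rw [Matrix.sum_mulVec, Finset.sum_apply, Finset.sum_eq_single ([] : List (Fin k))]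
    · rw [Matrix.smul_mulVec]
      simp [kW]
    · intro w _ hw
      rw [Matrix.smul_mulVec, Pi.smul_apply, Matrix.mulVec, dotProduct]
      rw [Finset.sum_eq_zero, smul_zero]
      intro β _
      by_cases hβ : kW e c w α β = 0
      · rw [hβ, zero_mul]
      · have h2 := kW_shift c hc w α β hβ
        have h3 : 0 < w.length := List.length_pos_of_ne_nil hw
        have h4 : v β = 0 := by
          by_contra h'
          have := hmax β (Finset.mem_filter.2 ⟨Finset.mem_univ _, h'⟩)
          omega
        rw [h4, mul_zero]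
    · intro h'
      exact absurd h0 h'
  rw [hMv] at h1
  exact mul_ne_zero ha0 hvα h1.symm

private theorem kN_deg {K : Type*} [Field K] {e k : ℕ} (c : ℕ → K[X])
    (hc : ∀ i < e, (c i).natDegree ≤ e) (j : Fin k) (α β : Fin k → Fin e) :
    (kN e c j α β).natDegree ≤ e := by
  simp only [kN, kcmp]
  split_ifs
  · simp
  · simp
  · rw [natDegree_neg]
    exact hc _ (β j).isLt
  · simp

private theorem kW_deg {K : Type*} [Field K] {e k : ℕ} (c : ℕ → K[X])
    (hc : ∀ i < e, (c i).natDegree ≤ e) (w : List (Fin k)) :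
    ∀ α β : Fin k → Fin e, (kW e c w α β).natDegree ≤ w.length * e := by
  induction w with
  | nil =>
    intro α β
    have h1 : kW e c ([] : List (Fin k)) α β = (1 : Matrix _ _ K[X]) α β := by simp [kW]
    rw [h1, Matrix.one_apply]
    split_ifs <;> simp
  | cons j w ih =>
    intro α β
    have h1 : kW e c (j :: w) = kN e c j * kW e c w := by
      simp [kW]
    rw [h1, Matrix.mul_apply]
    refine natDegree_sum_le_of_forall_le _ _ fun γ _ => ?_
    refine natDegree_mul_le.trans ?_
    have h2 := kN_deg c hc j α γ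
    have h3 := ih γ β
    rw [List.length_cons, add_mul, one_mul]
    omega

private theorem kM_deg {K : Type*} [Field K] {e k T : ℕ} (c : ℕ → K[X])
    (hc : ∀ i < e, (c i).natDegree ≤ e) (W : Finset (List (Fin k))) (a : List (Fin k) → K)
    (hW : ∀ w ∈ W, w.length ≤ T) (α β : Fin k → Fin e) :
    (kM e c W (fun w => C (a w)) α β).natDegree ≤ T * e := by
  unfold kM
  rw [Matrix.sum_apply]
  refine natDegree_sum_le_of_forall_le _ _ fun w hw => ?_
  rw [Matrix.smul_apply, smul_eq_mul]
  refine (natDegree_C_mul_le _ _).trans ((kW_deg c hc w α β).trans ?_)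
  exact Nat.mul_le_mul_right _ (hW w hw)

private theorem det_deg {K : Type*} [Field K] {ι : Type*} [Fintype ι] [DecidableEq ι]
    (M : Matrix ι ι K[X]) (d : ℕ) (hM : ∀ i j, (M i j).natDegree ≤ d) :
    M.det.natDegree ≤ d * Fintype.card ι := by
  rw [Matrix.det_apply]
  refine natDegree_sum_le_of_forall_le _ _ fun σ _ => ?_
  refine (natDegree_smul_le _ _).trans ?_
  refine (natDegree_prod_le _ _).trans ?_
  refine (Finset.sum_le_sum fun i _ => hM (σ i) i).trans ?_
  rw [Finset.sum_const, smul_eq_mul, Finset.card_univ, mul_comm]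

theorem kron_count {K L : Type*} [Field K] [Field L] [Algebra K L] (e k T : ℕ) (he : 1 ≤ e)
    (c : ℕ → K[X]) (hc : ∀ i < e, (c i).natDegree ≤ e) (z0 : K) (hz0 : ∀ i < e, (c i).eval z0 = 0)
    (W : Finset (List (Fin k))) (a : List (Fin k) → K) (hW : ∀ w ∈ W, w.length ≤ T)
    (h0 : [] ∈ W) (ha0 : a [] ≠ 0) :
    ∃ S : Finset K, S.card ≤ T * e * e ^ k ∧ ∀ (z : K) (r : Fin k → L),
      (∀ j, r j ^ e + ∑ i ∈ range e, algebraMap K L ((c i).eval z) * r j ^ i = 0) →
      ∑ w ∈ W, algebraMap K L (a w) * (w.map r).prod = 0 → z ∈ S := by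
  classical
  set P : K[X] := (kM e c W (fun w => C (a w))).det with hP
  have hdeg : P.natDegree ≤ T * e * e ^ k := by
    have h1 := det_deg (kM e c W (fun w => C (a w))) (T * e) (kM_deg c hc W a hW)
    rwa [Fintype.card_fun, Fintype.card_fin, Fintype.card_fin] at h1
  have hP0 : P ≠ 0 := by
    intro h
    have h1 : evalRingHom z0 P = (kM e (fun n => (c n).eval z0) W a).det := by
      rw [hP, RingHom.map_det, kM_map]
      simp
    rw [h, map_zero] at h1
    exact kM_det_ne _ hz0 W a h0 ha0 h1.symm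
  refine ⟨P.roots.toFinset, ?_, ?_⟩
  · exact (Multiset.toFinset_card_le _).trans ((card_roots' P).trans hdeg)
  · intro z r hr hrel
    rw [Multiset.mem_toFinset, mem_roots hP0, IsRoot.def]
    have h1 : ((algebraMap K L).comp (evalRingHom z)) P =
        (kM e (fun n => algebraMap K L ((c n).eval z)) W (fun w => algebraMap K L (a w))).det := by
      rw [hP, RingHom.map_det, kM_map]
      simp
    have h2 : (kM e (fun n => algebraMap K L ((c n).eval z)) W
        (fun w => algebraMap K L (a w))).det = 0 := by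
      refine Matrix.exists_mulVec_eq_zero_iff.1 ⟨kv r, kv_ne he r, ?_⟩
      rw [kM_kv _ r hr W, hrel, zero_smul]
    rw [h2] at h1
    have h3 : algebraMap K L (P.eval z) = 0 := h1
    exact (map_eq_zero _).1 h3

end Pool.Agent.BDN
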