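import Mathlib
import Pool.Agent.BDN.Defs

/-!
Power sums over `ZMod p` of a product of three linear forms: the sum of a polynomial of degree
less than `2 (p - 1)` over the prime field is minus its coefficient of index `p - 1`, and this
coefficient does not change under translations.
-/

namespace Pool.Agent.BDN

open Polynomial Finset

private theorem sum_pow_aux (p : ℕ) [Fact p.Prime] {K : Type*} [CommRing K] [Algebra (ZMod p) K]
    (k : ℕ) (hk : k < 2 * (p - 1)) :
    ∑ a : ZMod p, (algebraMap (ZMod p) K a) ^ k = if k = p - 1 then -1 else 0 := by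
  have hp := (Fact.out : p.Prime).two_le
  have h1 : ∑ a : ZMod p, (algebraMap (ZMod p) K a) ^ k =
      algebraMap (ZMod p) K (∑ a : ZMod p, a ^ k) := by
    rw [map_sum]; simp
  have h2 : ∑ a : ZMod p, a ^ k = if k = p - 1 then -1 else 0 := by
    rcases Nat.eq_zero_or_pos k with h0 | h0
    · subst h0
      have : (0 : ℕ) ≠ p - 1 := by omega
      simp [this]
    · have h3 : ∑ a : ZMod p, a ^ k = ∑ a : (ZMod p)ˣ, (a : ZMod p) ^ k := by
        have h4 : ∑ a : (ZMod p)ˣ, (a : ZMod p) ^ k =
            ∑ a ∈ (univ : Finset (ZMod p)).filter (fun a => a ≠ 0), a ^ k := by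
          refine Finset.sum_bij (fun a _ => (a : ZMod p)) ?_ ?_ ?_ ?_
          · intro a _; simp
          · intro a _ b _ h; exact Units.ext h
          · intro b hb
            rw [mem_filter] at hb
            exact ⟨Units.mk0 b hb.2, mem_univ _, rfl⟩
          · intro a _; rfl
        rw [h4, Finset.sum_filter]
        refine Finset.sum_congr rfl fun a _ => ?_
        by_cases ha : a = 0
        · subst ha; simp [h0.ne']
        · simp [ha]
      rw [h3, FiniteField.sum_pow_units, ZMod.card]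
      by_cases hkp : k = p - 1
      · simp [hkp]
      · have : ¬ (p - 1 ∣ k) := by
          rintro ⟨c, hc⟩
          rcases c with _ | _ | c
          · simp at hc; omega
          · simp at hc; exact hkp hc
          · have : 2 * (p - 1) ≤ k := by
              rw [hc, mul_comm]
              exact Nat.mul_le_mul_left _ (by omega)
            omega
        simp [hkp, this]
  rw [h1, h2]
  split_ifs <;> simp

private theorem sum_eval_aux (p : ℕ) [Fact p.Prime] {K : Type*} [CommRing K] [Algebra (ZMod p) K]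
    (Q : K[X]) (hQ : Q.natDegree < 2 * (p - 1)) :
    ∑ a : ZMod p, Q.eval (algebraMap (ZMod p) K a) = - Q.coeff (p - 1) := by
  have hp := (Fact.out : p.Prime).two_le
  have h1 : ∀ a : ZMod p, Q.eval (algebraMap (ZMod p) K a) =
      ∑ k ∈ range (2 * (p - 1)), Q.coeff k * (algebraMap (ZMod p) K a) ^ k := fun a =>
    Polynomial.eval_eq_sum_range' hQ _
  simp_rw [h1]
  rw [Finset.sum_comm]
  have h2 : ∀ k ∈ range (2 * (p - 1)), ∑ a : ZMod p, Q.coeff k * (algebraMap (ZMod p) K a) ^ k =
      if k = p - 1 then - Q.coeff (p - 1) else 0 := by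
    intro k hk
    rw [← Finset.mul_sum, sum_pow_aux p k (mem_range.1 hk)]
    by_cases h : k = p - 1
    · simp [h]
    · simp [h]
  rw [Finset.sum_congr rfl h2, Finset.sum_ite_eq' ]
  have : p - 1 ∈ range (2 * (p - 1)) := by rw [mem_range]; omega
  simp [this]

private theorem cast_choose_aux (p : ℕ) [Fact p.Prime] {K : Type*} [CommRing K]
    [Algebra (ZMod p) K] (k : ℕ) (h1 : p ≤ k) (h2 : k < 2 * (p - 1)) :
    ((k.choose (p - 1) : ℕ) : K) = 0 := by
  have hp := (Fact.out : p.Prime).two_le
  have h3 : k.choose (p - 1) ≡ (k % p).choose ((p - 1) % p) * (k / p).choose ((p - 1) / p)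
      [MOD p] := Choose.choose_modEq_choose_mod_mul_choose_div_nat
  have h4 : (k % p).choose ((p - 1) % p) = 0 := by
    have e1 : (p - 1) % p = p - 1 := Nat.mod_eq_of_lt (by omega)
    have e2 : k % p = k - p := by
      rw [Nat.mod_eq_sub_mod h1, Nat.mod_eq_of_lt (by omega)]
    rw [e1, e2]
    exact Nat.choose_eq_zero_of_lt (by omega)
  rw [h4, zero_mul] at h3
  have h5 : p ∣ k.choose (p - 1) := (Nat.modEq_zero_iff_dvd).1 h3
  have h6 : ((k.choose (p - 1) : ℕ) : ZMod p) = 0 := (ZMod.natCast_eq_zero_iff _ _).2 h5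
  have h7 : ((k.choose (p - 1) : ℕ) : K) = algebraMap (ZMod p) K ((k.choose (p - 1) : ℕ) : ZMod p) := by
    simp
  rw [h7, h6, map_zero]

private theorem taylor_coeff_aux (p : ℕ) [Fact p.Prime] {K : Type*} [CommRing K]
    [Algebra (ZMod p) K] (P : K[X]) (hP : P.natDegree < 2 * (p - 1)) (x : K) :
    (taylor x P).coeff (p - 1) = P.coeff (p - 1) := by
  have hp := (Fact.out : p.Prime).two_le
  rw [taylor_coeff, hasseDeriv_apply]
  rw [Polynomial.sum_over_range' P (by intro n; simp) (2 * (p - 1)) hP]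
  rw [Polynomial.eval_finsetSum]
  rw [Finset.sum_eq_single (p - 1)]
  · simp
  · intro k hk hne
    rw [mem_range] at hk
    rcases lt_or_gt_of_ne hne with h | h
    · simp [Nat.choose_eq_zero_of_lt h]
    · rw [cast_choose_aux p k (by omega) hk]
      simp
  · intro h
    exact absurd (mem_range.2 (by omega)) h

private theorem coeff_aux {K : Type*} [CommRing K] (n0 n1 n2 e q : ℕ)
    (hs : n0 + n1 + n2 = e + q) (y w : K) :
    (X ^ n0 * (X + C y) ^ n1 * (X + C w) ^ n2 : K[X]).coeff q =
      ∑ i ∈ range (e + 1), ((n1.choose i : ℕ) : K) * ((n2.choose (e - i) : ℕ) : K) * y ^ i *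
        w ^ (e - i) := by
  have h1 : ∀ (n : ℕ) (u : K), (X + C u : K[X]) ^ n =
      ∑ i ∈ range (n + 1), C (((n.choose i : ℕ) : K) * u ^ i) * X ^ (n - i) := by
    intro n u
    rw [add_comm, add_pow]
    refine Finset.sum_congr rfl fun i _ => ?_
    rw [C_mul, C_pow, ← C_eq_natCast]
    ring
  rw [h1 n1 y, Finset.mul_sum, h1 n2 w, Finset.sum_mul_sum, ← Finset.sum_product',
    finsetSum_coeff]
  set f : ℕ × ℕ → K := fun t => ((n1.choose t.1 : ℕ) : K) * ((n2.choose t.2 : ℕ) : K) * y ^ t.1 *
    w ^ t.2 with hf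
  have h2 : ∀ t ∈ range (n1 + 1) ×ˢ range (n2 + 1),
      (X ^ n0 * (C (((n1.choose t.1 : ℕ) : K) * y ^ t.1) * X ^ (n1 - t.1)) *
        (C (((n2.choose t.2 : ℕ) : K) * w ^ t.2) * X ^ (n2 - t.2)) : K[X]).coeff q =
      if t.1 + t.2 = e then f t else 0 := by
    intro t ht
    rw [mem_product, mem_range, mem_range] at ht
    have e1 : (X ^ n0 * (C (((n1.choose t.1 : ℕ) : K) * y ^ t.1) * X ^ (n1 - t.1)) *
        (C (((n2.choose t.2 : ℕ) : K) * w ^ t.2) * X ^ (n2 - t.2)) : K[X]) =
        C (f t) * X ^ (n0 + (n1 - t.1) + (n2 - t.2)) := by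
      rw [hf]
      simp only [C_mul, pow_add]
      ring
    rw [e1, coeff_C_mul_X_pow]
    have e2 : (q = n0 + (n1 - t.1) + (n2 - t.2)) ↔ (t.1 + t.2 = e) := by omega
    simp only [e2]
  rw [Finset.sum_congr rfl h2, ← Finset.sum_filter]
  rw [← Finset.Nat.sum_antidiagonal_eq_sum_range_succ
    (fun i j => ((n1.choose i : ℕ) : K) * ((n2.choose j : ℕ) : K) * y ^ i * w ^ j) e]
  refine Finset.sum_subset ?_ ?_
  · intro t ht
    rw [mem_filter] at ht
    exact HasAntidiagonal.mem_antidiagonal.2 ht.2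
  · intro t ht hnt
    rw [HasAntidiagonal.mem_antidiagonal] at ht
    have : n1 < t.1 ∨ n2 < t.2 := by
      by_contra hcon
      rw [not_or, not_lt, not_lt] at hcon
      apply hnt
      rw [mem_filter, mem_product, mem_range, mem_range]
      exact ⟨⟨by omega, by omega⟩, ht⟩
    rcases this with h | h
    · simp [hf, Nat.choose_eq_zero_of_lt h]
    · simp [hf, Nat.choose_eq_zero_of_lt h]

theorem sum_formula (p : ℕ) [Fact p.Prime] {K : Type*} [CommRing K] [Algebra (ZMod p) K]
    (n0 n1 n2 e : ℕ) (he : e + 1 < p) (hs : n0 + n1 + n2 = e + (p - 1)) (x y z : K) :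
    ∑ a : ZMod p, (x + algebraMap (ZMod p) K a) ^ n0 * (x + y + algebraMap (ZMod p) K a) ^ n1 *
        (x + y + z + algebraMap (ZMod p) K a) ^ n2 =
      - ∑ i ∈ range (e + 1), ((n1.choose i : ℕ) : K) * ((n2.choose (e - i) : ℕ) : K) * y ^ i *
        (y + z) ^ (e - i) := by
  have hp := (Fact.out : p.Prime).two_le
  set P : K[X] := X ^ n0 * (X + C y) ^ n1 * (X + C (y + z)) ^ n2 with hPdef
  have hP : P.natDegree < 2 * (p - 1) := by
    have a1 : ∀ (n : ℕ) (u : K), ((X + C u : K[X]) ^ n).natDegree ≤ n := fun n u => by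
      calc ((X + C u : K[X]) ^ n).natDegree ≤ n * (X + C u : K[X]).natDegree := natDegree_pow_le
        _ ≤ n * 1 := Nat.mul_le_mul_left _ (by
            refine (natDegree_add_le _ _).trans ?_
            simp [natDegree_X_le])
        _ = n := mul_one n
    have a2 : ((X : K[X]) ^ n0).natDegree ≤ n0 := by
      calc ((X : K[X]) ^ n0).natDegree ≤ n0 * (X : K[X]).natDegree := natDegree_pow_le
        _ ≤ n0 * 1 := Nat.mul_le_mul_left _ natDegree_X_le
        _ = n0 := mul_one n0
    have a3 : P.natDegree ≤ n0 + n1 + n2 := by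
      rw [hPdef]
      refine (natDegree_mul_le).trans (add_le_add ((natDegree_mul_le).trans (add_le_add a2 (a1 _ _))) (a1 _ _))
    omega
  have hT : (taylor x P).natDegree < 2 * (p - 1) := by
    rw [natDegree_taylor]; exact hP
  have h1 := sum_eval_aux p (taylor x P) hT
  rw [taylor_coeff_aux p P hP x, hPdef, coeff_aux n0 n1 n2 e (p - 1) hs] at h1
  rw [← h1]
  refine Finset.sum_congr rfl fun a _ => ?_
  rw [taylor_eval]
  simp only [eval_mul, eval_pow, eval_add, eval_X, eval_C]
  ring

end Pool.Agent.BDN
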