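import Mathlib
import Pool.Agent.BDN.SC

/-!
BDN-SE. An irreducible factor of `SS p n` of degree between `2` and `p - 1` gives a relation between zeros of
`Q(1 + u) = ∑_i C(n1,i) C(n2,e-i) (1 + u)^(e-i)`.
-/

namespace Pool.Agent.BDN

open Polynomial Finset

section

variable {p : ℕ} [Fact p.Prime] {L : Type*} [Field L] [CharP L p]

omit [CharP L p] in
/-- `α ^ (p ^ d) = α` for a root of an irreducible polynomial of degree `d` -/
private theorem se_root [Algebra (ZMod p) L] {h : (ZMod p)[X]} (hirr : Irreducible h) {α : L}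
    (hα : aeval α h = 0) : α ^ (p ^ h.natDegree) = α := by
  have := Fact.mk hirr
  have hfin : Module.Finite (ZMod p) (AdjoinRoot h) :=
    (AdjoinRoot.powerBasis hirr.ne_zero).finite
  have hF : Finite (AdjoinRoot h) := Module.finite_of_finite (ZMod p)
  let _ := Fintype.ofFinite (AdjoinRoot h)
  have hcard : Fintype.card (AdjoinRoot h) = p ^ h.natDegree := by
    rw [Module.card_eq_pow_finrank (K := ZMod p) (V := AdjoinRoot h), ZMod.card,
      (AdjoinRoot.powerBasis hirr.ne_zero).finrank, AdjoinRoot.powerBasis_dim]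
  have h1 : (AdjoinRoot.root h) ^ (p ^ h.natDegree) = AdjoinRoot.root h := by
    rw [← hcard]
    exact FiniteField.pow_card _
  have hα' : h.eval₂ (algebraMap (ZMod p) L) α = 0 := hα
  have h2 := congrArg (AdjoinRoot.lift (algebraMap (ZMod p) L) α hα') h1
  rw [map_pow, AdjoinRoot.lift_root] at h2
  exact h2

/-- `α ^ p = α` only for the elements of the prime field -/
private theorem se_fix [Algebra (ZMod p) L] {α : L} (h : α ^ p = α) :
    ∃ a : ZMod p, algebraMap (ZMod p) L a = α := by
  have h1 : α ∈ (⊥ : Subfield L) := (Subfield.mem_bot_iff_pow_eq_self L p).2 h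
  rw [← ZMod.fieldRange_castHom_eq_bot p] at h1
  obtain ⟨a, ha⟩ := h1
  refine ⟨a, ?_⟩
  rw [← ha]
  congr 1
  exact Subsingleton.elim _ _

private theorem se_ne [Algebra (ZMod p) L] {h : (ZMod p)[X]} (hirr : Irreducible h)
    (hd : 2 ≤ h.natDegree) {α : L} (hα : aeval α h = 0) : α ^ p ≠ α := by
  intro h1
  obtain ⟨a, rfl⟩ := se_fix h1
  rw [aeval_algebraMap_apply, map_eq_zero_iff _ (algebraMap (ZMod p) L).injective] at hα
  have h2 : h.IsRoot a := by
    rw [IsRoot.def]
    rw [coe_aeval_eq_eval] at hα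
    exact hα
  have h3 := degree_eq_one_of_irreducible_of_root hirr h2
  have h4 : h.natDegree = 1 := natDegree_eq_of_degree_eq_some h3
  omega

end

section

variable {L : Type*} [Field L]

/-- the periodic sum -/
private theorem se_per (u : ℕ → L) (k m : ℕ) (hu : ∀ i, u (i + k) = u i) :
    ∑ j ∈ range (k * m), ∏ i ∈ range j, u i =
      (∑ j ∈ range k, ∏ i ∈ range j, u i) * ∑ l ∈ range m, (∏ i ∈ range k, u i) ^ l := by
  have hu2 : ∀ l i, u (k * l + i) = u i := by
    intro l
    induction l with
    | zero => intro i; simp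
    | succ l ih =>
      intro i
      rw [show k * (l + 1) + i = (k * l + i) + k by ring, hu, ih]
  have h1 : ∀ l j, ∏ i ∈ range (k * l + j), u i =
      (∏ i ∈ range k, u i) ^ l * ∏ i ∈ range j, u i := by
    intro l
    induction l with
    | zero => intro j; simp
    | succ l ih =>
      intro j
      rw [show k * (l + 1) + j = k * l + (k + j) by ring, ih, prod_range_add, pow_succ]
      have h2 : ∏ i ∈ range j, u (k + i) = ∏ i ∈ range j, u i := by
        refine prod_congr rfl fun i _ => ?_
        rw [add_comm, hu]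
      rw [h2]
      ring
  induction m with
  | zero => simp
  | succ m ih =>
    rw [show k * (m + 1) = k * m + k by ring, sum_range_add, ih, sum_range_succ _ m, mul_add]
    congr 1
    rw [sum_mul]
    refine sum_congr rfl fun j _ => ?_
    rw [h1 m j, mul_comm]

private theorem se_fin (k : ℕ) (g : ℕ → L) (j : Fin k) :
    ∏ i ∈ Finset.univ.filter (fun i : Fin k => i < j), g i = ∏ i ∈ range (j : ℕ), g i := by
  have h1 : (Finset.univ.filter (fun i : Fin k => i < j)).map Fin.valEmbedding =
      range (j : ℕ) := by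
    ext x
    simp only [mem_map, mem_filter, mem_univ, true_and, Fin.valEmbedding_apply, mem_range]
    constructor
    · rintro ⟨a, ha, rfl⟩
      exact ha
    · intro hx
      exact ⟨⟨x, hx.trans j.isLt⟩, hx, rfl⟩
  rw [← h1, prod_map]
  rfl

end

theorem rel_of_factor (p e n0 n1 n2 : ℕ) [Fact p.Prime] (he : 1 ≤ e) (hep : e + 1 < p)
    (hn2 : e ≤ n2) (hn2p : n2 < p) (hs : n0 + n1 + n2 = e + (p - 1)) (h : (ZMod p)[X])
    (hirr : Irreducible h) (hdvd : h ∣ SS p (n0 + n1 * p + n2 * p ^ 2)) (hd2 : 2 ≤ h.natDegree)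
    (hdp : h.natDegree < p) :
    ∃ k : ℕ, 1 ≤ k ∧ k ≤ e ∧ ∃ r : Fin k → AlgebraicClosure (ZMod p),
      (∀ j, ∑ i ∈ range (e + 1), ((n1.choose i : ℕ) : AlgebraicClosure (ZMod p)) *
        ((n2.choose (e - i) : ℕ) : AlgebraicClosure (ZMod p)) * (1 + r j) ^ (e - i) = 0) ∧
      (∑ j : Fin k, ∏ i ∈ Finset.univ.filter (fun i : Fin k => i < j), r i = 0 ∨
        ∃ m : ℕ, 1 ≤ m ∧ m ≤ h.natDegree ∧ (∏ j : Fin k, r j) ^ m = 1) := by
  have hp : p.Prime := Fact.out
  have hp0 : 0 < p := hp.pos
  set L := AlgebraicClosure (ZMod p) with hL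
  set d := h.natDegree with hd
  obtain ⟨α, hα⟩ := IsAlgClosed.exists_aeval_eq_zero L h (by
    rw [degree_eq_natDegree hirr.ne_zero]
    intro h0
    have h1 : h.natDegree = 0 := by exact_mod_cast h0
    omega)
  have hαd : α ^ (p ^ d) = α := se_root hirr hα
  have hαp : α ^ p ≠ α := se_ne hirr hd2 hα
  set y : L := α ^ p - α with hy
  have hy0 : y ≠ 0 := sub_ne_zero.2 hαp
  set u : L := y ^ (p - 1) with hu
  -- the powers of Frobenius
  have hyi : ∀ i : ℕ, y ^ (p ^ i) = α ^ (p ^ (i + 1)) - α ^ (p ^ i) := by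
    intro i
    have h1 := map_sub (iterateFrobenius L p i) (α ^ p) α
    rw [iterateFrobenius_def, iterateFrobenius_def, iterateFrobenius_def, ← pow_mul] at h1
    rw [hy, h1, pow_succ, mul_comm p]
  have hyd : y ^ (p ^ d) = y := by
    rw [hyi, pow_succ, pow_mul, hαd, hy]
  -- step 1
  have hQ0 : ∑ i ∈ range (e + 1), ((n1.choose i : ℕ) : L) * ((n2.choose (e - i) : ℕ) : L) *
      (1 + u) ^ (e - i) = 0 := by
    have h1 : aeval α (SS p (n0 + n1 * p + n2 * p ^ 2)) = 0 := by
      obtain ⟨q, hq⟩ := hdvd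
      rw [hq, map_mul, hα, zero_mul]
    have h2 : aeval α (SS p (n0 + n1 * p + n2 * p ^ 2)) =
        ∑ a : ZMod p, (α + algebraMap (ZMod p) L a) ^ n0 *
          (α + y + algebraMap (ZMod p) L a) ^ n1 *
          (α + y + y ^ p + algebraMap (ZMod p) L a) ^ n2 := by
      unfold SS
      rw [map_sum]
      refine sum_congr rfl fun a _ => ?_
      rw [map_pow, map_add, aeval_X, aeval_C]
      have hap : (algebraMap (ZMod p) L a) ^ p = algebraMap (ZMod p) L a := by
        rw [← map_pow, ZMod.pow_card]
      have e1 : (α + algebraMap (ZMod p) L a) ^ p = α + y + algebraMap (ZMod p) L a := by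
        rw [add_pow_char, hap, hy]
        ring
      have e2 : (α + y + algebraMap (ZMod p) L a) ^ p =
          α + y + y ^ p + algebraMap (ZMod p) L a := by
        rw [add_pow_char, add_pow_char, hap]
        have e3 : α ^ p = α + y := by
          rw [hy]
          ring
        rw [e3]
      rw [pow_add, pow_add, mul_comm n1 p, pow_mul, e1, mul_comm n2 (p ^ 2), pow_mul, sq, pow_mul,
        e1, e2]
    rw [h2, sum_formula p n0 n1 n2 e hep hs α y (y ^ p), neg_eq_zero] at h1
    have h3 : ∀ i ∈ range (e + 1), ((n1.choose i : ℕ) : L) * ((n2.choose (e - i) : ℕ) : L) *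
        y ^ i * (y + y ^ p) ^ (e - i) =
        (((n1.choose i : ℕ) : L) * ((n2.choose (e - i) : ℕ) : L) * (1 + u) ^ (e - i)) * y ^ e := by
      intro i hi
      have hie : i ≤ e := Nat.lt_succ_iff.1 (mem_range.1 hi)
      have e1 : y + y ^ p = y * (1 + u) := by
        rw [hu, mul_add, mul_one, ← pow_succ', Nat.sub_add_cancel hp0]
      have e2 : y ^ e = y ^ i * y ^ (e - i) := by
        rw [← pow_add, Nat.add_sub_cancel' hie]
      rw [e1, mul_pow, e2]
      ring
    rw [sum_congr rfl h3, ← sum_mul] at h1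
    exact (mul_eq_zero.1 h1).resolve_right (pow_ne_zero _ hy0)
  set U : ℕ → L := fun i => u ^ (p ^ i) with hU
  have hQ : ∀ j : ℕ, ∑ i ∈ range (e + 1), ((n1.choose i : ℕ) : L) *
      ((n2.choose (e - i) : ℕ) : L) * (1 + U j) ^ (e - i) = 0 := by
    intro j
    have h1 := congrArg (iterateFrobenius L p j) hQ0
    rw [map_zero, map_sum] at h1
    rw [← h1]
    refine sum_congr rfl fun i _ => ?_
    rw [map_mul, map_mul, map_pow, map_add, map_one, map_natCast, map_natCast,
      iterateFrobenius_def]
  -- the period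
  have hUit : ∀ i, (frobenius L p)^[i] u = U i := by
    intro i
    rw [← coe_iterateFrobenius, iterateFrobenius_def]
  have hper : Function.IsPeriodicPt (frobenius L p) d u := by
    change (frobenius L p)^[d] u = u
    rw [hUit, hU]
    change u ^ (p ^ d) = u
    rw [hu, ← pow_mul, mul_comm, pow_mul, hyd]
  have hd0 : 0 < d := by omega
  set k := Function.minimalPeriod (frobenius L p) u with hk
  have hk1 : 0 < k := hper.minimalPeriod_pos hd0
  have hkd : k ∣ d := hper.minimalPeriod_dvd
  have hUk : ∀ i, U (i + k) = U i := by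
    intro i
    rw [← hUit, Function.iterate_add_apply, Function.iterate_minimalPeriod, hUit]
  have hinj : ∀ i j, i < k → j < k → U i = U j → i = j := by
    intro i j hi hj hij
    rw [← hUit, ← hUit] at hij
    exact Function.iterate_injOn_Iio_minimalPeriod (f := frobenius L p) (x := u) hi hj hij
  -- step 2
  have hke : k ≤ e := by
    set QP : L[X] := ∑ i ∈ range (e + 1), C (((n1.choose i : ℕ) : L) *
      ((n2.choose (e - i) : ℕ) : L)) * X ^ (e - i) with hQP
    have hcoef : QP.coeff e = ((n2.choose e : ℕ) : L) := by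
      rw [hQP, finsetSum_coeff, sum_eq_single 0]
      · simp
      · intro i hi hi0
        have hie : i ≤ e := Nat.lt_succ_iff.1 (mem_range.1 hi)
        rw [coeff_C_mul_X_pow, if_neg]
        omega
      · intro h0
        exact absurd (mem_range.2 (Nat.succ_pos e)) h0
    have hne : ((n2.choose e : ℕ) : L) ≠ 0 := by
      rw [Ne, CharP.cast_eq_zero_iff L p]
      intro h0
      have h1 : p ∣ n2.factorial := by
        rw [← Nat.choose_mul_factorial_mul_factorial hn2, mul_assoc]
        exact Dvd.dvd.mul_right h0 _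
      have h2 := (Nat.Prime.dvd_factorial hp).1 h1
      omega
    have hQP0 : QP ≠ 0 := by
      intro h0
      rw [h0, coeff_zero] at hcoef
      exact hne hcoef.symm
    have hdeg : QP.natDegree ≤ e := by
      rw [hQP]
      apply natDegree_sum_le_of_forall_le
      intro i _
      exact (natDegree_C_mul_X_pow_le _ _).trans (Nat.sub_le _ _)
    have hev : ∀ x : L, QP.eval x = ∑ i ∈ range (e + 1), ((n1.choose i : ℕ) : L) *
        ((n2.choose (e - i) : ℕ) : L) * x ^ (e - i) := by
      intro x
      rw [hQP, eval_finsetSum]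
      refine sum_congr rfl fun i _ => ?_
      rw [eval_mul, eval_C, eval_pow, eval_X]
    classical
    have hZ : ((range k).image fun i => 1 + U i).val ⊆ QP.roots := by
      intro x hx
      rw [mem_val, mem_image] at hx
      obtain ⟨i, _, rfl⟩ := hx
      rw [mem_roots hQP0, IsRoot.def, hev]
      exact hQ i
    have h1 := (card_le_degree_of_subset_roots hZ).trans hdeg
    rw [card_image_of_injOn, card_range] at h1
    · exact h1
    · intro i hi j hj hij
      rw [coe_range, Set.mem_Iio] at hi hj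
      exact hinj i j hi hj (add_left_cancel hij)
  -- step 3
  have hprod : ∀ j, y * ∏ i ∈ range j, U i = y ^ (p ^ j) := by
    intro j
    induction j with
    | zero => simp
    | succ j ih =>
      rw [prod_range_succ, ← mul_assoc, ih, hU]
      change y ^ (p ^ j) * u ^ (p ^ j) = _
      rw [hu, ← mul_pow, ← pow_succ', Nat.sub_add_cancel hp0, ← pow_mul, pow_succ, mul_comm p]
  have hsum : ∑ j ∈ range d, ∏ i ∈ range j, U i = 0 := by
    have h1 : y * ∑ j ∈ range d, ∏ i ∈ range j, U i = 0 := by
      rw [mul_sum, sum_congr rfl fun j _ => hprod j, sum_congr rfl fun j _ => hyi j,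
        sum_range_sub (fun j => α ^ (p ^ j)), hαd, pow_zero, pow_one, sub_self]
    exact (mul_eq_zero.1 h1).resolve_left hy0
  obtain ⟨m, hm⟩ := hkd
  have hm0 : 1 ≤ m := by
    rcases Nat.eq_zero_or_pos m with h0 | h0
    · rw [h0, mul_zero] at hm
      omega
    · exact h0
  have hmd : m ≤ d := by
    rw [hm]
    exact Nat.le_mul_of_pos_left m hk1
  rw [hm, se_per U k m hUk] at hsum
  refine ⟨k, hk1, hke, fun j => U j, fun j => hQ j, ?_⟩
  rcases mul_eq_zero.1 hsum with h1 | h1
  · left
    rw [← h1, ← Fin.sum_univ_eq_sum_range (fun j => ∏ i ∈ range j, U i) k]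
    refine sum_congr rfl fun j _ => ?_
    exact se_fin k U j
  · right
    refine ⟨m, hm0, hmd, ?_⟩
    rw [Fin.prod_univ_eq_prod_range U k]
    have h2 := geom_sum_mul (∏ i ∈ range k, U i) m
    rw [h1, zero_mul] at h2
    exact (sub_eq_zero.1 h2.symm)

end Pool.Agent.BDN
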