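import Mathlib
import Pool.Agent.BDN.SD
import Pool.Agent.BDN.SE

/-!
BDN-SF. For given third digit `n2` few second digits `n1` are bad.

PLAN. `rel_of_factor` + `kron_count` with `K = ZMod p`, `L = AlgebraicClosure (ZMod p)`.
1. The polynomial `chp i ∈ (ZMod p)[X]` of degree `i` with `chp i (n1) = C(n1, i)` in `ZMod p` for all `n1 : ℕ`, `i ≤ e < p`:
   `chp i = C (i! )⁻¹ * descPochhammer (ZMod p) i` (`descPochhammer_eval_eq_descFactorial`,
   `Nat.descFactorial_eq_factorial_mul_choose`, `i! ≠ 0` in `ZMod p`; `natDegree ≤ i`).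
2. `Q_z(1 + u) = ∑_{i ≤ e} C(z,i) C(n2,e-i) (1+u)^(e-i) = C(n2,e) (u^e + ∑_{l<e} c_l(z) u^l)` with
   `c_l = C (C(n2,e))⁻¹ * ∑_{i ≤ e} chp i * C (C(n2,e-i) C(e-i, l))` for `l < e` (the coefficient of `u^e` comes from `i = 0`
   only; `C(n2,e) ≠ 0` in `ZMod p` because `e ≤ n2 < p`); `natDegree (c_l) ≤ e`.
3. `z0 = e - 1 - n2` in `ZMod p`: `c_l(z0) = 0` for all `l < e`. Indeed `chp i (z0) = (-1)^i C(n2 - e + i, i)` (as
   `descPochhammer i` at `-(m+1)`, `m = n2 - e`, is `(-1)^i (m+1)...(m+i)`) and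
   `C(n2,e-i) C(n2-e+i,i) = C(n2,e) C(e,i)` (`Nat.choose_mul` and symmetry), so
   `Q_z0(1+u) = C(n2,e) ∑_i (-1)^i C(e,i) (1+u)^(e-i) = C(n2,e) u^e`.
4. Relations. For `1 ≤ k ≤ e`: words `w_j = [0, 1, ..., j-1]` (`j < k`; as lists of `Fin k`), all coefficients `1`,
   lengths `≤ k`, gives `∑_{j<k} ∏_{i<j} r_i`; bound `k e e^k`. For `1 ≤ k ≤ e`, `1 ≤ m ≤ F`: the words `[]`
   (coefficient `-1`) and `(List.finRange k)` repeated `m` times (coefficient `1`, length `k m`), gives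
   `(∏ r_j)^m - 1`; bound `k m e e^k`.
5. All bad `n1` (mod `p`, injective on `range p`) lie in the union of these sets: total
   `≤ ∑_{k ≤ e} k e e^k + ∑_{k ≤ e, m ≤ F} k m e e^k ≤ e * e^2 * e^e + e * F * F * e^2 * e^e ≤ 2 F^2 e^(e+3) ≤ F^2 e^(e+4)`.
   (`¬ Out p n F` gives an irreducible `h ∣ SS p n` with `2 ≤ natDegree h ≤ F < p`.)
-/

namespace Pool.Agent.BDN

open Polynomial Finset

private noncomputable def chp (p i : ℕ) [Fact p.Prime] : (ZMod p)[X] :=
  C ((i.factorial : ZMod p)⁻¹) * descPochhammer (ZMod p) i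

private theorem fact_ne (p i : ℕ) [Fact p.Prime] (h : i < p) : (i.factorial : ZMod p) ≠ 0 := by
  intro h1
  rw [ZMod.natCast_eq_zero_iff] at h1
  have h2 := ((Fact.out : p.Prime).dvd_factorial).1 h1
  omega

private theorem choose_ne (p n e : ℕ) [Fact p.Prime] (h : n < p) (he : e ≤ n) :
    ((n.choose e : ℕ) : ZMod p) ≠ 0 := by
  intro h1
  rw [ZMod.natCast_eq_zero_iff] at h1
  have h2 : p ∣ n.factorial := by
    rw [← Nat.choose_mul_factorial_mul_factorial he, mul_assoc]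
    exact Dvd.dvd.mul_right h1 _
  have h3 := ((Fact.out : p.Prime).dvd_factorial).1 h2
  omega

private theorem chp_nat (p i : ℕ) [Fact p.Prime] (h : i < p) (n : ℕ) :
    (chp p i).eval (n : ZMod p) = ((n.choose i : ℕ) : ZMod p) := by
  rw [chp, eval_mul, eval_C, descPochhammer_eval_eq_descFactorial,
    Nat.descFactorial_eq_factorial_mul_choose, Nat.cast_mul, ← mul_assoc,
    inv_mul_cancel₀ (fact_ne p i h), one_mul]

private theorem chp_neg (p i : ℕ) [Fact p.Prime] (h : i < p) (m : ℕ) :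
    (chp p i).eval (-((m : ZMod p) + 1)) = (-1) ^ i * (((m + i).choose i : ℕ) : ZMod p) := by
  have h1 : ∏ j ∈ range i, (-((m : ZMod p) + 1) - (j : ZMod p)) =
      (-1) ^ i * (((m + 1).ascFactorial i : ℕ) : ZMod p) := by
    rw [Nat.ascFactorial_eq_prod_range, Nat.cast_prod]
    have h2 : ((-1 : ZMod p)) ^ i = ∏ _j ∈ range i, (-1 : ZMod p) := by
      rw [Finset.prod_const, Finset.card_range]
    rw [h2, ← Finset.prod_mul_distrib]
    refine Finset.prod_congr rfl fun j _ => ?_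
    push_cast
    ring
  rw [chp, eval_mul, eval_C, descPochhammer_eval_eq_prod_range, h1,
    Nat.ascFactorial_eq_factorial_mul_choose, Nat.cast_mul]
  have h3 := fact_ne p i h
  field_simp

private theorem chp_deg (p i : ℕ) [Fact p.Prime] : (chp p i).natDegree ≤ i := by
  rw [chp]
  refine (natDegree_C_mul_le _ _).trans ?_
  rw [descPochhammer_natDegree]

private noncomputable def cc (p e n2 l : ℕ) [Fact p.Prime] : (ZMod p)[X] :=
  C (((n2.choose e : ℕ) : ZMod p)⁻¹) *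
    ∑ i ∈ range (e + 1), chp p i * C (((n2.choose (e - i) : ℕ) : ZMod p) *
      (((e - i).choose l : ℕ) : ZMod p))

private theorem cc_deg (p e n2 l : ℕ) [Fact p.Prime] : (cc p e n2 l).natDegree ≤ e := by
  rw [cc]
  refine (natDegree_C_mul_le _ _).trans ?_
  refine natDegree_sum_le_of_forall_le _ _ fun i hi => ?_
  refine (natDegree_mul_C_le _ _).trans ((chp_deg p i).trans ?_)
  rw [mem_range] at hi
  omega

private theorem alt_sum (p e l : ℕ) [Fact p.Prime] (hl : l < e) :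
    ∑ i ∈ range (e + 1), (-1 : ZMod p) ^ i * ((e.choose i : ℕ) : ZMod p) *
      (((e - i).choose l : ℕ) : ZMod p) = 0 := by
  have h1 : ((-1 : (ZMod p)[X]) + (X + 1)) ^ e = X ^ e := by
    congr 1
    ring
  rw [add_pow] at h1
  have h2 := congrArg (fun q => Polynomial.coeff q l) h1
  simp only [finsetSum_coeff] at h2
  rw [coeff_X_pow, if_neg hl.ne] at h2
  rw [← h2]
  refine Finset.sum_congr rfl fun i _ => ?_
  have h3 : ((-1 : (ZMod p)[X]) ^ i * (X + 1) ^ (e - i) * ((e.choose i : ℕ) : (ZMod p)[X])) =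
      C ((-1) ^ i * ((e.choose i : ℕ) : ZMod p)) * (X + 1) ^ (e - i) := by
    rw [C_mul, C_pow, C_neg, C_1, C_eq_natCast]
    ring
  rw [h3, coeff_C_mul, coeff_X_add_one_pow]

private theorem cc_zero (p e n2 l : ℕ) [Fact p.Prime] (hep : e + 1 < p) (hn2 : e ≤ n2)
    (hl : l < e) : (cc p e n2 l).eval (-(((n2 - e : ℕ) : ZMod p) + 1)) = 0 := by
  rw [cc, eval_mul, eval_finsetSum]
  have h1 : ∀ i ∈ range (e + 1), (chp p i * C (((n2.choose (e - i) : ℕ) : ZMod p) *
      (((e - i).choose l : ℕ) : ZMod p))).eval (-(((n2 - e : ℕ) : ZMod p) + 1)) =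
      ((n2.choose e : ℕ) : ZMod p) * ((-1 : ZMod p) ^ i * ((e.choose i : ℕ) : ZMod p) *
      (((e - i).choose l : ℕ) : ZMod p)) := by
    intro i hi
    rw [mem_range] at hi
    rw [eval_mul, eval_C, chp_neg p i (by omega)]
    have h2 := Nat.choose_mul (n := n2) (k := e) (s := e - i) (by omega)
    have h3 : n2 - (e - i) = n2 - e + i := by omega
    have h4 : e - (e - i) = i := by omega
    rw [h3, h4, Nat.choose_symm (by omega)] at h2
    have h5 : ((n2.choose e : ℕ) : ZMod p) * ((e.choose i : ℕ) : ZMod p) =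
        ((n2.choose (e - i) : ℕ) : ZMod p) * (((n2 - e + i).choose i : ℕ) : ZMod p) := by
      exact_mod_cast congrArg (Nat.cast : ℕ → ZMod p) h2
    linear_combination (-(-1 : ZMod p) ^ i * (((e - i).choose l : ℕ) : ZMod p)) * h5
  rw [Finset.sum_congr rfl h1, ← Finset.mul_sum, alt_sum p e l hl, mul_zero, mul_zero]

private theorem cc_rel (p e n1 n2 : ℕ) [Fact p.Prime] (hep : e + 1 < p) (hn2 : e ≤ n2)
    (hn2p : n2 < p) {L : Type*} [Field L] [Algebra (ZMod p) L] (x : L)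
    (hx : ∑ i ∈ range (e + 1), ((n1.choose i : ℕ) : L) * ((n2.choose (e - i) : ℕ) : L) *
      (1 + x) ^ (e - i) = 0) :
    x ^ e + ∑ l ∈ range e, algebraMap (ZMod p) L ((cc p e n2 l).eval (n1 : ZMod p)) * x ^ l =
      0 := by
  have hc : ((n2.choose e : ℕ) : L) ≠ 0 := by
    intro h
    apply choose_ne p n2 e hn2p hn2
    apply (algebraMap (ZMod p) L).injective
    rw [map_natCast, map_zero, h]
  have h1 : ∀ l, algebraMap (ZMod p) L ((cc p e n2 l).eval (n1 : ZMod p)) =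
      ((n2.choose e : ℕ) : L)⁻¹ * ∑ i ∈ range (e + 1), ((n1.choose i : ℕ) : L) *
        ((n2.choose (e - i) : ℕ) : L) * (((e - i).choose l : ℕ) : L) := by
    intro l
    rw [cc, eval_mul, eval_finsetSum, eval_C, map_mul, map_inv₀, map_natCast, map_sum]
    congr 1
    refine Finset.sum_congr rfl fun i hi => ?_
    rw [mem_range] at hi
    rw [eval_mul, eval_C, chp_nat p i (by omega)]
    simp only [map_mul, map_natCast]
    ring
  have h2 : ∀ i ∈ range (e + 1), ((n1.choose i : ℕ) : L) * ((n2.choose (e - i) : ℕ) : L) *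
      (1 + x) ^ (e - i) = ∑ l ∈ range (e + 1), ((n1.choose i : ℕ) : L) *
        ((n2.choose (e - i) : ℕ) : L) * (((e - i).choose l : ℕ) : L) * x ^ l := by
    intro i hi
    rw [mem_range] at hi
    have h3 : (1 + x) ^ (e - i) = ∑ l ∈ range (e + 1), (((e - i).choose l : ℕ) : L) * x ^ l := by
      rw [add_comm, add_pow]
      have h4 : range (e - i + 1) ⊆ range (e + 1) := by
        intro l hl
        rw [mem_range] at hl ⊢
        omega
      rw [← Finset.sum_subset h4]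
      · refine Finset.sum_congr rfl fun l _ => ?_
        rw [one_pow]
        ring
      · intro l _ hl
        rw [mem_range] at hl
        rw [Nat.choose_eq_zero_of_lt (by omega), Nat.cast_zero, zero_mul]
    rw [h3, Finset.mul_sum]
    refine Finset.sum_congr rfl fun l _ => ?_
    ring
  rw [Finset.sum_congr rfl h2, Finset.sum_comm, Finset.sum_range_succ] at hx
  have h5 : ∑ i ∈ range (e + 1), ((n1.choose i : ℕ) : L) *
        ((n2.choose (e - i) : ℕ) : L) * (((e - i).choose e : ℕ) : L) * x ^ e =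
      ((n2.choose e : ℕ) : L) * x ^ e := by
    rw [Finset.sum_eq_single 0]
    · simp
    · intro i hi hi0
      rw [Nat.choose_eq_zero_of_lt (by rw [mem_range] at hi; omega : e - i < e)]
      simp
    · intro h
      exact absurd (mem_range.2 (by omega)) h
  rw [h5] at hx
  have h6 : ∑ l ∈ range e, algebraMap (ZMod p) L ((cc p e n2 l).eval (n1 : ZMod p)) * x ^ l =
      ((n2.choose e : ℕ) : L)⁻¹ * ∑ l ∈ range e, ∑ i ∈ range (e + 1),
        ((n1.choose i : ℕ) : L) * ((n2.choose (e - i) : ℕ) : L) *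
          (((e - i).choose l : ℕ) : L) * x ^ l := by
    rw [Finset.mul_sum]
    refine Finset.sum_congr rfl fun l _ => ?_
    rw [h1 l, mul_assoc, Finset.sum_mul]
  rw [h6]
  have h7 : ∑ l ∈ range e, ∑ i ∈ range (e + 1),
        ((n1.choose i : ℕ) : L) * ((n2.choose (e - i) : ℕ) : L) *
          (((e - i).choose l : ℕ) : L) * x ^ l = -(((n2.choose e : ℕ) : L) * x ^ e) := by
    linear_combination hx
  rw [h7]
  field_simp
  ring

private def wA (k : ℕ) (j : Fin k) : List (Fin k) := (List.finRange k).take j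

private theorem wA_len (k : ℕ) (j : Fin k) : (wA k j).length = j := by
  rw [wA, List.length_take, List.length_finRange]
  exact min_eq_left j.isLt.le

private theorem wA_prod {L : Type*} [Field L] (k : ℕ) (j : Fin k) (r : Fin k → L) :
    ((wA k j).map r).prod = ∏ i ∈ Finset.univ.filter (fun i : Fin k => i < j), r i := by
  rw [wA, List.map_take, ← List.ofFn_eq_map, List.prod_take_ofFn]
  rfl

private theorem setA (p e n2 k : ℕ) [Fact p.Prime] (he : 1 ≤ e) (hep : e + 1 < p) (hn2 : e ≤ n2)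
    (hn2p : n2 < p) (hk : 1 ≤ k) :
    ∃ S : Finset (ZMod p), S.card ≤ k * e * e ^ k ∧
      ∀ (n1 : ℕ) (r : Fin k → AlgebraicClosure (ZMod p)),
      (∀ j, ∑ i ∈ range (e + 1), ((n1.choose i : ℕ) : AlgebraicClosure (ZMod p)) *
        ((n2.choose (e - i) : ℕ) : AlgebraicClosure (ZMod p)) * (1 + r j) ^ (e - i) = 0) →
      ∑ j : Fin k, ∏ i ∈ Finset.univ.filter (fun i : Fin k => i < j), r i = 0 →
      (n1 : ZMod p) ∈ S := by
  classical
  obtain ⟨S, hS, h⟩ := kron_count (K := ZMod p) (L := AlgebraicClosure (ZMod p)) e k k he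
    (fun l => cc p e n2 l) (fun i _ => cc_deg p e n2 i) (-(((n2 - e : ℕ) : ZMod p) + 1))
    (fun i hi => cc_zero p e n2 i hep hn2 hi)
    (Finset.univ.image (wA k)) (fun _ => 1)
    (by
      intro w hw
      obtain ⟨j, _, rfl⟩ := Finset.mem_image.1 hw
      rw [wA_len]
      exact j.isLt.le)
    (by
      rw [Finset.mem_image]
      refine ⟨⟨0, hk⟩, Finset.mem_univ _, ?_⟩
      simp [wA]) one_ne_zero
  refine ⟨S, hS, fun n1 r h1 h2 => h (n1 : ZMod p) r
    (fun j => cc_rel p e n1 n2 hep hn2 hn2p (r j) (h1 j)) ?_⟩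
  rw [Finset.sum_image]
  · rw [← h2]
    refine Finset.sum_congr rfl fun j _ => ?_
    rw [wA_prod, map_one, one_mul]
  · intro a _ b _ hab
    have h3 := congrArg List.length hab
    rw [wA_len, wA_len] at h3
    exact Fin.ext h3

private def wB (k m : ℕ) : List (Fin k) := (List.replicate m (List.finRange k)).flatten

private theorem wB_len (k m : ℕ) : (wB k m).length = k * m := by
  rw [wB, List.length_flatten, List.map_replicate, List.sum_replicate, List.length_finRange,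
    smul_eq_mul, mul_comm]

private theorem wB_prod {L : Type*} [Field L] (k m : ℕ) (r : Fin k → L) :
    ((wB k m).map r).prod = (∏ j : Fin k, r j) ^ m := by
  rw [wB, List.map_flatten, List.map_replicate, List.prod_flatten, List.map_replicate,
    List.prod_replicate, ← List.ofFn_eq_map, List.prod_ofFn]

private theorem setB (p e n2 k m : ℕ) [Fact p.Prime] (he : 1 ≤ e) (hep : e + 1 < p)
    (hn2 : e ≤ n2) (hn2p : n2 < p) (hk : 1 ≤ k) (hm : 1 ≤ m) :
    ∃ S : Finset (ZMod p), S.card ≤ (k * m) * e * e ^ k ∧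
      ∀ (n1 : ℕ) (r : Fin k → AlgebraicClosure (ZMod p)),
      (∀ j, ∑ i ∈ range (e + 1), ((n1.choose i : ℕ) : AlgebraicClosure (ZMod p)) *
        ((n2.choose (e - i) : ℕ) : AlgebraicClosure (ZMod p)) * (1 + r j) ^ (e - i) = 0) →
      (∏ j : Fin k, r j) ^ m = 1 → (n1 : ZMod p) ∈ S := by
  classical
  have hne : wB k m ≠ [] := by
    intro h0
    have h1 := wB_len k m
    rw [h0, List.length_nil] at h1
    have : 0 < k * m := Nat.mul_pos hk hm
    omega
  obtain ⟨S, hS, h⟩ := kron_count (K := ZMod p) (L := AlgebraicClosure (ZMod p)) e k (k * m) he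
    (fun l => cc p e n2 l) (fun i _ => cc_deg p e n2 i) (-(((n2 - e : ℕ) : ZMod p) + 1))
    (fun i hi => cc_zero p e n2 i hep hn2 hi)
    {[], wB k m} (fun w => if w = [] then -1 else 1)
    (by
      intro w hw
      rw [Finset.mem_insert, Finset.mem_singleton] at hw
      rcases hw with rfl | rfl
      · simp
      · rw [wB_len])
    (by simp) (by simp)
  refine ⟨S, hS, fun n1 r h1 h2 => h (n1 : ZMod p) r
    (fun j => cc_rel p e n1 n2 hep hn2 hn2p (r j) (h1 j)) ?_⟩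
  rw [Finset.sum_pair (Ne.symm hne), if_pos rfl, if_neg hne, wB_prod, h2]
  simp

open Classical in
theorem out_count (p e F n2 : ℕ) (hp : p.Prime) (he : 2 ≤ e) (hep : e + 1 < p) (hF : 1 ≤ F)
    (hFp : F < p) (hn2 : e ≤ n2) (hn2p : n2 < p) :
    ((range p).filter (fun n1 => ∃ n0 : ℕ, n0 + n1 + n2 = e + (p - 1) ∧
      ¬ Out p (n0 + n1 * p + n2 * p ^ 2) F)).card ≤ F ^ 2 * e ^ (e + 4) := by
  have hfp : Fact p.Prime := ⟨hp⟩
  have hA : ∀ k : ℕ, ∃ S : Finset (ZMod p), 1 ≤ k → (S.card ≤ k * e * e ^ k ∧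
      ∀ (n1 : ℕ) (r : Fin k → AlgebraicClosure (ZMod p)),
      (∀ j, ∑ i ∈ range (e + 1), ((n1.choose i : ℕ) : AlgebraicClosure (ZMod p)) *
        ((n2.choose (e - i) : ℕ) : AlgebraicClosure (ZMod p)) * (1 + r j) ^ (e - i) = 0) →
      ∑ j : Fin k, ∏ i ∈ Finset.univ.filter (fun i : Fin k => i < j), r i = 0 →
      (n1 : ZMod p) ∈ S) := by
    intro k
    by_cases hk : 1 ≤ k
    · obtain ⟨S, h1, h2⟩ := setA p e n2 k (by omega) hep hn2 hn2p hk
      exact ⟨S, fun _ => ⟨h1, h2⟩⟩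
    · exact ⟨∅, fun h => absurd h hk⟩
  have hB : ∀ k m : ℕ, ∃ S : Finset (ZMod p), 1 ≤ k → 1 ≤ m →
      (S.card ≤ (k * m) * e * e ^ k ∧
      ∀ (n1 : ℕ) (r : Fin k → AlgebraicClosure (ZMod p)),
      (∀ j, ∑ i ∈ range (e + 1), ((n1.choose i : ℕ) : AlgebraicClosure (ZMod p)) *
        ((n2.choose (e - i) : ℕ) : AlgebraicClosure (ZMod p)) * (1 + r j) ^ (e - i) = 0) →
      (∏ j : Fin k, r j) ^ m = 1 → (n1 : ZMod p) ∈ S) := by
    intro k m
    by_cases hk : 1 ≤ k
    · by_cases hm : 1 ≤ m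
      · obtain ⟨S, h1, h2⟩ := setB p e n2 k m (by omega) hep hn2 hn2p hk hm
        exact ⟨S, fun _ _ => ⟨h1, h2⟩⟩
      · exact ⟨∅, fun _ h => absurd h hm⟩
    · exact ⟨∅, fun h => absurd h hk⟩
  choose SA hSA using hA
  choose SB hSB using hB
  set U : Finset (ZMod p) := (Icc 1 e).biUnion SA ∪
    (Icc 1 e ×ˢ Icc 1 F).biUnion (fun t => SB t.1 t.2) with hU
  have hsub : (((range p).filter (fun n1 => ∃ n0 : ℕ, n0 + n1 + n2 = e + (p - 1) ∧
      ¬ Out p (n0 + n1 * p + n2 * p ^ 2) F)).image (fun n : ℕ => (n : ZMod p))) ⊆ U := by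
    intro z hz
    obtain ⟨n1, hn1, rfl⟩ := Finset.mem_image.1 hz
    obtain ⟨-, n0, hn0, hout⟩ := Finset.mem_filter.1 hn1
    unfold Out at hout
    push Not at hout
    obtain ⟨hf', h, hirr, hdvd, hd1, hd2⟩ := hout
    obtain ⟨k, hk1, hk2, r, hr1, hr2⟩ := rel_of_factor p e n0 n1 n2 (by omega) hep hn2 hn2p hn0 h
      hirr hdvd (by omega) (by omega)
    rw [hU, Finset.mem_union]
    rcases hr2 with hr2 | ⟨m, hm1, hm2, hr2⟩
    · left
      rw [Finset.mem_biUnion]
      exact ⟨k, Finset.mem_Icc.2 ⟨hk1, hk2⟩, (hSA k hk1).2 n1 r hr1 hr2⟩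
    · right
      rw [Finset.mem_biUnion]
      exact ⟨(k, m), Finset.mem_product.2 ⟨Finset.mem_Icc.2 ⟨hk1, hk2⟩,
        Finset.mem_Icc.2 ⟨hm1, by omega⟩⟩, (hSB k m hk1 hm1).2 n1 r hr1 hr2⟩
  have hinj : Set.InjOn (fun n : ℕ => (n : ZMod p)) (((range p).filter
      (fun n1 => ∃ n0 : ℕ, n0 + n1 + n2 = e + (p - 1) ∧
      ¬ Out p (n0 + n1 * p + n2 * p ^ 2) F)) : Set ℕ) := by
    intro a ha b hb hab
    have ha' : a < p := mem_range.1 (Finset.mem_filter.1 ha).1
    have hb' : b < p := mem_range.1 (Finset.mem_filter.1 hb).1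
    have h1 : (a : ZMod p) = (b : ZMod p) := hab
    rw [ZMod.natCast_eq_natCast_iff'] at h1
    rwa [Nat.mod_eq_of_lt ha', Nat.mod_eq_of_lt hb'] at h1
  rw [← Finset.card_image_of_injOn hinj]
  refine (Finset.card_le_card hsub).trans ?_
  have hAc : ((Icc 1 e).biUnion SA).card ≤ e ^ (e + 3) := by
    refine Finset.card_biUnion_le.trans ?_
    have h1 : ∀ k ∈ Icc 1 e, (SA k).card ≤ e * e * e ^ e := by
      intro k hk
      rw [Finset.mem_Icc] at hk
      refine (hSA k hk.1).1.trans ?_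
      exact Nat.mul_le_mul (Nat.mul_le_mul_right _ hk.2) (Nat.pow_le_pow_right (by omega) hk.2)
    refine (Finset.sum_le_card_nsmul _ _ _ h1).trans ?_
    rw [Nat.card_Icc, smul_eq_mul, Nat.add_sub_cancel]
    apply le_of_eq
    ring
  have hBc : ((Icc 1 e ×ˢ Icc 1 F).biUnion (fun t => SB t.1 t.2)).card ≤
      F ^ 2 * e ^ (e + 3) := by
    refine Finset.card_biUnion_le.trans ?_
    have h1 : ∀ t ∈ Icc 1 e ×ˢ Icc 1 F, (SB t.1 t.2).card ≤ (e * F) * e * e ^ e := by
      intro t ht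
      rw [Finset.mem_product, Finset.mem_Icc, Finset.mem_Icc] at ht
      refine (hSB t.1 t.2 ht.1.1 ht.2.1).1.trans ?_
      exact Nat.mul_le_mul (Nat.mul_le_mul_right _ (Nat.mul_le_mul ht.1.2 ht.2.2))
        (Nat.pow_le_pow_right (by omega) ht.1.2)
    refine (Finset.sum_le_card_nsmul _ _ _ h1).trans ?_
    rw [Finset.card_product, Nat.card_Icc, Nat.card_Icc, smul_eq_mul, Nat.add_sub_cancel,
      Nat.add_sub_cancel]
    apply le_of_eq
    ring
  refine (Finset.card_union_le _ _).trans ((add_le_add hAc hBc).trans ?_)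
  have h1 : 1 ≤ F ^ 2 := Nat.one_le_pow _ _ hF
  have h2 : e ^ (e + 4) = e ^ (e + 3) * e := pow_succ _ _
  rw [h2]
  have h3 : e ^ (e + 3) ≤ F ^ 2 * e ^ (e + 3) := Nat.le_mul_of_pos_left _ h1
  have h4 : F ^ 2 * e ^ (e + 3) * 2 ≤ F ^ 2 * e ^ (e + 3) * e := Nat.mul_le_mul_left _ he
  calc e ^ (e + 3) + F ^ 2 * e ^ (e + 3) ≤ F ^ 2 * e ^ (e + 3) * 2 := by omega
    _ ≤ F ^ 2 * e ^ (e + 3) * e := h4
    _ = F ^ 2 * (e ^ (e + 3) * e) := by ring

end Pool.Agent.BDN
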