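import Mathlib
import Pool.Agent.BDN.SF

/-!
BDN-SG. The exceptional set in the narrow range `N^0.335 < p ≤ N^0.495`: outside at most `N^0.999` integers `n ≤ N`,
`e ≤ n % p` and `Out p n F` hold for all `p` in the narrow range and all small even `e = n` modulo `p - 1`.

PLAN. Let `N` be large, `L = log N`, `F ≤ L^A`. Note `p^3 > N^1.005 ≥ N`, `F < p`, `e + 1 < p`, `p ≥ 3`. For `n ∈ [1, N]` write
`n0 = n % p`, `n1 = n / p % p`, `n2 = n / p^2` (`≤ N/p^2 < p`), `n = n0 + n1 p + n2 p^2`. `p ≡ 1` modulo `p - 1`, so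
`n0 + n1 + n2 ≡ n ≡ e` modulo `p - 1`. Define the exceptional set `E` as the union over `p`, `e` (even, `2 ≤ e ≤ L^0.5`) of the
set `B(p,e)` of `n ∈ [1, N]`, `n ≡ e` modulo `p - 1`, with one of
 (i) `n2 < e`: such `n < e p^2`: at most `e p^2 / (p - 1) + 1 ≤ 2 e p + 1` of them (residue class modulo `p - 1`; or
     count digits: `n0, n2` free, three values of the digit sum: `≤ 3 e p`),
 (ii) `n0 < e`: `n2 ≤ N/p^2`, `n0 < e`, digit sum in `{e, e + (p-1), e + 2(p-1)}`: at most `3 e (N/p^2 + 1)`,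
 (iii) `n2 ≥ e`, digit sum `= e + 2 (p - 1)`: then `n0 + n1 = 2(p-1) + e - n2`, `n0, n1 ≤ p - 1`, so `n1 ≥ p - 1 - (n2 - e)`: at
     most `n2 + 1` values of `n1` for each `n2`: at most `(N/p^2 + 1)^2` in total,
 (iv) `n2 ≥ e`, digit sum `= e + (p - 1)` and `¬ Out p n F`: `out_count` gives `≤ F^2 e^(e+4)` values of `n1` for each `n2`:
     at most `(N/p^2 + 1) F^2 e^(e+4)` in total.
 (digit sum `= e` with `n0 ≥ e`: `n1 = n2 = 0`: contained in (i). Digit sum `≥ e + 3(p-1)` impossible as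
 `e ≥ 2 > 0` and digits `≤ p - 1`.)
Outside `E`: `n2 ≥ e`, `n0 ≥ e`, the digit sum is `e + (p - 1)` and `Out p n F` holds.
Sum over `p ∈ Rg N .335 .495`, `e ≤ L^.5`: (i) `∑ (3 e p) ≤ 3 L N^.99`; (ii) `3 L (∑_p (N/p^2 + 1)) ≤ 3 L (N^.665·2 + N^.495)`;
(iii) `L ∑_p (N/p^2 + 1)^2 ≤ L ∑_p 4 N^2/p^4 ≤ 8 L N^2 / N^1.005` (`∑_{p > P} 1/p^4 ≤ 2/P^3`; or cruder:
`∑_p 4 N^2/p^4`, with `N/p^2 ≥ 1`); (iv) `L F^2 e^(e+4) · 3 N^.665`, and `e^(e+4) ≤ exp(2 L^.5 · log L · 4) ≤ N^.01`.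
Total `≤ N^.999` for `N` large.
-/

namespace Pool.Agent.BDN

open Polynomial Finset

private theorem digits (n p : ℕ) : n = n % p + (n / p % p) * p + (n / p / p) * p ^ 2 := by
  have h1 : n % p + p * (n / p) = n := Nat.mod_add_div n p
  have h2 : n / p % p + p * (n / p / p) = n / p := Nat.mod_add_div (n / p) p
  calc n = n % p + p * (n / p) := h1.symm
    _ = n % p + p * (n / p % p + p * (n / p / p)) := by rw [h2]
    _ = _ := by ring

private theorem digit_sum (a b c p e n : ℕ) (hn : n = a + b * p + c * p ^ 2) (ha : a < p) (hb : b < p)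
    (hc : c < p) (he : 2 ≤ e) (hep : e + 1 < p) (hmod : n ≡ e [MOD (p - 1)]) :
    ∃ t : ℕ, t < 3 ∧ a + b + c = e + t * (p - 1) := by
  obtain ⟨q, rfl⟩ : ∃ q, p = q + 1 := ⟨p - 1, by omega⟩
  rw [Nat.add_sub_cancel] at *
  have h1 : n % q = (a + b + c) % q := by
    have h3 : n = a + b + c + q * (b + c * (q + 2)) := by rw [hn]; ring
    rw [h3, Nat.add_mul_mod_self_left]
  have h2 : (a + b + c) % q = e := by
    rw [← h1]
    have h4 : n % q = e % q := hmod
    rw [h4]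
    exact Nat.mod_eq_of_lt (by omega)
  have h5 := Nat.mod_add_div (a + b + c) q
  rw [h2] at h5
  generalize (a + b + c) / q = t at *
  refine ⟨t, ?_, ?_⟩
  · by_contra hcon
    push Not at hcon
    have h6 : q * 3 ≤ q * t := Nat.mul_le_mul_left _ hcon
    omega
  · rw [← h5, Nat.mul_comm q t]

open Classical in
private theorem card_B (p e M F N : ℕ) (hp : p.Prime) (he : 2 ≤ e) (hep : e + 1 < p) (hF : 1 ≤ F)
    (hFp : F < p) (hNp : N < p ^ 3) (hM : N / p ^ 2 = M) :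
    ((Icc 1 N).filter (fun n => n ≡ e [MOD (p - 1)] ∧ ¬ (e ≤ n % p ∧ Out p n F))).card ≤
      e * p * 3 + (M + 1) * e * 3 + (M + 1) * (M + 1) + (M + 1) * (F ^ 2 * e ^ (e + 4)) := by
  have hp0 : 0 < p := hp.pos
  let S1 : Finset ℕ := ((range e ×ˢ range p) ×ˢ range 3).image
    (fun x => (e + x.2 * (p - 1) - x.1.2 - x.1.1) + x.1.2 * p + x.1.1 * p ^ 2)
  let S2 : Finset ℕ := ((range (M + 1) ×ˢ range e) ×ˢ range 3).image
    (fun x => x.1.2 + (e + x.2 * (p - 1) - x.1.2 - x.1.1) * p + x.1.1 * p ^ 2)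
  let S3 : Finset ℕ := (range (M + 1) ×ˢ range (M + 1)).image
    (fun x => (e + 2 * (p - 1) - (p - 1 - x.2) - x.1) + (p - 1 - x.2) * p + x.1 * p ^ 2)
  let T : ℕ → Finset ℕ := fun n2 => if e ≤ n2 ∧ n2 < p then
    ((range p).filter (fun n1 => ∃ n0 : ℕ, n0 + n1 + n2 = e + (p - 1) ∧
      ¬ Out p (n0 + n1 * p + n2 * p ^ 2) F)) else ∅
  let S4 : Finset ℕ := (range (M + 1)).biUnion (fun n2 => (T n2).image
    (fun n1 => (e + (p - 1) - n1 - n2) + n1 * p + n2 * p ^ 2))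
  have hsub : ((Icc 1 N).filter (fun n => n ≡ e [MOD (p - 1)] ∧ ¬ (e ≤ n % p ∧ Out p n F))) ⊆
      ((S1 ∪ S2) ∪ S3) ∪ S4 := by
    intro n hn
    rw [mem_filter, mem_Icc] at hn
    obtain ⟨⟨h1, hN⟩, hmod, hbad⟩ := hn
    have hd := digits n p
    have ha : n % p < p := Nat.mod_lt _ hp0
    have hb : n / p % p < p := Nat.mod_lt _ hp0
    have hc : n / p / p < p := by
      rw [Nat.div_div_eq_div_mul, Nat.div_lt_iff_lt_mul (by positivity)]
      calc n ≤ N := hN
        _ < p ^ 3 := hNp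
        _ = p * (p * p) := by ring
    have hcM : n / p / p ≤ M := by
      rw [Nat.div_div_eq_div_mul, ← hM, pow_two]
      exact Nat.div_le_div_right hN
    obtain ⟨t, ht, hs⟩ := digit_sum _ _ _ p e n hd ha hb hc he hep hmod
    obtain ⟨c, hc0⟩ : ∃ c, c = n / p / p := ⟨_, rfl⟩
    obtain ⟨b, hb0⟩ : ∃ b, b = n / p % p := ⟨_, rfl⟩
    obtain ⟨a, ha0⟩ : ∃ a, a = n % p := ⟨_, rfl⟩
    rw [← hc0, ← hb0, ← ha0] at hd hs
    rw [← ha0] at ha hbad
    rw [← hb0] at hb
    rw [← hc0] at hc hcM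
    clear hc0 hb0 ha0
    by_cases hce : c < e
    · refine mem_union_left _ (mem_union_left _ (mem_union_left _ ?_))
      refine mem_image.mpr ⟨((c, b), t), ?_, ?_⟩
      · rw [mem_product, mem_product]
        exact ⟨⟨mem_range.mpr hce, mem_range.mpr hb⟩, mem_range.mpr ht⟩
      · change (e + t * (p - 1) - b - c) + b * p + c * p ^ 2 = n
        rw [show e + t * (p - 1) - b - c = a by omega]
        exact hd.symm
    · by_cases hae : a < e
      · refine mem_union_left _ (mem_union_left _ (mem_union_right _ ?_))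
        refine mem_image.mpr ⟨((c, a), t), ?_, ?_⟩
        · rw [mem_product, mem_product]
          exact ⟨⟨mem_range.mpr (Nat.lt_succ_of_le hcM), mem_range.mpr hae⟩, mem_range.mpr ht⟩
        · change a + (e + t * (p - 1) - a - c) * p + c * p ^ 2 = n
          rw [show e + t * (p - 1) - a - c = b by omega]
          exact hd.symm
      · push Not at hce hae
        interval_cases t
        · exfalso
          omega
        · refine mem_union_right _ ?_
          refine mem_biUnion.mpr ⟨c, mem_range.mpr (Nat.lt_succ_of_le hcM), ?_⟩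
          have hout : ¬ Out p n F := fun h => hbad ⟨hae, h⟩
          refine mem_image.mpr ⟨b, ?_, ?_⟩
          · change b ∈ (if e ≤ c ∧ c < p then
              ((range p).filter (fun n1 => ∃ n0 : ℕ, n0 + n1 + c = e + (p - 1) ∧
                ¬ Out p (n0 + n1 * p + c * p ^ 2) F)) else ∅)
            rw [if_pos ⟨hce, hc⟩, mem_filter]
            refine ⟨mem_range.mpr hb, a, by omega, ?_⟩
            rw [← hd]
            exact hout
          · change (e + (p - 1) - b - c) + b * p + c * p ^ 2 = n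
            rw [show e + (p - 1) - b - c = a by omega]
            exact hd.symm
        · refine mem_union_left _ (mem_union_right _ ?_)
          refine mem_image.mpr ⟨(c, p - 1 - b), ?_, ?_⟩
          · rw [mem_product]
            refine ⟨mem_range.mpr (Nat.lt_succ_of_le hcM), mem_range.mpr ?_⟩
            change p - 1 - b < M + 1
            omega
          · change (e + 2 * (p - 1) - (p - 1 - (p - 1 - b)) - c) + (p - 1 - (p - 1 - b)) * p
              + c * p ^ 2 = n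
            rw [show p - 1 - (p - 1 - b) = b by omega, show e + 2 * (p - 1) - b - c = a by omega]
            exact hd.symm
  have c1 : S1.card ≤ e * p * 3 := by
    refine card_image_le.trans (le_of_eq ?_)
    rw [card_product, card_product, card_range, card_range, card_range]
  have c2 : S2.card ≤ (M + 1) * e * 3 := by
    refine card_image_le.trans (le_of_eq ?_)
    rw [card_product, card_product, card_range, card_range, card_range]
  have c3 : S3.card ≤ (M + 1) * (M + 1) := by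
    refine card_image_le.trans (le_of_eq ?_)
    rw [card_product, card_range]
  have c4 : S4.card ≤ (M + 1) * (F ^ 2 * e ^ (e + 4)) := by
    refine card_biUnion_le.trans ?_
    calc ∑ u ∈ range (M + 1), ((T u).image
          (fun n1 => (e + (p - 1) - n1 - u) + n1 * p + u * p ^ 2)).card
        ≤ ∑ _u ∈ range (M + 1), F ^ 2 * e ^ (e + 4) := by
          refine sum_le_sum fun u _ => card_image_le.trans ?_
          change (if e ≤ u ∧ u < p then
            ((range p).filter (fun n1 => ∃ n0 : ℕ, n0 + n1 + u = e + (p - 1) ∧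
              ¬ Out p (n0 + n1 * p + u * p ^ 2) F)) else ∅).card ≤ _
          split_ifs with hu
          · exact out_count p e F u hp he hep hF hFp hu.1 hu.2
          · rw [card_empty]
            exact Nat.zero_le _
      _ = (M + 1) * (F ^ 2 * e ^ (e + 4)) := by
          rw [sum_const, card_range, smul_eq_mul]
  calc _ ≤ (((S1 ∪ S2) ∪ S3) ∪ S4).card := card_le_card hsub
    _ ≤ ((S1 ∪ S2) ∪ S3).card + S4.card := card_union_le _ _
    _ ≤ ((S1 ∪ S2).card + S3.card) + S4.card := Nat.add_le_add_right (card_union_le _ _) _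
    _ ≤ ((S1.card + S2.card) + S3.card) + S4.card :=
        Nat.add_le_add_right (Nat.add_le_add_right (card_union_le _ _) _) _
    _ ≤ _ := by omega

private theorem out_mono (p n F F' : ℕ) (h : F ≤ F') (ho : Out p n F') : Out p n F := by
  intro hp g hg hd
  rcases ho hp g hg hd with h1 | h1
  · exact Or.inl h1
  · exact Or.inr (lt_of_le_of_lt h h1)

private theorem ev (A : ℝ) (hA : 0 < A) : ∀ᶠ L : ℝ in Filter.atTop, 1 ≤ L ∧
    200 * L ^ 2 ≤ Real.exp (1 / 1000 * L) ∧ (L ^ A + 1) ^ 2 ≤ Real.exp (1 / 1000 * L) ∧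
    (L ^ (1 / 2 : ℝ) + 4) * Real.log L ≤ 1 / 1000 * L := by
  have E1 := (isLittleO_pow_exp_pos_mul_atTop (k := 2) (b := 1 / 1000) (by norm_num)).bound
    (c := 1 / 200) (by norm_num)
  have E2 := (isLittleO_rpow_exp_pos_mul_atTop (2 * A) (b := 1 / 1000) (by norm_num)).bound
    (c := 1 / 4) (by norm_num)
  have E3 := (isLittleO_log_rpow_atTop (r := 1 / 4) (by norm_num)).bound
    (c := 1) (by norm_num)
  have E4 := (tendsto_rpow_atTop (y := 1 / 4) (by norm_num)).eventually_ge_atTop 5000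
  filter_upwards [E1, E2, E3, E4, Filter.eventually_ge_atTop (1 : ℝ)] with L h1 h2 h3 h4 hL
  have hL0 : 0 < L := by linarith
  refine ⟨hL, ?_, ?_, ?_⟩
  · rw [Real.norm_of_nonneg (by positivity), Real.norm_of_nonneg (Real.exp_pos _).le] at h1
    linarith
  · rw [Real.norm_of_nonneg (by positivity), Real.norm_of_nonneg (Real.exp_pos _).le] at h2
    have h5 : 1 ≤ L ^ A := Real.one_le_rpow hL hA.le
    have h6 : L ^ (2 * A) = (L ^ A) ^ 2 := by
      rw [mul_comm, Real.rpow_mul hL0.le]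
      norm_cast
    rw [h6] at h2
    nlinarith
  · have h7 : 0 ≤ Real.log L := Real.log_nonneg hL
    rw [Real.norm_of_nonneg h7, Real.norm_of_nonneg (by positivity), one_mul] at h3
    have h8 : 1 ≤ L ^ (1 / 2 : ℝ) := Real.one_le_rpow hL (by norm_num)
    have h9 : L = L ^ (1 / 2 : ℝ) * L ^ (1 / 4 : ℝ) * L ^ (1 / 4 : ℝ) := by
      rw [← Real.rpow_add hL0, ← Real.rpow_add hL0]
      norm_num
    have hx0 : 0 ≤ L ^ (1 / 4 : ℝ) := by positivity
    calc (L ^ (1 / 2 : ℝ) + 4) * Real.log L ≤ (5 * L ^ (1 / 2 : ℝ)) * L ^ (1 / 4 : ℝ) :=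
          mul_le_mul (by linarith) h3 h7 (by positivity)
      _ ≤ 1 / 1000 * (L ^ (1 / 2 : ℝ) * L ^ (1 / 4 : ℝ) * L ^ (1 / 4 : ℝ)) := by
          have : 0 ≤ L ^ (1 / 2 : ℝ) * L ^ (1 / 4 : ℝ) := by positivity
          nlinarith
      _ = 1 / 1000 * L := by rw [← h9]

private theorem final_ineq (L e0 F0 Q : ℝ) (hL : 1 ≤ L) (h1 : 200 * L ^ 2 ≤ Real.exp (1 / 1000 * L))
    (hF : F0 ^ 2 ≤ Real.exp (1 / 1000 * L)) (hQ : Q ≤ Real.exp (1 / 1000 * L)) (he0 : e0 ≤ L)
    (he : 0 ≤ e0) (hQ0 : 0 ≤ Q) :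
    e0 * (3 * e0 * Real.exp (99 / 100 * L) + 6 * e0 * Real.exp (825 / 1000 * L) +
      4 * Real.exp (995 / 1000 * L) * (1 + L) +
      2 * Real.exp (825 / 1000 * L) * (F0 ^ 2 * Q)) ≤ Real.exp (999 / 1000 * L) := by
  have hL0 : 0 < L := by linarith
  have hee : e0 * e0 ≤ L ^ 2 := by nlinarith
  have hm : ∀ a b : ℝ, a + b ≤ 999 / 1000 → Real.exp (a * L) * Real.exp (b * L) ≤
      Real.exp (999 / 1000 * L) := by
    intro a b hab
    rw [← Real.exp_add]
    apply Real.exp_le_exp.mpr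
    nlinarith
  have t1 : e0 * (3 * e0 * Real.exp (99 / 100 * L)) ≤ 3 / 200 * Real.exp (999 / 1000 * L) := by
    calc e0 * (3 * e0 * Real.exp (99 / 100 * L)) = 3 * (e0 * e0) * Real.exp (99 / 100 * L) := by ring
      _ ≤ 3 * (1 / 200 * Real.exp (1 / 1000 * L)) * Real.exp (99 / 100 * L) :=
          mul_le_mul_of_nonneg_right (by linarith) (Real.exp_pos _).le
      _ = 3 / 200 * (Real.exp (1 / 1000 * L) * Real.exp (99 / 100 * L)) := by ring
      _ ≤ _ := by
          gcongr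
          exact hm _ _ (by norm_num)
  have t2 : e0 * (6 * e0 * Real.exp (825 / 1000 * L)) ≤ 6 / 200 * Real.exp (999 / 1000 * L) := by
    calc e0 * (6 * e0 * Real.exp (825 / 1000 * L)) = 6 * (e0 * e0) * Real.exp (825 / 1000 * L) := by
          ring
      _ ≤ 6 * (1 / 200 * Real.exp (1 / 1000 * L)) * Real.exp (825 / 1000 * L) :=
          mul_le_mul_of_nonneg_right (by linarith) (Real.exp_pos _).le
      _ = 6 / 200 * (Real.exp (1 / 1000 * L) * Real.exp (825 / 1000 * L)) := by ring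
      _ ≤ _ := by
          gcongr
          exact hm _ _ (by norm_num)
  have t3 : e0 * (4 * Real.exp (995 / 1000 * L) * (1 + L)) ≤
      8 / 200 * Real.exp (999 / 1000 * L) := by
    have h5 : e0 * (1 + L) ≤ 2 * L ^ 2 := by nlinarith
    calc e0 * (4 * Real.exp (995 / 1000 * L) * (1 + L)) =
          4 * (e0 * (1 + L)) * Real.exp (995 / 1000 * L) := by ring
      _ ≤ 4 * (2 * (1 / 200 * Real.exp (1 / 1000 * L))) * Real.exp (995 / 1000 * L) :=
          mul_le_mul_of_nonneg_right (by linarith) (Real.exp_pos _).le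
      _ = 8 / 200 * (Real.exp (1 / 1000 * L) * Real.exp (995 / 1000 * L)) := by ring
      _ ≤ _ := by
          gcongr
          exact hm _ _ (by norm_num)
  have t4 : e0 * (2 * Real.exp (825 / 1000 * L) * (F0 ^ 2 * Q)) ≤
      2 / 200 * Real.exp (999 / 1000 * L) := by
    have h5 : e0 ≤ L ^ 2 := by nlinarith
    have h6 : F0 ^ 2 * Q ≤ Real.exp (1 / 1000 * L) * Real.exp (1 / 1000 * L) :=
      mul_le_mul hF hQ hQ0 (Real.exp_pos _).le
    have h7 : Real.exp (1 / 1000 * L) * Real.exp (1 / 1000 * L) = Real.exp (2 / 1000 * L) := by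
      rw [← Real.exp_add]
      congr 1
      ring
    have h8 : Real.exp (825 / 1000 * L) * Real.exp (2 / 1000 * L) = Real.exp (827 / 1000 * L) := by
      rw [← Real.exp_add]
      congr 1
      ring
    rw [h7] at h6
    calc e0 * (2 * Real.exp (825 / 1000 * L) * (F0 ^ 2 * Q)) ≤
          (1 / 200 * Real.exp (1 / 1000 * L)) * (2 * Real.exp (825 / 1000 * L) *
            Real.exp (2 / 1000 * L)) := by
          apply mul_le_mul (by linarith) _ (by positivity) (by positivity)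
          gcongr
      _ = 2 / 200 * (Real.exp (1 / 1000 * L) *
            (Real.exp (825 / 1000 * L) * Real.exp (2 / 1000 * L))) := by ring
      _ ≤ _ := by
          rw [h8]
          gcongr
          exact hm _ _ (by norm_num)
  have hpos := Real.exp_pos (999 / 1000 * L)
  calc _ = e0 * (3 * e0 * Real.exp (99 / 100 * L)) + e0 * (6 * e0 * Real.exp (825 / 1000 * L)) +
        e0 * (4 * Real.exp (995 / 1000 * L) * (1 + L)) +
        e0 * (2 * Real.exp (825 / 1000 * L) * (F0 ^ 2 * Q)) := by ring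
    _ ≤ _ := by linarith

private theorem sum_inv (N : ℕ) (S : Finset ℕ) (hS : S ⊆ Icc 1 N) :
    ∑ p ∈ S, (1 / (p : ℝ)) ≤ 1 + Real.log N := by
  calc ∑ p ∈ S, (1 / (p : ℝ)) ≤ ∑ p ∈ Icc 1 N, (1 / (p : ℝ)) :=
        sum_le_sum_of_subset_of_nonneg hS (fun _ _ _ => by positivity)
    _ = ((harmonic N : ℚ) : ℝ) := by
        rw [harmonic_eq_sum_Icc]
        push_cast
        exact sum_congr rfl fun x _ => one_div _
    _ ≤ 1 + Real.log N := harmonic_le_one_add_log N

open Classical in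
private theorem per_p (N p e0 F0 : ℕ) (L : ℝ) (hL : 1 ≤ L) (hN : (N : ℝ) = Real.exp L)
    (hp : p.Prime) (h1 : Real.exp (335 / 1000 * L) < p) (h2 : (p : ℝ) ≤ Real.exp (495 / 1000 * L))
    (he0 : e0 + 1 < p) (hF0 : F0 < p) (hF1 : 1 ≤ F0) :
    ((∑ e ∈ Icc 2 e0, ((Icc 1 N).filter (fun n => n ≡ e [MOD (p - 1)] ∧
      ¬ (e ≤ n % p ∧ Out p n F0))).card : ℕ) : ℝ) ≤
    (e0 : ℝ) * (3 * e0 * Real.exp (495 / 1000 * L) + 6 * e0 * Real.exp (33 / 100 * L) +
      4 * Real.exp (995 / 1000 * L) * (1 / (p : ℝ)) +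
      2 * Real.exp (33 / 100 * L) * ((F0 : ℝ) ^ 2 * (e0 : ℝ) ^ (e0 + 4))) := by
  have hp0 : (0 : ℝ) < p := by exact_mod_cast hp.pos
  have hL0 : 0 < L := by linarith
  have hNp : N < p ^ 3 := by
    have h3 : (N : ℝ) < (p : ℝ) ^ 3 := by
      rw [hN]
      calc Real.exp L ≤ Real.exp (335 / 1000 * L) ^ 3 := by
            rw [← Real.exp_nat_mul]
            apply Real.exp_le_exp.mpr
            push_cast
            linarith
        _ < (p : ℝ) ^ 3 := by
            gcongr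
    exact_mod_cast h3
  -- the bound for M
  have hM1 : ((N / p ^ 2 : ℕ) : ℝ) ≤ (N : ℝ) / (p : ℝ) ^ 2 := by
    have := @Nat.cast_div_le ℝ _ _ _ N (p ^ 2)
    rw [Nat.cast_pow] at this
    exact this
  have hM2 : (1 : ℝ) ≤ (N : ℝ) / (p : ℝ) ^ 2 := by
    rw [le_div_iff₀ (by positivity), one_mul, hN]
    calc (p : ℝ) ^ 2 ≤ Real.exp (495 / 1000 * L) ^ 2 := by gcongr
      _ ≤ Real.exp L := by
          rw [← Real.exp_nat_mul]
          apply Real.exp_le_exp.mpr
          push_cast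
          linarith
  obtain ⟨M, hM⟩ : ∃ M, N / p ^ 2 = M := ⟨_, rfl⟩
  rw [hM] at hM1
  have hM3 : (M : ℝ) + 1 ≤ 2 * ((N : ℝ) / (p : ℝ) ^ 2) := by linarith
  have hM4 : (N : ℝ) / (p : ℝ) ^ 2 ≤ Real.exp (33 / 100 * L) := by
    rw [div_le_iff₀ (by positivity), hN]
    calc Real.exp L = Real.exp (33 / 100 * L) * Real.exp (335 / 1000 * L) ^ 2 := by
          rw [← Real.exp_nat_mul, ← Real.exp_add]
          congr 1
          push_cast
          ring
      _ ≤ Real.exp (33 / 100 * L) * (p : ℝ) ^ 2 := by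
          gcongr
  have hM5 : ((M : ℝ) + 1) * ((M : ℝ) + 1) ≤ 4 * Real.exp (995 / 1000 * L) * (1 / (p : ℝ)) := by
    have h4 : ((M : ℝ) + 1) * ((M : ℝ) + 1) ≤ (2 * ((N : ℝ) / (p : ℝ) ^ 2)) * (2 * ((N : ℝ) / (p : ℝ) ^ 2)) :=
      mul_le_mul hM3 hM3 (by positivity) (by positivity)
    refine h4.trans ?_
    have h5 : (2 * ((N : ℝ) / (p : ℝ) ^ 2)) * (2 * ((N : ℝ) / (p : ℝ) ^ 2)) =
        4 * ((N : ℝ) ^ 2 / (p : ℝ) ^ 3) * (1 / (p : ℝ)) := by
      field_simp
      ring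
    rw [h5]
    gcongr
    rw [div_le_iff₀ (by positivity), hN]
    calc Real.exp L ^ 2 = Real.exp (995 / 1000 * L) * Real.exp (335 / 1000 * L) ^ 3 := by
          rw [← Real.exp_nat_mul, ← Real.exp_nat_mul, ← Real.exp_add]
          congr 1
          push_cast
          ring
      _ ≤ Real.exp (995 / 1000 * L) * (p : ℝ) ^ 3 := by
          gcongr
  push_cast
  calc ∑ e ∈ Icc 2 e0, (((Icc 1 N).filter (fun n => n ≡ e [MOD (p - 1)] ∧
      ¬ (e ≤ n % p ∧ Out p n F0))).card : ℝ)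
      ≤ ∑ _e ∈ Icc 2 e0, (3 * (e0 : ℝ) * Real.exp (495 / 1000 * L) +
        6 * (e0 : ℝ) * Real.exp (33 / 100 * L) +
        4 * Real.exp (995 / 1000 * L) * (1 / (p : ℝ)) +
        2 * Real.exp (33 / 100 * L) * ((F0 : ℝ) ^ 2 * (e0 : ℝ) ^ (e0 + 4))) := by
        refine sum_le_sum fun e he => ?_
        rw [mem_Icc] at he
        have hB := card_B p e M F0 N hp he.1 (by omega) hF1 hF0 hNp hM
        have hB' : (((Icc 1 N).filter (fun n => n ≡ e [MOD (p - 1)] ∧
            ¬ (e ≤ n % p ∧ Out p n F0))).card : ℝ) ≤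
            (e : ℝ) * p * 3 + ((M : ℝ) + 1) * e * 3 + ((M : ℝ) + 1) * ((M : ℝ) + 1) +
            ((M : ℝ) + 1) * ((F0 : ℝ) ^ 2 * (e : ℝ) ^ (e + 4)) := by
          exact_mod_cast hB
        refine hB'.trans ?_
        have hee : (e : ℝ) ≤ e0 := by exact_mod_cast he.2
        have he1 : (1 : ℝ) ≤ e := by exact_mod_cast (by omega : 1 ≤ e)
        have k1 : (e : ℝ) * p * 3 ≤ 3 * (e0 : ℝ) * Real.exp (495 / 1000 * L) := by
          calc (e : ℝ) * p * 3 = 3 * e * p := by ring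
            _ ≤ _ := by gcongr
        have k2 : ((M : ℝ) + 1) * e * 3 ≤ 6 * (e0 : ℝ) * Real.exp (33 / 100 * L) := by
          calc ((M : ℝ) + 1) * e * 3 ≤ (2 * Real.exp (33 / 100 * L)) * e0 * 3 := by
                gcongr
                linarith
            _ = _ := by ring
        have k4 : (e : ℝ) ^ (e + 4) ≤ (e0 : ℝ) ^ (e0 + 4) := by
          calc (e : ℝ) ^ (e + 4) ≤ (e : ℝ) ^ (e0 + 4) :=
                pow_le_pow_right₀ he1 (by omega)
            _ ≤ (e0 : ℝ) ^ (e0 + 4) := by gcongr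
        have k3 : ((M : ℝ) + 1) * ((F0 : ℝ) ^ 2 * (e : ℝ) ^ (e + 4)) ≤
            2 * Real.exp (33 / 100 * L) * ((F0 : ℝ) ^ 2 * (e0 : ℝ) ^ (e0 + 4)) := by
          gcongr
          linarith
        linarith
    _ ≤ _ := by
        rw [sum_const, nsmul_eq_mul]
        have hcard : ((Icc 2 e0).card : ℝ) ≤ e0 := by
          rw [Nat.card_Icc]
          exact_mod_cast (by omega : e0 + 1 - 2 ≤ e0)
        gcongr

theorem narrow_exc (A : ℝ) (hA : 0 < A) : ∃ N0 : ℕ, ∀ N : ℕ, N0 ≤ N → ∃ E : Finset ℕ,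
    (E.card : ℝ) ≤ (N : ℝ) ^ (999 / 1000 : ℝ) ∧ ∀ n ∈ Icc 1 N, n ∉ E →
      ∀ p ∈ Rg N (335 / 1000) (495 / 1000), ∀ e F : ℕ, Even e → 2 ≤ e →
        (e : ℝ) ≤ Real.log N ^ (1 / 2 : ℝ) → (F : ℝ) ≤ Real.log N ^ A → n ≡ e [MOD (p - 1)] →
        e ≤ n % p ∧ Out p n F := by
  classical
  have hlog : Filter.Tendsto (fun N : ℕ => Real.log (N : ℝ)) Filter.atTop Filter.atTop :=
    Real.tendsto_log_atTop.comp tendsto_natCast_atTop_atTop
  have hev := (hlog.eventually (ev A hA)).and (Filter.eventually_ge_atTop (1 : ℕ))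
  obtain ⟨N0, hN0⟩ := Filter.eventually_atTop.mp hev
  refine ⟨N0, fun N hNN => ?_⟩
  obtain ⟨⟨hL, h1, h2, h3⟩, hN1⟩ := hN0 N hNN
  have hNpos : (0 : ℝ) < N := by exact_mod_cast hN1
  obtain ⟨L, hLdef⟩ : ∃ L, L = Real.log (N : ℝ) := ⟨_, rfl⟩
  have hN : (N : ℝ) = Real.exp L := by rw [hLdef, Real.exp_log hNpos]
  rw [← hLdef] at hL h1 h2 h3 ⊢
  have hL0 : 0 < L := by linarith
  have hrp : ∀ a : ℝ, (N : ℝ) ^ a = Real.exp (a * L) := by
    intro a
    rw [hN, ← Real.exp_mul, mul_comm]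
  have hLA : 1 ≤ L ^ A := Real.one_le_rpow hL hA.le
  obtain ⟨F0, hF0⟩ : ∃ F0 : ℕ, F0 = ⌊L ^ A⌋₊ := ⟨_, rfl⟩
  obtain ⟨e0, he0⟩ : ∃ e0 : ℕ, e0 = ⌊L ^ (1 / 2 : ℝ)⌋₊ := ⟨_, rfl⟩
  have hF1 : 1 ≤ F0 := by
    rw [hF0]
    exact Nat.le_floor (by exact_mod_cast hLA)
  have hF2 : (F0 : ℝ) ≤ L ^ A := by
    rw [hF0]
    exact Nat.floor_le (by positivity)
  have he2 : (e0 : ℝ) ≤ L ^ (1 / 2 : ℝ) := by
    rw [he0]
    exact Nat.floor_le (by positivity)
  have hhalf : L ^ (1 / 2 : ℝ) ≤ L := by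
    calc L ^ (1 / 2 : ℝ) ≤ L ^ (1 : ℝ) := Real.rpow_le_rpow_of_exponent_le hL (by norm_num)
      _ = L := Real.rpow_one L
  have he3 : (e0 : ℝ) ≤ L := he2.trans hhalf
  have hbig : Real.exp (1 / 1000 * L) ≤ Real.exp (335 / 1000 * L) := by
    apply Real.exp_le_exp.mpr
    linarith
  let R : Finset ℕ := Rg N (335 / 1000) (495 / 1000)
  have hR : ∀ p ∈ R, p.Prime ∧ Real.exp (335 / 1000 * L) < p ∧
      (p : ℝ) ≤ Real.exp (495 / 1000 * L) := by
    intro p hp
    have hp' : p ∈ Rg N (335 / 1000) (495 / 1000) := hp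
    unfold Rg at hp'
    rw [mem_filter] at hp'
    obtain ⟨_, hp1, hp2, hp3⟩ := hp'
    rw [hrp] at hp2 hp3
    exact ⟨hp1, hp2, hp3⟩
  let B : ℕ → ℕ → Finset ℕ := fun p e => (Icc 1 N).filter (fun n => n ≡ e [MOD (p - 1)] ∧
      ¬ (e ≤ n % p ∧ Out p n F0))
  let E : Finset ℕ := R.biUnion (fun p => (Icc 2 e0).biUnion (fun e => B p e))
  refine ⟨E, ?_, ?_⟩
  · -- cardinality
    have hE : E.card ≤ ∑ p ∈ R, ∑ e ∈ Icc 2 e0, (B p e).card :=
      card_biUnion_le.trans (sum_le_sum fun p _ => card_biUnion_le)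
    have hE' : (E.card : ℝ) ≤ ∑ p ∈ R, ((∑ e ∈ Icc 2 e0, (B p e).card : ℕ) : ℝ) := by
      exact_mod_cast hE
    refine hE'.trans ?_
    have hcardR : ((R.card : ℕ) : ℝ) ≤ Real.exp (495 / 1000 * L) := by
      have hsub : R ⊆ Icc 1 ⌊Real.exp (495 / 1000 * L)⌋₊ := by
        intro p hp
        obtain ⟨hp1, _, hp3⟩ := hR p hp
        rw [mem_Icc]
        exact ⟨hp1.one_lt.le, Nat.le_floor hp3⟩
      have := card_le_card hsub
      rw [Nat.card_Icc, Nat.add_sub_cancel] at this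
      calc ((R.card : ℕ) : ℝ) ≤ (⌊Real.exp (495 / 1000 * L)⌋₊ : ℝ) := by exact_mod_cast this
        _ ≤ _ := Nat.floor_le (Real.exp_pos _).le
    have hQ : ((e0 : ℝ)) ^ (e0 + 4) ≤ Real.exp (1 / 1000 * L) := by
      calc (e0 : ℝ) ^ (e0 + 4) ≤ L ^ (e0 + 4) := by gcongr
        _ = L ^ ((e0 + 4 : ℕ) : ℝ) := (Real.rpow_natCast _ _).symm
        _ ≤ L ^ (L ^ (1 / 2 : ℝ) + 4) := by
            apply Real.rpow_le_rpow_of_exponent_le hL
            push_cast
            linarith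
        _ = Real.exp ((L ^ (1 / 2 : ℝ) + 4) * Real.log L) := by
            rw [Real.rpow_def_of_pos hL0, mul_comm]
        _ ≤ _ := Real.exp_le_exp.mpr h3
    have hFsq : (F0 : ℝ) ^ 2 ≤ Real.exp (1 / 1000 * L) := by
      refine le_trans ?_ h2
      have : (F0 : ℝ) ≤ L ^ A + 1 := by linarith
      gcongr
    have hsum := sum_inv N R (by
      intro p hp
      have hp' : p ∈ Rg N (335 / 1000) (495 / 1000) := hp
      unfold Rg at hp'
      rw [mem_filter] at hp'
      exact hp'.1)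
    rw [← hLdef] at hsum
    have hterm : ∀ p ∈ R, ((∑ e ∈ Icc 2 e0, (B p e).card : ℕ) : ℝ) ≤
        (e0 : ℝ) * (3 * e0 * Real.exp (495 / 1000 * L) + 6 * e0 * Real.exp (33 / 100 * L) +
        4 * Real.exp (995 / 1000 * L) * (1 / (p : ℝ)) +
        2 * Real.exp (33 / 100 * L) * ((F0 : ℝ) ^ 2 * (e0 : ℝ) ^ (e0 + 4))) := by
      intro p hp
      obtain ⟨hp1, hp2, hp3⟩ := hR p hp
      have hb1 : (L ^ A + 1) < p := by
        have h5 : L ^ A + 1 ≤ (L ^ A + 1) ^ 2 := by nlinarith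
        linarith
      have hb2 : 200 * L ^ 2 < p := by linarith
      refine per_p N p e0 F0 L hL hN hp1 hp2 hp3 ?_ ?_ hF1
      · have : ((e0 + 1 : ℕ) : ℝ) < (p : ℝ) := by
          push_cast
          nlinarith
        exact_mod_cast this
      · have : ((F0 : ℕ) : ℝ) < (p : ℝ) := by linarith
        exact_mod_cast this
    refine (sum_le_sum hterm).trans ?_
    rw [← mul_sum, sum_add_distrib, sum_add_distrib, ← mul_sum, sum_const, sum_const, nsmul_eq_mul,
      nsmul_eq_mul]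
    have hQ0 : (0 : ℝ) ≤ (e0 : ℝ) ^ (e0 + 4) := by positivity
    have hfin := final_ineq L e0 F0 ((e0 : ℝ) ^ (e0 + 4)) hL h1 hFsq hQ he3 (Nat.cast_nonneg _) hQ0
    rw [hrp]
    refine le_trans ?_ hfin
    apply mul_le_mul_of_nonneg_left _ (Nat.cast_nonneg e0)
    have x1 : Real.exp (495 / 1000 * L) * Real.exp (495 / 1000 * L) = Real.exp (99 / 100 * L) := by
      rw [← Real.exp_add]
      congr 1
      ring
    have x2 : Real.exp (495 / 1000 * L) * Real.exp (33 / 100 * L) = Real.exp (825 / 1000 * L) := by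
      rw [← Real.exp_add]
      congr 1
      ring
    have y1 : ((R.card : ℕ) : ℝ) * (3 * e0 * Real.exp (495 / 1000 * L) + 6 * e0 * Real.exp (33 / 100 * L)) ≤
        3 * e0 * Real.exp (99 / 100 * L) + 6 * e0 * Real.exp (825 / 1000 * L) := by
      rw [← x1, ← x2]
      calc ((R.card : ℕ) : ℝ) * (3 * e0 * Real.exp (495 / 1000 * L) + 6 * e0 * Real.exp (33 / 100 * L))
          ≤ Real.exp (495 / 1000 * L) * (3 * e0 * Real.exp (495 / 1000 * L) +
            6 * e0 * Real.exp (33 / 100 * L)) := by gcongr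
        _ = _ := by ring
    have y2 : ((R.card : ℕ) : ℝ) * (2 * Real.exp (33 / 100 * L) * ((F0 : ℝ) ^ 2 * (e0 : ℝ) ^ (e0 + 4))) ≤
        2 * Real.exp (825 / 1000 * L) * ((F0 : ℝ) ^ 2 * (e0 : ℝ) ^ (e0 + 4)) := by
      rw [← x2]
      calc ((R.card : ℕ) : ℝ) * (2 * Real.exp (33 / 100 * L) * ((F0 : ℝ) ^ 2 * (e0 : ℝ) ^ (e0 + 4)))
          ≤ Real.exp (495 / 1000 * L) * (2 * Real.exp (33 / 100 * L) *
            ((F0 : ℝ) ^ 2 * (e0 : ℝ) ^ (e0 + 4))) := by gcongr
        _ = _ := by ring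
    have y3 : 4 * Real.exp (995 / 1000 * L) * ∑ p ∈ R, (1 / (p : ℝ)) ≤
        4 * Real.exp (995 / 1000 * L) * (1 + L) := by gcongr
    linarith
  · intro n hn hnE p hp e F _ he heL hFL hmod
    have hFF : F ≤ F0 := by
      rw [hF0]
      exact Nat.le_floor hFL
    have hee : e ≤ e0 := by
      rw [he0]
      exact Nat.le_floor heL
    have hmain : e ≤ n % p ∧ Out p n F0 := by
      by_contra hcon
      apply hnE
      refine mem_biUnion.mpr ⟨p, hp, mem_biUnion.mpr ⟨e, mem_Icc.mpr ⟨he, hee⟩, ?_⟩⟩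
      exact mem_filter.mpr ⟨hn, hmod, hcon⟩
    exact ⟨hmain.1, out_mono p n F F0 hFF hmain.2⟩

end Pool.Agent.BDN
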