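import Mathlib
import Pool.Agent.BDN.SC

/-!
BDN-SH. No quadratic factors, from the digits modulo `p^2 - 1`.

PLAN. Let `h` be irreducible of degree 2 with `h ∣ SS p n`, `α` a root of `h` in `L = AdjoinRoot h` (a field with `p^2`
elements; or in an algebraic closure with `α^(p^2) = α`), `α ∉ F_p` i.e. `α^p ≠ α`. For `a ∈ F_p`, `β = α + a ≠ 0` and `β^(p^2 - 1) = 1`, so
`β^n = β^(a0 + a1 p) = (α + a)^a0 (α^p + a)^a1` (exponents congruent modulo `p^2 - 1`). Hence
`0 = aeval α (SS p n) = ∑_a (α + a)^a0 (α^p + a)^a1`, and by `sum_formula` with `n0 = a0`, `n1 = a1`, `n2 = 0`, `x = α`,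
`y = α^p - α`, `z = 0` this is `- C(a1, e) y^e` (only `i = e` has `C(0, e - i) ≠ 0`). But `y ≠ 0` and `e ≤ a1 < p`
(`a1 = e + (p-1) - a0 ≥ e`), so `C(a1, e) ≠ 0` modulo `p`: contradiction. So `natDegree h ≠ 2`.
-/

namespace Pool.Agent.BDN

open Polynomial Finset

private theorem sh_pow {K : Type*} [Monoid K] {x : K} {k m n : ℕ} (hx : x ^ k = 1)
    (h : m ≡ n [MOD k]) : x ^ m = x ^ n := by
  have h1 : ∀ m : ℕ, x ^ m = x ^ (m % k) := by
    intro m
    conv_lhs => rw [← Nat.div_add_mod m k]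
    rw [pow_add, pow_mul, hx, one_pow, one_mul]
  rw [h1 m, h1 n]
  have h2 : m % k = n % k := h
  rw [h2]

private theorem sh_prime (p : ℕ) [Fact p.Prime] {K : Type*} [Field K] [Algebra (ZMod p) K] {x : K}
    (hx : x ^ p = x) : ∃ a : ZMod p, x = algebraMap (ZMod p) K a := by
  classical
  by_contra hcon
  have hp := (Fact.out : p.Prime)
  have hinj : Function.Injective (algebraMap (ZMod p) K) := (algebraMap (ZMod p) K).injective
  set Z : Finset K := insert x (univ.image (algebraMap (ZMod p) K)) with hZ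
  have h1 : Z.card = p + 1 := by
    rw [hZ, card_insert_of_notMem, card_image_of_injective _ hinj, card_univ, ZMod.card]
    intro h
    obtain ⟨a, _, ha⟩ := mem_image.1 h
    exact hcon ⟨a, ha.symm⟩
  have hne : (X ^ p - X : K[X]) ≠ 0 := FiniteField.X_pow_card_sub_X_ne_zero K hp.one_lt
  have h2 : Z.val ⊆ (X ^ p - X : K[X]).roots := by
    intro y hy
    rw [mem_roots hne, IsRoot.def, eval_sub, eval_pow, eval_X, sub_eq_zero]
    have hy' : y ∈ Z := hy
    rw [hZ, mem_insert, mem_image] at hy'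
    rcases hy' with rfl | ⟨a, _, rfl⟩
    · exact hx
    · rw [← map_pow, ZMod.pow_card]
  have h3 := card_le_degree_of_subset_roots h2
  rw [FiniteField.X_pow_card_sub_X_natDegree_eq K hp.one_lt, h1] at h3
  omega

theorem out_two (p n e a0 a1 : ℕ) (hp : p.Prime) (he : 1 ≤ e) (hep : e + 1 < p) (ha0 : a0 < p)
    (ha1 : a1 < p) (hs : a0 + a1 = e + (p - 1)) (hmod : n ≡ a0 + a1 * p [MOD (p ^ 2 - 1)]) :
    Out p n 2 := by
  intro hF h hirr hdvd
  by_contra hcon
  rw [not_or, not_le, not_lt] at hcon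
  have hdeg : h.natDegree = 2 := by omega
  have hFI : Fact (Irreducible h) := ⟨hirr⟩
  have hh0 : h ≠ 0 := hirr.ne_zero
  set α : AdjoinRoot h := AdjoinRoot.root h with hα
  have hfin : Module.Finite (ZMod p) (AdjoinRoot h) := (AdjoinRoot.powerBasis hh0).finite
  have hrank : Module.finrank (ZMod p) (AdjoinRoot h) = 2 := by
    rw [(AdjoinRoot.powerBasis hh0).finrank, AdjoinRoot.powerBasis_dim, hdeg]
  have hfi : Finite (AdjoinRoot h) := Module.finite_of_finite (ZMod p)
  have hft : Fintype (AdjoinRoot h) := Fintype.ofFinite _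
  have hcard : Fintype.card (AdjoinRoot h) = p ^ 2 := by
    rw [← Nat.card_eq_fintype_card, Module.natCard_eq_pow_finrank (K := ZMod p), hrank,
      Nat.card_zmod]
  have hchar : CharP (AdjoinRoot h) p :=
    charP_of_injective_algebraMap (algebraMap (ZMod p) (AdjoinRoot h)).injective p
  have hnp : ∀ a : ZMod p, α ≠ algebraMap (ZMod p) (AdjoinRoot h) a := by
    intro a ha
    have h1 : AdjoinRoot.mk h (X - C a) = 0 := by
      rw [map_sub, AdjoinRoot.mk_X, AdjoinRoot.mk_C, sub_eq_zero]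
      exact ha
    rw [AdjoinRoot.mk_eq_zero] at h1
    have h2 := natDegree_le_of_dvd h1 (X_sub_C_ne_zero a)
    rw [natDegree_X_sub_C, hdeg] at h2
    omega
  have hy : α ^ p - α ≠ 0 := by
    intro h1
    obtain ⟨a, ha⟩ := sh_prime p (sub_eq_zero.1 h1)
    exact hnp a ha
  have hz : ∑ a : ZMod p, (α + algebraMap (ZMod p) (AdjoinRoot h) a) ^ n = 0 := by
    have h1 : aeval α (SS p n) = 0 := by
      rw [hα, AdjoinRoot.aeval_eq, AdjoinRoot.mk_eq_zero]
      exact hdvd
    unfold SS at h1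
    rw [map_sum] at h1
    rw [← h1]
    refine sum_congr rfl fun a _ => ?_
    rw [map_pow, map_add, aeval_X, aeval_C]
  have hterm : ∀ a : ZMod p, (α + algebraMap (ZMod p) (AdjoinRoot h) a) ^ n =
      (α + algebraMap (ZMod p) (AdjoinRoot h) a) ^ a0 *
        (α + (α ^ p - α) + algebraMap (ZMod p) (AdjoinRoot h) a) ^ a1 *
        (α + (α ^ p - α) + 0 + algebraMap (ZMod p) (AdjoinRoot h) a) ^ 0 := by
    intro a
    have hb : α + algebraMap (ZMod p) (AdjoinRoot h) a ≠ 0 := by
      intro h1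
      apply hnp (-a)
      rw [map_neg]
      exact eq_neg_of_add_eq_zero_left h1
    have h1 : (α + algebraMap (ZMod p) (AdjoinRoot h) a) ^ (p ^ 2 - 1) = 1 := by
      rw [← hcard]
      exact FiniteField.pow_card_sub_one_eq_one _ hb
    rw [sh_pow h1 hmod, pow_add, mul_comm a1 p, pow_mul, pow_zero, mul_one]
    have h2 : (α + algebraMap (ZMod p) (AdjoinRoot h) a) ^ p =
        α + (α ^ p - α) + algebraMap (ZMod p) (AdjoinRoot h) a := by
      rw [add_pow_char, ← map_pow, ZMod.pow_card]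
      ring
    rw [h2]
  rw [sum_congr rfl fun a _ => hterm a] at hz
  rw [sum_formula p a0 a1 0 e hep (by omega) α (α ^ p - α) 0] at hz
  rw [sum_range_succ, sum_eq_zero] at hz
  · rw [Nat.sub_self, Nat.choose_self, Nat.cast_one, mul_one, pow_zero, mul_one, zero_add,
      neg_eq_zero] at hz
    rcases mul_eq_zero.1 hz with h1 | h1
    · rw [CharP.cast_eq_zero_iff (AdjoinRoot h) p] at h1
      have h2 : e ≤ a1 := by omega
      have h3 : a1.choose e ∣ a1.factorial :=
        ⟨e.factorial * (a1 - e).factorial, by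
          rw [← mul_assoc]
          exact (Nat.choose_mul_factorial_mul_factorial h2).symm⟩
      have h4 := (hp.dvd_factorial).1 (h1.trans h3)
      omega
    · exact hy (pow_eq_zero_iff (by omega) |>.1 h1)
  · intro i hi
    rw [Nat.choose_eq_zero_of_lt (show 0 < e - i by
      have := mem_range.1 hi
      omega)]
    simp

end Pool.Agent.BDN
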