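import Mathlib
import Pool.Agent.BDN.SH

/-!
BDN-SI. The exceptional set in the wide range `N^0.01 < p ≤ N^0.495`.

PLAN. Fix `p` (`≥ 3`, `e + 1 < p`) and `e` even, `2 ≤ e ≤ (log N)^0.5`. Let `n ≡ e` modulo `p - 1`. Write
`n % (p^2 - 1) = a0 + a1 p` with `a0, a1 < p` (digits in base `p` of a number `< p^2 - 1`). Modulo `p - 1`:
`a0 + a1 ≡ n ≡ e`, and `0 ≤ a0 + a1 ≤ 2 (p - 1)`, so `a0 + a1 = e` or `e + (p - 1)`
(`e + 2(p-1) > 2 (p-1)`). In the second case `out_two` gives `Out p n 2`. Exceptional set `B(p,e)`: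
 (i) `a0 + a1 = e`: `n` lies in one of the `e + 1` classes `a0 + (e - a0) p` modulo `p^2 - 1`: at most
     `(e + 1) (N/(p^2 - 1) + 1)` integers `n ≤ N`;
 (ii) `n % p < e` and `n ≡ e` modulo `p - 1`: `e` classes modulo `p (p - 1)` (Chinese remainder): at most `e (N/(p(p-1)) + 1)`.
Sum over the `p ∈ Rg N .01 .495` and the `e ≤ (log N)^.5`:
`≤ (log N)^.5 · 3 (log N)^.5 · ∑_p (2 N/p^2·... + 1) ≤ 12 log N (N · N^(-.01)·2 + N^.495) ≤ N^.999`
(`∑_{p > P} 1/p^2 ≤ 2/P`).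
-/

namespace Pool.Agent.BDN

open Polynomial Finset

private theorem cnt_mod (N m r : ℕ) :
    ((Icc 1 N).filter (fun n => n % m = r)).card ≤ N / m + 1 := by
  rw [← Finset.card_range (N / m + 1)]
  refine Finset.card_le_card_of_injOn (fun n => n / m) ?_ ?_
  · intro n hn
    rw [Finset.mem_coe, Finset.mem_filter, Finset.mem_Icc] at hn
    rw [Finset.mem_coe, Finset.mem_range]
    exact Nat.lt_succ_of_le (Nat.div_le_div_right hn.1.2)
  · intro n hn n' hn' h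
    rw [Finset.mem_coe, Finset.mem_filter] at hn hn'
    have h1 : n / m = n' / m := h
    rw [← Nat.div_add_mod n m, ← Nat.div_add_mod n' m, h1, hn.2, hn'.2]

private theorem cnt_two (N p e : ℕ) (hp : 2 ≤ p) :
    ((Icc 1 N).filter (fun n => n ≡ e [MOD (p - 1)] ∧ n % p < e)).card ≤
      e * (N / (p * (p - 1)) + 1) := by
  have hc : (range e ×ˢ range (N / (p * (p - 1)) + 1)).card = e * (N / (p * (p - 1)) + 1) := by
    rw [Finset.card_product, Finset.card_range, Finset.card_range]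
  rw [← hc]
  refine Finset.card_le_card_of_injOn (fun n => (n % p, n / (p * (p - 1)))) ?_ ?_
  · intro n hn
    rw [Finset.mem_coe, Finset.mem_filter, Finset.mem_Icc] at hn
    rw [Finset.mem_coe, Finset.mem_product, Finset.mem_range, Finset.mem_range]
    exact ⟨hn.2.2, Nat.lt_succ_of_le (Nat.div_le_div_right hn.1.2)⟩
  · intro n hn n' hn' h
    rw [Finset.mem_coe, Finset.mem_filter] at hn hn'
    obtain ⟨h1, h2⟩ := Prod.ext_iff.mp h
    have h1' : n % p = n' % p := h1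
    have h2' : n / (p * (p - 1)) = n' / (p * (p - 1)) := h2
    have hcop : Nat.Coprime p (p - 1) := by
      have := Nat.coprime_self_add_right (m := p - 1) (n := 1)
      obtain ⟨q, rfl⟩ : ∃ q, p = q + 1 := ⟨p - 1, by omega⟩
      rw [Nat.add_sub_cancel]
      exact Nat.coprime_self_add_left.mpr (Nat.coprime_one_left q) |>.symm.symm
    have h3 : n ≡ n' [MOD p * (p - 1)] :=
      (Nat.modEq_and_modEq_iff_modEq_mul hcop).mp ⟨h1', hn.2.1.trans hn'.2.1.symm⟩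
    have h4 : n % (p * (p - 1)) = n' % (p * (p - 1)) := h3
    rw [← Nat.div_add_mod n (p * (p - 1)), ← Nat.div_add_mod n' (p * (p - 1)), h2', h4]

private def BB (N p e : ℕ) : Finset ℕ :=
  ((Icc 1 N).filter (fun n => n ≡ e [MOD (p - 1)] ∧ n % p < e)) ∪
    (range (e + 1)).biUnion (fun a => (Icc 1 N).filter (fun n => n % (p ^ 2 - 1) = a + (e - a) * p))

private theorem BB_card (N p e : ℕ) (hp : 2 ≤ p) :
    ((BB N p e).card : ℝ) ≤ (2 * e + 1) * (2 * N * (1 / (p : ℝ) ^ 2) + 1) := by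
  have h1 : (BB N p e).card ≤ e * (N / (p * (p - 1)) + 1) + (e + 1) * (N / (p ^ 2 - 1) + 1) := by
    unfold BB
    refine (Finset.card_union_le _ _).trans (Nat.add_le_add (cnt_two N p e hp) ?_)
    refine Finset.card_biUnion_le.trans ?_
    calc ∑ a ∈ range (e + 1), ((Icc 1 N).filter (fun n => n % (p ^ 2 - 1) = a + (e - a) * p)).card
        ≤ ∑ _a ∈ range (e + 1), (N / (p ^ 2 - 1) + 1) :=
          Finset.sum_le_sum fun a _ => cnt_mod N _ _
      _ = (e + 1) * (N / (p ^ 2 - 1) + 1) := by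
          rw [Finset.sum_const, Finset.card_range, smul_eq_mul]
  have hpr : (2 : ℝ) ≤ (p : ℝ) := by exact_mod_cast hp
  have hN : (0 : ℝ) ≤ (N : ℝ) := Nat.cast_nonneg N
  have hp2 : (0 : ℝ) < (p : ℝ) ^ 2 := by positivity
  have e1 : ((N / (p * (p - 1)) : ℕ) : ℝ) ≤ 2 * N * (1 / (p : ℝ) ^ 2) := by
    refine Nat.cast_div_le.trans ?_
    have h2 : ((p * (p - 1) : ℕ) : ℝ) = (p : ℝ) * ((p : ℝ) - 1) := by
      rw [Nat.cast_mul, Nat.cast_sub (by omega), Nat.cast_one]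
    have h3 : (p : ℝ) ^ 2 ≤ 2 * ((p : ℝ) * ((p : ℝ) - 1)) := by nlinarith
    rw [h2, mul_one_div, div_le_div_iff₀ (by nlinarith) hp2]
    have h4 := mul_le_mul_of_nonneg_left h3 hN
    linarith
  have e2 : ((N / (p ^ 2 - 1) : ℕ) : ℝ) ≤ 2 * N * (1 / (p : ℝ) ^ 2) := by
    refine Nat.cast_div_le.trans ?_
    have h2 : ((p ^ 2 - 1 : ℕ) : ℝ) = (p : ℝ) ^ 2 - 1 := by
      rw [Nat.cast_sub (Nat.one_le_pow _ _ (by omega)), Nat.cast_pow, Nat.cast_one]
    have h3 : (p : ℝ) ^ 2 ≤ 2 * ((p : ℝ) ^ 2 - 1) := by nlinarith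
    rw [h2, mul_one_div, div_le_div_iff₀ (by nlinarith) hp2]
    have h4 := mul_le_mul_of_nonneg_left h3 hN
    linarith
  have h3 : ((BB N p e).card : ℝ) ≤ (e : ℝ) * (((N / (p * (p - 1)) : ℕ) : ℝ) + 1) +
      ((e : ℝ) + 1) * (((N / (p ^ 2 - 1) : ℕ) : ℝ) + 1) := by
    exact_mod_cast h1
  have he : (0 : ℝ) ≤ (e : ℝ) := Nat.cast_nonneg e
  have h4 : (e : ℝ) * (((N / (p * (p - 1)) : ℕ) : ℝ) + 1) ≤
      (e : ℝ) * (2 * N * (1 / (p : ℝ) ^ 2) + 1) := mul_le_mul_of_nonneg_left (by linarith) he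
  have h5 : ((e : ℝ) + 1) * (((N / (p ^ 2 - 1) : ℕ) : ℝ) + 1) ≤
      ((e : ℝ) + 1) * (2 * N * (1 / (p : ℝ) ^ 2) + 1) :=
    mul_le_mul_of_nonneg_left (by linarith) (by linarith)
  linarith

private theorem digits {N p e n : ℕ} (hp : p.Prime) (he2 : 2 ≤ e) (hep : e + 1 < p)
    (hn : n ∈ Icc 1 N) (hB : n ∉ BB N p e) (hmod : n ≡ e [MOD (p - 1)]) :
    e ≤ n % p ∧ Out p n 2 := by
  unfold BB at hB
  rw [Finset.mem_union, not_or] at hB
  obtain ⟨hB1, hB2⟩ := hB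
  constructor
  · by_contra hc
    exact hB1 (Finset.mem_filter.mpr ⟨hn, hmod, by omega⟩)
  · have hp2 : p ^ 2 = p * p := sq p
    have hpp : 4 ≤ p := by omega
    have hbig : 4 * p ≤ p * p := Nat.mul_le_mul_right p hpp
    have hfac : p ^ 2 - 1 = (p - 1) * (p + 1) := by
      obtain ⟨q, rfl⟩ : ∃ q, p = q + 1 := ⟨p - 1, by omega⟩
      rw [Nat.add_sub_cancel]
      have : (q + 1) ^ 2 = q * (q + 1 + 1) + 1 := by ring
      rw [this, Nat.add_sub_cancel]
    set r := n % (p ^ 2 - 1) with hr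
    have hrlt : r < p ^ 2 - 1 := Nat.mod_lt _ (by omega)
    set a0 := r % p with ha0
    set a1 := r / p with ha1
    have hdig : r = a0 + a1 * p := by
      have := Nat.mod_add_div r p
      rw [mul_comm p] at this
      exact this.symm
    have ha0p : a0 < p := Nat.mod_lt _ (by omega)
    have ha1p : a1 < p := by
      rw [ha1]
      exact Nat.div_lt_of_lt_mul (by omega)
    have hnr : n ≡ r [MOD (p ^ 2 - 1)] := (Nat.mod_modEq n _).symm
    have hnr' : n ≡ r [MOD (p - 1)] := by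
      rw [hfac] at hnr
      exact hnr.of_mul_right _
    have hp1 : p ≡ 1 [MOD (p - 1)] := by
      have h1 : (p - 1) + 1 ≡ 0 + 1 [MOD (p - 1)] := Nat.ModEq.add_right 1 (by
        rw [Nat.modEq_zero_iff_dvd])
      rw [Nat.sub_add_cancel (by omega), zero_add] at h1
      exact h1
    have hsum : a0 + a1 ≡ e [MOD (p - 1)] := by
      have h1 : a0 + a1 * p ≡ a0 + a1 * 1 [MOD (p - 1)] :=
        Nat.ModEq.add_left a0 (hp1.mul_left a1)
      rw [mul_one, ← hdig] at h1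
      exact h1.symm.trans (hnr'.symm.trans hmod)
    have hcase : a0 + a1 = e ∨ a0 + a1 = e + (p - 1) := by
      have hemod : e % (p - 1) = e := Nat.mod_eq_of_lt (by omega)
      have h1 : (a0 + a1) % (p - 1) = e := by
        rw [← hemod]
        exact hsum
      have h2 := Nat.div_add_mod (a0 + a1) (p - 1)
      rw [h1] at h2
      have hq : (a0 + a1) / (p - 1) < 2 := by
        rw [Nat.div_lt_iff_lt_mul (by omega)]
        by_contra hc
        have h3 : a0 + a1 = 2 * (p - 1) := by omega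
        rw [h3, Nat.mul_mod_left] at h1
        omega
      generalize (a0 + a1) / (p - 1) = k at h2 hq
      rcases (by omega : k = 0 ∨ k = 1) with h3 | h3
      · rw [h3, mul_zero, zero_add] at h2
        exact Or.inl h2.symm
      · rw [h3, mul_one] at h2
        exact Or.inr (h2.symm.trans (Nat.add_comm _ _))
    rcases hcase with h | h
    · exfalso
      apply hB2
      rw [Finset.mem_biUnion]
      have h0 : a0 ≤ e := h ▸ Nat.le_add_right a0 a1
      refine ⟨a0, Finset.mem_range.mpr (Nat.lt_succ_of_le h0), Finset.mem_filter.mpr ⟨hn, ?_⟩⟩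
      have h1 : e - a0 = a1 := by rw [← h, Nat.add_sub_cancel_left]
      rw [h1]
      exact hdig
    · refine out_two p n e a0 a1 hp (by omega) hep ha0p ha1p h ?_
      rw [← hdig]
      exact hnr

open Filter in
private theorem asym : ∃ N0 : ℕ, ∀ N : ℕ, N0 ≤ N → 1 ≤ Real.log N ∧
    30 * Real.log N ^ 3 ≤ (N : ℝ) ^ (9 / 1000 : ℝ) ∧
      Real.log N + 1 < (N : ℝ) ^ (1 / 100 : ℝ) := by
  have h1 : ∀ᶠ x : ℝ in atTop, 1 ≤ Real.log x :=
    Real.tendsto_log_atTop.eventually_ge_atTop 1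
  have h2 : ∀ᶠ x : ℝ in atTop, 30 * Real.log x ^ 3 ≤ x ^ (9 / 1000 : ℝ) := by
    have h3 := (isLittleO_log_rpow_rpow_atTop (3 : ℝ) (show (0 : ℝ) < 9 / 1000 by norm_num)).bound
      (show (0 : ℝ) < 1 / 30 by norm_num)
    filter_upwards [h3, h1, eventually_gt_atTop (0 : ℝ)] with x hx hx1 hx0
    rw [Real.norm_of_nonneg (by positivity), Real.norm_of_nonneg (by positivity)] at hx
    have h4 : Real.log x ^ (3 : ℝ) = Real.log x ^ 3 := by
      rw [← Real.rpow_natCast]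
      norm_num
    rw [h4] at hx
    linarith
  have h5 : ∀ᶠ x : ℝ in atTop, Real.log x + 1 < x ^ (1 / 100 : ℝ) := by
    have h3 := (isLittleO_log_rpow_atTop (show (0 : ℝ) < 1 / 100 by norm_num)).bound
      (show (0 : ℝ) < 1 / 4 by norm_num)
    filter_upwards [h3, h1, eventually_gt_atTop (0 : ℝ)] with x hx hx1 hx0
    rw [Real.norm_of_nonneg (by positivity), Real.norm_of_nonneg (by positivity)] at hx
    linarith
  have h6 := tendsto_natCast_atTop_atTop.eventually ((h1.and h2).and h5)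
  obtain ⟨N0, hN0⟩ := eventually_atTop.mp h6
  exact ⟨N0, fun N hN => ⟨(hN0 N hN).1.1, (hN0 N hN).1.2, (hN0 N hN).2⟩⟩

private theorem mem_Rg {N p : ℕ} {a b : ℝ} (h : p ∈ Rg N a b) :
    p ∈ Icc 1 N ∧ p.Prime ∧ (N : ℝ) ^ a < p ∧ (p : ℝ) ≤ (N : ℝ) ^ b := by
  unfold Rg at h
  exact Finset.mem_filter.mp h

private theorem Rg_card {N : ℕ} {a b : ℝ} : ((Rg N a b).card : ℝ) ≤ (N : ℝ) ^ b := by
  have h1 : Rg N a b ⊆ Icc 1 ⌊(N : ℝ) ^ b⌋₊ := by
    intro p hp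
    obtain ⟨h1, -, -, h2⟩ := mem_Rg hp
    rw [Finset.mem_Icc] at h1 ⊢
    exact ⟨h1.1, Nat.le_floor h2⟩
  have h2 := Finset.card_le_card h1
  rw [Nat.card_Icc, Nat.add_sub_cancel] at h2
  calc ((Rg N a b).card : ℝ) ≤ ((⌊(N : ℝ) ^ b⌋₊ : ℕ) : ℝ) := by exact_mod_cast h2
    _ ≤ (N : ℝ) ^ b := Nat.floor_le (by positivity)

private theorem Rg_sum {N : ℕ} (hN : 1 ≤ N) {a b : ℝ} :
    ∑ p ∈ Rg N a b, 1 / (p : ℝ) ^ 2 ≤ (N : ℝ) ^ (-a) * (1 + Real.log N) := by
  have hN0 : (0 : ℝ) < (N : ℝ) := by exact_mod_cast hN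
  have h1 : ∀ p ∈ Rg N a b, 1 / (p : ℝ) ^ 2 ≤ (N : ℝ) ^ (-a) * (p : ℝ)⁻¹ := by
    intro p hp
    obtain ⟨-, -, h1, -⟩ := mem_Rg hp
    have h2 : (0 : ℝ) < (N : ℝ) ^ a := Real.rpow_pos_of_pos hN0 a
    have h3 : (0 : ℝ) < (p : ℝ) := h2.trans h1
    rw [Real.rpow_neg hN0.le, sq, one_div, mul_inv]
    exact mul_le_mul_of_nonneg_right (inv_anti₀ h2 h1.le) (by positivity)
  have h2 : ∑ p ∈ Icc 1 N, (p : ℝ)⁻¹ ≤ 1 + Real.log N := by
    have h3 := harmonic_le_one_add_log N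
    rw [harmonic_eq_sum_Icc] at h3
    push_cast at h3
    exact h3
  calc ∑ p ∈ Rg N a b, 1 / (p : ℝ) ^ 2 ≤ ∑ p ∈ Rg N a b, (N : ℝ) ^ (-a) * (p : ℝ)⁻¹ :=
        Finset.sum_le_sum h1
    _ ≤ ∑ p ∈ Icc 1 N, (N : ℝ) ^ (-a) * (p : ℝ)⁻¹ :=
        Finset.sum_le_sum_of_subset_of_nonneg (fun p hp => (mem_Rg hp).1)
          fun p _ _ => by positivity
    _ = (N : ℝ) ^ (-a) * ∑ p ∈ Icc 1 N, (p : ℝ)⁻¹ := by rw [Finset.mul_sum]
    _ ≤ (N : ℝ) ^ (-a) * (1 + Real.log N) := mul_le_mul_of_nonneg_left h2 (by positivity)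

theorem wide_exc : ∃ N0 : ℕ, ∀ N : ℕ, N0 ≤ N → ∃ E : Finset ℕ,
    (E.card : ℝ) ≤ (N : ℝ) ^ (999 / 1000 : ℝ) ∧ ∀ n ∈ Icc 1 N, n ∉ E →
      ∀ p ∈ Rg N (1 / 100) (495 / 1000), ∀ e : ℕ, Even e → 2 ≤ e →
        (e : ℝ) ≤ Real.log N ^ (1 / 2 : ℝ) → n ≡ e [MOD (p - 1)] → e ≤ n % p ∧ Out p n 2 := by
  classical
  obtain ⟨N0, hN0⟩ := asym
  refine ⟨max N0 1, fun N hN => ?_⟩
  obtain ⟨hL1, hL3, hL4⟩ := hN0 N ((le_max_left _ _).trans hN)
  have hN1 : 1 ≤ N := (le_max_right _ _).trans hN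
  have hNr : (1 : ℝ) ≤ (N : ℝ) := by exact_mod_cast hN1
  have hNp : (0 : ℝ) < (N : ℝ) := by linarith
  set L := Real.log N with hL
  have hsqrt : L ^ (1 / 2 : ℝ) ≤ L := by
    calc L ^ (1 / 2 : ℝ) ≤ L ^ (1 : ℝ) := Real.rpow_le_rpow_of_exponent_le hL1 (by norm_num)
      _ = L := Real.rpow_one L
  set M := ⌊L ^ (1 / 2 : ℝ)⌋₊ with hM
  have hMr : (M : ℝ) ≤ L := (Nat.floor_le (by positivity)).trans hsqrt
  refine ⟨(Rg N (1 / 100) (495 / 1000)).biUnion fun p => (range (M + 1)).biUnion fun e =>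
    BB N p e, ?_, ?_⟩
  · have h1 : (((Rg N (1 / 100) (495 / 1000)).biUnion fun p => (range (M + 1)).biUnion fun e =>
        BB N p e).card : ℝ) ≤ ∑ p ∈ Rg N (1 / 100) (495 / 1000),
          6 * L ^ 2 * (2 * N * (1 / (p : ℝ) ^ 2) + 1) := by
      have h2 : ((Rg N (1 / 100) (495 / 1000)).biUnion fun p => (range (M + 1)).biUnion fun e =>
          BB N p e).card ≤ ∑ p ∈ Rg N (1 / 100) (495 / 1000), ∑ e ∈ range (M + 1),
            (BB N p e).card :=
        Finset.card_biUnion_le.trans (Finset.sum_le_sum fun p _ => Finset.card_biUnion_le)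
      have h3 : (((Rg N (1 / 100) (495 / 1000)).biUnion fun p => (range (M + 1)).biUnion fun e =>
          BB N p e).card : ℝ) ≤ ∑ p ∈ Rg N (1 / 100) (495 / 1000), ∑ e ∈ range (M + 1),
            ((BB N p e).card : ℝ) := by exact_mod_cast h2
      refine h3.trans (Finset.sum_le_sum fun p hp => ?_)
      have hp2 : 2 ≤ p := (mem_Rg hp).2.1.two_le
      have hpos : (0 : ℝ) ≤ 2 * N * (1 / (p : ℝ) ^ 2) + 1 := by positivity
      have hM0 : (0 : ℝ) ≤ (M : ℝ) := Nat.cast_nonneg M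
      calc ∑ e ∈ range (M + 1), ((BB N p e).card : ℝ)
          ≤ ∑ _e ∈ range (M + 1), (2 * (M : ℝ) + 1) * (2 * N * (1 / (p : ℝ) ^ 2) + 1) := by
            refine Finset.sum_le_sum fun e he => (BB_card N p e hp2).trans ?_
            refine mul_le_mul_of_nonneg_right ?_ hpos
            have : (e : ℝ) ≤ (M : ℝ) := by
              exact_mod_cast Nat.lt_succ_iff.mp (Finset.mem_range.mp he)
            linarith
        _ = ((M : ℝ) + 1) * (2 * (M : ℝ) + 1) * (2 * N * (1 / (p : ℝ) ^ 2) + 1) := by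
            rw [Finset.sum_const, Finset.card_range, nsmul_eq_mul]
            push_cast
            ring
        _ ≤ 6 * L ^ 2 * (2 * N * (1 / (p : ℝ) ^ 2) + 1) := by
            refine mul_le_mul_of_nonneg_right ?_ hpos
            have e1 : (M : ℝ) + 1 ≤ 2 * L := by linarith
            have e2 : 2 * (M : ℝ) + 1 ≤ 3 * L := by linarith
            calc ((M : ℝ) + 1) * (2 * (M : ℝ) + 1) ≤ (2 * L) * (3 * L) :=
                  mul_le_mul e1 e2 (by positivity) (by positivity)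
              _ = 6 * L ^ 2 := by ring
    refine h1.trans ?_
    rw [← Finset.mul_sum, Finset.sum_add_distrib, ← Finset.mul_sum, Finset.sum_const, nsmul_eq_mul,
      mul_one]
    have h2 := Rg_sum hN1 (a := 1 / 100) (b := 495 / 1000)
    have h3 := Rg_card (N := N) (a := 1 / 100) (b := 495 / 1000)
    rw [← hL] at h2
    have h4 : (N : ℝ) ^ (495 / 1000 : ℝ) ≤ (N : ℝ) ^ (99 / 100 : ℝ) :=
      Real.rpow_le_rpow_of_exponent_le hNr (by norm_num)
    have h5 : (N : ℝ) * (N : ℝ) ^ (-(1 / 100) : ℝ) = (N : ℝ) ^ (99 / 100 : ℝ) := by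
      nth_rewrite 1 [← Real.rpow_one (N : ℝ)]
      rw [← Real.rpow_add hNp]
      norm_num
    set Z := (N : ℝ) ^ (99 / 100 : ℝ) with hZ
    have hZ0 : 0 < Z := Real.rpow_pos_of_pos hNp _
    have h6 : 2 * (N : ℝ) * ∑ p ∈ Rg N (1 / 100) (495 / 1000), 1 / (p : ℝ) ^ 2 ≤ 4 * L * Z := by
      calc 2 * (N : ℝ) * ∑ p ∈ Rg N (1 / 100) (495 / 1000), 1 / (p : ℝ) ^ 2
          ≤ 2 * (N : ℝ) * ((N : ℝ) ^ (-(1 / 100) : ℝ) * (1 + L)) :=
            mul_le_mul_of_nonneg_left h2 (by positivity)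
        _ = 2 * (1 + L) * ((N : ℝ) * (N : ℝ) ^ (-(1 / 100) : ℝ)) := by ring
        _ = 2 * (1 + L) * Z := by rw [h5]
        _ ≤ 4 * L * Z := mul_le_mul_of_nonneg_right (by linarith) hZ0.le
    have h7 : 2 * (N : ℝ) * ∑ p ∈ Rg N (1 / 100) (495 / 1000), 1 / (p : ℝ) ^ 2 +
        ((Rg N (1 / 100) (495 / 1000)).card : ℝ) ≤ 5 * L * Z := by
      have : Z ≤ L * Z := le_mul_of_one_le_left hZ0.le hL1
      linarith
    calc 6 * L ^ 2 * (2 * (N : ℝ) * ∑ p ∈ Rg N (1 / 100) (495 / 1000), 1 / (p : ℝ) ^ 2 +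
          ((Rg N (1 / 100) (495 / 1000)).card : ℝ)) ≤ 6 * L ^ 2 * (5 * L * Z) :=
          mul_le_mul_of_nonneg_left h7 (by positivity)
      _ = (30 * L ^ 3) * Z := by ring
      _ ≤ (N : ℝ) ^ (9 / 1000 : ℝ) * Z := mul_le_mul_of_nonneg_right hL3 hZ0.le
      _ = (N : ℝ) ^ (999 / 1000 : ℝ) := by
          rw [hZ, ← Real.rpow_add hNp]
          norm_num
  · intro n hn hnE p hp e _ he2 heL hmod
    have heM : e ≤ M := Nat.le_floor heL
    have hB : n ∉ BB N p e := by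
      intro hc
      apply hnE
      rw [Finset.mem_biUnion]
      refine ⟨p, hp, ?_⟩
      rw [Finset.mem_biUnion]
      exact ⟨e, Finset.mem_range.mpr (by omega), hc⟩
    have hep : e + 1 < p := by
      have h1 : (e : ℝ) + 1 < (p : ℝ) := by
        have h2 := (mem_Rg hp).2.2.1
        linarith
      exact_mod_cast h1
    exact digits (mem_Rg hp).2.1 he2 hep hn hB hmod

end Pool.Agent.BDN
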