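import Mathlib
import Pool.Agent.BDN.CE
import Pool.Agent.BDN.SB
import Pool.Agent.BDN.SG
import Pool.Agent.BDN.SI
import Pool.Agent.BDN.DIV
import Pool.Agent.BDN.UA

/-!
BDN-UN. Use of the concentration and of the structure theorem.

PLAN. `W = Ww w`, `L = log N`. `fam_wts` gives `Wts`; `Rg N .335 .495 ⊆ Rg N .01 .495`, so `Prs` holds, and `conc` applies: apart from
`≤ C C0/(w η^2) N/W` integers `n ∈ NN N W c`, the set `E(n) = {e : ∃ p, (p,e) ∈ G, n ≡ e (p-1)}` has at least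
`L^(1/1000) > 0` elements. Exclude also the exceptional set `E` of `narrow_exc` (for `A`; `wide_exc` in the second theorem):
`≤ N^.999 ≤ C C0/(w η^2) N/W` for `N` large. So the constant is `C2 = 2 C`. `n` is even (`n % W = c`, `W`, `c` even), and
`e ≤ L^.4925 < N/2 < n`.
`use_narrow`: suppose such an `n` has `Fac n D`, `t ≤ D ≤ L^A`. For each `e ∈ E(n)` (with its `p`): `struct` with `F = D` (`D < p - 1` since
`L^A < N^.335 - 1`, `e + 2 ≤ p`, `e ≤ n % p`, `Out p n D` from `narrow_exc`) gives `k` with `|D - e k| ≤ rp p e < t`, and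
`D + 1 < e → D ≤ rp p e < t`, impossible, so `D + 1 ≥ e`. If `k = 0`: `D ≤ rp < t`: impossible. So `k ≥ 1`, and `few_dvd` (for `A`, `t`)
gives `#E(n) < L^(1/1000)`: contradiction.
`use_wide`: one pair `(p, e)` suffices (`E(n)` nonempty as `L^(1/1000) > 0`): `Fac n 2`, `struct` with `D = F = 2`, `Out p n 2` from
`wide_exc`; `e ≥ 4` (`fam_bounds`), so `D + 1 < e` and `2 ≤ rp p e = 0`: contradiction. (`2 < p - 1`: `p > N^.01`.)
-/

namespace Pool.Agent.BDN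

open Finset

private theorem asy (A K : ℝ) : ∃ N0 : ℕ, ∀ N : ℕ, N0 ≤ N → 1 ≤ Real.log N ∧
    Real.log N ^ A ≤ 1 / 2 * (N : ℝ) ^ (335 / 1000 : ℝ) ∧
    Real.log N ^ (4925 / 10000 : ℝ) ≤ 1 / 4 * (N : ℝ) ^ (1 / 100 : ℝ) ∧
    4 ≤ (N : ℝ) ^ (1 / 100 : ℝ) ∧ K ≤ (N : ℝ) ^ (1 / 1000 : ℝ) ∧ (1 : ℝ) ≤ N := by
  have h1 := Real.tendsto_log_atTop.eventually_ge_atTop (1 : ℝ)
  have h2 := (isLittleO_log_rpow_rpow_atTop A (by norm_num : (0 : ℝ) < 335 / 1000)).def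
    (c := 1 / 2) (by norm_num)
  have h3 := (isLittleO_log_rpow_rpow_atTop (4925 / 10000)
    (by norm_num : (0 : ℝ) < 1 / 100)).def (c := 1 / 4) (by norm_num)
  have h4 := (tendsto_rpow_atTop (y := (1 / 100 : ℝ)) (by norm_num)).eventually_ge_atTop 4
  have h5 := (tendsto_rpow_atTop (y := (1 / 1000 : ℝ)) (by norm_num)).eventually_ge_atTop K
  have h6 := Filter.eventually_ge_atTop (1 : ℝ)
  obtain ⟨N0, h⟩ := Filter.eventually_atTop.1 ((tendsto_natCast_atTop_atTop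
    (R := ℝ)).eventually (h1.and (h2.and (h3.and (h4.and (h5.and h6))))))
  refine ⟨N0, fun N hN => ?_⟩
  obtain ⟨g1, g2, g3, g4, g5, g6⟩ := h N hN
  have hN0 : (0 : ℝ) ≤ (N : ℝ) := by linarith
  have hL0 : 0 ≤ Real.log N := by linarith
  rw [Real.norm_of_nonneg (Real.rpow_nonneg hL0 _), Real.norm_of_nonneg (Real.rpow_nonneg hN0 _)]
    at g2 g3
  exact ⟨g1, g2, g3, g4, g5, g6⟩

private theorem cnt {S B E : Finset ℕ} {κ x W : ℝ} (hS : S ⊆ B ∪ E) (hx : 1 ≤ x) (hW : 0 < W)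
    (hκ : 0 < κ) (hB : (B.card : ℝ) ≤ κ * (x / W)) (hE : (E.card : ℝ) ≤ x ^ (999 / 1000 : ℝ))
    (hK : W / κ ≤ x ^ (1 / 1000 : ℝ)) : (S.card : ℝ) ≤ 2 * κ * (x / W) := by
  have hx0 : 0 < x := by linarith
  have h1 : (S.card : ℝ) ≤ B.card + E.card := by
    exact_mod_cast (card_le_card hS).trans (card_union_le _ _)
  have h2 : x ^ (999 / 1000 : ℝ) * x ^ (1 / 1000 : ℝ) = x := by
    rw [← Real.rpow_add hx0]
    norm_num
  have h3 : 0 ≤ x ^ (999 / 1000 : ℝ) := Real.rpow_nonneg hx0.le _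
  have h4 : x ^ (999 / 1000 : ℝ) * (W / κ) ≤ x := by
    calc x ^ (999 / 1000 : ℝ) * (W / κ) ≤ x ^ (999 / 1000 : ℝ) * x ^ (1 / 1000 : ℝ) :=
          mul_le_mul_of_nonneg_left hK h3
      _ = x := h2
  have h5 : x ^ (999 / 1000 : ℝ) ≤ κ * (x / W) := by
    have h6 : κ / W * (x ^ (999 / 1000 : ℝ) * (W / κ)) ≤ κ / W * x :=
      mul_le_mul_of_nonneg_left h4 (by positivity)
    have h7 : κ / W * (x ^ (999 / 1000 : ℝ) * (W / κ)) = x ^ (999 / 1000 : ℝ) := by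
      field_simp
    rw [h7] at h6
    calc x ^ (999 / 1000 : ℝ) ≤ κ / W * x := h6
      _ = κ * (x / W) := by ring
  linarith

private theorem nn_even {N W c n : ℕ} (hW : Even W) (hc : Even c) (hn : n ∈ NN N W c) :
    Even n ∧ n ∈ Icc 1 N ∧ (N : ℝ) / 2 ≤ n := by
  unfold NN at hn
  rw [mem_filter, mem_Ioc] at hn
  obtain ⟨⟨h1, h2⟩, h3⟩ := hn
  refine ⟨?_, mem_Icc.2 ⟨by omega, h2⟩, ?_⟩
  · have h4 := Nat.div_add_mod n W
    rw [h3] at h4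
    rw [← h4]
    exact (hW.mul_right _).add hc
  · have h5 : N ≤ 2 * n := by omega
    have h6 : (N : ℝ) ≤ 2 * n := by exact_mod_cast h5
    linarith

/-- facts on a pair `(p, e)` -/
private theorem pair {N p e n : ℕ} {L : ℝ} (hN : (1 : ℝ) ≤ N) (h4 : 4 ≤ (N : ℝ) ^ (1 / 100 : ℝ))
    (hL1 : 1 ≤ L) (hL : L ^ (4925 / 10000 : ℝ) ≤ 1 / 4 * (N : ℝ) ^ (1 / 100 : ℝ))
    (hp : (N : ℝ) ^ (1 / 100 : ℝ) < p) (he : (e : ℝ) ≤ L ^ (4925 / 10000 : ℝ))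
    (hn : (N : ℝ) / 2 ≤ n) : (e : ℝ) ≤ L ^ (1 / 2 : ℝ) ∧ e + 2 ≤ p ∧ e < n ∧ 2 < p - 1 := by
  have h1 : L ^ (4925 / 10000 : ℝ) ≤ L ^ (1 / 2 : ℝ) :=
    Real.rpow_le_rpow_of_exponent_le hL1 (by norm_num)
  have h2 : (N : ℝ) ^ (1 / 100 : ℝ) ≤ N := by
    calc (N : ℝ) ^ (1 / 100 : ℝ) ≤ (N : ℝ) ^ (1 : ℝ) :=
          Real.rpow_le_rpow_of_exponent_le hN (by norm_num)
      _ = N := Real.rpow_one _
  refine ⟨he.trans h1, ?_, ?_, ?_⟩
  · have h5 : (e : ℝ) + 2 ≤ p := by linarith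
    exact_mod_cast h5
  · have h5 : (e : ℝ) < n := by linarith
    exact_mod_cast h5
  · have h5 : (4 : ℝ) < p := by linarith
    have h6 : 4 < p := by exact_mod_cast h5
    omega

open Classical in
theorem use_narrow : ∃ C2 : ℝ, 0 < C2 ∧ ∀ (A : ℝ) (w t : ℕ) (C0 η : ℝ), 0 < A → 2 ≤ w → 1 ≤ t → 1 ≤ C0 →
    0 < η → ∃ N0 : ℕ, ∀ N : ℕ, N0 ≤ N → ∀ (c e0 : ℕ) (X : ℝ) (I : Finset ℕ) (u : ℕ → ℝ)
    (G : Finset (ℕ × ℕ)), c < Ww w → Even c → Even e0 → Real.log N ≤ X → X ≤ 4 * Real.log N →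
    Fam (Ww w) e0 C0 X I u →
    (∀ x ∈ G, x.1 ∈ Rg N (335 / 1000) (495 / 1000) ∧ x.2 ∈ I ∧ Alw (Ww w) c e0 x.1 ∧ Sim x.1 x.2 ∧
      rp x.1 x.2 < t) → η ≤ mass N u G →
    (((NN N (Ww w) c).filter (fun n => ∃ D : ℕ, t ≤ D ∧ (D : ℝ) ≤ Real.log N ^ A ∧ Fac n D)).card : ℝ) ≤
      C2 * C0 / (w * η ^ 2) * ((N : ℝ) / (Ww w : ℝ)) := by
  classical
  obtain ⟨C, hC, hconc⟩ := conc
  refine ⟨2 * C, by positivity, fun A w t C0 η hA hw ht hC0 hη => ?_⟩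
  have hW0 := ww_pos w
  have hWe := ww_even w hw
  have hWr : (0 : ℝ) < (Ww w : ℝ) := by exact_mod_cast hW0
  have hwr : (0 : ℝ) < (w : ℝ) := by
    have : 0 < w := by omega
    exact_mod_cast this
  have hκ : 0 < C * C0 / (w * η ^ 2) := by positivity
  obtain ⟨N1, h1⟩ := hconc w C0 η hw hC0 hη
  obtain ⟨N2, h2⟩ := narrow_exc A hA
  obtain ⟨N3, h3⟩ := fam_wts
  obtain ⟨N4, h4⟩ := fam_bounds w hw
  obtain ⟨N5, h5⟩ := few_dvd A hA t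
  obtain ⟨N6, h6⟩ := asy A ((Ww w : ℝ) / (C * C0 / (w * η ^ 2)))
  refine ⟨N1 + N2 + N3 + N4 + N5 + N6, fun N hN c e0 X I u G hc hce he0 hX1 hX2 hFam hG hm => ?_⟩
  obtain ⟨a1, a2, a3, a4, a5, a6⟩ := h6 N (by omega)
  obtain ⟨E, hE1, hE2⟩ := h2 N (by omega)
  have hWts := h3 N (by omega) (Ww w) e0 C0 X I u hX1 hX2 hFam
  have hfb := h4 N (by omega) e0 C0 X I u hX1 hX2 he0 hFam
  have hpow : (N : ℝ) ^ (1 / 100 : ℝ) ≤ (N : ℝ) ^ (335 / 1000 : ℝ) :=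
    Real.rpow_le_rpow_of_exponent_le a6 (by norm_num)
  have hRg : ∀ p, p ∈ Rg N (335 / 1000) (495 / 1000) → p.Prime ∧
      (N : ℝ) ^ (335 / 1000 : ℝ) < p ∧ p ∈ Rg N (1 / 100) (495 / 1000) := by
    intro p hp
    unfold Rg at hp ⊢
    rw [mem_filter] at hp ⊢
    exact ⟨hp.2.1, hp.2.2.1, hp.1, hp.2.1, lt_of_le_of_lt hpow hp.2.2.1, hp.2.2.2⟩
  have hPrs : Prs N (Ww w) c e0 I G := fun x hx => by
    obtain ⟨b1, b2, b3, -, -⟩ := hG x hx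
    exact ⟨(hRg _ b1).2.2, b2, b3⟩
  have hbad := h1 N (by omega) c e0 I u G hc hWts hPrs hm
  have hmain := cnt (S := (NN N (Ww w) c).filter
      (fun n => ∃ D : ℕ, t ≤ D ∧ (D : ℝ) ≤ Real.log N ^ A ∧ Fac n D)) (E := E) ?_ a6 hWr hκ hbad
      hE1 a5
  · refine hmain.trans (le_of_eq ?_)
    ring
  · intro n hn
    rw [mem_filter] at hn
    obtain ⟨hnN, D, hD1, hD2, hD3⟩ := hn
    rw [mem_union]
    by_contra hcon
    rw [not_or, mem_filter, not_and, not_lt] at hcon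
    obtain ⟨hc1, hc2⟩ := hcon
    have hc1 := hc1 hnN
    obtain ⟨hne, hnI, hn2⟩ := nn_even hWe hce hnN
    refine absurd (h5 N (by omega) D hD1 hD2 _ ?_) (not_lt.2 hc1)
    intro e he
    rw [mem_image] at he
    obtain ⟨⟨p, e'⟩, hx, rfl⟩ := he
    rw [mem_filter] at hx
    obtain ⟨hxG, hmod⟩ := hx
    obtain ⟨b1, b2, b3, b4, b5⟩ := hG _ hxG
    obtain ⟨d1, d2, d3, d4⟩ := hfb _ b2
    obtain ⟨c1, c2, c3⟩ := hRg _ b1
    change n ≡ e' [MOD (p - 1)] at hmod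
    change p ∈ Rg N (335 / 1000) (495 / 1000) at b1
    change Sim p e' at b4
    change rp p e' < t at b5
    change Even e' at d1
    change 4 ≤ e' at d2
    change (e' : ℝ) ≤ Real.log N ^ (4925 / 10000 : ℝ) at d4
    change p.Prime at c1
    change (N : ℝ) ^ (335 / 1000 : ℝ) < p at c2
    obtain ⟨g1, g2, g3, -⟩ := pair (n := n) a6 a4 a1 a3 (lt_of_le_of_lt hpow c2) d4 hn2
    obtain ⟨k1, k2⟩ := hE2 n hnI hc2 p b1 e' D d1 (by omega) g1 hD2 hmod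
    have hDp : D < p - 1 := by
      have q1 : (D : ℝ) + 1 < p := by linarith
      have q2 : D + 1 < p := by exact_mod_cast q1
      omega
    obtain ⟨⟨k, hk⟩, -⟩ := struct p n e' D D c1 (by omega) d1 g2 hne g3 hmod k1 k2 b4 hD3 le_rfl hDp
    show ∃ k : ℕ, 1 ≤ k ∧ |(D : ℤ) - e' * k| < t
    have b5' : (rp p e' : ℤ) < t := by exact_mod_cast b5
    refine ⟨k, ?_, lt_of_le_of_lt hk b5'⟩
    rcases Nat.eq_zero_or_pos k with h0 | h0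
    · exfalso
      rw [h0, Nat.cast_zero, mul_zero, sub_zero, abs_of_nonneg (Int.natCast_nonneg _)] at hk
      omega
    · exact h0

open Classical in
theorem use_wide : ∃ C2 : ℝ, 0 < C2 ∧ ∀ (w : ℕ) (C0 η : ℝ), 2 ≤ w → 1 ≤ C0 →
    0 < η → ∃ N0 : ℕ, ∀ N : ℕ, N0 ≤ N → ∀ (c e0 : ℕ) (X : ℝ) (I : Finset ℕ) (u : ℕ → ℝ)
    (G : Finset (ℕ × ℕ)), c < Ww w → Even c → Even e0 → Real.log N ≤ X → X ≤ 4 * Real.log N →
    Fam (Ww w) e0 C0 X I u →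
    (∀ x ∈ G, x.1 ∈ Rg N (1 / 100) (495 / 1000) ∧ x.2 ∈ I ∧ Alw (Ww w) c e0 x.1 ∧ Sim x.1 x.2 ∧
      rp x.1 x.2 < 1) → η ≤ mass N u G →
    (((NN N (Ww w) c).filter (fun n => Fac n 2)).card : ℝ) ≤
      C2 * C0 / (w * η ^ 2) * ((N : ℝ) / (Ww w : ℝ)) := by
  classical
  obtain ⟨C, hC, hconc⟩ := conc
  refine ⟨2 * C, by positivity, fun w C0 η hw hC0 hη => ?_⟩
  have hW0 := ww_pos w
  have hWe := ww_even w hw
  have hWr : (0 : ℝ) < (Ww w : ℝ) := by exact_mod_cast hW0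
  have hwr : (0 : ℝ) < (w : ℝ) := by
    have : 0 < w := by omega
    exact_mod_cast this
  have hκ : 0 < C * C0 / (w * η ^ 2) := by positivity
  obtain ⟨N1, h1⟩ := hconc w C0 η hw hC0 hη
  obtain ⟨N2, h2⟩ := wide_exc
  obtain ⟨N3, h3⟩ := fam_wts
  obtain ⟨N4, h4⟩ := fam_bounds w hw
  obtain ⟨N6, h6⟩ := asy 1 ((Ww w : ℝ) / (C * C0 / (w * η ^ 2)))
  refine ⟨N1 + N2 + N3 + N4 + N6, fun N hN c e0 X I u G hc hce he0 hX1 hX2 hFam hG hm => ?_⟩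
  obtain ⟨a1, -, a3, a4, a5, a6⟩ := h6 N (by omega)
  obtain ⟨E, hE1, hE2⟩ := h2 N (by omega)
  have hWts := h3 N (by omega) (Ww w) e0 C0 X I u hX1 hX2 hFam
  have hfb := h4 N (by omega) e0 C0 X I u hX1 hX2 he0 hFam
  have hRg : ∀ p, p ∈ Rg N (1 / 100) (495 / 1000) → p.Prime ∧
      (N : ℝ) ^ (1 / 100 : ℝ) < p := by
    intro p hp
    unfold Rg at hp
    rw [mem_filter] at hp
    exact ⟨hp.2.1, hp.2.2.1⟩
  have hPrs : Prs N (Ww w) c e0 I G := fun x hx => by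
    obtain ⟨b1, b2, b3, -, -⟩ := hG x hx
    exact ⟨b1, b2, b3⟩
  have hbad := h1 N (by omega) c e0 I u G hc hWts hPrs hm
  have hmain := cnt (S := (NN N (Ww w) c).filter (fun n => Fac n 2)) (E := E) ?_ a6 hWr hκ hbad
      hE1 a5
  · refine hmain.trans (le_of_eq ?_)
    ring
  · intro n hn
    rw [mem_filter] at hn
    obtain ⟨hnN, hD3⟩ := hn
    rw [mem_union]
    by_contra hcon
    rw [not_or, mem_filter, not_and, not_lt] at hcon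
    obtain ⟨hc1, hc2⟩ := hcon
    have hc1 := hc1 hnN
    obtain ⟨hne, hnI, hn2⟩ := nn_even hWe hce hnN
    have hL0 : 0 < Real.log N ^ (1 / 1000 : ℝ) := Real.rpow_pos_of_pos (by linarith) _
    have hcard : 0 < ((G.filter (fun x => n ≡ x.2 [MOD (x.1 - 1)])).image Prod.snd).card := by
      have := lt_of_lt_of_le hL0 hc1
      exact_mod_cast this
    obtain ⟨e, he⟩ := card_pos.1 hcard
    rw [mem_image] at he
    obtain ⟨⟨p, e'⟩, hx, rfl⟩ := he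
    rw [mem_filter] at hx
    obtain ⟨hxG, hmod⟩ := hx
    obtain ⟨b1, b2, b3, b4, b5⟩ := hG _ hxG
    obtain ⟨d1, d2, d3, d4⟩ := hfb _ b2
    obtain ⟨c1, c2⟩ := hRg _ b1
    change n ≡ e' [MOD (p - 1)] at hmod
    change p ∈ Rg N (1 / 100) (495 / 1000) at b1
    change Sim p e' at b4
    change rp p e' < 1 at b5
    change Even e' at d1
    change 4 ≤ e' at d2
    change (e' : ℝ) ≤ Real.log N ^ (4925 / 10000 : ℝ) at d4
    change p.Prime at c1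
    change (N : ℝ) ^ (1 / 100 : ℝ) < p at c2
    obtain ⟨g1, g2, g3, g4⟩ := pair (n := n) a6 a4 a1 a3 c2 d4 hn2
    obtain ⟨k1, k2⟩ := hE2 n hnI hc2 p b1 e' d1 (by omega) g1 hmod
    have hfin := (struct p n e' 2 2 c1 (by omega) d1 g2 hne g3 hmod k1 k2 b4 hD3 le_rfl g4).2
      (by omega)
    omega

end Pool.Agent.BDN
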