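import Mathlib
import Pool.Agent.BDN.BK
import Pool.Agent.BDN.AR
import Pool.Agent.BDN.AA
import Pool.Agent.BDN.UN
import Pool.Agent.BDN.MLo

/-!
# BDN-BL: the blocking argument

No divisor of degree exactly `t` (`t = 4, 5, 6`), if the other degrees are rare and an auxiliary class `e0` is rich. At one of the two
scales `⌊(log N)^.4425⌋₊`, `⌊(log N)^.4875⌋₊` most of the `B_e` in the class `c` are irreducible (`two_scale`, `use_narrow` at the
small scale); the family of these `e` (`fam_block`) and `use_narrow` at the scale `N` give the result.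
-/

namespace Pool.Agent.BDN

open Finset

private lemma bl_floor {y : ℝ} (hy : 1 ≤ y) :
    y - 1 ≤ Real.log (⌊Real.exp y⌋₊ : ℝ) ∧ Real.log (⌊Real.exp y⌋₊ : ℝ) ≤ y := by
  have he : 2 ≤ Real.exp y := by
    have := Real.add_one_le_exp y
    linarith
  have h1 : Real.exp y - 1 < (⌊Real.exp y⌋₊ : ℝ) := Nat.sub_one_lt_floor _
  have h2 : (⌊Real.exp y⌋₊ : ℝ) ≤ Real.exp y := Nat.floor_le (by linarith)
  have h3 : (0 : ℝ) < (⌊Real.exp y⌋₊ : ℝ) := by linarith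
  refine ⟨?_, ?_⟩
  · rw [Real.le_log_iff_exp_le h3, Real.exp_sub]
    have h4 : Real.exp y / Real.exp 1 ≤ Real.exp y / 2 := by
      apply div_le_div_of_nonneg_left (by linarith) (by norm_num)
      have := Real.add_one_le_exp (1 : ℝ)
      linarith
    linarith
  · exact (Real.log_le_log h3 h2).trans_eq (Real.log_exp y)

private lemma bl_rpow {x γ : ℝ} (hx : 0 < x) :
    ⌊x ^ γ⌋₊ = ⌊Real.exp (γ * Real.log x)⌋₊ := by
  rw [Real.rpow_def_of_pos hx, mul_comm]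

private lemma mem_flt {α : Type} {p : α → Prop} {inst : DecidablePred p} {s : Finset α} {a : α} :
    a ∈ @Finset.filter α p inst s ↔ a ∈ s ∧ p a := @Finset.mem_filter α p inst s a

private lemma nn_pos {N W c n : ℕ} (h : n ∈ NN N W c) : 1 ≤ n := by
  unfold NN at h
  have := (mem_Ioc.1 (mem_filter.1 h).1).1
  omega

/-- two filters cover a third one -/
private lemma card_cover {A B C : Finset ℕ} (h : ∀ x ∈ A, x ∈ B ∨ x ∈ C) {b c : ℝ}
    (hb : (B.card : ℝ) ≤ b) (hc : (C.card : ℝ) ≤ c) : (A.card : ℝ) ≤ b + c := by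
  classical
  have h1 : A ⊆ B ∪ C := fun x hx => mem_union.2 (h x hx)
  have h2 : A.card ≤ B.card + C.card := (card_le_card h1).trans (card_union_le B C)
  have h3 : (A.card : ℝ) ≤ (B.card : ℝ) + C.card := by exact_mod_cast h2
  linarith

open Classical in
/-- few reducible `B_e` at the scale `M` -/
private lemma bl_red {w t c M : ℕ} {C0 C2 κ : ℝ} (hw : 20 ≤ w)
    (hn : (((NN M (Ww w) c).filter
        (fun n => ∃ D : ℕ, t ≤ D ∧ (D : ℝ) ≤ Real.log M ^ (1 : ℝ) ∧ Fac n D)).card : ℝ) ≤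
      C2 * C0 / (w * (1 / 1000) ^ 2) * ((M : ℝ) / (Ww w : ℝ)))
    (hC : 10 ^ 7 * C2 * C0 ≤ w)
    (hk : (((NN M (Ww w) c).filter
        (fun n => ∃ D : ℕ, 1 ≤ D ∧ D ≤ n / 2 ∧ D ≠ t ∧ Fac n D)).card : ℝ) ≤
      κ * ((M : ℝ) / (Ww w : ℝ))) (hκ : κ ≤ 1 / 10) (ht : (t : ℝ) ≤ Real.log M) :
    (((NN M (Ww w) c).filter (fun e => ¬ Irreducible (Polynomial.bernoulli e))).card : ℝ) ≤
      3 / 10 * ((M : ℝ) / (Ww w : ℝ)) := by
  have hMW : (0 : ℝ) ≤ (M : ℝ) / (Ww w : ℝ) := by positivity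
  have hw0 : (0 : ℝ) < w := by
    have : (20 : ℝ) ≤ w := by exact_mod_cast hw
    linarith
  have h1 : C2 * C0 / (w * (1 / 1000) ^ 2) ≤ 1 / 10 := by
    rw [div_le_iff₀ (by positivity)]
    nlinarith
  have h2 : (((NN M (Ww w) c).filter
      (fun n => ∃ D : ℕ, t ≤ D ∧ (D : ℝ) ≤ Real.log M ^ (1 : ℝ) ∧ Fac n D)).card : ℝ) ≤
      1 / 10 * ((M : ℝ) / (Ww w : ℝ)) := hn.trans (mul_le_mul_of_nonneg_right h1 hMW)
  have h3 : (((NN M (Ww w) c).filter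
        (fun n => ∃ D : ℕ, 1 ≤ D ∧ D ≤ n / 2 ∧ D ≠ t ∧ Fac n D)).card : ℝ) ≤
      1 / 10 * ((M : ℝ) / (Ww w : ℝ)) := hk.trans (mul_le_mul_of_nonneg_right hκ hMW)
  have h5 := card_cover (A := (NN M (Ww w) c).filter
      (fun e => ¬ Irreducible (Polynomial.bernoulli e))) (fun e he => ?_) h3 h2
  · refine h5.trans ?_
    linarith
  · rw [mem_flt] at he
    obtain ⟨D, d1, d2, d3⟩ := (irr_iff e (nn_pos he.1)).1 he.2
    rw [mem_flt, mem_flt]
    by_cases hD : D = t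
    · right
      refine ⟨he.1, D, hD.ge, ?_, d3⟩
      rw [Real.rpow_one, hD]
      exact ht
    · left
      exact ⟨he.1, D, d1, d2, hD, d3⟩

private lemma gg_mem {N W c e0 t : ℕ} {a b : ℝ} {I : Finset ℕ} :
    ∀ x ∈ GG N a b W c e0 I t, x.1 ∈ Rg N a b ∧ x.2 ∈ I ∧ Alw W c e0 x.1 ∧ Sim x.1 x.2 ∧
      rp x.1 x.2 < t := by
  intro x hx
  unfold GG at hx
  rw [mem_flt, mem_product] at hx
  exact ⟨hx.1.1, hx.1.2, hx.2.1, hx.2.2.1, hx.2.2.2⟩

theorem block : ∃ C4 : ℝ, 0 < C4 ∧ ∀ (w t : ℕ) (C0 μ κ : ℝ) (c e0 : ℕ), 20 ≤ w → C4 * C0 ≤ w →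
    4 ≤ t → t ≤ 6 → 1 ≤ C0 → c < Ww w → Even c → Even e0 → AM (Ww w) c e0 μ → Rich w e0 C0 →
    29 / 10 ≤ t * μ → κ ≤ 1 / 10 → NoF w c κ (fun D => D ≠ t) →
    NoF w c (C4 / w) (fun D => D = t) := by
  classical
  obtain ⟨C2, hC2, hnar⟩ := use_narrow
  refine ⟨10 ^ 7 * C2, by positivity, ?_⟩
  intro w t C0 μ κ c e0 hw hCw ht4 ht6 hC0 hc hce he0 hAM hR hμ hκ hNo
  have hw2 : 2 ≤ w := by omega
  have ht1 : 1 ≤ t := by omega
  have hw0 : (0 : ℝ) < w := by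
    have : (20 : ℝ) ≤ w := by exact_mod_cast hw
    linarith
  have ht4r : (4 : ℝ) ≤ t := by exact_mod_cast ht4
  have ht6r : (t : ℝ) ≤ 6 := by exact_mod_cast ht6
  obtain ⟨Na, hNa⟩ := hnar 1 w t 10 (3 / 100) one_pos hw2 ht1 (by norm_num) (by norm_num)
  obtain ⟨Nb, hNb⟩ := hnar 1 w t C0 (1 / 1000) one_pos hw2 ht1 hC0 (by norm_num)
  obtain ⟨X1, hX1⟩ := fam_block w hw2 (4425 / 10000) (by norm_num) (by norm_num)
  obtain ⟨X2, hX2⟩ := fam_block w hw2 (4875 / 10000) (by norm_num) (by norm_num)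
  obtain ⟨Nm, hNm⟩ := mass_lower w c c t (1 - 1 / 1000) 10 (335 / 1000) (495 / 1000) (1 / 1000)
    hw2 hce (am_self w c hw) ht1 (by norm_num) (by norm_num) (by norm_num) (by norm_num)
  obtain ⟨X3, hX3⟩ := two_scale w c e0 t μ C0 hw2 he0 hAM ht1 ht6 hμ
  obtain ⟨X4, hX4⟩ := hR
  obtain ⟨Nk, hNk⟩ := hNo
  -- large `N`
  have tX : Filter.Tendsto (fun N : ℕ => Real.log (N : ℝ)) Filter.atTop Filter.atTop :=
    Real.tendsto_log_atTop.comp tendsto_natCast_atTop_atTop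
  have tL : Filter.Tendsto (fun N : ℕ => Real.log (Real.log (N : ℝ))) Filter.atTop Filter.atTop :=
    Real.tendsto_log_atTop.comp tX
  have tM : ∀ γ : ℝ, 0 < γ → Filter.Tendsto (fun N : ℕ => ⌊Real.log (N : ℝ) ^ γ⌋₊) Filter.atTop
      Filter.atTop := fun γ hγ =>
    tendsto_nat_floor_atTop.comp ((tendsto_rpow_atTop hγ).comp tX)
  have ev : ∀ᶠ N : ℕ in Filter.atTop, (max (max X1 X2) 6 ≤ Real.log N ∧
      max (max X3 X4) 100 ≤ Real.log (Real.log N)) ∧ max Na Nm ≤ N ∧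
      max Nb Nk ≤ ⌊Real.log (N : ℝ) ^ (4425 / 10000 : ℝ)⌋₊ ∧
      max Nb Nk ≤ ⌊Real.log (N : ℝ) ^ (4875 / 10000 : ℝ)⌋₊ :=
    ((tX.eventually_ge_atTop _).and (tL.eventually_ge_atTop _)).and
      ((Filter.eventually_ge_atTop _).and (((tM _ (by norm_num)).eventually_ge_atTop _).and
        ((tM _ (by norm_num)).eventually_ge_atTop _)))
  obtain ⟨N0, hN0⟩ := Filter.eventually_atTop.1 ev
  refine ⟨N0, fun N hN => ?_⟩
  obtain ⟨⟨hA, hB⟩, hCN, hM1, hM2⟩ := hN0 N hN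
  clear ev hN0 hN tX tL tM
  have a1 : X1 ≤ Real.log N := ((le_max_left _ _).trans (le_max_left _ _)).trans hA
  have a2 : X2 ≤ Real.log N := ((le_max_right _ _).trans (le_max_left _ _)).trans hA
  have a3 : 6 ≤ Real.log N := (le_max_right _ _).trans hA
  have b1 : X3 ≤ Real.log (Real.log N) := ((le_max_left _ _).trans (le_max_left _ _)).trans hB
  have b2 : X4 ≤ Real.log (Real.log N) := ((le_max_right _ _).trans (le_max_left _ _)).trans hB
  have b3 : 100 ≤ Real.log (Real.log N) := (le_max_right _ _).trans hB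
  have c1 : Na ≤ N := (le_max_left _ _).trans hCN
  have c2 : Nm ≤ N := (le_max_right _ _).trans hCN
  have hlog0 : 0 < Real.log N := by linarith
  -- one of the two blocks has few reducible polynomials
  obtain ⟨I', u', hF', hI'⟩ := hX4 _ b2
  have key : ∀ γ : ℝ, 4425 / 10000 ≤ γ → γ ≤ 1 → max Nb Nk ≤ ⌊Real.log (N : ℝ) ^ γ⌋₊ →
      1 / 1000 ≤ mass ⌊Real.exp (γ * Real.log (Real.log N))⌋₊ u'
        (GG ⌊Real.exp (γ * Real.log (Real.log N))⌋₊ (335 / 1000) (495 / 1000) (Ww w) c e0 I' t) →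
      (((NN ⌊Real.log (N : ℝ) ^ γ⌋₊ (Ww w) c).filter
        (fun e => ¬ Irreducible (Polynomial.bernoulli e))).card : ℝ) ≤
        3 / 10 * ((⌊Real.log (N : ℝ) ^ γ⌋₊ : ℝ) / (Ww w : ℝ)) := by
    intro γ hγ hγ1 hM hm
    have e1 := bl_rpow (x := Real.log N) (γ := γ) hlog0
    rw [← e1] at hm
    have hy : 1 ≤ γ * Real.log (Real.log N) := by nlinarith
    obtain ⟨f1, f2⟩ := bl_floor hy
    rw [← e1] at f1 f2
    have g1 : Real.log (⌊Real.log (N : ℝ) ^ γ⌋₊ : ℝ) ≤ Real.log (Real.log N) := by nlinarith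
    have g2 : Real.log (Real.log N) ≤ 4 * Real.log (⌊Real.log (N : ℝ) ^ γ⌋₊ : ℝ) := by nlinarith
    have g3 : (t : ℝ) ≤ Real.log (⌊Real.log (N : ℝ) ^ γ⌋₊ : ℝ) := by nlinarith
    have h1 := hNb _ ((le_max_left _ _).trans hM) c e0 _ I' u' _ hc hce he0 g1 g2 hF' gg_mem hm
    have h2 := hNk _ ((le_max_right _ _).trans hM)
    exact bl_red hw h1 (by linarith) h2 hκ g3
  have hone : ∃ γ : ℝ, (γ = 4425 / 10000 ∨ γ = 4875 / 10000) ∧
      (((NN ⌊Real.log (N : ℝ) ^ γ⌋₊ (Ww w) c).filter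
        (fun e => ¬ Irreducible (Polynomial.bernoulli e))).card : ℝ) ≤
        3 / 10 * ((⌊Real.log (N : ℝ) ^ γ⌋₊ : ℝ) / (Ww w : ℝ)) := by
    rcases hX3 _ b1 I' u' hF' hI' _ _ rfl rfl with h | h
    · exact ⟨_, Or.inl rfl, key _ le_rfl (by norm_num) hM1 h⟩
    · exact ⟨_, Or.inr rfl, key _ (by norm_num) (by norm_num) hM2 h⟩
  obtain ⟨I, u, hF, hI⟩ : ∃ (I : Finset ℕ) (u : ℕ → ℝ), Fam (Ww w) c 10 (Real.log N) I u ∧
      ∀ e ∈ I, Irreducible (Polynomial.bernoulli e) := by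
    obtain ⟨γ, rfl | rfl, h⟩ := hone
    · exact hX1 _ a1 c hc h
    · exact hX2 _ a2 c hc h
  have m1 := hNm N c2 (Real.log N) I u le_rfl (by linarith) hF hI
  have m2 : (495 / 1000 : ℝ) / t ≤ 495 / 1000 / 4 :=
    div_le_div_of_nonneg_left (by norm_num) (by norm_num) ht4r
  have m3 : 3 / 100 ≤ mass N u (GG N (335 / 1000) (495 / 1000) (Ww w) c c I t) := by
    refine le_trans ?_ m1
    norm_num at m2 ⊢
    linarith
  have h1 := hNa N c1 c c (Real.log N) I u _ hc hce hce le_rfl (by linarith) hF gg_mem m3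
  have h2 : C2 * 10 / (w * (3 / 100) ^ 2) * ((N : ℝ) / (Ww w : ℝ)) ≤
      10 ^ 7 * C2 / w * ((N : ℝ) / (Ww w : ℝ)) := by
    refine mul_le_mul_of_nonneg_right ?_ (by positivity)
    rw [div_le_div_iff₀ (by positivity) hw0]
    nlinarith [mul_pos hC2 hw0]
  refine le_trans ?_ (h1.trans h2)
  refine Nat.cast_le.2 (card_le_card fun n hn => ?_)
  rw [mem_flt] at hn ⊢
  obtain ⟨hn1, D, d1, d2, d3, d4⟩ := hn
  refine ⟨hn1, D, d3.ge, ?_, d4⟩
  rw [Real.rpow_one, d3]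
  linarith

end Pool.Agent.BDN
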