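import Pool.Agent.Helper24.SieveDensity

/-!
# The Brun-Titchmarsh inequality

Selberg's sieve (`Pool.Agent.Helper24.residue_sieve`) for the numbers `m = p / q`, `p ≡ a` modulo `q`:
the forbidden class modulo a prime `l` is the root of `q c + r = 0`, `r = a % q` (no class for `l ∣ q`).
Model: Pool/Agent/NL/BT.lean.
-/

open Finset

namespace Pool.Agent.BDN

/-- the forbidden classes -/
private def btΩ (q r l : ℕ) : Finset ℕ := (range l).filter (fun c => l ∣ q * c + r)

private theorem mem_btΩ {q r l c : ℕ} : c ∈ btΩ q r l ↔ c < l ∧ l ∣ q * c + r := by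
  rw [btΩ, mem_filter, mem_range]

private theorem card_btΩ_le {q r : ℕ} (hqr : Nat.Coprime q r) {l : ℕ} (hl : l.Prime) :
    (btΩ q r l).card ≤ 1 := by
  rw [card_le_one]
  intro c hc d hd
  rw [mem_btΩ] at hc hd
  have hlq : ¬ l ∣ q := by
    intro h
    have h1 : l ∣ r := (Nat.dvd_add_right (h.mul_right c)).1 hc.2
    exact hl.one_lt.ne' (Nat.eq_one_of_dvd_coprimes hqr h h1)
  have h3 : q * c + r ≡ q * d + r [MOD l] :=
    (Nat.modEq_zero_iff_dvd.2 hc.2).trans (Nat.modEq_zero_iff_dvd.2 hd.2).symm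
  have h4 : q * c ≡ q * d [MOD l] := Nat.ModEq.add_right_cancel' r h3
  have h5 : c ≡ d [MOD l] :=
    Nat.ModEq.cancel_left_of_coprime ((Nat.Prime.coprime_iff_not_dvd hl).2 hlq) h4
  have h6 : c % l = d % l := h5
  rwa [Nat.mod_eq_of_lt hc.1, Nat.mod_eq_of_lt hd.1] at h6

private theorem card_btΩ_lt {q r : ℕ} (hqr : Nat.Coprime q r) {l : ℕ} (hl : l.Prime) :
    (btΩ q r l).card < l :=
  lt_of_le_of_lt (card_btΩ_le hqr hl) hl.one_lt

private theorem card_btΩ_pos {q : ℕ} (r : ℕ) {l : ℕ} (hl : l.Prime) (hne : ¬ l ∣ q) :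
    1 ≤ (btΩ q r l).card := by
  haveI : Fact l.Prime := ⟨hl⟩
  rw [Nat.one_le_iff_ne_zero, card_ne_zero]
  have hq0 : (q : ZMod l) ≠ 0 := by
    intro h
    rw [ZMod.natCast_eq_zero_iff] at h
    exact hne h
  refine ⟨(-(r : ZMod l) * (q : ZMod l)⁻¹).val, mem_btΩ.2 ⟨ZMod.val_lt _, ?_⟩⟩
  rw [← ZMod.natCast_eq_zero_iff]
  push_cast
  rw [ZMod.natCast_zmod_val, mul_comm (-(r : ZMod l)), ← mul_assoc, mul_inv_cancel₀ hq0]
  ring

private theorem totient_prod {q : ℕ} :
    (Nat.totient q : ℝ) * ∏ p ∈ q.primeFactors, (1 + 1 / (p : ℝ)) ≤ q := by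
  have h1 : (Nat.totient q : ℝ) = q * ∏ p ∈ q.primeFactors, (1 - (p : ℝ)⁻¹) := by
    have h := Nat.totient_eq_mul_prod_factors q
    have h2 := congrArg (fun z : ℚ => (z : ℝ)) h
    push_cast at h2
    exact h2
  rw [h1, mul_assoc, ← prod_mul_distrib]
  have h2 : ∏ p ∈ q.primeFactors, ((1 - (p : ℝ)⁻¹) * (1 + 1 / (p : ℝ))) ≤ 1 := by
    refine prod_le_one (fun p hp => ?_) fun p hp => ?_
    · have hp1 : (1 : ℝ) < p := by
        exact_mod_cast (Nat.prime_of_mem_primeFactors hp).one_lt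
      have hi : (p : ℝ)⁻¹ ≤ 1 := inv_le_one_of_one_le₀ hp1.le
      have h0 : (0 : ℝ) ≤ 1 + 1 / (p : ℝ) := by positivity
      exact mul_nonneg (by linarith) h0
    · rw [one_div]
      nlinarith [sq_nonneg ((p : ℝ)⁻¹)]
  have hq : (0 : ℝ) ≤ q := Nat.cast_nonneg _
  calc (q : ℝ) * ∏ p ∈ q.primeFactors, ((1 - (p : ℝ)⁻¹) * (1 + 1 / (p : ℝ)))
      ≤ q * 1 := mul_le_mul_of_nonneg_left h2 hq
    _ = q := mul_one _

open Pool.Agent.Helper24 in
private theorem bt_density {q r : ℕ} (hq : 0 < q) (hqr : Nat.Coprime q r) (Y : ℕ) :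
    (Nat.totient q : ℝ) * Real.log Y ≤
      2 * q * ∑ l ∈ (Icc 1 Y).filter Squarefree, hterm (btΩ q r) l := by
  have h1 := log_le_two_mul_Fsum_inv Y
  set g : ℕ → ℝ := fun p => ((btΩ q r p).card : ℝ) / ((p : ℝ) - (btΩ q r p).card) with hg
  have hg0 : ∀ p, p.Prime → p ≤ Y → 0 ≤ g p := by
    intro p hp _
    have : ((btΩ q r p).card : ℝ) < p := by exact_mod_cast card_btΩ_lt hqr hp
    have : (0 : ℝ) < (p : ℝ) - (btΩ q r p).card := sub_pos.2 this
    rw [hg]; positivity
  have h2 : Fsum Y (fun p => 1 / (p : ℝ)) ≤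
      Fsum Y (fun p => g p + if p ∈ q.primeFactors then 1 / (p : ℝ) else 0) := by
    refine Fsum_mono _ (fun p _ _ => by positivity) fun p hp hpY => ?_
    have hp0 : (0 : ℝ) < p := by exact_mod_cast hp.pos
    by_cases h : p ∈ q.primeFactors
    · rw [if_pos h]
      have := hg0 p hp hpY
      linarith
    · rw [if_neg h, add_zero, hg]
      simp only
      have hnd : ¬ p ∣ q := fun hd => h (Nat.mem_primeFactors.2 ⟨hp, hd, hq.ne'⟩)
      have h3 : (1 : ℝ) ≤ (btΩ q r p).card := by exact_mod_cast card_btΩ_pos r hp hnd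
      have h4 : ((btΩ q r p).card : ℝ) < p := by exact_mod_cast card_btΩ_lt hqr hp
      have h5 : (0 : ℝ) < (p : ℝ) - (btΩ q r p).card := sub_pos.2 h4
      rw [div_le_div_iff₀ hp0 h5]
      nlinarith
  have h3 := Fsum_add_le Y hg0 q.primeFactors (fun p hp => Nat.prime_of_mem_primeFactors hp)
    (fun p => 1 / (p : ℝ)) (fun p _ => by positivity)
  have h5 : 0 ≤ Fsum Y g := by
    have h6 := Fsum_mono Y (g := fun _ => 0) (g' := g) (fun p _ _ => le_rfl) hg0
    refine le_trans ?_ h6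
    exact sum_nonneg fun l _ => prod_nonneg fun p _ => le_rfl
  have h7 : Fsum Y g = ∑ l ∈ (Icc 1 Y).filter Squarefree, hterm (btΩ q r) l := rfl
  rw [← h7]
  have h8 := totient_prod (q := q)
  have hφ : (0 : ℝ) ≤ Nat.totient q := Nat.cast_nonneg _
  calc (Nat.totient q : ℝ) * Real.log Y
      ≤ (Nat.totient q : ℝ) * (2 * ((∏ p ∈ q.primeFactors, (1 + 1 / (p : ℝ))) * Fsum Y g)) := by
        refine mul_le_mul_of_nonneg_left ?_ hφ
        linarith
    _ = 2 * ((Nat.totient q : ℝ) * ∏ p ∈ q.primeFactors, (1 + 1 / (p : ℝ))) * Fsum Y g := by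
        ring
    _ ≤ 2 * q * Fsum Y g := by
        refine mul_le_mul_of_nonneg_right ?_ h5
        linarith

/-- the numbers `p / q` -/
private def btS (q r y : ℕ) : Finset ℕ :=
  (Ioc y (2 * y)).filter (fun p => p.Prime ∧ p % q = r)

private theorem btS_image {q r y : ℕ} (hq : 0 < q) (hqy : q ^ 2 ≤ y) :
    ((btS q r y).image (fun p => p / q)).card = (btS q r y).card ∧
    (btS q r y).image (fun p => p / q) ⊆
      Ioc (y / q - 1) (y / q - 1 + (2 * y / q - y / q + 1)) ∧
    (((2 * y / q - y / q + 1 : ℕ)) : ℝ) ≤ 3 * ((y : ℝ) / q) := by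
  have hqy' : q ≤ y := by nlinarith
  have h1 : 1 ≤ y / q := Nat.div_pos hqy' hq
  have h2 : y / q ≤ 2 * y / q := Nat.div_le_div_right (by omega)
  refine ⟨?_, ?_, ?_⟩
  · refine card_image_of_injOn ?_
    intro p hp s hs hps
    rw [mem_coe, btS, mem_filter] at hp hs
    have e1 := Nat.div_add_mod p q
    have e2 := Nat.div_add_mod s q
    have h6 : p / q = s / q := hps
    rw [hp.2.2] at e1
    rw [hs.2.2] at e2
    rw [← e1, ← e2, h6]
  · intro m hm
    rw [mem_image] at hm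
    obtain ⟨p, hp, rfl⟩ := hm
    rw [btS, mem_filter, mem_Ioc] at hp
    have h3 : y / q ≤ p / q := Nat.div_le_div_right hp.1.1.le
    have h4 : p / q ≤ 2 * y / q := Nat.div_le_div_right hp.1.2
    rw [mem_Ioc]
    omega
  · have hq0 : (0 : ℝ) < q := by exact_mod_cast hq
    have h3 : ((2 * y / q : ℕ) : ℝ) ≤ ((2 * y : ℕ) : ℝ) / q := Nat.cast_div_le
    have h4 : (y : ℝ) / q < ((y / q : ℕ) : ℝ) + 1 := by
      rw [div_lt_iff₀ hq0]
      have h5 := Nat.lt_div_mul_add (a := y) hq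
      have h6 : y < (y / q + 1) * q := by nlinarith
      exact_mod_cast h6
    have h5 : (1 : ℝ) ≤ (y : ℝ) / q := by
      rw [le_div_iff₀ hq0, one_mul]
      exact_mod_cast hqy'
    rw [Nat.cast_add, Nat.cast_sub h2, Nat.cast_one]
    push_cast at h3
    have e : 2 * (y : ℝ) / q = 2 * ((y : ℝ) / q) := by ring
    rw [e] at h3
    linarith

open Pool.Agent.Helper24 in
private theorem bt_explicit {q r : ℕ} (hq : 0 < q) (hqr : Nat.Coprime q r) (y Y : ℕ)
    (hqy : q ^ 2 ≤ y) (hY : 2 ≤ Y) (hYy : Y ≤ y) :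
    ((btS q r y).card : ℝ) ≤
      6 * (y : ℝ) / ((Nat.totient q : ℝ) * Real.log Y) + (Y : ℝ) ^ 6 := by
  have hlog : 0 < Real.log Y := Real.log_pos (by exact_mod_cast (by omega : 1 < Y))
  have hq0 : (0 : ℝ) < q := by exact_mod_cast hq
  have hφ0 : (0 : ℝ) < Nat.totient q := by exact_mod_cast Nat.totient_pos.2 hq
  obtain ⟨k1, k2, k3⟩ := btS_image (r := r) hq hqy
  set B := (btS q r y).image (fun p => p / q) with hB
  set M := 2 * y / q - y / q + 1 with hM
  have hΩ : ∀ p, Nat.Prime p → p ≤ Y →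
      (∀ c ∈ btΩ q r p, c < p) ∧ (btΩ q r p).card < p :=
    fun p hp _ => ⟨fun c hc => (mem_btΩ.1 hc).1, card_btΩ_lt hqr hp⟩
  have h1 := residue_sieve (A := y / q - 1) (M := M) (by omega : 1 ≤ Y) hΩ B k2 ?_
  rotate_left
  · intro m hm p hp hpY hmem
    rw [hB, mem_image] at hm
    obtain ⟨s, hs, rfl⟩ := hm
    rw [btS, mem_filter, mem_Ioc] at hs
    rw [mem_btΩ] at hmem
    have hd : p ∣ s := by
      have e1 := Nat.div_add_mod s q
      rw [hs.2.2] at e1
      have e : s = p * (q * (s / q / p)) + (q * (s / q % p) + r) := by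
        conv_lhs => rw [← e1, ← Nat.div_add_mod (s / q) p]
        ring
      rw [e]
      exact dvd_add (Dvd.intro _ rfl) hmem.2
    have := (Nat.prime_dvd_prime_iff_eq hp hs.2.1).1 hd
    omega
  have h2 := bt_density hq hqr Y
  set G := ∑ l ∈ (Icc 1 Y).filter Squarefree, hterm (btΩ q r) l with hG
  have hpos : 0 < (Nat.totient q : ℝ) * Real.log Y := mul_pos hφ0 hlog
  have hG0 : 0 < G := by
    by_contra hcon
    push Not at hcon
    have : 2 * (q : ℝ) * G ≤ 0 := mul_nonpos_of_nonneg_of_nonpos (by positivity) hcon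
    linarith
  have h3 : (M : ℝ) / G ≤ 6 * (y : ℝ) / ((Nat.totient q : ℝ) * Real.log Y) := by
    rw [div_le_div_iff₀ hG0 hpos]
    have hy0 : (0 : ℝ) ≤ y := Nat.cast_nonneg _
    calc (M : ℝ) * ((Nat.totient q : ℝ) * Real.log Y)
        ≤ (3 * ((y : ℝ) / q)) * (2 * q * G) :=
          mul_le_mul k3 h2 hpos.le (by positivity)
      _ = 6 * (y : ℝ) * G := by
          field_simp
          ring
  rw [← k1]
  linarith

theorem brun_titchmarsh : ∃ C : ℝ, 0 < C ∧ ∀ q a y : ℕ, 0 < q → 2 ≤ y → q ^ 2 ≤ y →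
    (((Ioc y (2 * y)).filter (fun p => p.Prime ∧ p % q = a % q)).card : ℝ) ≤
      C * y / ((Nat.totient q : ℝ) * Real.log y) := by
  refine ⟨400, by norm_num, fun q a y hq hy hqy => ?_⟩
  have hq0 : (0 : ℝ) < q := by exact_mod_cast hq
  have hφ0 : (0 : ℝ) < Nat.totient q := by exact_mod_cast Nat.totient_pos.2 hq
  have hφq : (Nat.totient q : ℝ) ≤ q := by exact_mod_cast Nat.totient_le q
  have hy2 : (2 : ℝ) ≤ y := by exact_mod_cast hy
  have hy0 : (0 : ℝ) < y := by linarith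
  have hlogy : 0 < Real.log y := Real.log_pos (by linarith)
  change ((btS q (a % q) y).card : ℝ) ≤ _
  set r := a % q with hr
  by_cases hqr : Nat.Coprime q r
  swap
  · have hemp : btS q r y = ∅ := by
      rw [eq_empty_iff_forall_notMem]
      intro p hp
      rw [btS, mem_filter, mem_Ioc] at hp
      apply hqr
      by_contra hne
      have h1 : Nat.gcd q r ∣ p := by
        have e1 := Nat.div_add_mod p q
        rw [hp.2.2] at e1
        rw [← e1]
        exact dvd_add ((Nat.gcd_dvd_left q r).mul_right _) (Nat.gcd_dvd_right q r)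
      rcases (Nat.dvd_prime hp.2.1).1 h1 with h2 | h2
      · exact hqr h2
      · have h3 : p ∣ q := h2 ▸ Nat.gcd_dvd_left q r
        have h4 := Nat.le_of_dvd hq h3
        have h5 := hp.1.1
        nlinarith
    rw [hemp, card_empty, Nat.cast_zero]
    positivity
  obtain ⟨k1, k2, k3⟩ := btS_image (r := r) hq hqy
  have htriv : ((btS q r y).card : ℝ) ≤ 3 * ((y : ℝ) / q) := by
    refine le_trans ?_ k3
    rw [← k1]
    have h1 := card_le_card k2
    rw [Nat.card_Ioc, Nat.add_sub_cancel_left] at h1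
    exact_mod_cast h1
  set t : ℝ := (y : ℝ) ^ (1 / 24 : ℝ) with ht
  have ht0 : 0 < t := Real.rpow_pos_of_pos hy0 _
  have ht24 : t ^ 24 = y := by
    rw [ht, ← Real.rpow_natCast, ← Real.rpow_mul hy0.le]
    norm_num
  have ht1 : 1 < t := by
    by_contra hcon
    push Not at hcon
    have : t ^ 24 ≤ 1 := pow_le_one₀ ht0.le hcon
    linarith
  have hlogt : 0 < Real.log t := Real.log_pos ht1
  have hlogy' : Real.log y = 24 * Real.log t := by
    rw [← ht24, Real.log_pow]
    norm_num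
  have hlogt' : Real.log t ≤ t := (Real.log_le_sub_one_of_pos ht0).trans (by linarith)
  have e3 : 400 * (y : ℝ) / ((Nat.totient q : ℝ) * Real.log y) =
      400 * (y / ((Nat.totient q : ℝ) * Real.log y)) := by ring
  rw [e3]
  have h11 : 0 ≤ (y : ℝ) / ((Nat.totient q : ℝ) * Real.log y) := by positivity
  rcases lt_or_ge t 4 with h4 | h4
  · refine htriv.trans ?_
    have hl4 : Real.log t ≤ 3 := by
      have : Real.log t ≤ t - 1 := Real.log_le_sub_one_of_pos ht0
      linarith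
    have h5 : 3 * ((y : ℝ) / q) ≤ 3 * (y / (Nat.totient q : ℝ)) := by gcongr
    have h6 : (y : ℝ) / (Nat.totient q : ℝ) ≤
        72 * (y / ((Nat.totient q : ℝ) * Real.log y)) := by
      rw [← mul_div_assoc, div_le_div_iff₀ hφ0 (by positivity), hlogy']
      have h7 : (y : ℝ) * ((Nat.totient q : ℝ) * (24 * Real.log t)) ≤
          y * ((Nat.totient q : ℝ) * 72) := by gcongr; linarith
      linarith
    linarith
  · set Y := ⌊t⌋₊ with hYd
    have hY1 : (Y : ℝ) ≤ t := Nat.floor_le ht0.le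
    have hY2 : t < (Y : ℝ) + 1 := Nat.lt_floor_add_one t
    have hY3 : 2 ≤ Y := by
      have : (2 : ℝ) < Y := by linarith
      exact_mod_cast this.le
    have hYy : Y ≤ y := by
      have h5 : t ≤ t ^ 24 := le_self_pow₀ ht1.le (by norm_num)
      rw [ht24] at h5
      exact_mod_cast hY1.trans h5
    have h5 := bt_explicit hq hqr y Y hqy hY3 hYy
    have hY0 : (0 : ℝ) < Y := by linarith
    have hsq : t ≤ (Y : ℝ) ^ 2 := by nlinarith
    have hlogY : Real.log t ≤ 2 * Real.log Y := by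
      have := Real.log_le_log ht0 hsq
      rwa [Real.log_pow, Nat.cast_ofNat] at this
    have hlogY0 : 0 < Real.log Y := by linarith
    have hqt : (q : ℝ) ≤ t ^ 12 := by
      have h6 : (q : ℝ) ^ 2 ≤ (t ^ 12) ^ 2 := by
        rw [← pow_mul]
        norm_num only
        rw [ht24]
        exact_mod_cast hqy
      exact le_of_sq_le_sq h6 (by positivity)
    have h6 : 6 * (y : ℝ) / ((Nat.totient q : ℝ) * Real.log Y) ≤
        288 * (y / ((Nat.totient q : ℝ) * Real.log y)) := by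
      have e2 : 288 * ((y : ℝ) / ((Nat.totient q : ℝ) * Real.log y)) =
          6 * y / ((Nat.totient q : ℝ) * (Real.log t / 2)) := by
        rw [hlogy']
        field_simp
        norm_num
      rw [e2]
      gcongr
      linarith
    have h7 : (Y : ℝ) ^ 6 ≤ 24 * (y / ((Nat.totient q : ℝ) * Real.log y)) := by
      have e : 24 * ((y : ℝ) / ((Nat.totient q : ℝ) * Real.log y)) =
          t ^ 24 / ((Nat.totient q : ℝ) * Real.log t) := by
        rw [hlogy', ht24]
        field_simp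
      rw [e, le_div_iff₀ (by positivity)]
      have h8 : (Y : ℝ) ^ 6 ≤ t ^ 6 := by gcongr
      have h9 : (Nat.totient q : ℝ) * Real.log t ≤ t ^ 12 * t :=
        mul_le_mul (hφq.trans hqt) hlogt' hlogt.le (by positivity)
      have h10 : (t : ℝ) ^ 19 ≤ t ^ 24 := pow_le_pow_right₀ ht1.le (by norm_num)
      calc (Y : ℝ) ^ 6 * ((Nat.totient q : ℝ) * Real.log t) ≤ t ^ 6 * (t ^ 12 * t) :=
            mul_le_mul h8 h9 (by positivity) (by positivity)
        _ = t ^ 19 := by ring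
        _ ≤ t ^ 24 := h10
    linarith

end Pool.Agent.BDN
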