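import Mathlib
import Pool.Agent.BDN.UN
import Pool.Agent.BDN.MLo

/-!
BDN-DR. The direct argument: no divisor of degree `≥ t`; no quadratic divisor.

PLAN. `W = Ww w > 0`. `Rich` gives `X0`; for `N` with `log N ≥ X0` take `X = log N` and the family `I, u`.
`dir`: `G = GG N .335 .495 W c e0 I t`, `η = 1/200`: `mass_lower` with `a = 335/1000`, `b = 495/1000`, `ε = 1/200`: mass
`≥ .16 μ - .495/t - 1/200 ≥ 1/200`. `use_narrow` (with the `A` of `ThmA`): the number of `n ∈ NN N W c` having `Fac n D` for some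
`t ≤ D ≤ L^A` is `≤ C2 C0 40000/w · N/W`. The `n ∈ NN` having `Fac n D`, `L^A < D ≤ n/2`: `ThmA` with `ε = 1/(w W)`: `≤ N/(w W)`
(`n` is even since `W`, `c` are; `ww_even`). Total `≤ (40000 C2 C0 + 1)/w · N/W ≤ (40000 C2 + 1) C0/w N/W`.
`dtwo`: `G = GG N .01 .495 W c e0 I 1`, `mass_zero`: `≥ .485 μ - .2475 - 1/200 ≥ 1/200`, `use_wide`.
-/

namespace Pool.Agent.BDN

open Finset

private theorem ww_even' {w : ℕ} (hw : 2 ≤ w) : Even (Ww w) := ww_even w hw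

private theorem gg_mem {N t W c e0 : ℕ} {a b : ℝ} {I : Finset ℕ} :
    ∀ x ∈ GG N a b W c e0 I t, x.1 ∈ Rg N a b ∧ x.2 ∈ I ∧ Alw W c e0 x.1 ∧ Sim x.1 x.2 ∧
      rp x.1 x.2 < t := by
  classical
  intro x hx
  unfold GG at hx
  rw [mem_filter, mem_product] at hx
  exact ⟨hx.1.1, hx.1.2, hx.2⟩

private theorem log_ge (X0 : ℝ) : ∃ N0 : ℕ, ∀ N : ℕ, N0 ≤ N → X0 ≤ Real.log N ∧ 0 ≤ Real.log N := by
  have h1 := Real.tendsto_log_atTop.eventually_ge_atTop (max X0 0)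
  obtain ⟨N0, h⟩ := Filter.eventually_atTop.1 ((tendsto_natCast_atTop_atTop
    (R := ℝ)).eventually h1)
  exact ⟨N0, fun N hN => ⟨(le_max_left _ _).trans (h N hN), (le_max_right _ _).trans (h N hN)⟩⟩

theorem dir (A : ℝ) (hA : ThmA A) : ∃ C3 : ℝ, 0 < C3 ∧ ∀ (w t : ℕ) (C0 μ : ℝ) (c e0 : ℕ), 2 ≤ w →
    1 ≤ t → 1 ≤ C0 → c < Ww w → Even c → Even e0 → AM (Ww w) c e0 μ → Rich w e0 C0 →
    1 / 100 ≤ 16 / 100 * μ - 495 / 1000 / t → NoF w c (C3 * C0 / w) (fun D => t ≤ D) := by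
  classical
  obtain ⟨C2, hC2, huse⟩ := use_narrow
  obtain ⟨hA0, hA1⟩ := hA
  refine ⟨40000 * C2 + 1, by positivity, fun w t C0 μ c e0 hw ht hC0 hc hce he0 hAM hR hμ => ?_⟩
  obtain ⟨X0, hX0⟩ := hR
  have hW0 : (0 : ℝ) < (Ww w : ℝ) := by exact_mod_cast ww_pos w
  have hwr : (0 : ℝ) < (w : ℝ) := by
    have : 0 < w := by omega
    exact_mod_cast this
  obtain ⟨N1, h1⟩ := huse A w t C0 (1 / 200) hA0 hw ht hC0 (by norm_num)
  obtain ⟨N2, h2⟩ := mass_lower w c e0 t μ C0 (335 / 1000) (495 / 1000) (1 / 200) hw he0 hAM ht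
    (by norm_num) (by norm_num) (by norm_num) (by norm_num)
  obtain ⟨N3, h3⟩ := log_ge X0
  obtain ⟨N4, h4⟩ := hA1 (1 / (w * (Ww w : ℝ))) (by positivity)
  refine ⟨N1 + N2 + N3 + N4, fun N hN => ?_⟩
  obtain ⟨g1, g2⟩ := h3 N (by omega)
  obtain ⟨I, u, hFam, hirr⟩ := hX0 (Real.log N) g1
  have g3 := h2 N (by omega) (Real.log N) I u le_rfl (by linarith) hFam hirr
  have g4 := h1 N (by omega) c e0 (Real.log N) I u
    (GG N (335 / 1000) (495 / 1000) (Ww w) c e0 I t) hc hce he0 le_rfl (by linarith) hFam gg_mem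
    (by linarith)
  have g5 := h4 N (by omega)
  have hsub : (NN N (Ww w) c).filter (fun n => ∃ D : ℕ, 1 ≤ D ∧ D ≤ n / 2 ∧ t ≤ D ∧ Fac n D) ⊆
      ((NN N (Ww w) c).filter (fun n => ∃ D : ℕ, t ≤ D ∧ (D : ℝ) ≤ Real.log N ^ A ∧ Fac n D)) ∪
      ((Ioc (N / 2) N).filter (fun n => Even n ∧ ∃ H : Polynomial ℚ, H.Monic ∧
        H ∣ Polynomial.bernoulli n ∧ Real.log N ^ A ≤ (H.natDegree : ℝ) ∧
        H.natDegree ≤ n / 2)) := by
    intro n hn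
    rw [mem_filter] at hn
    obtain ⟨hnN, D, hD1, hD2, hD3, hD4⟩ := hn
    rw [mem_union, mem_filter, mem_filter]
    by_cases hD : (D : ℝ) ≤ Real.log N ^ A
    · exact Or.inl ⟨hnN, D, hD3, hD, hD4⟩
    · right
      unfold NN at hnN
      rw [mem_filter] at hnN
      obtain ⟨hn1, hn2⟩ := hnN
      obtain ⟨H, q1, q2, q3⟩ := hD4
      refine ⟨hn1, ?_, H, q1, q2, ?_, ?_⟩
      · have h5 := Nat.div_add_mod n (Ww w)
        rw [hn2] at h5
        rw [← h5]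
        exact ((ww_even w hw).mul_right _).add hce
      · rw [q3]
        exact (not_le.1 hD).le
      · rw [q3]
        exact hD2
  have h6 : (((NN N (Ww w) c).filter
      (fun n => ∃ D : ℕ, 1 ≤ D ∧ D ≤ n / 2 ∧ t ≤ D ∧ Fac n D)).card : ℝ) ≤
      C2 * C0 / (w * (1 / 200) ^ 2) * ((N : ℝ) / (Ww w : ℝ)) + 1 / (w * (Ww w : ℝ)) * N := by
    refine le_trans ?_ (add_le_add g4 g5)
    exact_mod_cast (card_le_card hsub).trans (card_union_le _ _)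
  refine h6.trans ?_
  have h7 : C2 * C0 / (w * (1 / 200) ^ 2) * ((N : ℝ) / (Ww w : ℝ)) + 1 / (w * (Ww w : ℝ)) * N =
      (40000 * C2 * C0 + 1) / w * ((N : ℝ) / (Ww w : ℝ)) := by
    field_simp
    ring
  rw [h7]
  refine mul_le_mul_of_nonneg_right ?_ (by positivity)
  refine div_le_div_of_nonneg_right ?_ hwr.le
  nlinarith

theorem dtwo : ∃ C5 : ℝ, 0 < C5 ∧ ∀ (w : ℕ) (C0 μ : ℝ) (c e0 : ℕ), 2 ≤ w →
    1 ≤ C0 → c < Ww w → Even c → Even e0 → AM (Ww w) c e0 μ → Rich w e0 C0 →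
    1 / 100 ≤ 485 / 1000 * μ - 2475 / 10000 → NoF w c (C5 * C0 / w) (fun D => D = 2) := by
  classical
  obtain ⟨C2, hC2, huse⟩ := use_wide
  refine ⟨40000 * C2, by positivity, fun w C0 μ c e0 hw hC0 hc hce he0 hAM hR hμ => ?_⟩
  obtain ⟨X0, hX0⟩ := hR
  have hW0 : (0 : ℝ) < (Ww w : ℝ) := by exact_mod_cast ww_pos w
  have hwr : (0 : ℝ) < (w : ℝ) := by
    have : 0 < w := by omega
    exact_mod_cast this
  obtain ⟨N1, h1⟩ := huse w C0 (1 / 200) hw hC0 (by norm_num)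
  obtain ⟨N2, h2⟩ := mass_zero w c e0 μ C0 (1 / 100) (495 / 1000) (1 / 200) hw he0 hAM
    (by norm_num) (by norm_num) (by norm_num) (by norm_num)
  obtain ⟨N3, h3⟩ := log_ge X0
  refine ⟨N1 + N2 + N3, fun N hN => ?_⟩
  obtain ⟨g1, g2⟩ := h3 N (by omega)
  obtain ⟨I, u, hFam, hirr⟩ := hX0 (Real.log N) g1
  have g3 := h2 N (by omega) (Real.log N) I u le_rfl (by linarith) hFam hirr
  have g4 := h1 N (by omega) c e0 (Real.log N) I u
    (GG N (1 / 100) (495 / 1000) (Ww w) c e0 I 1) hc hce he0 le_rfl (by linarith) hFam gg_mem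
    (by linarith)
  have hsub : (NN N (Ww w) c).filter (fun n => ∃ D : ℕ, 1 ≤ D ∧ D ≤ n / 2 ∧ D = 2 ∧ Fac n D) ⊆
      ((NN N (Ww w) c).filter (fun n => Fac n 2)) := by
    intro n hn
    rw [mem_filter] at hn ⊢
    obtain ⟨hnN, D, hD1, hD2, hD3, hD4⟩ := hn
    rw [hD3] at hD4
    exact ⟨hnN, hD4⟩
  have h6 : (((NN N (Ww w) c).filter
      (fun n => ∃ D : ℕ, 1 ≤ D ∧ D ≤ n / 2 ∧ D = 2 ∧ Fac n D)).card : ℝ) ≤
      C2 * C0 / (w * (1 / 200) ^ 2) * ((N : ℝ) / (Ww w : ℝ)) := by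
    refine le_trans ?_ g4
    exact_mod_cast card_le_card hsub
  refine h6.trans (le_of_eq ?_)
  have h8 : C2 * C0 / (w * (1 / 200) ^ 2) = 40000 * C2 * C0 / w := by
    rw [div_eq_div_iff (by positivity) hwr.ne']
    ring
  rw [h8]

end Pool.Agent.BDN
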