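import Pool.Agent.BDT.REq
import Pool.Agent.BDN.DefsB

/-!
# BDL-RB: the base family is rich

The doubled primes `2 l` of the base family `bs X (W/2) (c/2)` with the weights `log l/l`, normalised by their sum, form a family
in the class `c` modulo `W = Ww w` (`base_mass`, `base_eq`).
-/

open Polynomial Finset Pool.Agent.BDT

namespace Pool.Agent.BDN

private lemma rb_arith {w c : ℕ} (hw : 2 ≤ w) (hc : c < Ww w) (hc4 : c % 4 = 2)
    (hq : ∀ q : ℕ, q.Prime → 3 ≤ q → q ≤ w → ¬ q ∣ c) :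
    ∃ m a : ℕ, Ww w = 2 * m ∧ c = 2 * a ∧ 0 < m ∧ a < m ∧ Nat.Coprime a m := by
  have h2 : 2 ∣ Ww w := by
    unfold Ww
    exact dvd_pow (Nat.dvd_factorial (by norm_num) hw) (by omega)
  obtain ⟨m, hm⟩ := h2
  refine ⟨m, c / 2, hm, by omega, by omega, by omega, ?_⟩
  refine Nat.Coprime.symm (Nat.coprime_of_dvd fun q hqp hqm hqa => ?_)
  have h3 : q ∣ Ww w := by
    rw [hm]
    exact hqm.mul_left 2
  have h4 : q ≤ w := by
    unfold Ww at h3
    exact (hqp.dvd_factorial).1 (hqp.dvd_of_dvd_pow h3)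
  have h5 : c = 2 * (c / 2) := by omega
  rcases Nat.lt_or_ge q 3 with h6 | h6
  · have h7 : q = 2 := by
      have := hqp.two_le
      omega
    rw [h7] at hqa
    omega
  · refine hq q hqp h6 h4 ?_
    rw [h5]
    exact hqa.mul_left 2

private lemma rb_inj : Function.Injective (fun l : ℕ => 2 * l) := by
  intro x y h
  have h' : 2 * x = 2 * y := h
  omega

private lemma rb_u (Z : ℝ) (l : ℕ) :
    Real.log (((2 * l : ℕ) : ℝ) / 2) / (((2 * l : ℕ) : ℝ) / 2) / Z = Real.log l / l / Z := by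
  have h : ((2 * l : ℕ) : ℝ) / 2 = (l : ℝ) := by
    push_cast
    ring
  rw [h]

theorem rich_base : ∃ CB : ℝ, 1 ≤ CB ∧ ∀ w : ℕ, 2 ≤ w → ∀ c : ℕ, c < Ww w → c % 4 = 2 →
    (∀ q : ℕ, q.Prime → 3 ≤ q → q ≤ w → ¬ q ∣ c) → Rich w c CB := by
  obtain ⟨C, hC, hEq⟩ := base_eq
  refine ⟨max 1 (34 * C), le_max_left _ _, ?_⟩
  intro w hw c hc hc4 hq
  obtain ⟨m, a, hW, hca, hm, ham, hcop⟩ := rb_arith hw hc hc4 hq
  obtain ⟨X1, hX1⟩ := base_mass m a hm hcop
  obtain ⟨X2, hX2⟩ := hEq m a hm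
  have hφ : (0 : ℝ) < (Nat.totient m : ℝ) := by exact_mod_cast Nat.totient_pos.2 hm
  obtain ⟨X3, hX3⟩ := Filter.eventually_atTop.1
    ((tendsto_rpow_atTop (by norm_num : (0 : ℝ) < 1 / 200)).eventually_ge_atTop
      (max 2 (100 / 3 * (Nat.totient m : ℝ))))
  refine ⟨max (max X1 X2) (max X3 3), fun X hX => ?_⟩
  have hXa : X1 ≤ X := le_trans (le_trans (le_max_left _ _) (le_max_left _ _)) hX
  have hXb : X2 ≤ X := le_trans (le_trans (le_max_right _ _) (le_max_left _ _)) hX
  have hXc : X3 ≤ X := le_trans (le_trans (le_max_left _ _) (le_max_right _ _)) hX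
  have hXd : 3 ≤ X := le_trans (le_trans (le_max_right _ _) (le_max_right _ _)) hX
  have hX0 : 0 < X := by linarith
  have hX1' : 1 ≤ X := by linarith
  have hB := hX3 X hXc
  have hB2 : 2 ≤ X ^ (1 / 200 : ℝ) := (le_max_left _ _).trans hB
  have hBφ : 100 / 3 * (Nat.totient m : ℝ) ≤ X ^ (1 / 200 : ℝ) := (le_max_right _ _).trans hB
  have hlog : 1 ≤ Real.log X := by
    have h1 : Real.log (Real.exp 1) ≤ Real.log X := by
      refine Real.log_le_log (Real.exp_pos 1) ?_
      have := Real.exp_one_lt_three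
      linarith
    rwa [Real.log_exp] at h1
  have hlog0 : 0 < Real.log X := by linarith
  have hmass := hX1 X hXa
  obtain ⟨Z, hZ⟩ : ∃ Z : ℝ, Z = ∑ l ∈ bs X m a, Real.log l / l := ⟨_, rfl⟩
  rw [← hZ] at hmass
  have hZ0 : 0 < Z := lt_of_lt_of_le (by positivity) hmass
  -- the inverse of `Z`
  have hZi : 1 / Z ≤ 100 / 3 * (Nat.totient m : ℝ) / Real.log X := by
    rw [div_le_div_iff₀ hZ0 hlog0]
    have h1 : 3 / 100 * (Real.log X / (Nat.totient m : ℝ)) * (100 / 3 * (Nat.totient m : ℝ)) ≤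
        Z * (100 / 3 * (Nat.totient m : ℝ)) := mul_le_mul_of_nonneg_right hmass (by positivity)
    have h2 : 3 / 100 * (Real.log X / (Nat.totient m : ℝ)) * (100 / 3 * (Nat.totient m : ℝ)) =
        Real.log X := by field_simp
    rw [h2] at h1
    linarith
  have hmem : ∀ l ∈ bs X m a, l.Prime ∧ (l : ℝ) ≤ X ^ (485 / 1000 : ℝ) ∧
      X ^ (445 / 1000 : ℝ) < (l : ℝ) ∧ l % m = a % m ∧
      Irreducible (Polynomial.bernoulli (2 * l)) := by
    intro l hl
    classical
    unfold bs at hl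
    obtain ⟨hl1, h3, h4, h5, h6⟩ := mem_filter.1 hl
    obtain ⟨_, h2⟩ := mem_Icc.1 hl1
    refine ⟨h3, ?_, h4, h5, h6⟩
    exact (Nat.le_floor_iff (by positivity)).1 h2
  have hlX : ∀ l ∈ bs X m a, 0 ≤ Real.log l ∧ Real.log l ≤ Real.log X ∧ (0 : ℝ) < l := by
    intro l hl
    obtain ⟨h1, h2, h3, h4, h5⟩ := hmem l hl
    have h6 : (1 : ℝ) ≤ l := by exact_mod_cast h1.one_lt.le
    refine ⟨Real.log_nonneg h6, Real.log_le_log (by linarith) ?_, by linarith⟩
    refine h2.trans ?_
    calc X ^ (485 / 1000 : ℝ) ≤ X ^ (1 : ℝ) :=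
          Real.rpow_le_rpow_of_exponent_le hX1' (by norm_num)
      _ = X := Real.rpow_one X
  refine ⟨(bs X m a).image (fun l => 2 * l),
    fun e => Real.log ((e : ℝ) / 2) / ((e : ℝ) / 2) / Z, ?_, ?_⟩
  · constructor
    · intro e he
      obtain ⟨l, hl, rfl⟩ := mem_image.1 he
      have h1 := (hmem l hl).2.2.2.1
      rw [hW, Nat.mul_mod_mul_left, h1, Nat.mod_eq_of_lt ham, hca]
    · intro e he
      obtain ⟨l, hl, rfl⟩ := mem_image.1 he
      have h1 := (hmem l hl).2.2.1
      have h2 := (hlX l hl).2.2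
      have h3 : X ^ (44 / 100 : ℝ) ≤ X ^ (445 / 1000 : ℝ) :=
        Real.rpow_le_rpow_of_exponent_le hX1' (by norm_num)
      push_cast
      linarith
    · intro e he
      obtain ⟨l, hl, rfl⟩ := mem_image.1 he
      have h1 := (hmem l hl).2.1
      have h2 : X ^ (49 / 100 : ℝ) = X ^ (1 / 200 : ℝ) * X ^ (485 / 1000 : ℝ) := by
        rw [← Real.rpow_add hX0]
        norm_num
      have h3 : 2 * X ^ (485 / 1000 : ℝ) ≤ X ^ (1 / 200 : ℝ) * X ^ (485 / 1000 : ℝ) :=
        mul_le_mul_of_nonneg_right hB2 (by positivity)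
      rw [h2]
      push_cast
      linarith
    · intro e he
      obtain ⟨l, hl, rfl⟩ := mem_image.1 he
      obtain ⟨h1, h2, h3⟩ := hlX l hl
      show 0 ≤ Real.log (((2 * l : ℕ) : ℝ) / 2) / (((2 * l : ℕ) : ℝ) / 2) / Z
      rw [rb_u]
      positivity
    · intro e he
      obtain ⟨l, hl, rfl⟩ := mem_image.1 he
      obtain ⟨h1, h2, h3⟩ := hlX l hl
      have h4 := (hmem l hl).2.2.1
      show Real.log (((2 * l : ℕ) : ℝ) / 2) / (((2 * l : ℕ) : ℝ) / 2) / Z ≤ _
      rw [rb_u]
      have hp : 0 < X ^ (445 / 1000 : ℝ) := Real.rpow_pos_of_pos hX0 _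
      have h5 : Real.log l / l ≤ Real.log X / X ^ (445 / 1000 : ℝ) :=
        div_le_div₀ hlog0.le h2 hp h4.le
      have h6 : Real.log l / l / Z ≤ Real.log X / X ^ (445 / 1000 : ℝ) *
          (100 / 3 * (Nat.totient m : ℝ) / Real.log X) := by
        rw [div_eq_mul_one_div (Real.log l / l) Z]
        exact mul_le_mul h5 hZi (by positivity) (by positivity)
      refine h6.trans ?_
      have h7 : Real.log X / X ^ (445 / 1000 : ℝ) *
          (100 / 3 * (Nat.totient m : ℝ) / Real.log X) =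
          100 / 3 * (Nat.totient m : ℝ) * (X ^ (445 / 1000 : ℝ))⁻¹ := by
        field_simp
      rw [h7, ← Real.rpow_neg hX0.le]
      have h8 : X ^ (-(44 / 100) : ℝ) = X ^ (1 / 200 : ℝ) * X ^ (-(445 / 1000) : ℝ) := by
        rw [← Real.rpow_add hX0]
        norm_num
      rw [h8]
      exact mul_le_mul_of_nonneg_right hBφ (by positivity)
    · rw [sum_image (fun x _ y _ h => rb_inj h)]
      calc ∑ l ∈ bs X m a, Real.log (((2 * l : ℕ) : ℝ) / 2) / (((2 * l : ℕ) : ℝ) / 2) / Z
          = ∑ l ∈ bs X m a, Real.log l / l / Z := sum_congr rfl fun l _ => rb_u Z l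
        _ = (∑ l ∈ bs X m a, Real.log l / l) / Z := (sum_div _ _ _).symm
        _ = 1 := by
          rw [← hZ]
          exact div_self hZ0.ne'
    · intro g r hg hgW hgX
      have hgodd : Odd g := by
        rw [← Nat.coprime_two_right]
        exact hgW.coprime_dvd_right (by rw [hW]; exact Dvd.intro _ rfl)
      have hgm : Nat.Coprime g m :=
        hgW.coprime_dvd_right (by rw [hW]; exact Dvd.intro_left _ rfl)
      have h1 := hX2 X hXb g r hg hgodd hgm hgX
      have hφg : (0 : ℝ) < (Nat.totient g : ℝ) := by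
        exact_mod_cast Nat.totient_pos.2 (by omega)
      have h2 : ∑ e ∈ ((bs X m a).image (fun l => 2 * l)).filter (fun e => e % g = r),
          Real.log ((e : ℝ) / 2) / ((e : ℝ) / 2) / Z =
          (∑ l ∈ (bs X m a).filter (fun l => (2 * l) % g = r), Real.log l / l) * (1 / Z) := by
        rw [filter_image, sum_image (fun x _ y _ h => rb_inj h), sum_mul]
        refine sum_congr rfl fun l _ => ?_
        rw [rb_u]
        ring
      rw [h2]
      have h3 : 0 ≤ ∑ l ∈ (bs X m a).filter (fun l => (2 * l) % g = r), Real.log l / l :=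
        sum_nonneg fun l hl => by
          obtain ⟨e1, _, e3⟩ := hlX l (mem_filter.1 hl).1
          positivity
      have h4 : (∑ l ∈ (bs X m a).filter (fun l => (2 * l) % g = r), Real.log l / l) * (1 / Z) ≤
          (C * (Real.log X / ((Nat.totient m : ℝ) * (Nat.totient g : ℝ))) +
            X ^ (-(1 / 10) : ℝ)) * (100 / 3 * (Nat.totient m : ℝ) / Real.log X) :=
        mul_le_mul h1 hZi (by positivity) (h3.trans h1)
      refine h4.trans ?_
      rw [add_mul]
      refine add_le_add ?_ ?_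
      · have h5 : C * (Real.log X / ((Nat.totient m : ℝ) * (Nat.totient g : ℝ))) *
            (100 / 3 * (Nat.totient m : ℝ) / Real.log X) =
            100 / 3 * C / (Nat.totient g : ℝ) := by
          field_simp
        rw [h5]
        refine div_le_div_of_nonneg_right ?_ hφg.le
        refine le_trans ?_ (le_max_right _ _)
        linarith
      · have h6 : 100 / 3 * (Nat.totient m : ℝ) / Real.log X ≤ X ^ (4 / 100 : ℝ) := by
          rw [div_le_iff₀ hlog0]
          have h7 : X ^ (1 / 200 : ℝ) ≤ X ^ (4 / 100 : ℝ) :=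
            Real.rpow_le_rpow_of_exponent_le hX1' (by norm_num)
          have h8 : X ^ (4 / 100 : ℝ) * 1 ≤ X ^ (4 / 100 : ℝ) * Real.log X :=
            mul_le_mul_of_nonneg_left hlog (by positivity)
          linarith
        calc X ^ (-(1 / 10) : ℝ) * (100 / 3 * (Nat.totient m : ℝ) / Real.log X)
            ≤ X ^ (-(1 / 10) : ℝ) * X ^ (4 / 100 : ℝ) :=
              mul_le_mul_of_nonneg_left h6 (by positivity)
          _ = X ^ (-(6 / 100) : ℝ) := by
            rw [← Real.rpow_add hX0]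
            norm_num
  · intro e he
    obtain ⟨l, hl, rfl⟩ := mem_image.1 he
    exact (hmem l hl).2.2.2.2

end Pool.Agent.BDN
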