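import Mathlib
import Pool.Agent.BDN.DR
import Pool.Agent.BDN.BL
import Pool.Agent.BDN.RB

/-!
BDN-CLS. Induction over the classes.
-/

namespace Pool.Agent.BDN

open Finset

lemma rich_mono {w e0 : ℕ} {C C' : ℝ} (h : Rich w e0 C) (hC : C ≤ C') : Rich w e0 C' := by
  obtain ⟨X0, hX0⟩ := h
  refine ⟨max X0 1, fun X hX => ?_⟩
  obtain ⟨I, u, hF, hI⟩ := hX0 X ((le_max_left _ _).trans hX)
  refine ⟨I, u, ⟨hF.cls, hF.lo, hF.hi, hF.nonneg, hF.le, hF.sum, fun g r hg hgW hgX => ?_⟩, hI⟩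
  refine (hF.eq g r hg hgW hgX).trans ?_
  have : (0 : ℝ) ≤ Nat.totient g := by positivity
  gcongr

lemma am_mono {W c e0 : ℕ} {μ μ' : ℝ} (h : AM W c e0 μ) (hμ : μ' ≤ μ) : AM W c e0 μ' := by
  intro ε hε
  obtain ⟨y0, hy0⟩ := h ε hε
  refine ⟨y0, fun x y hx hxy hy => ?_⟩
  refine le_trans ?_ (hy0 x y hx hxy hy)
  have h1 : 0 ≤ Real.log y - Real.log x := by
    have := Real.log_le_log (by linarith) hxy
    linarith
  nlinarith

lemma nof_imp {w c : ℕ} {κ κ' : ℝ} {P P' : ℕ → Prop} (h : NoF w c κ P) (hκ : κ ≤ κ')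
    (hP : ∀ n, 0 < n → n % Ww w = c → ∀ D, 1 ≤ D → Fac n D → P' D → P D) : NoF w c κ' P' := by
  classical
  obtain ⟨N0, hN0⟩ := h
  refine ⟨N0, fun N hN => ?_⟩
  refine le_trans ?_ ((hN0 N hN).trans ?_)
  · have : ((NN N (Ww w) c).filter (fun n => ∃ D : ℕ, 1 ≤ D ∧ D ≤ n / 2 ∧ P' D ∧ Fac n D)) ⊆
        ((NN N (Ww w) c).filter (fun n => ∃ D : ℕ, 1 ≤ D ∧ D ≤ n / 2 ∧ P D ∧ Fac n D)) := by
      intro n hn
      rw [mem_filter] at hn ⊢
      obtain ⟨h1, D, h2, h3, h4, h5⟩ := hn
      refine ⟨h1, D, h2, h3, ?_, h5⟩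
      unfold NN at h1
      rw [mem_filter, mem_Ioc] at h1
      exact hP n (by omega) h1.2 D h2 h5 h4
    exact_mod_cast card_le_card (by convert this)
  · have : (0 : ℝ) ≤ (N : ℝ) / (Ww w : ℝ) := by positivity
    exact mul_le_mul_of_nonneg_right hκ this

/-- change a class at one prime -/
lemma exists_adj (w q0 : ℕ) (hq0 : q0.Prime) (c a : ℕ) :
    ∃ e0 : ℕ, e0 < Ww w ∧
      ((Ww w / q0 ^ (Ww w).factorization q0 : ℕ) : ℤ) ∣ (c : ℤ) - e0 ∧
      e0 ≡ a [MOD (q0 ^ (Ww w).factorization q0)] := by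
  have hW := ww_pos w
  have hco : Nat.Coprime (q0 ^ (Ww w).factorization q0) (Ww w / q0 ^ (Ww w).factorization q0) :=
    Nat.Coprime.pow_left _ (Nat.coprime_ordCompl hq0 hW.ne')
  obtain ⟨k, hk1, hk2⟩ := Nat.chineseRemainder hco a c
  have hmul : q0 ^ (Ww w).factorization q0 * (Ww w / q0 ^ (Ww w).factorization q0) = Ww w :=
    Nat.ordProj_mul_ordCompl_eq_self _ _
  have hd1 : q0 ^ (Ww w).factorization q0 ∣ Ww w := ⟨_, hmul.symm⟩
  have hd2 : (Ww w / q0 ^ (Ww w).factorization q0) ∣ Ww w := ⟨q0 ^ (Ww w).factorization q0, by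
    rw [mul_comm]; exact hmul.symm⟩
  have hmod : k % Ww w ≡ k [MOD Ww w] := Nat.mod_modEq _ _
  refine ⟨k % Ww w, Nat.mod_lt _ hW, ?_, (hmod.of_dvd hd1).trans hk1⟩
  have h1 : k % Ww w ≡ c [MOD (Ww w / q0 ^ (Ww w).factorization q0)] := (hmod.of_dvd hd2).trans hk2
  exact (Nat.modEq_iff_dvd).1 h1

lemma adj_modEq {w q0 c e0 m : ℕ} (hq0 : q0.Prime)
    (h : ((Ww w / q0 ^ (Ww w).factorization q0 : ℕ) : ℤ) ∣ (c : ℤ) - e0) (hm : m ∣ Ww w)
    (hco : Nat.Coprime m q0) : e0 ≡ c [MOD m] := by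
  have hmul : q0 ^ (Ww w).factorization q0 * (Ww w / q0 ^ (Ww w).factorization q0) = Ww w :=
    Nat.ordProj_mul_ordCompl_eq_self _ _
  have h1 : m ∣ Ww w / q0 ^ (Ww w).factorization q0 := by
    rw [← hmul] at hm
    exact (Nat.Coprime.pow_right _ hco).dvd_of_dvd_mul_left hm
  have h2 : ((m : ℕ) : ℤ) ∣ (c : ℤ) - e0 := (Int.natCast_dvd_natCast.2 h1).trans h
  exact (Nat.modEq_iff_dvd).2 h2

lemma adj_self {w q0 e0 a i : ℕ} (hq0 : q0.Prime)
    (h : e0 ≡ a [MOD (q0 ^ (Ww w).factorization q0)]) (hi : q0 ^ i ∣ Ww w) :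
    e0 ≡ a [MOD q0 ^ i] := by
  apply h.of_dvd
  apply pow_dvd_pow
  exact (hq0.pow_dvd_iff_le_factorization (ww_pos w).ne').1 hi

lemma dvd_of_class {w c n m : ℕ} (hm : m ∣ Ww w) (hn : n % Ww w = c) (hc : m ∣ c) : m ∣ n := by
  have h1 : n = Ww w * (n / Ww w) + c := by
    rw [← hn]; exact (Nat.div_add_mod _ _).symm
  rw [h1]
  exact dvd_add (hm.mul_right _) hc

/-- the primes `q ≥ 5` dividing the class -/
def PC (w c : ℕ) : Finset ℕ := (Icc 5 w).filter (fun q => q.Prime ∧ q ∣ c)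

theorem good_all (A : ℝ) (hA : ThmA A) : ∃ C6 : ℝ, 0 < C6 ∧ ∃ w1 : ℕ, ∀ w : ℕ, w1 ≤ w →
    ∀ c : ℕ, c < Ww w → Even c → NoF w c (C6 / w) (fun _ => True) := by
  obtain ⟨C3, hC3, h3⟩ := dir A hA
  obtain ⟨C5, hC5, h5⟩ := dtwo
  obtain ⟨C4, hC4, h4⟩ := block
  obtain ⟨CB, hCB, hB⟩ := rich_base
  set K : ℝ := max CB 10 with hK
  have hK10 : 10 ≤ K := le_max_right _ _
  have hKB : CB ≤ K := le_max_left _ _
  have hK1 : 1 ≤ K := by linarith
  set C6 : ℝ := (C3 + C5) * K + C4 with hC6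
  have hC6p : 0 < C6 := by positivity
  refine ⟨C6, hC6p, max 20 ⌈max (10 * C6) (C4 * K)⌉₊, fun w hw => ?_⟩
  have hw20 : 20 ≤ w := le_trans (le_max_left _ _) hw
  have hw2 : 2 ≤ w := by omega
  have hw' : max (10 * C6) (C4 * K) ≤ (w : ℝ) :=
    (Nat.le_ceil _).trans (by exact_mod_cast le_trans (le_max_right _ _) hw)
  have hwC6 : 10 * C6 ≤ w := le_trans (le_max_left _ _) hw'
  have hwC4 : C4 * K ≤ w := le_trans (le_max_right _ _) hw'
  have hwpos : (0 : ℝ) < w := by exact_mod_cast (by omega : 0 < w)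
  have hκ : C6 / w ≤ 1 / 10 := by
    rw [div_le_iff₀ hwpos]; linarith
  have hκ3 : C6 / w ≤ 3 / 10 := by linarith
  have hWpos := ww_pos w
  have hWeven := ww_even w hw2
  -- divisibility of the modulus
  have hd2 : ∀ i ≤ w, 2 ^ i ∣ Ww w := fun i hi =>
    (pow_dvd_pow 2 hi).trans (ww_dvd w 2 (by norm_num) hw2)
  have hd3 : 3 ∣ Ww w := by
    have := ww_dvd w 3 (by norm_num) (by omega)
    exact (dvd_pow_self 3 (by omega)).trans this
  have hdq : ∀ q, 1 ≤ q → q ≤ w → q ∣ Ww w := fun q h1 h2 =>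
    (dvd_pow_self q (by omega)).trans (ww_dvd w q h1 h2)
  have hd4 : 4 ∣ Ww w := by simpa using hd2 2 (by omega)
  have hd8 : 8 ∣ Ww w := by simpa using hd2 3 (by omega)
  have hd22 : 2 ∣ Ww w := by simpa using hd2 1 (by omega)
  -- levels
  have hl3 : ∀ C0 : ℝ, C0 ≤ K → C3 * C0 / w ≤ C3 * K / w := fun C0 h => by gcongr
  have hl5 : ∀ C0 : ℝ, C0 ≤ K → C5 * C0 / w ≤ C5 * K / w := fun C0 h => by gcongr
  have hsum : C3 * K / w + C5 * K / w + C4 / w = C6 / w := by
    rw [hC6]; ring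
  have hp3 : 0 ≤ C3 * K / w := by positivity
  have hp5 : 0 ≤ C5 * K / w := by positivity
  have hp4 : 0 ≤ C4 / w := by positivity
  -- parity of the degrees
  have hpar : ∀ c n D : ℕ, Even c → 0 < n → n % Ww w = c → Fac n D → 2 ∣ D := by
    intro c n D hc hn hnc hF
    have h2n : 2 ∣ n := dvd_of_class hd22 hnc hc.two_dvd
    have := fac_dvd n D 1 0 hn (even_iff_two_dvd.2 h2n) (by simpa using h2n) (by simp) hF
    simpa using this
  have rich10 : ∀ c, c < Ww w → NoF w c (C6 / w) (fun _ => True) → Rich w c 10 := fun c hc h =>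
    rich_of_good w c _ hw2 hc hκ3 h
  -- Step 1
  have step1 : ∀ c, c < Ww w → c % 4 = 2 → (∀ q : ℕ, q.Prime → 3 ≤ q → q ≤ w → ¬ q ∣ c) →
      NoF w c (C6 / w) (fun _ => True) := by
    intro c hc hc4 hq
    have hce : Even c := by rw [Nat.even_iff]; omega
    have hR := hB w hw2 c hc hc4 hq
    have hAM := am_self w c hw20
    have n4 := h3 w 4 CB _ c c hw2 (by norm_num) hCB hc hce hce hAM hR (by norm_num)
    have n2 := h5 w CB _ c c hw2 hCB hc hce hce hAM hR (by norm_num)
    have hu := nof_union w c _ _ _ _ n4 n2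
    refine nof_imp hu ?_ ?_
    · have := hl3 CB hKB
      have := hl5 CB hKB
      linarith
    · intro n hn hnc D hD hF _
      obtain ⟨k, hk⟩ := hpar c n D hce hn hnc hF
      show 4 ≤ D ∨ D = 2
      omega
  -- Step 2
  have step2 : ∀ s : ℕ, ∀ c, c < Ww w → c % 4 = 2 → ¬ 3 ∣ c → (PC w c).card = s →
      NoF w c (C6 / w) (fun _ => True) := by
    intro s
    induction s with
    | zero =>
      intro c hc hc4 hc3 hs
      apply step1 c hc hc4
      intro q hq h3q hqw hqc
      rw [Finset.card_eq_zero] at hs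
      have hq5 : 5 ≤ q := by
        by_contra hcon
        have : q = 3 ∨ q = 4 := by omega
        rcases this with rfl | rfl
        · exact hc3 hqc
        · revert hq; decide
      have : q ∈ PC w c := by
        unfold PC
        rw [mem_filter, mem_Icc]
        exact ⟨⟨hq5, hqw⟩, hq, hqc⟩
      rw [hs] at this
      exact absurd this (Finset.notMem_empty _)
    | succ s ih =>
      intro c hc hc4 hc3 hs
      have hce : Even c := by rw [Nat.even_iff]; omega
      obtain ⟨q0, hq0m⟩ : (PC w c).Nonempty := by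
        rw [← Finset.card_pos, hs]; omega
      have hq0' := hq0m
      unfold PC at hq0'
      rw [mem_filter, mem_Icc] at hq0'
      obtain ⟨⟨hq05, hq0w⟩, hq0, hq0c⟩ := hq0'
      obtain ⟨e0, he0W, hadj, hself⟩ := exists_adj w q0 hq0 c 1
      have hco2 : ∀ i, Nat.Coprime (2 ^ i) q0 := fun i =>
        Nat.Coprime.pow_left _ ((Nat.coprime_primes Nat.prime_two hq0).2 (by omega))
      have he4 : e0 ≡ c [MOD 4] := adj_modEq hq0 hadj hd4 (by simpa using hco2 2)
      have he04 : e0 % 4 = 2 := by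
        have : e0 % 4 = c % 4 := he4
        omega
      have he03 : ¬ 3 ∣ e0 := by
        have : e0 ≡ c [MOD 3] := adj_modEq hq0 hadj hd3
          ((Nat.coprime_primes Nat.prime_three hq0).2 (by omega))
        intro h
        exact hc3 ((this.dvd_iff dvd_rfl).1 h)
      have he0e : Even e0 := by rw [Nat.even_iff]; omega
      have hself1 : e0 ≡ 1 [MOD q0] := by
        have := adj_self (i := 1) hq0 hself (by simpa using hdq q0 (by omega) hq0w)
        simpa using this
      have hPC : PC w e0 = (PC w c).erase q0 := by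
        ext q
        unfold PC
        rw [mem_erase, mem_filter, mem_filter, mem_Icc]
        constructor
        · rintro ⟨⟨h1, h2⟩, h3, h4⟩
          have hne : q ≠ q0 := by
            rintro rfl
            have : q ∣ 1 := (hself1.dvd_iff dvd_rfl).1 h4
            have := Nat.le_of_dvd one_pos this
            omega
          refine ⟨hne, ⟨h1, h2⟩, h3, ?_⟩
          have : e0 ≡ c [MOD q] := adj_modEq hq0 hadj (hdq q (by omega) h2)
            ((Nat.coprime_primes h3 hq0).2 hne)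
          exact (this.dvd_iff dvd_rfl).1 h4
        · rintro ⟨hne, ⟨h1, h2⟩, h3, h4⟩
          refine ⟨⟨h1, h2⟩, h3, ?_⟩
          have : e0 ≡ c [MOD q] := adj_modEq hq0 hadj (hdq q (by omega) h2)
            ((Nat.coprime_primes h3 hq0).2 hne)
          exact (this.dvd_iff dvd_rfl).2 h4
      have hcard : (PC w e0).card = s := by
        rw [hPC, Finset.card_erase_of_mem hq0m, hs]; omega
      have hgood := ih e0 he0W he04 he03 hcard
      have hR := rich10 e0 he0W hgood
      have hAM0 := am_adj w q0 1 c e0 hw20 hq0 le_rfl hadj (by simp)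
      have hφ : (4 : ℝ) ≤ (Nat.totient (q0 ^ 1) : ℝ) := by
        rw [pow_one, Nat.totient_prime hq0]
        have : 4 ≤ q0 - 1 := by omega
        exact_mod_cast this
      have hAM : AM (Ww w) c e0 (3 / 4 - 1 / 1000) := by
        apply am_mono hAM0
        have : 1 / (Nat.totient (q0 ^ 1) : ℝ) ≤ 1 / 4 :=
          one_div_le_one_div_of_le (by norm_num) hφ
        linarith
      have n6 := h3 w 6 10 _ c e0 hw2 (by norm_num) (by norm_num) hc hce he0e hAM hR (by norm_num)
      have n2 := h5 w 10 _ c e0 hw2 (by norm_num) hc hce he0e hAM hR (by norm_num)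
      have hu := nof_union w c _ _ _ _ n6 n2
      have hlev : C3 * 10 / w + C5 * 10 / w ≤ C3 * K / w + C5 * K / w := by
        have := hl3 10 hK10
        have := hl5 10 hK10
        linarith
      have hn4' : NoF w c (C3 * K / w + C5 * K / w) (fun D => D ≠ 4) := by
        refine nof_imp hu hlev ?_
        intro n hn hnc D hD hF hD4
        obtain ⟨k, hk⟩ := hpar c n D hce hn hnc hF
        show 6 ≤ D ∨ D = 2
        have hD4' : D ≠ 4 := hD4
        omega
      have n4 := h4 w 4 10 _ _ c e0 hw20 (by nlinarith) le_rfl (by norm_num) (by norm_num) hc hce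
        he0e hAM hR (by norm_num) (by linarith) hn4'
      have hu2 := nof_union w c _ _ _ _ hn4' n4
      refine nof_imp hu2 (by linarith) ?_
      intro n hn hnc D hD hF _
      show D ≠ 4 ∨ D = 4
      tauto
  -- Step 3
  have step3 : ∀ c, c < Ww w → c % 4 = 2 → NoF w c (C6 / w) (fun _ => True) := by
    intro c hc hc4
    by_cases hc3 : 3 ∣ c
    swap
    · exact step2 _ c hc hc4 hc3 rfl
    have hce : Even c := by rw [Nat.even_iff]; omega
    obtain ⟨e0, he0W, hadj, hself⟩ := exists_adj w 3 Nat.prime_three c 1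
    have he4 : e0 ≡ c [MOD 4] := adj_modEq Nat.prime_three hadj hd4 (by norm_num)
    have he04 : e0 % 4 = 2 := by
      have : e0 % 4 = c % 4 := he4
      omega
    have he0e : Even e0 := by rw [Nat.even_iff]; omega
    have hself1 : e0 ≡ 1 [MOD 3] := by
      have := adj_self (i := 1) Nat.prime_three hself (by simpa using hd3)
      simpa using this
    have he03 : ¬ 3 ∣ e0 := by
      intro h
      have : 3 ∣ 1 := (hself1.dvd_iff dvd_rfl).1 h
      omega
    have hgood := step2 _ e0 he0W he04 he03 rfl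
    have hR := rich10 e0 he0W hgood
    have hAM0 := am_adj w 3 1 c e0 hw20 Nat.prime_three le_rfl hadj (by simp)
    have hAM : AM (Ww w) c e0 (1 / 2 - 1 / 1000) := by
      apply am_mono hAM0
      have : Nat.totient (3 ^ 1) = 2 := by decide
      rw [this]
      norm_num
    have hsix : ∀ n, 0 < n → n % Ww w = c → ∀ D, 1 ≤ D → Fac n D → 6 ∣ D := by
      intro n hn hnc D hD hF
      have h2n : 2 ∣ n := dvd_of_class hd22 hnc hce.two_dvd
      have h3n : 3 ∣ n := dvd_of_class hd3 hnc hc3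
      have := fac_dvd n D 1 1 hn (even_iff_two_dvd.2 h2n) (by simpa using h2n) (by simpa using h3n) hF
      simpa using this
    have n12 := h3 w 12 10 _ c e0 hw2 (by norm_num) (by norm_num) hc hce he0e hAM hR (by norm_num)
    have hn6' : NoF w c (C3 * K / w) (fun D => D ≠ 6) := by
      refine nof_imp n12 (hl3 10 hK10) ?_
      intro n hn hnc D hD hF hD6
      obtain ⟨k, hk⟩ := hsix n hn hnc D hD hF
      show 12 ≤ D
      have hD6' : D ≠ 6 := hD6
      omega
    have n6 := h4 w 6 10 _ _ c e0 hw20 (by nlinarith) (by norm_num) le_rfl (by norm_num) hc hce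
      he0e hAM hR (by norm_num) (by linarith) hn6'
    have hu2 := nof_union w c _ _ _ _ hn6' n6
    refine nof_imp hu2 (by linarith) ?_
    intro n hn hnc D hD hF _
    show D ≠ 6 ∨ D = 6
    tauto
  -- the auxiliary class with `e0 = 2` modulo `4`
  have aux2 : ∀ c, c < Ww w → 4 ∣ c → ∃ e0, e0 < Ww w ∧ Even e0 ∧ Rich w e0 10 ∧
      AM (Ww w) c e0 (1 / 2 - 1 / 1000) := by
    intro c hc hc4
    obtain ⟨e0, he0W, hadj, hself⟩ := exists_adj w 2 Nat.prime_two c 2
    have he4 : e0 ≡ 2 [MOD 4] := by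
      have := adj_self (i := 2) Nat.prime_two hself (hd2 2 (by omega))
      simpa using this
    have he04 : e0 % 4 = 2 := he4
    have he0e : Even e0 := by rw [Nat.even_iff]; omega
    refine ⟨e0, he0W, he0e, rich10 e0 he0W (step3 e0 he0W he04), ?_⟩
    have hAM0 := am_adj w 2 2 c e0 hw20 Nat.prime_two (by norm_num) hadj (by
      have h1 : (2 : ℤ) ∣ (c : ℤ) := by
        have : 2 ∣ c := (by norm_num : 2 ∣ 4).trans hc4
        exact_mod_cast this
      have h2 : (2 : ℤ) ∣ (e0 : ℤ) := by exact_mod_cast he0e.two_dvd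
      simpa using dvd_sub h1 h2)
    apply am_mono hAM0
    have : Nat.totient (2 ^ 2) = 2 := by decide
    rw [this]
    norm_num
  -- Step 4
  have step4 : ∀ c, c < Ww w → 8 ∣ c → NoF w c (C6 / w) (fun _ => True) := by
    intro c hc hc8
    have hce : Even c := even_iff_two_dvd.2 ((by norm_num : 2 ∣ 8).trans hc8)
    obtain ⟨e0, he0W, he0e, hR, hAM⟩ := aux2 c hc ((by norm_num : 4 ∣ 8).trans hc8)
    have n8 := h3 w 8 10 _ c e0 hw2 (by norm_num) (by norm_num) hc hce he0e hAM hR (by norm_num)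
    refine nof_imp n8 ((hl3 10 hK10).trans (by linarith)) ?_
    intro n hn hnc D hD hF _
    have h8n : 8 ∣ n := dvd_of_class hd8 hnc hc8
    have := fac_dvd n D 3 0 hn (even_iff_two_dvd.2 ((by norm_num : 2 ∣ 8).trans h8n))
      (by simpa using h8n) (by simp) hF
    have h8D : 8 ∣ D := by simpa using this
    exact Nat.le_of_dvd (by omega) h8D
  -- Step 5
  have step5 : ∀ c, c < Ww w → c % 8 = 4 → NoF w c (C6 / w) (fun _ => True) := by
    intro c hc hc8
    have hc4 : 4 ∣ c := by omega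
    have hce : Even c := even_iff_two_dvd.2 ((by norm_num : 2 ∣ 4).trans hc4)
    obtain ⟨e0, he0W, he0e, hR, hAM⟩ := aux2 c hc hc4
    have n8 := h3 w 8 10 _ c e0 hw2 (by norm_num) (by norm_num) hc hce he0e hAM hR (by norm_num)
    have hfour : ∀ n, 0 < n → n % Ww w = c → ∀ D, 1 ≤ D → Fac n D → 4 ∣ D := by
      intro n hn hnc D hD hF
      have h4n : 4 ∣ n := dvd_of_class hd4 hnc hc4
      have := fac_dvd n D 2 0 hn (even_iff_two_dvd.2 ((by norm_num : 2 ∣ 4).trans h4n))
        (by simpa using h4n) (by simp) hF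
      simpa using this
    have hn4' : NoF w c (C3 * K / w) (fun D => D ≠ 4) := by
      refine nof_imp n8 (hl3 10 hK10) ?_
      intro n hn hnc D hD hF hD4
      obtain ⟨k, hk⟩ := hfour n hn hnc D hD hF
      show 8 ≤ D
      have hD4' : D ≠ 4 := hD4
      omega
    obtain ⟨e1, he1W, hadj1, hself1⟩ := exists_adj w 2 Nat.prime_two c 0
    have he8 : e1 ≡ 0 [MOD 8] := by
      have := adj_self (i := 3) Nat.prime_two hself1 (hd2 3 (by omega))
      simpa using this
    have he18 : 8 ∣ e1 := Nat.modEq_zero_iff_dvd.1 he8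
    have he1e : Even e1 := even_iff_two_dvd.2 ((by norm_num : 2 ∣ 8).trans he18)
    have hR1 := rich10 e1 he1W (step4 e1 he1W he18)
    have hAM1 := am_adj w 2 3 c e1 hw20 Nat.prime_two (by norm_num) hadj1 (by
      have h1 : (4 : ℤ) ∣ (c : ℤ) := by exact_mod_cast hc4
      have h2 : (4 : ℤ) ∣ (e1 : ℤ) := by
        have : 4 ∣ e1 := (by norm_num : 4 ∣ 8).trans he18
        exact_mod_cast this
      simpa using dvd_sub h1 h2)
    have hAM1' : AM (Ww w) c e1 (3 / 4 - 1 / 1000) := by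
      apply am_mono hAM1
      have : Nat.totient (2 ^ 3) = 4 := by decide
      rw [this]
      norm_num
    have n4 := h4 w 4 10 _ _ c e1 hw20 (by nlinarith) le_rfl (by norm_num) (by norm_num) hc hce
      he1e hAM1' hR1 (by norm_num) (by linarith) hn4'
    have hu2 := nof_union w c _ _ _ _ hn4' n4
    refine nof_imp hu2 (by linarith) ?_
    intro n hn hnc D hD hF _
    show D ≠ 4 ∨ D = 4
    tauto
  intro c hc hce
  rw [Nat.even_iff] at hce
  rcases (by omega : c % 4 = 2 ∨ c % 8 = 0 ∨ c % 8 = 4) with h | h | h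
  · exact step3 c hc h
  · exact step4 c hc (Nat.dvd_of_mod_eq_zero h)
  · exact step5 c hc h

end Pool.Agent.BDN
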