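import Mathlib
import Pool.Agent.BDN.CLS
import Pool.Agent.BDN.AD

/-!
BDN-FIN. Almost all Bernoulli polynomials of even index are irreducible, given Theorem A.
-/

namespace Pool.Agent.BDN

open Finset

open Classical in
theorem almost_all_of (A : ℝ) (hA : ThmA A) (ε : ℝ) (hε : 0 < ε) : ∃ x0 : ℕ, ∀ x : ℕ, x0 ≤ x →
    (((Icc 1 x).filter (fun n => Even n ∧ ¬ Irreducible (Polynomial.bernoulli n))).card : ℝ) ≤
      ε * x := by
  obtain ⟨C6, hC6, w1, hw1⟩ := good_all A hA
  -- choose `w`
  obtain ⟨w, hw, hwε⟩ : ∃ w : ℕ, max w1 2 ≤ w ∧ 4 * C6 / ε ≤ w :=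
    ⟨max (max w1 2) ⌈4 * C6 / ε⌉₊, le_max_left _ _,
      (Nat.le_ceil _).trans (by exact_mod_cast le_max_right _ _)⟩
  have hww1 : w1 ≤ w := (le_max_left _ _).trans hw
  have hw2 : 2 ≤ w := (le_max_right _ _).trans hw
  have hwpos : (0 : ℝ) < w := by exact_mod_cast (by omega : 0 < w)
  have hW := ww_pos w
  have hWr : (0 : ℝ) < (Ww w : ℝ) := by exact_mod_cast hW
  have hlev : C6 / w ≤ ε / 4 := by
    rw [div_le_iff₀ hwpos]
    rw [div_le_iff₀ hε] at hwε
    linarith
  have hWe := ww_even w hw2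
  choose! N0 hN0 using hw1 w hww1
  -- a uniform threshold
  set M0 : ℕ := ∑ c ∈ range (Ww w), N0 c with hM0
  have hle : ∀ c < Ww w, N0 c ≤ M0 := fun c hc =>
    Finset.single_le_sum (f := N0) (fun i _ => Nat.zero_le _) (mem_range.2 hc)
  set B : ℕ → Finset ℕ := fun N => (Ioc (N / 2) N).filter
    (fun n => Even n ∧ ¬ Irreducible (Polynomial.bernoulli n)) with hB
  have hblock : ∀ N, M0 ≤ N → ((B N).card : ℝ) ≤ ε / 4 * N := by
    intro N hN
    have hsub : B N ⊆ ((range (Ww w)).filter (fun c => Even c)).biUnion (fun c =>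
        (NN N (Ww w) c).filter (fun n => ∃ D : ℕ, 1 ≤ D ∧ D ≤ n / 2 ∧ True ∧ Fac n D)) := by
      intro n hn
      rw [hB, mem_filter, mem_Ioc] at hn
      obtain ⟨⟨h1, h2⟩, h3, h4⟩ := hn
      rw [mem_biUnion]
      refine ⟨n % Ww w, ?_, ?_⟩
      · rw [mem_filter, mem_range]
        refine ⟨Nat.mod_lt _ hW, ?_⟩
        rw [even_iff_two_dvd] at h3 hWe ⊢
        exact (Nat.dvd_mod_iff hWe).2 h3
      · rw [mem_filter]
        refine ⟨?_, ?_⟩
        · unfold NN
          rw [mem_filter, mem_Ioc]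
          exact ⟨⟨h1, h2⟩, rfl⟩
        · obtain ⟨D, hD1, hD2, hD3⟩ := (irr_iff n (by omega)).1 h4
          exact ⟨D, hD1, hD2, trivial, hD3⟩
    have h1 : ((B N).card : ℝ) ≤ ∑ c ∈ (range (Ww w)).filter (fun c => Even c),
        (((NN N (Ww w) c).filter
          (fun n => ∃ D : ℕ, 1 ≤ D ∧ D ≤ n / 2 ∧ True ∧ Fac n D)).card : ℝ) := by
      exact_mod_cast (card_le_card hsub).trans card_biUnion_le
    refine h1.trans ?_
    have h2 : ∀ c ∈ (range (Ww w)).filter (fun c => Even c),
        (((NN N (Ww w) c).filter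
          (fun n => ∃ D : ℕ, 1 ≤ D ∧ D ≤ n / 2 ∧ True ∧ Fac n D)).card : ℝ) ≤
          ε / 4 * (N / Ww w) := by
      intro c hc
      rw [mem_filter, mem_range] at hc
      have h3 := hN0 c hc.1 hc.2 N ((hle c hc.1).trans hN)
      have h4 : (0 : ℝ) ≤ (N : ℝ) / (Ww w : ℝ) := by positivity
      refine le_trans ?_ (h3.trans (mul_le_mul_of_nonneg_right hlev h4))
      apply le_of_eq
      congr
    refine (Finset.sum_le_card_nsmul _ _ _ h2).trans ?_
    rw [nsmul_eq_mul]
    have h5 : (((range (Ww w)).filter (fun c => Even c)).card : ℝ) ≤ (Ww w : ℝ) := by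
      have := card_filter_le (range (Ww w)) (fun c => Even c)
      rw [card_range] at this
      exact_mod_cast this
    have h6 : (0 : ℝ) ≤ ε / 4 * ((N : ℝ) / (Ww w : ℝ)) := by positivity
    refine (mul_le_mul_of_nonneg_right h5 h6).trans (le_of_eq ?_)
    field_simp
  -- dyadic sum
  set F : ℕ → Finset ℕ := fun x => (Icc 1 x).filter
    (fun n => Even n ∧ ¬ Irreducible (Polynomial.bernoulli n)) with hF
  have hsplit : ∀ x : ℕ, 1 ≤ x → (F x).card ≤ (F (x / 2)).card + (B x).card := by
    intro x hx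
    have : F x ⊆ F (x / 2) ∪ B x := by
      intro n hn
      rw [hF, mem_filter, mem_Icc] at hn
      rw [mem_union, hF, hB]
      simp only [mem_filter, mem_Icc, mem_Ioc]
      rcases le_or_gt n (x / 2) with h | h
      · left; exact ⟨⟨hn.1.1, h⟩, hn.2⟩
      · right; exact ⟨⟨h, hn.1.2⟩, hn.2⟩
    exact (card_le_card this).trans (card_union_le _ _)
  have hall : ∀ x : ℕ, ((F x).card : ℝ) ≤ M0 + ε / 2 * x := by
    intro x
    induction x using Nat.strong_induction_on with
    | _ x ih =>
      rcases Nat.lt_or_ge x (max M0 1) with hx | hx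
      · have h1 : (F x).card ≤ x := by
          refine (card_filter_le _ _).trans ?_
          rw [Nat.card_Icc]; omega
        have h2 : x ≤ M0 := by
          rcases le_max_iff.1 (Nat.le_of_lt hx) with h | h
          · exact h
          · rcases Nat.eq_zero_or_pos x with h0 | h0
            · omega
            · have : x = 1 := by omega
              rw [this] at hx
              have := lt_max_iff.1 hx
              omega
        have h3 : ((F x).card : ℝ) ≤ M0 := by exact_mod_cast h1.trans h2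
        have h4 : 0 ≤ ε / 2 * (x : ℝ) := by positivity
        linarith
      · have hx1 : 1 ≤ x := (le_max_right _ _).trans hx
        have hxM : M0 ≤ x := (le_max_left _ _).trans hx
        have h1 := ih (x / 2) (by omega)
        have h2 : ((F x).card : ℝ) ≤ (F (x / 2)).card + (B x).card := by
          exact_mod_cast hsplit x hx1
        have h3 := hblock x hxM
        have h4 : ((x / 2 : ℕ) : ℝ) ≤ x / 2 := by
          have := Nat.cast_div_le (α := ℝ) (m := x) (n := 2)
          simpa using this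
        have h5 : ε / 2 * ((x / 2 : ℕ) : ℝ) ≤ ε / 2 * (x / 2) := by
          apply mul_le_mul_of_nonneg_left h4; positivity
        linarith
  refine ⟨⌈2 * (M0 : ℝ) / ε⌉₊, fun x hx => ?_⟩
  have h1 := hall x
  have h2 : 2 * (M0 : ℝ) / ε ≤ x := (Nat.le_ceil _).trans (by exact_mod_cast hx)
  rw [div_le_iff₀ hε] at h2
  have h3 : ((F x).card : ℝ) ≤ ε * x := by linarith
  exact h3

end Pool.Agent.BDN
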